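import Pool.Agent.Lib_helper23.TILF.Layers

/-!
A general criterion: if, for all `K`, there is a bound `S` such that for all `D` there are `d ≠ 0`
and at most `S` integers `B` with `B + d j ∈ E \ {0}` for `|j| ≤ D`, one of which lies in every Bohr
set of rank `K` and width `1 / (K + 1)`, then `E` does not have the automatic continuity property.
-/

noncomputable section

namespace Pool.Agent.Lib_helper23.TILF

open MeasureTheory AddCircle Topology Finset
open Pool.Agent.Lib_helper87.Tilf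

/-- The criterion. -/
def Criterion (E : Set ℤ) : Prop :=
  ∀ K : ℕ, ∃ S : ℕ, ∀ D : ℕ, ∃ d : ℤ, d ≠ 0 ∧ ∃ B : Finset ℤ, B.card ≤ S ∧
    (∀ k ∈ B, ∀ j : ℤ, |j| ≤ D → k + d * j ∈ E ∧ k + d * j ≠ 0) ∧
    ∀ b : Fin K → UnitAddCircle, ∃ k ∈ B, ∀ i, ‖k • b i‖ ≤ 1 / ((K : ℝ) + 1)

theorem norm_fourier_sub_one_le (θ : UnitAddCircle) : ‖(fourier 1 θ : ℂ) - 1‖ ≤ 2 * Real.pi * ‖θ‖ := by
  obtain ⟨x, rfl⟩ := QuotientAddGroup.mk_surjective θ
  have hperiod : ((x - round x : ℝ) : UnitAddCircle) = (x : UnitAddCircle) := by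
    rw [AddCircle.coe_sub]
    have : ((round x : ℝ) : UnitAddCircle) = 0 := by
      rw [AddCircle.coe_eq_zero_iff]
      exact ⟨round x, by simp⟩
    rw [this, sub_zero]
  set y : ℝ := x - round x with hy
  have hyabs : |y| ≤ 1 / 2 := abs_sub_round x
  have hgoal : ‖(fourier 1 (y : UnitAddCircle) : ℂ) - 1‖ ≤ 2 * Real.pi * ‖(y : UnitAddCircle)‖ := by
    have hn : ‖(y : UnitAddCircle)‖ = |y| := by
      rw [AddCircle.norm_coe_eq_abs_iff (1 : ℝ) one_ne_zero, abs_one]
      exact hyabs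
    rw [hn, fourier_coe_apply]
    have h1 : Complex.exp (2 * Real.pi * Complex.I * ((1 : ℤ) : ℂ) * (y : ℂ) / ((1 : ℝ) : ℂ))
        = Complex.exp (Complex.I * ((2 * Real.pi * y : ℝ) : ℂ)) := by
      congr 1; push_cast; ring
    rw [h1]
    refine Real.norm_exp_I_mul_ofReal_sub_one_le.trans ?_
    rw [Real.norm_eq_abs, abs_mul, abs_mul, abs_two, abs_of_pos Real.pi_pos]
  rw [hperiod] at hgoal
  exact hgoal

theorem fourier_add_arg (k : ℤ) (x y : UnitAddCircle) :
    (fourier k (x + y) : ℂ) = fourier k x * fourier k y := by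
  rw [fourier_apply, fourier_apply, fourier_apply, smul_add, toCircle_add, Circle.coe_mul]

theorem norm_fourier_all (k : ℤ) (x : UnitAddCircle) : ‖(fourier k x : ℂ)‖ = 1 := by
  rw [fourier_apply]; exact Circle.norm_coe _

theorem fourier_shift (k : ℤ) (x p : UnitAddCircle) :
    ‖(fourier k (x - p) : ℂ) - fourier k x‖ ≤ 2 * Real.pi * ‖k • p‖ := by
  have h1 : (fourier k (x - p) : ℂ) - fourier k x = fourier k x * (fourier 1 (-(k • p)) - 1) := by
    rw [sub_eq_add_neg x p, fourier_add_arg, fourier_mul_index k (-p), smul_neg, mul_sub, mul_one]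
  rw [h1, norm_mul, norm_fourier_all, one_mul]
  refine (norm_fourier_sub_one_le _).trans ?_
  rw [norm_neg]

/-- Composition with the multiplication by `d`. -/
def dil (d : ℤ) (g : C(UnitAddCircle, ℂ)) : C(UnitAddCircle, ℂ) where
  toFun x := g (d • x)
  continuous_toFun := g.continuous.comp (continuous_zsmul d)

theorem dil_apply (d : ℤ) (g : C(UnitAddCircle, ℂ)) (x : UnitAddCircle) : dil d g x = g (d • x) := rfl

/-- Trigonometric polynomials close to a given function. -/
theorem exists_trig (g : C(UnitAddCircle, ℂ)) {ε : ℝ} (hε : 0 < ε) :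
    ∃ (c : ℤ →₀ ℂ), ∀ x, ‖(∑ j ∈ c.support, c j * fourier j x) - g x‖ < ε := by
  have h1 : g ∈ (Submodule.span ℂ (Set.range (@fourier (1 : ℝ)))).topologicalClosure := by
    rw [span_fourier_closure_eq_top]; trivial
  have h2 : g ∈ closure ((Submodule.span ℂ (Set.range (@fourier (1 : ℝ))) : Set C(UnitAddCircle, ℂ))) := h1
  obtain ⟨p, hp, hpg⟩ := Metric.mem_closure_iff.1 h2 ε hε
  obtain ⟨c, hc⟩ := (Finsupp.mem_span_range_iff_exists_finsupp).1 hp
  refine ⟨c, fun x => ?_⟩
  have h3 : (∑ j ∈ c.support, c j * fourier j x) = p x := by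
    rw [← hc, Finsupp.sum, ContinuousMap.sum_apply]
    refine Finset.sum_congr rfl fun j _ => ?_
    rw [ContinuousMap.smul_apply, smul_eq_mul]
  rw [h3]
  have h4 : ‖(p - g) x‖ ≤ ‖p - g‖ := ContinuousMap.norm_coe_le_norm _ x
  rw [ContinuousMap.sub_apply] at h4
  refine lt_of_le_of_lt h4 ?_
  rw [← dist_eq_norm, dist_comm]
  exact hpg

theorem smul_pts {n R : ℕ} (d : ℤ) (a b : Fin n → UnitAddCircle) (m m' : Fin n → Fin R) :
    d • pts a b m m' = pts (fun i => d • a i) (fun i => d • b i) m m' := by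
  unfold pts
  rw [smul_add, Finset.smul_sum, Finset.smul_sum]
  congr 1
  · exact Finset.sum_congr rfl fun i _ => smul_comm _ _ _
  · exact Finset.sum_congr rfl fun i _ => smul_comm _ _ _

theorem norm_pts_le {n R : ℕ} {η : ℝ} (hη : 0 ≤ η) (a b : Fin n → UnitAddCircle)
    (ha : ∀ i, ‖a i‖ ≤ η) (hb : ∀ i, ‖b i‖ ≤ η) (m m' : Fin n → Fin R) :
    ‖pts a b m m'‖ ≤ 2 * n * R * η := by
  have h : ∀ (c : Fin n → UnitAddCircle), (∀ i, ‖c i‖ ≤ η) → ∀ l : Fin n → Fin R,
      ‖∑ i, ((l i : ℕ)) • c i‖ ≤ n * (R * η) := by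
    intro c hc l
    refine (norm_sum_le _ _).trans ?_
    calc ∑ i, ‖((l i : ℕ)) • c i‖ ≤ ∑ _i : Fin n, (R : ℝ) * η := by
          refine Finset.sum_le_sum fun i _ => ?_
          refine (norm_nsmul_le).trans ?_
          have h1 : ((l i : ℕ) : ℝ) ≤ R := by exact_mod_cast (l i).2.le
          exact mul_le_mul h1 (hc i) (norm_nonneg _) (Nat.cast_nonneg _)
      _ = n * (R * η) := by rw [Finset.sum_const, Finset.card_univ, Fintype.card_fin, nsmul_eq_mul]
  unfold pts
  refine (norm_add_le _ _).trans ?_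
  have h1 := h a ha m
  have h2 := h b hb m'
  linarith

/-- The bad functions. -/
theorem exists_bad_function {E : Set ℤ} (hE : Criterion E) (R n : ℕ) (hR : 1 ≤ R) :
    ∃ h ∈ CE (E \ {0}), ‖h‖ ≤ 3 ∧
      ∀ a b : Fin n → UnitAddCircle, 3 / 4 ≤ ‖av R n a (av R n b h)‖ := by
  set K : ℕ := 2 * n + 128 * n * R with hK
  obtain ⟨S, hS⟩ := hE K
  obtain ⟨u, hu0, hu1, hU⟩ := exists_layers n R S
  have hε : (0 : ℝ) < 1 / (16 * ((S : ℝ) + 1)) := by positivity
  -- the trigonometric polynomials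
  have hap : ∀ s : Fin S, ∃ c : ℤ →₀ ℂ, ∀ x : UnitAddCircle,
      ‖(∑ j ∈ c.support, c j * fourier j x) - (u s x : ℂ)‖ < 1 / (16 * ((S : ℝ) + 1)) := by
    intro s
    exact exists_trig ⟨fun x => ((u s x : ℝ) : ℂ), Complex.continuous_ofReal.comp (u s).continuous⟩ hε
  choose c hc using hap
  set g : Fin S → UnitAddCircle → ℂ := fun s x => ∑ j ∈ (c s).support, c s j * fourier j x with hg
  set D : ℕ := Finset.univ.sup (fun s : Fin S => (c s).support.sup Int.natAbs) with hD
  have hDle : ∀ s : Fin S, ∀ j ∈ (c s).support, |j| ≤ (D : ℤ) := by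
    intro s j hj
    rw [Int.abs_eq_natAbs]
    have h1 : j.natAbs ≤ (c s).support.sup Int.natAbs := Finset.le_sup (f := Int.natAbs) hj
    have h2 : (c s).support.sup Int.natAbs ≤ D :=
      Finset.le_sup (f := fun s : Fin S => (c s).support.sup Int.natAbs) (Finset.mem_univ s)
    exact_mod_cast h1.trans h2
  obtain ⟨d, hd, B, hBS, hBE, hBb⟩ := hS D
  obtain ⟨ι⟩ : Nonempty (B ↪ Fin S) := by
    apply Function.Embedding.nonempty_of_card_le
    rw [Fintype.card_coe, Fintype.card_fin]
    exact hBS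
  set h : C(UnitAddCircle, ℂ) := ∑ k : B, ∑ j ∈ (c (ι k)).support,
    c (ι k) j • (fourier ((k : ℤ) + d * j) : C(UnitAddCircle, ℂ)) with hh
  have hval : ∀ x, h x = ∑ k : B, fourier (k : ℤ) x * g (ι k) (d • x) := by
    intro x
    rw [hh, ContinuousMap.sum_apply]
    refine Finset.sum_congr rfl fun k _ => ?_
    rw [ContinuousMap.sum_apply, hg, Finset.mul_sum]
    refine Finset.sum_congr rfl fun j _ => ?_
    rw [ContinuousMap.smul_apply, smul_eq_mul]
    have h1 : (fourier ((k : ℤ) + d * j) x : ℂ) = fourier (k : ℤ) x * fourier j (d • x) := by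
      rw [fourier_add]
      congr 1
      rw [fourier_apply, fourier_apply, mul_comm d j, mul_smul]
    rw [h1]
    ring
  have hgle : ∀ s x, ‖g s x‖ ≤ u s x + 1 / (16 * ((S : ℝ) + 1)) := by
    intro s x
    have h1 := (hc s x).le
    have h2 : ‖((u s x : ℝ) : ℂ)‖ = u s x := by
      rw [Complex.norm_real, Real.norm_eq_abs, abs_of_nonneg (hu0 s x)]
    calc ‖g s x‖ = ‖(g s x - (u s x : ℂ)) + (u s x : ℂ)‖ := by rw [sub_add_cancel]
      _ ≤ ‖g s x - (u s x : ℂ)‖ + ‖((u s x : ℝ) : ℂ)‖ := norm_add_le _ _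
      _ ≤ _ := by rw [h2]; linarith
  have hcardB : (Fintype.card B : ℝ) ≤ S := by
    rw [Fintype.card_coe]; exact_mod_cast hBS
  have hsumε : ∑ _k : B, (1 / (16 * ((S : ℝ) + 1))) ≤ 1 / 16 := by
    rw [Finset.sum_const, Finset.card_univ, nsmul_eq_mul, mul_one_div,
      div_le_div_iff₀ (by positivity) (by norm_num)]
    linarith
  refine ⟨h, ?_, ?_, ?_⟩
  · rw [mem_CE]
    intro k hk
    rw [hh, map_sum]
    refine Finset.sum_eq_zero fun k' _ => ?_
    rw [map_sum]
    refine Finset.sum_eq_zero fun j hj => ?_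
    rw [map_smul, coeffL_fourier, smul_eq_mul, if_neg, mul_zero]
    rintro rfl
    exact hk (hBE k' k'.2 j (hDle _ j hj))
  · rw [ContinuousMap.norm_le _ (by norm_num)]
    intro x
    rw [hval]
    refine (norm_sum_le _ _).trans ?_
    have h1 : ∀ k ∈ (Finset.univ : Finset B), ‖(fourier (k : ℤ) x : ℂ) * g (ι k) (d • x)‖ ≤
        u (ι k) (d • x) + 1 / (16 * ((S : ℝ) + 1)) := by
      intro k _
      rw [norm_mul, norm_fourier_all, one_mul]
      exact hgle _ _
    refine (Finset.sum_le_sum h1).trans ?_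
    rw [Finset.sum_add_distrib]
    have h2 : ∑ k : B, u (ι k) (d • x) ≤ 1 := by
      have h3 : ∑ k : B, u (ι k) (d • x) = ∑ s ∈ Finset.univ.map ι, u s (d • x) := by
        rw [Finset.sum_map]
      rw [h3]
      exact (Finset.sum_le_sum_of_subset_of_nonneg (Finset.subset_univ _)
        (fun s _ _ => hu0 s _)).trans (hu1 _)
    linarith
  · intro a b
    -- choice of `k`
    obtain ⟨k, hkB, hk⟩ := hBb (fun i => if h1 : (i : ℕ) < n then a ⟨i, h1⟩ else
      if h2 : (i : ℕ) - n < n then b ⟨(i : ℕ) - n, h2⟩ else 0)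
    have hka : ∀ i, ‖k • a i‖ ≤ 1 / ((K : ℝ) + 1) := by
      intro i
      have h1 := hk ⟨i, by have := i.2; omega⟩
      simpa using h1
    have hkb : ∀ i, ‖k • b i‖ ≤ 1 / ((K : ℝ) + 1) := by
      intro i
      have h1 := hk ⟨n + i, by have := i.2; omega⟩
      simpa using h1
    set s : Fin S := ι ⟨k, hkB⟩ with hs
    obtain ⟨y, hy⟩ := hU s (fun i => d • a i) (fun i => d • b i)
    obtain ⟨x, hx⟩ := exists_zsmul_eq hd y
    have hpt : ∀ m m' : Fin n → Fin R, d • (x - pts a b m m') =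
        y - pts (fun i => d • a i) (fun i => d • b i) m m' := by
      intro m m'
      rw [smul_sub, hx, smul_pts]
    have hone : ∀ m m' : Fin n → Fin R, u s (d • (x - pts a b m m')) = 1 := by
      intro m m'
      rw [hpt]
      exact hy m m'
    have hoth : ∀ m m' : Fin n → Fin R, ∀ t : Fin S, t ≠ s → u t (d • (x - pts a b m m')) = 0 := by
      intro m m' t ht
      have h1 := hu1 (d • (x - pts a b m m'))
      rw [← Finset.add_sum_erase _ _ (Finset.mem_univ s), hone] at h1
      have h2 : u t (d • (x - pts a b m m')) ≤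
          ∑ t ∈ Finset.univ.erase s, u t (d • (x - pts a b m m')) :=
        Finset.single_le_sum (f := fun t => u t (d • (x - pts a b m m'))) (fun t _ => hu0 t _)
          (Finset.mem_erase.2 ⟨ht, Finset.mem_univ t⟩)
      have h3 := hu0 t (d • (x - pts a b m m'))
      linarith
    have key : ∀ m m' : Fin n → Fin R, ‖h (x - pts a b m m') - fourier k x‖ ≤ 1 / 4 := by
      intro m m'
      rw [hval, ← Finset.add_sum_erase _ _ (Finset.mem_univ (⟨k, hkB⟩ : B))]
      have h1 : ‖(fourier k (x - pts a b m m') : ℂ) * g s (d • (x - pts a b m m')) -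
          fourier k (x - pts a b m m')‖ ≤ 1 / 16 := by
        have h2 : (fourier k (x - pts a b m m') : ℂ) * g s (d • (x - pts a b m m')) -
          fourier k (x - pts a b m m') = fourier k (x - pts a b m m') *
            (g s (d • (x - pts a b m m')) - 1) := by ring
        rw [h2, norm_mul, norm_fourier_all, one_mul]
        have h3 := (hc s (d • (x - pts a b m m'))).le
        rw [hone, Complex.ofReal_one] at h3
        refine h3.trans ?_
        apply one_div_le_one_div_of_le (by norm_num)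
        have : (0 : ℝ) ≤ S := Nat.cast_nonneg _
        linarith
      have h2 : ‖∑ k' ∈ Finset.univ.erase (⟨k, hkB⟩ : B),
          (fourier (k' : ℤ) (x - pts a b m m') : ℂ) * g (ι k') (d • (x - pts a b m m'))‖ ≤ 1 / 16 := by
        refine (norm_sum_le _ _).trans ?_
        refine le_trans ?_ hsumε
        refine le_trans ?_ (Finset.sum_le_sum_of_subset_of_nonneg
          (Finset.erase_subset (⟨k, hkB⟩ : B) Finset.univ) (fun _ _ _ => hε.le))
        refine Finset.sum_le_sum fun k' hk' => ?_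
        rw [norm_mul, norm_fourier_all, one_mul]
        refine (hgle _ _).trans ?_
        rw [hoth m m' (ι k') ?_, zero_add]
        intro he
        exact (Finset.mem_erase.1 hk').1 (ι.injective he)
      have h3 : ‖(fourier k (x - pts a b m m') : ℂ) - fourier k x‖ ≤ 1 / 8 := by
        refine (fourier_shift _ _ _).trans ?_
        rw [smul_pts]
        have h4 := norm_pts_le (R := R) (by positivity : (0 : ℝ) ≤ 1 / ((K : ℝ) + 1))
          (fun i => k • a i) (fun i => k • b i) hka hkb m m'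
        have h5 : 2 * (n : ℝ) * R * (1 / ((K : ℝ) + 1)) ≤ 1 / 64 := by
          rw [mul_one_div, div_le_div_iff₀ (by positivity) (by norm_num)]
          have : (K : ℝ) = 2 * n + 128 * n * R := by rw [hK]; push_cast; ring
          rw [this]
          have : (0 : ℝ) ≤ n := Nat.cast_nonneg _
          nlinarith
        have h6 := Real.pi_le_four
        have h7 := Real.pi_pos
        nlinarith [norm_nonneg (pts (fun i => k • a i) (fun i => k • b i) m m')]
      have h4 : (fourier k (x - pts a b m m') : ℂ) * g s (d • (x - pts a b m m')) +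
          (∑ k' ∈ Finset.univ.erase (⟨k, hkB⟩ : B),
          (fourier (k' : ℤ) (x - pts a b m m') : ℂ) * g (ι k') (d • (x - pts a b m m'))) -
          fourier k x =
          ((fourier k (x - pts a b m m') : ℂ) * g s (d • (x - pts a b m m')) -
          fourier k (x - pts a b m m')) + (∑ k' ∈ Finset.univ.erase (⟨k, hkB⟩ : B),
          (fourier (k' : ℤ) (x - pts a b m m') : ℂ) * g (ι k') (d • (x - pts a b m m'))) +
          ((fourier k (x - pts a b m m') : ℂ) - fourier k x) := by ring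
      refine (le_of_eq (congrArg _ h4)).trans ?_
      refine (norm_add₃_le).trans ?_
      linarith
    have h1 : ‖av R n a (av R n b h) x - fourier k x‖ ≤ 1 / 4 := by
      apply av_eval hR
      intro m
      apply av_eval hR
      intro m'
      have h2 := key m m'
      unfold pts at h2
      rw [← sub_sub] at h2
      exact h2
    have h2 : ‖av R n a (av R n b h) x‖ ≤ ‖av R n a (av R n b h)‖ :=
      ContinuousMap.norm_coe_le_norm _ x
    have h3 := norm_sub_norm_le (fourier k x : ℂ) (fourier k x - av R n a (av R n b h) x)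
    rw [sub_sub_cancel, norm_fourier_all, norm_sub_rev] at h3
    linarith

/-- **The criterion.** -/
theorem not_automaticContinuity_of_bad {E : Set ℤ}
    (hbad : ∀ R n : ℕ, 1 ≤ R → ∃ h ∈ CE (E \ {0}), ‖h‖ ≤ 3 ∧
      ∀ a b : Fin n → UnitAddCircle, 3 / 4 ≤ ‖av R n a (av R n b h)‖) :
    ¬ AutomaticContinuity E := by
  intro hAC
  have hcov : ⋃ n, GSet E n = Set.univ := by
    rw [Set.eq_univ_iff_forall]
    intro f
    have hfE : f.1 ∈ CE E := by
      intro k hk
      exact f.2 k (fun h => hk h.1)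
    have hf0 : coeffL 0 f.1 = 0 := f.2 0 (fun h => h.2 rfl)
    obtain ⟨n, hn⟩ := mem_GSet_of_span f ⟨f.1, hfE⟩ rfl (mem_span_differences hAC ⟨f.1, hfE⟩ hf0)
    exact Set.mem_iUnion.mpr ⟨n, hn⟩
  obtain ⟨n, f₀, hf₀⟩ := nonempty_interior_of_iUnion_of_closed (fun n => isClosed_GSet E n) hcov
  rw [mem_interior_iff_mem_nhds] at hf₀
  obtain ⟨r, hr, hball⟩ : ∃ r > 0, ∀ f : CE (E \ {0}), ‖f.1 - f₀.1‖ < r → f ∈ GSet E n := by
    obtain ⟨r, hr, h⟩ := Metric.mem_nhds_iff.mp hf₀
    refine ⟨r, hr, fun f hf => h ?_⟩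
    rw [Metric.mem_ball, Subtype.dist_eq, dist_eq_norm]
    exact hf
  -- choose R
  obtain ⟨R, hR⟩ := exists_nat_gt (max 1 (16 * n / r))
  have hR1 : 1 ≤ R := by
    have : (1 : ℝ) < R := lt_of_le_of_lt (le_max_left _ _) hR
    exact_mod_cast this.le
  have hR' : (0 : ℝ) < R := by exact_mod_cast hR1
  have hR2 : 2 * (n : ℝ) / R < r / 8 := by
    have h1 : 16 * (n : ℝ) / r < R := lt_of_le_of_lt (le_max_right _ _) hR
    rw [div_lt_iff₀ hr] at h1
    rw [div_lt_iff₀ hR']
    linarith
  obtain ⟨h, hmem, hnorm, hlow⟩ := hbad R n hR1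
  set s : ℂ := ((r / 6 : ℝ) : ℂ) with hs
  have hsn : ‖s‖ = r / 6 := by
    rw [hs, Complex.norm_real, Real.norm_eq_abs, abs_of_pos (by positivity)]
  have hsh : ‖s • h‖ < r := by
    rw [norm_smul, hsn]
    nlinarith
  obtain ⟨a, ha⟩ := hball ⟨f₀.1 + s • h, Submodule.add_mem _ f₀.2 (Submodule.smul_mem _ s hmem)⟩
    (by simpa using hsh)
  obtain ⟨b, hb⟩ := hball f₀ (by simpa using hr)
  have ha' := ha R hR1
  have hb' := hb R hR1
  simp only at ha'
  have h1 := hlow a b
  have h2 : av R n a (av R n b (s • h)) = av R n b (av R n a (f₀.1 + s • h)) - av R n a (av R n b f₀.1) := by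
    rw [av_comm R n b R n a, ← av_sub, ← av_sub, add_sub_cancel_left]
  have h3 : ‖av R n a (av R n b (s • h))‖ ≤ n / R + n / R := by
    rw [h2]
    refine (norm_sub_le _ _).trans ?_
    exact add_le_add ((norm_av_le hR1 n b _).trans ha') ((norm_av_le hR1 n a _).trans hb')
  rw [av_smul, av_smul, norm_smul, hsn] at h3
  have h4 : r / 6 * (3 / 4) ≤ r / 6 * ‖av R n a (av R n b h)‖ := by gcongr
  have h5 : (n : ℝ) / R + n / R = 2 * (n : ℝ) / R := by ring
  rw [h5] at h3
  linarith

theorem not_automaticContinuity_of_criterion {E : Set ℤ} (hE : Criterion E) :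
    ¬ AutomaticContinuity E :=
  not_automaticContinuity_of_bad fun R n hR => exists_bad_function hE R n hR

end Pool.Agent.Lib_helper23.TILF
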