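import Pool.Agent.Lib_helper23.TILF.Bad

/-!
Bohr sets, thick sets, piecewise Bohr sets; the criterion for piecewise Bohr germs.
-/

noncomputable section

namespace Pool.Agent.Lib_helper23.TILF

open MeasureTheory AddCircle Topology Finset
open Pool.Agent.Lib_helper87.Tilf

/-- The Bohr neighbourhood of `0` defined by the points `α ∈ s` and the radius `δ`. -/
def Bohr (s : Finset UnitAddCircle) (δ : ℝ) : Set ℤ := {k | ∀ α ∈ s, ‖k • α‖ < δ}

/-- A set of integers is thick if it contains arbitrarily long intervals. -/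
def Thick (T : Set ℤ) : Prop := ∀ L : ℕ, ∃ a : ℤ, ∀ j : ℕ, j ≤ L → a + j ∈ T

/-- A piecewise Bohr set: it contains the intersection of a thick set and of a translate of a Bohr
neighbourhood of `0`. -/
def PiecewiseBohr (E : Set ℤ) : Prop :=
  ∃ (k : ℤ) (s : Finset UnitAddCircle) (δ : ℝ), 0 < δ ∧ ∃ T, Thick T ∧
    ∀ v ∈ Bohr s δ, k + v ∈ T → k + v ∈ E

theorem bohr_add {s : Finset UnitAddCircle} {δ ε : ℝ} {a b : ℤ} (ha : a ∈ Bohr s δ)
    (hb : b ∈ Bohr s ε) : a + b ∈ Bohr s (δ + ε) := by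
  intro α hα
  rw [add_smul]
  exact lt_of_le_of_lt (norm_add_le _ _) (add_lt_add (ha α hα) (hb α hα))

theorem bohr_sub {s : Finset UnitAddCircle} {δ ε : ℝ} {a b : ℤ} (ha : a ∈ Bohr s δ)
    (hb : b ∈ Bohr s ε) : a - b ∈ Bohr s (δ + ε) := by
  intro α hα
  rw [sub_smul]
  exact lt_of_le_of_lt (norm_sub_le _ _) (add_lt_add (ha α hα) (hb α hα))

theorem bohr_mono {s : Finset UnitAddCircle} {δ ε : ℝ} (h : δ ≤ ε) {a : ℤ} (ha : a ∈ Bohr s δ) :
    a ∈ Bohr s ε := fun α hα => lt_of_lt_of_le (ha α hα) h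

theorem zero_mem_bohr (s : Finset UnitAddCircle) {δ : ℝ} (hδ : 0 < δ) : (0 : ℤ) ∈ Bohr s δ := by
  intro α _
  rw [zero_smul, norm_zero]
  exact hδ

/-- Bohr neighbourhoods of `0` are syndetic. -/
theorem syndetic (s : Finset UnitAddCircle) {δ : ℝ} (hδ : 0 < δ) :
    ∃ G : ℕ, ∀ a : ℤ, ∃ v ∈ Bohr s δ, |v - a| ≤ G := by
  classical
  obtain ⟨t, -, ht, hcov⟩ := finite_cover_balls_of_compact
    (isCompact_univ : IsCompact (Set.univ : Set (s → UnitAddCircle))) (half_pos hδ)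
  set n : (s → UnitAddCircle) → ℤ := fun x =>
    if h : ∃ m : ℤ, (fun α : s => m • (α : UnitAddCircle)) ∈ Metric.ball x (δ / 2) then h.choose
    else 0 with hn
  refine ⟨ht.toFinset.sup fun x => (n x).natAbs, fun a => ?_⟩
  have h1 : (fun α : s => a • (α : UnitAddCircle)) ∈ ⋃ x ∈ t, Metric.ball x (δ / 2) :=
    hcov (Set.mem_univ _)
  simp only [Set.mem_iUnion] at h1
  obtain ⟨x, hx, hax⟩ := h1
  have hex : ∃ m : ℤ, (fun α : s => m • (α : UnitAddCircle)) ∈ Metric.ball x (δ / 2) := ⟨a, hax⟩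
  have hnx : (fun α : s => n x • (α : UnitAddCircle)) ∈ Metric.ball x (δ / 2) := by
    simp only [hn]
    rw [dif_pos hex]
    exact hex.choose_spec
  refine ⟨a - n x, ?_, ?_⟩
  · intro α hα
    have h2 : dist (fun α : s => a • (α : UnitAddCircle)) (fun α : s => n x • (α : UnitAddCircle)) < δ := by
      calc dist (fun α : s => a • (α : UnitAddCircle)) (fun α : s => n x • (α : UnitAddCircle))
          ≤ dist (fun α : s => a • (α : UnitAddCircle)) x +
            dist (fun α : s => n x • (α : UnitAddCircle)) x := dist_triangle_right _ _ _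
        _ < δ / 2 + δ / 2 := add_lt_add hax hnx
        _ = δ := add_halves δ
    rw [dist_pi_lt_iff hδ] at h2
    have h3 := h2 ⟨α, hα⟩
    rw [dist_eq_norm] at h3
    rw [sub_smul]
    exact h3
  · have h2 : (n x).natAbs ≤ ht.toFinset.sup fun x => (n x).natAbs :=
      Finset.le_sup (f := fun x => (n x).natAbs) (ht.mem_toFinset.2 hx)
    have h3 : |a - n x - a| = ((n x).natAbs : ℤ) := by
      rw [show a - n x - a = -(n x) by ring, abs_neg, Int.abs_eq_natAbs]
    rw [h3]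
    exact_mod_cast h2

/-- Pigeonhole. -/
theorem pigeonhole (K : ℕ) {η : ℝ} (hη : 0 < η) : ∃ P : ℕ, ∀ (A : ℕ → ℤ)
    (b : Fin K → UnitAddCircle), ∃ i l : ℕ, i < l ∧ l ≤ P ∧ ∀ j, ‖(A l - A i) • b j‖ < η := by
  classical
  obtain ⟨t, -, ht, hcov⟩ := finite_cover_balls_of_compact
    (isCompact_univ : IsCompact (Set.univ : Set (Fin K → UnitAddCircle))) (half_pos hη)
  refine ⟨ht.toFinset.card, fun A b => ?_⟩
  have h1 : ∀ i : ℕ, ∃ x ∈ t, (fun j => A i • b j) ∈ Metric.ball x (η / 2) := by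
    intro i
    have := hcov (Set.mem_univ (fun j => A i • b j))
    simp only [Set.mem_iUnion] at this
    obtain ⟨x, hx, h⟩ := this
    exact ⟨x, hx, h⟩
  choose c hct hc using h1
  obtain ⟨i, hi, l, hl, hne, he⟩ := Finset.exists_ne_map_eq_of_card_lt_of_maps_to
    (s := range (ht.toFinset.card + 1)) (t := ht.toFinset) (f := c)
    (by rw [card_range]; exact Nat.lt_succ_self _)
    (fun i _ => ht.mem_toFinset.2 (hct i))
  have key : ∀ i l : ℕ, c i = c l → ∀ j, ‖(A l - A i) • b j‖ < η := by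
    intro i l he j
    have h2 : dist (fun j => A l • b j) (fun j => A i • b j) < η := by
      calc dist (fun j => A l • b j) (fun j => A i • b j)
          ≤ dist (fun j => A l • b j) (c l) + dist (fun j => A i • b j) (c l) :=
            dist_triangle_right _ _ _
        _ < η / 2 + η / 2 := by
            refine add_lt_add (hc l) ?_
            rw [← he]
            exact hc i
        _ = η := add_halves η
    rw [dist_pi_lt_iff hη] at h2
    have h3 := h2 j
    rw [dist_eq_norm] at h3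
    rw [sub_smul]
    exact h3
  rw [mem_range] at hi hl
  rcases lt_or_gt_of_ne hne with h | h
  · exact ⟨i, l, h, by omega, key i l he⟩
  · exact ⟨l, i, h, by omega, key l i he.symm⟩

/-- A thick set and a Bohr neighbourhood of `0`. -/
theorem exists_next {T : Set ℤ} (hT : Thick T) (s : Finset UnitAddCircle) {δ : ℝ} (hδ : 0 < δ)
    (M : ℕ) : ∃ a ∈ Bohr s δ, ∀ j : ℤ, |j| ≤ M → a + j ∈ T ∧ a + j ≠ 0 := by
  obtain ⟨G, hG⟩ := syndetic s hδ
  obtain ⟨a, ha⟩ := hT (4 * (M + G) + 2)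
  -- the centre `c` of an interval of length `2 (M + G)` which avoids `0`
  obtain ⟨c, hc⟩ : ∃ c : ℤ, ∀ j : ℤ, |j| ≤ (M + G : ℕ) → c + j ∈ T ∧ c + j ≠ 0 := by
    by_cases h0 : ∃ j : ℕ, j ≤ 2 * (M + G) ∧ a + j = 0
    · obtain ⟨j₀, hj₀, hz⟩ := h0
      refine ⟨a + (3 * (M + G) + 2 : ℕ), fun j hj => ?_⟩
      rw [abs_le] at hj
      have h1 := ha ((3 * (M + G) + 2 : ℕ) + j).toNat (by push_cast at hj ⊢; omega)
      have h2 : (((3 * (M + G) + 2 : ℕ) + j).toNat : ℤ) = (3 * (M + G) + 2 : ℕ) + j :=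
        Int.toNat_of_nonneg (by push_cast at hj ⊢; omega)
      rw [h2] at h1
      refine ⟨by rw [add_assoc]; exact h1, ?_⟩
      push_cast at hj ⊢
      omega
    · push Not at h0
      refine ⟨a + (M + G : ℕ), fun j hj => ?_⟩
      rw [abs_le] at hj
      have h2 : (((M + G : ℕ) + j).toNat : ℤ) = (M + G : ℕ) + j :=
        Int.toNat_of_nonneg (by omega)
      have h1 := ha ((M + G : ℕ) + j).toNat (by omega)
      have h3 := h0 ((M + G : ℕ) + j).toNat (by omega)
      rw [h2] at h1 h3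
      exact ⟨by rw [add_assoc]; exact h1, by rw [add_assoc]; exact h3⟩
  obtain ⟨v, hv, hvc⟩ := hG c
  refine ⟨v, hv, fun j hj => ?_⟩
  have h1 := hc (v - c + j) (by
    refine (abs_add_le _ _).trans ?_
    push_cast
    omega)
  have h2 : c + (v - c + j) = v + j := by ring
  rw [h2] at h1
  exact h1

/-- A sequence of integers whose differences lie far inside a thick set. -/
theorem exists_seq {T : Set ℤ} (hT : Thick T) (s : Finset UnitAddCircle) {δ : ℝ} (hδ : 0 < δ)
    (c : ℕ) : ∃ A : ℕ → ℤ, (∀ l, A l ∈ Bohr s δ) ∧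
      ∀ i l : ℕ, i < l → ∀ j : ℤ, |j| ≤ c → A l - A i + j ∈ T ∧ A l - A i + j ≠ 0 := by
  choose f hf1 hf2 using fun M : ℕ => exists_next hT s hδ M
  -- the bounds
  set N : ℕ → ℕ := fun l => Nat.rec c (fun _ M => M + (f M).natAbs) l with hN
  have hN0 : N 0 = c := rfl
  have hNs : ∀ l, N (l + 1) = N l + (f (N l)).natAbs := fun l => rfl
  have hmono : Monotone N := monotone_nat_of_le_succ fun l => by rw [hNs]; omega
  refine ⟨fun l => f (N l), fun l => hf1 _, fun i l hil j hj => ?_⟩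
  have h1 : N (i + 1) ≤ N l := hmono hil
  have h2 : c ≤ N i := by rw [← hN0]; exact hmono (Nat.zero_le i)
  have h3 := hf2 (N l) (-(f (N i)) + j) (by
    refine (abs_add_le _ _).trans ?_
    rw [abs_neg, Int.abs_eq_natAbs (f (N i))]
    rw [hNs] at h1
    omega)
  have h4 : f (N l) + (-(f (N i)) + j) = f (N l) - f (N i) + j := by ring
  rw [h4] at h3
  exact h3

/-- The germ condition. -/
def Germ (E : Set ℤ) : Prop :=
  ∀ (s : Finset UnitAddCircle) (δ : ℝ), 0 < δ → ∃ k ∈ Bohr s δ,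
    ∃ (s' : Finset UnitAddCircle) (δ' : ℝ), 0 < δ' ∧ ∃ T, Thick T ∧
      ∀ v ∈ Bohr s' δ', k + v ∈ T → k + v ∈ E

theorem exists_pos_le {ι : Type*} (s : Finset ι) (f : ι → ℝ) (h : ∀ i ∈ s, 0 < f i) :
    ∃ δ : ℝ, 0 < δ ∧ ∀ i ∈ s, δ ≤ f i := by
  classical
  induction s using Finset.induction_on with
  | empty => exact ⟨1, one_pos, fun i hi => absurd hi (Finset.notMem_empty i)⟩
  | insert a s ha ih =>
    obtain ⟨δ, hδ, hs⟩ := ih fun i hi => h i (Finset.mem_insert_of_mem hi)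
    refine ⟨min δ (f a), lt_min hδ (h a (Finset.mem_insert_self a s)), fun i hi => ?_⟩
    rcases Finset.mem_insert.1 hi with rfl | hi
    · exact min_le_right _ _
    · exact (min_le_left _ _).trans (hs i hi)

theorem criterion_of_germ {E : Set ℤ} (hE : Germ E) : Criterion E := by
  classical
  intro K
  set η : ℝ := 1 / ((K : ℝ) + 1) with hη
  have hη0 : 0 < η := by positivity
  -- finitely many centres
  set Gd : Set ℤ := {k | ∃ (s' : Finset UnitAddCircle) (δ' : ℝ), 0 < δ' ∧ ∃ T, Thick T ∧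
      ∀ v ∈ Bohr s' δ', k + v ∈ T → k + v ∈ E} with hGd
  obtain ⟨t, ht⟩ : ∃ t : Finset Gd, (Set.univ : Set (Fin K → UnitAddCircle)) ⊆
      ⋃ k ∈ t, {b | ∀ i, ‖(k : ℤ) • b i‖ < η / 2} := by
    refine isCompact_univ.elim_finite_subcover
      (fun k : Gd => {b : Fin K → UnitAddCircle | ∀ i, ‖(k : ℤ) • b i‖ < η / 2}) ?_ ?_
    · intro k
      have h2 : {b : Fin K → UnitAddCircle | ∀ i, ‖(k : ℤ) • b i‖ < η / 2} =
          ⋂ i, {b : Fin K → UnitAddCircle | ‖(k : ℤ) • b i‖ < η / 2} := by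
        ext b; simp only [Set.mem_ofPred_eq, Set.mem_iInter]
      rw [h2]
      refine isOpen_iInter_of_finite fun i => isOpen_lt ?_ continuous_const
      fun_prop
    · intro b _
      obtain ⟨k, hk, h⟩ := hE (Finset.univ.image b) (η / 2) (half_pos hη0)
      rw [Set.mem_iUnion]
      exact ⟨⟨k, h⟩, fun i => hk (b i) (Finset.mem_image_of_mem b (Finset.mem_univ i))⟩
  obtain ⟨P, hP⟩ := pigeonhole K (half_pos hη0)
  refine ⟨t.card * ((P + 1) * (P + 1)), fun D => ?_⟩
  -- the data of the centres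
  choose s' δ' hδ' T hT hE' using fun k : Gd => k.2
  obtain ⟨δ₀, hδ₀, hδle⟩ := exists_pos_le t δ' fun k _ => hδ' k
  obtain ⟨G, hG⟩ := syndetic (t.biUnion s') (δ := δ₀ / (2 * ((D : ℝ) + 1))) (by positivity)
  obtain ⟨d, hd, hdG⟩ := hG (G + 1)
  have hd0 : d ≠ 0 := by
    rintro rfl
    rw [abs_le] at hdG
    omega
  have hdj : ∀ k ∈ t, ∀ j : ℤ, |j| ≤ D → d * j ∈ Bohr (s' k) (δ' k / 2) := by
    intro k hk j hj α hα
    have h1 := hd α (Finset.mem_biUnion.2 ⟨k, hk, hα⟩)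
    rw [mul_comm, mul_smul]
    have h2 : ‖j • (d • α)‖ ≤ |(j : ℝ)| * ‖d • α‖ := by
      have := norm_zsmul_le j (d • α)
      rwa [Int.norm_eq_abs] at this
    have h3 : |(j : ℝ)| ≤ D := by exact_mod_cast hj
    have h4 : (0 : ℝ) ≤ D := Nat.cast_nonneg _
    have h5 : |(j : ℝ)| * ‖d • α‖ ≤ D * (δ₀ / (2 * ((D : ℝ) + 1))) :=
      mul_le_mul h3 h1.le (norm_nonneg _) h4
    have h6 : D * (δ₀ / (2 * ((D : ℝ) + 1))) < δ₀ / 2 := by
      rw [mul_div_assoc', div_lt_div_iff₀ (by positivity) (by norm_num)]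
      nlinarith
    have h7 := hδle k hk
    linarith
  choose A hA1 hA2 using fun k : Gd =>
    exists_seq (hT k) (s' k) (δ := δ' k / 4) (by have := hδ' k; positivity)
      ((k : ℤ).natAbs + d.natAbs * D)
  refine ⟨d, hd0, ((t ×ˢ (range (P + 1) ×ˢ range (P + 1))).filter fun q => q.2.1 < q.2.2).image
    fun q => (q.1 : ℤ) + (A q.1 q.2.2 - A q.1 q.2.1), ?_, ?_, ?_⟩
  · refine Finset.card_image_le.trans ((Finset.card_filter_le _ _).trans ?_)
    rw [Finset.card_product, Finset.card_product, card_range]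
  · intro k hk j hj
    rw [Finset.mem_image] at hk
    obtain ⟨⟨k', i, l⟩, hq, rfl⟩ := hk
    simp only [Finset.mem_filter, Finset.mem_product] at hq
    have h1 := hA2 k' i l hq.2 ((k' : ℤ) + d * j) (by
      refine (abs_add_le _ _).trans ?_
      rw [abs_mul]
      push_cast
      have := mul_le_mul_of_nonneg_left hj (abs_nonneg d)
      linarith)
    have h2 : A k' l - A k' i + ((k' : ℤ) + d * j) = (k' : ℤ) + (A k' l - A k' i + d * j) := by ring
    have h3 : (k' : ℤ) + (A k' l - A k' i) + d * j = (k' : ℤ) + (A k' l - A k' i + d * j) := by ring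
    rw [h2] at h1
    simp only
    rw [h3]
    refine ⟨hE' k' _ ?_ h1.1, h1.2⟩
    have h4 := bohr_add (bohr_sub (hA1 k' l) (hA1 k' i)) (hdj k' hq.1.1 j hj)
    exact bohr_mono (by linarith) h4
  · intro b
    have h1 := ht (Set.mem_univ b)
    simp only [Set.mem_iUnion] at h1
    obtain ⟨k, hk, hkb⟩ := h1
    obtain ⟨i, l, hil, hl, hb⟩ := hP (A k) b
    refine ⟨(k : ℤ) + (A k l - A k i), ?_, fun j => ?_⟩
    · rw [Finset.mem_image]
      refine ⟨(k, i, l), ?_, rfl⟩
      simp only [Finset.mem_filter, Finset.mem_product, Finset.mem_range]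
      exact ⟨⟨hk, by omega, by omega⟩, hil⟩
    · rw [add_smul]
      refine (norm_add_le _ _).trans ?_
      have h2 := hkb j
      have h3 := hb j
      linarith

theorem germ_of_piecewise {E : Set ℤ}
    (h : ∀ (s : Finset UnitAddCircle) (δ : ℝ), 0 < δ → PiecewiseBohr (E ∩ Bohr s δ)) : Germ E := by
  intro s δ hδ
  obtain ⟨k, s', δ', hδ', T, hT, hE⟩ := h s δ hδ
  obtain ⟨v, hv, hvT⟩ := exists_next hT s' (half_pos hδ') k.natAbs
  have h1 := hvT k (by rw [Int.abs_eq_natAbs])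
  rw [add_comm] at h1
  have h2 := hE v (bohr_mono (by linarith) hv) h1.1
  refine ⟨k + v, h2.2, s', δ' / 2, half_pos hδ', T, hT, fun w hw hwT => ?_⟩
  rw [add_assoc] at hwT ⊢
  refine (hE (v + w) ?_ hwT).1
  exact bohr_mono (by linarith) (bohr_add hv hw)

theorem germ_of_thick {E : Set ℤ} (h : Thick E) : Germ E := by
  intro s δ hδ
  exact ⟨0, zero_mem_bohr s hδ, ∅, 1, one_pos, E, h, fun v _ hv => hv⟩

end Pool.Agent.Lib_helper23.TILF
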