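import Mathlib

/-!
A lemma on averages of commuting contractions: if `‖A_s f‖ ≤ C q^s ‖f‖` and `q < θ < 1` then
`f = ∑ (1 - θ) θ^s (F - A_s F)` for some `F` with `‖F‖ ≤ C' ‖f‖`.
-/

noncomputable section

namespace Pool.Agent.Lib_helper23.TILF.Res

open Filter Topology Finset

variable {Y : Type*} [NormedAddCommGroup Y] [NormedSpace ℂ Y] [CompleteSpace Y]

/-- Partial averages. -/
def Pt (A : ℕ → Y →L[ℂ] Y) (θ : ℝ) (t : ℕ) : Y →L[ℂ] Y :=
  ∑ s ∈ range t, (((1 - θ) * θ ^ s : ℝ) : ℂ) • A s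

theorem norm_coef {θ : ℝ} (h0 : 0 ≤ θ) (h1 : θ ≤ 1) (s : ℕ) :
    ‖(((1 - θ) * θ ^ s : ℝ) : ℂ)‖ = (1 - θ) * θ ^ s := by
  rw [Complex.norm_real, Real.norm_eq_abs, abs_of_nonneg]
  exact mul_nonneg (by linarith) (by positivity)

theorem sum_coef (θ : ℝ) (t : ℕ) : ∑ s ∈ range t, (1 - θ) * θ ^ s = 1 - θ ^ t := by
  induction t with
  | zero => simp
  | succ t ih => rw [Finset.sum_range_succ, ih]; ring

theorem norm_Pt_apply_le {A : ℕ → Y →L[ℂ] Y} (hA : ∀ s g, ‖A s g‖ ≤ ‖g‖) {θ : ℝ} (h0 : 0 ≤ θ)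
    (h1 : θ ≤ 1) (t : ℕ) (g : Y) : ‖Pt A θ t g‖ ≤ (1 - θ ^ t) * ‖g‖ := by
  rw [Pt, ContinuousLinearMap.sum_apply, ← sum_coef θ t, Finset.sum_mul]
  refine (norm_sum_le _ _).trans (Finset.sum_le_sum fun s _ => ?_)
  rw [ContinuousLinearMap.smul_apply, norm_smul, norm_coef h0 h1]
  exact mul_le_mul_of_nonneg_left (hA s g) (mul_nonneg (by linarith) (by positivity))

theorem lower {A : ℕ → Y →L[ℂ] Y} (hA : ∀ s g, ‖A s g‖ ≤ ‖g‖) {θ : ℝ} (h0 : 0 ≤ θ)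
    (h1 : θ ≤ 1) (t : ℕ) (g : Y) : θ ^ t * ‖g‖ ≤ ‖g - Pt A θ t g‖ := by
  have h2 := norm_Pt_apply_le hA h0 h1 t g
  have h3 : ‖g‖ - ‖Pt A θ t g‖ ≤ ‖g - Pt A θ t g‖ := norm_sub_norm_le _ _
  linarith

/-- `1 - P_t` is invertible. -/
theorem exists_inverse {A : ℕ → Y →L[ℂ] Y} (hA : ∀ s g, ‖A s g‖ ≤ ‖g‖) {θ : ℝ} (h0 : 0 < θ)
    (h1 : θ ≤ 1) (t : ℕ) (f : Y) : ∃ F : Y, F - Pt A θ t F = f := by
  have h2 : ‖Pt A θ t‖ < 1 := by
    have h3 : ‖Pt A θ t‖ ≤ 1 - θ ^ t := by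
      refine ContinuousLinearMap.opNorm_le_bound _ ?_ fun g => norm_Pt_apply_le hA h0.le h1 t g
      have := pow_le_one₀ (n := t) h0.le h1
      linarith
    have h4 : 0 < θ ^ t := by positivity
    linarith
  set u := Units.oneSub (Pt A θ t) h2 with hu
  refine ⟨(↑u⁻¹ : Y →L[ℂ] Y) f, ?_⟩
  have h5 : (u : Y →L[ℂ] Y) * (↑u⁻¹ : Y →L[ℂ] Y) = 1 := u.mul_inv
  have h6 : ((u : Y →L[ℂ] Y) * (↑u⁻¹ : Y →L[ℂ] Y)) f = f := by rw [h5]; rfl
  rw [ContinuousLinearMap.mul_apply] at h6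
  have h7 : (u : Y →L[ℂ] Y) = 1 - Pt A θ t := rfl
  rw [h7, ContinuousLinearMap.sub_apply] at h6
  exact h6

theorem comm_Pt {A : ℕ → Y →L[ℂ] Y} (hc : ∀ s t g, A s (A t g) = A t (A s g)) (θ : ℝ) (t s : ℕ)
    (g : Y) : Pt A θ t (A s g) = A s (Pt A θ t g) := by
  rw [Pt, ContinuousLinearMap.sum_apply, ContinuousLinearMap.sum_apply, map_sum]
  refine Finset.sum_congr rfl fun r _ => ?_
  rw [ContinuousLinearMap.smul_apply, ContinuousLinearMap.smul_apply, map_smul, hc]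

theorem resolvent {A : ℕ → Y →L[ℂ] Y} (hA : ∀ s g, ‖A s g‖ ≤ ‖g‖)
    (hc : ∀ s t g, A s (A t g) = A t (A s g)) {θ q C : ℝ} (hq0 : 0 ≤ q) (hqθ : q < θ) (hθ1 : θ < 1)
    (hC : 0 ≤ C) (f : Y) (hf : ∀ s, ‖A s f‖ ≤ C * q ^ s * ‖f‖) :
    ∃ F : Y, ‖F‖ ≤ (1 + (1 - θ) / θ * C / (1 - q / θ)) * ‖f‖ ∧
      HasSum (fun s => (((1 - θ) * θ ^ s : ℝ) : ℂ) • (F - A s F)) f := by
  have hθ0 : 0 < θ := hq0.trans_lt hqθ
  choose Fs hFs using exists_inverse hA hθ0 hθ1.le (f := f)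
  have hF0 : Fs 0 = f := by
    have h := hFs 0
    simpa [Pt] using h
  -- A_t F_t is small
  have h1 : ∀ t, ‖A t (Fs t)‖ ≤ (θ ^ t)⁻¹ * (C * q ^ t * ‖f‖) := by
    intro t
    have h2 : A t (Fs t) - Pt A θ t (A t (Fs t)) = A t f := by
      rw [comm_Pt hc, ← map_sub, hFs]
    have h3 := lower hA hθ0.le hθ1.le t (A t (Fs t))
    rw [h2] at h3
    have h4 : 0 < θ ^ t := by positivity
    rw [inv_mul_eq_div, le_div_iff₀ h4, mul_comm]
    exact h3.trans (hf t)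
  have hstep : ∀ t, dist (Fs t) (Fs (t + 1)) ≤ ((1 - θ) / θ * C * ‖f‖) * (q / θ) ^ t := by
    intro t
    rw [dist_comm, dist_eq_norm]
    have h5 : (Fs (t + 1) - Fs t) - Pt A θ (t + 1) (Fs (t + 1) - Fs t)
        = (((1 - θ) * θ ^ t : ℝ) : ℂ) • A t (Fs t) := by
      have e1 := hFs (t + 1)
      have e2 := hFs t
      have e3 : Pt A θ (t + 1) (Fs t) = Pt A θ t (Fs t) + (((1 - θ) * θ ^ t : ℝ) : ℂ) • A t (Fs t) := by
        rw [Pt, Pt, Finset.sum_range_succ, ContinuousLinearMap.add_apply, ContinuousLinearMap.smul_apply]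
      rw [map_sub, e3]
      have e4 : Fs (t + 1) - Fs t - (Pt A θ (t + 1) (Fs (t + 1)) - (Pt A θ t (Fs t)
          + (((1 - θ) * θ ^ t : ℝ) : ℂ) • A t (Fs t)))
          = (Fs (t + 1) - Pt A θ (t + 1) (Fs (t + 1))) - (Fs t - Pt A θ t (Fs t))
            + (((1 - θ) * θ ^ t : ℝ) : ℂ) • A t (Fs t) := by abel
      rw [e4, e1, e2, sub_self, zero_add]
    have h6 := lower hA hθ0.le hθ1.le (t + 1) (Fs (t + 1) - Fs t)
    rw [h5, norm_smul, norm_coef hθ0.le hθ1.le] at h6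
    have h7 : θ ^ (t + 1) * ‖Fs (t + 1) - Fs t‖ ≤ (1 - θ) * θ ^ t * ((θ ^ t)⁻¹ * (C * q ^ t * ‖f‖)) :=
      h6.trans (mul_le_mul_of_nonneg_left (h1 t) (mul_nonneg (by linarith) (by positivity)))
    have h8 : 0 < θ ^ (t + 1) := by positivity
    rw [← le_div_iff₀' h8] at h7
    refine h7.trans (le_of_eq ?_)
    rw [div_pow, pow_succ]
    field_simp
  have hr : q / θ < 1 := (div_lt_one hθ0).2 hqθ
  have hcau := cauchySeq_of_le_geometric _ _ hr hstep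
  obtain ⟨F, hF⟩ := cauchySeq_tendsto_of_complete hcau
  have hd := dist_le_of_le_geometric_of_tendsto₀ _ _ hr hstep hF
  refine ⟨F, ?_, ?_⟩
  · rw [hF0, dist_comm, dist_eq_norm] at hd
    have h9 : ‖F‖ ≤ ‖f‖ + ‖F - f‖ := by
      calc ‖F‖ = ‖f + (F - f)‖ := by congr 1; abel
        _ ≤ _ := norm_add_le _ _
    calc ‖F‖ ≤ ‖f‖ + ((1 - θ) / θ * C * ‖f‖) / (1 - q / θ) := h9.trans (by linarith)
      _ = _ := by ring
  · have hsum : Summable (fun s => (((1 - θ) * θ ^ s : ℝ) : ℂ) • (F - A s F)) := by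
      refine Summable.of_norm_bounded (g := fun s => (1 - θ) * (2 * ‖F‖) * θ ^ s)
        ((summable_geometric_of_lt_one hθ0.le hθ1).mul_left _) fun s => ?_
      rw [norm_smul, norm_coef hθ0.le hθ1.le]
      have h10 : ‖F - A s F‖ ≤ 2 * ‖F‖ := by
        refine (norm_sub_le _ _).trans ?_
        have := hA s F
        linarith
      calc (1 - θ) * θ ^ s * ‖F - A s F‖ ≤ (1 - θ) * θ ^ s * (2 * ‖F‖) :=
            mul_le_mul_of_nonneg_left h10 (mul_nonneg (by linarith) (by positivity))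
        _ = _ := by ring
    have hpart : Tendsto (fun t => ∑ s ∈ range t, (((1 - θ) * θ ^ s : ℝ) : ℂ) • (F - A s F)) atTop (𝓝 f) := by
      have h11 : ∀ t, ∑ s ∈ range t, (((1 - θ) * θ ^ s : ℝ) : ℂ) • (F - A s F)
          = f + ((F - Fs t) - Pt A θ t (F - Fs t)) - ((θ ^ t : ℝ) : ℂ) • F := by
        intro t
        have e5 : ∑ s ∈ range t, (((1 - θ) * θ ^ s : ℝ) : ℂ) • (F - A s F)
            = ((1 - θ ^ t : ℝ) : ℂ) • F - Pt A θ t F := by
          rw [Pt, ContinuousLinearMap.sum_apply, ← sum_coef θ t, Complex.ofReal_sum,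
            Finset.sum_smul, ← Finset.sum_sub_distrib]
          refine Finset.sum_congr rfl fun s _ => ?_
          rw [ContinuousLinearMap.smul_apply, ← smul_sub]
        have e6 : ((1 - θ ^ t : ℝ) : ℂ) • F = F - ((θ ^ t : ℝ) : ℂ) • F := by
          push_cast
          rw [sub_smul, one_smul]
        have e7 : (F - Fs t) - Pt A θ t (F - Fs t) = (F - Pt A θ t F) - (Fs t - Pt A θ t (Fs t)) := by
          rw [map_sub]; abel
        rw [e5, e6, e7, hFs t]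
        abel
      simp_rw [h11]
      have h12 : Tendsto (fun t => (F - Fs t) - Pt A θ t (F - Fs t)) atTop (𝓝 0) := by
        have h13 : Tendsto (fun t => 2 * ‖F - Fs t‖) atTop (𝓝 0) := by
          have h14 : Tendsto (fun t => F - Fs t) atTop (𝓝 0) := by
            have := (tendsto_const_nhds (x := F)).sub hF
            rwa [sub_self] at this
          have h15 := h14.norm.const_mul 2
          rwa [norm_zero, mul_zero] at h15
        refine squeeze_zero_norm (fun t => ?_) h13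
        have h16 := norm_Pt_apply_le hA hθ0.le hθ1.le t (F - Fs t)
        have h17 : 0 ≤ θ ^ t * ‖F - Fs t‖ := by positivity
        calc ‖(F - Fs t) - Pt A θ t (F - Fs t)‖ ≤ ‖F - Fs t‖ + ‖Pt A θ t (F - Fs t)‖ := norm_sub_le _ _
          _ ≤ 2 * ‖F - Fs t‖ := by linarith
      have h18 : Tendsto (fun t : ℕ => ((θ ^ t : ℝ) : ℂ) • F) atTop (𝓝 0) := by
        have h19 : Tendsto (fun t : ℕ => ((θ ^ t : ℝ) : ℂ)) atTop (𝓝 ((0 : ℝ) : ℂ)) :=
          (Complex.continuous_ofReal.tendsto 0).comp (tendsto_pow_atTop_nhds_zero_of_lt_one hθ0.le hθ1)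
        have h20 := h19.smul_const F
        rwa [Complex.ofReal_zero, zero_smul] at h20
      have h21 := ((tendsto_const_nhds (x := f)).add h12).sub h18
      rwa [add_zero, sub_zero] at h21
    have h22 := hsum.hasSum.tendsto_sum_nat
    rw [← tendsto_nhds_unique h22 hpart]
    exact hsum.hasSum

end Pool.Agent.Lib_helper23.TILF.Res
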