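import Pool.Agent.Lib_helper23.TILF.Diff
import Pool.Agent.Lib_helper23.TILF.Resolvent

/-!
Uniform decay of the box averages can be bootstrapped: a rate `R^(-σ)` with `n` translations gives
every rate with more translations.
-/

noncomputable section

namespace Pool.Agent.Lib_helper87.Tilf.Cha

open MeasureTheory AddCircle Topology Finset

/-- Box averages as an operator on `C(𝕋)`. -/
def avX (n : ℕ) (a : Fin n → UnitAddCircle) (R : ℕ) (hR : 1 ≤ R) :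
    C(UnitAddCircle, ℂ) →L[ℂ] C(UnitAddCircle, ℂ) :=
  LinearMap.mkContinuous
    { toFun := fun f => av R n a f
      map_add' := fun f g => av_add _ n a f g
      map_smul' := fun c f => av_smul _ n a c f } 1 (fun f => by
        rw [one_mul]; exact norm_av_le hR n a f)

/-- Box averages as an operator on `C_S`. -/
def avE (S : Set ℤ) (n : ℕ) (a : Fin n → UnitAddCircle) (R : ℕ) (hR : 1 ≤ R) : CE S →L[ℂ] CE S :=
  ((avX n a R hR).comp (CE S).subtypeL).codRestrict (CE S) (fun f => av_mem _ n a f.2)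

theorem norm_smulE {S : Set ℤ} (c : ℂ) (x : CE S) : ‖c • x‖ = ‖c‖ * ‖x‖ := norm_smul c x.1

/-- Uniform decay of box averages. -/
def Dec (S : Set ℤ) (n : ℕ) (C σ : ℝ) : Prop :=
  ∀ f ∈ CE S, ∃ a : Fin n → UnitAddCircle, ∀ R : ℕ, 1 ≤ R → ‖av R n a f‖ ≤ C * (R : ℝ) ^ (-σ) * ‖f‖

theorem av_sub_av {S : Set ℤ} {n : ℕ} (a : Fin n → UnitAddCircle) (s : ℕ) {R : ℕ} (hR : 1 ≤ R)
    {γ : ℝ} (hγ0 : 0 ≤ γ) (hγ1 : γ ≤ 1) {H : C(UnitAddCircle, ℂ)} (hH : H ∈ CE S) :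
    ‖av R n a (H - av (2 ^ s) n a H)‖ ≤ 2 * (n + 1) * (((2 : ℝ) ^ γ) ^ s * (R : ℝ) ^ (-γ)) * ‖H‖ := by
  have hR' : (0 : ℝ) < R := by exact_mod_cast hR
  have hn : (0 : ℝ) ≤ n := Nat.cast_nonneg n
  set x : ℝ := 2 ^ s / R with hx
  have hx0 : 0 < x := by positivity
  have hxγ : ((2 : ℝ) ^ γ) ^ s * (R : ℝ) ^ (-γ) = x ^ γ := by
    rw [hx, Real.div_rpow (by positivity) hR'.le, Real.rpow_neg hR'.le, div_eq_mul_inv]
    congr 1
    rw [← Real.rpow_natCast, ← Real.rpow_natCast, ← Real.rpow_mul (by norm_num),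
      ← Real.rpow_mul (by norm_num), mul_comm]
  rw [hxγ]
  rcases le_total 1 x with h1x | hx1
  · have h1 : ‖av R n a (H - av (2 ^ s) n a H)‖ ≤ 2 * ‖H‖ := by
      refine (norm_av_le hR n a _).trans ((norm_sub_le _ _).trans ?_)
      have := norm_av_le (R := 2 ^ s) Nat.one_le_two_pow n a H
      linarith
    have h2 : 1 ≤ x ^ γ := Real.one_le_rpow h1x hγ0
    have h3 : 2 * ‖H‖ ≤ 2 * (n + 1) * x ^ γ * ‖H‖ := by
      refine mul_le_mul_of_nonneg_right ?_ (norm_nonneg _)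
      nlinarith
    exact h1.trans h3
  · obtain ⟨g, hg, hsum⟩ := sub_av (F := S) (R := 2 ^ s) Nat.one_le_two_pow n a hH
    have h1 := norm_av_of_sum (R := R) hR n a g _ hsum
    have h2 : ∑ i, 2 * ‖g i‖ ≤ n * (2 * (2 ^ s * ‖H‖)) := by
      calc ∑ i, 2 * ‖g i‖ ≤ ∑ _i : Fin n, 2 * ((2 : ℝ) ^ s * ‖H‖) := by
            refine Finset.sum_le_sum fun i _ => ?_
            have := (hg i).2
            push_cast at this
            linarith
        _ = n * (2 * (2 ^ s * ‖H‖)) := by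
            rw [Finset.sum_const, Finset.card_univ, Fintype.card_fin, nsmul_eq_mul]
    have h3 : x ≤ x ^ γ := by
      calc x = x ^ (1 : ℝ) := (Real.rpow_one x).symm
        _ ≤ x ^ γ := Real.rpow_le_rpow_of_exponent_ge hx0 hx1 hγ1
    calc ‖av R n a (H - av (2 ^ s) n a H)‖ ≤ (∑ i, 2 * ‖g i‖) / R := h1
      _ ≤ (n * (2 * (2 ^ s * ‖H‖))) / R := by gcongr
      _ = 2 * n * x * ‖H‖ := by rw [hx]; ring
      _ ≤ 2 * (n + 1) * x ^ γ * ‖H‖ := by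
          refine mul_le_mul_of_nonneg_right ?_ (norm_nonneg _)
          nlinarith

theorem boot {S : Set ℤ} {n : ℕ} {C σ θ γ : ℝ} (h : Dec S n C σ) (hC : 0 ≤ C)
    (hqθ : (2 : ℝ) ^ (-σ) < θ) (hθ1 : θ < 1) (hγ0 : 0 ≤ γ) (hγ1 : γ ≤ 1)
    (hθl : θ * (2 : ℝ) ^ γ < 1) :
    ∃ C', 0 ≤ C' ∧ Dec S (n + n) C' (σ + γ) := by
  set q : ℝ := (2 : ℝ) ^ (-σ) with hq
  have hq0 : 0 ≤ q := by positivity
  set lam : ℝ := (2 : ℝ) ^ γ with hlam
  have hθ0 : 0 < θ := hq0.trans_lt hqθ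
  have hlp : 0 < lam := by positivity
  have hn : (0 : ℝ) ≤ n := Nat.cast_nonneg n
  have hr : q / θ < 1 := (div_lt_one hθ0).2 hqθ
  set C1 : ℝ := 1 + (1 - θ) / θ * C / (1 - q / θ) with hC1
  have hC1n : 0 ≤ C1 := by
    have h1 : 0 ≤ (1 - θ) / θ * C / (1 - q / θ) :=
      div_nonneg (mul_nonneg (div_nonneg (by linarith) hθ0.le) hC) (by linarith)
    rw [hC1]; linarith
  set C2 : ℝ := 2 * (n + 1) * (1 - θ) * (1 - θ * lam)⁻¹ with hC2
  have hC2n : 0 ≤ C2 := by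
    have h1 : 0 ≤ (1 - θ * lam)⁻¹ := inv_nonneg.2 (by linarith)
    have h2 : 0 ≤ 1 - θ := by linarith
    positivity
  refine ⟨C2 * (C * C1), mul_nonneg hC2n (mul_nonneg hC hC1n), ?_⟩
  intro f hf
  obtain ⟨a, ha⟩ := h f hf
  have ha' : ∀ s : ℕ, ‖av (2 ^ s) n a f‖ ≤ C * q ^ s * ‖f‖ := by
    intro s
    have h1 := ha (2 ^ s) Nat.one_le_two_pow
    have h2 : (((2 ^ s : ℕ) : ℝ)) ^ (-σ) = q ^ s := by
      push_cast
      rw [hq, ← Real.rpow_natCast, ← Real.rpow_natCast, ← Real.rpow_mul (by norm_num),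
        ← Real.rpow_mul (by norm_num), mul_comm]
    rwa [h2] at h1
  obtain ⟨F, hFn, hFs⟩ := Pool.Agent.Lib_helper23.TILF.Res.resolvent
    (A := fun s => avE S n a (2 ^ s) Nat.one_le_two_pow)
    (fun s g => norm_av_le Nat.one_le_two_pow n a g.1)
    (fun s t g => Subtype.ext (av_comm _ n a _ n a g.1)) hq0 hqθ hθ1 hC (⟨f, hf⟩ : CE S)
    (fun s => ha' s)
  obtain ⟨b, hb⟩ := h F.1 F.2
  obtain ⟨c, hc⟩ := exists_append a b
  refine ⟨c, fun R hR => ?_⟩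
  have hR' : (0 : ℝ) < R := by exact_mod_cast hR
  rw [hc]
  set L : CE S →L[ℂ] CE S := (avE S n a R hR).comp (avE S n b R hR) with hL
  have hLs := hFs.mapL L
  have hH : ‖av R n b F.1‖ ≤ C * (R : ℝ) ^ (-σ) * (C1 * ‖f‖) := by
    refine (hb R hR).trans ?_
    refine mul_le_mul_of_nonneg_left ?_ (mul_nonneg hC (by positivity))
    exact hFn
  have hbound : ∀ s, ‖L ((((1 - θ) * θ ^ s : ℝ) : ℂ) • (F - avE S n a (2 ^ s) Nat.one_le_two_pow F))‖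
      ≤ (2 * (n + 1) * (1 - θ) * (C * (R : ℝ) ^ (-σ) * (C1 * ‖f‖)) * (R : ℝ) ^ (-γ)) *
        (θ * lam) ^ s := by
    intro s
    rw [map_smul, norm_smulE, Pool.Agent.Lib_helper23.TILF.Res.norm_coef hθ0.le hθ1.le]
    set K := F - avE S n a (2 ^ s) Nat.one_le_two_pow F with hK
    have e1 : (L K).1 = av R n a (av R n b F.1 - av (2 ^ s) n a (av R n b F.1)) := by
      have e2 : (L K).1 = av R n a (av R n b (F.1 - av (2 ^ s) n a F.1)) := rfl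
      rw [e2, av_sub R n b, av_comm R n b (2 ^ s) n a]
    have e3 : ‖L K‖ ≤ 2 * (n + 1) * (lam ^ s * (R : ℝ) ^ (-γ)) * ‖av R n b F.1‖ := by
      have e4 : ‖L K‖ = ‖(L K).1‖ := rfl
      rw [e4, e1]
      exact av_sub_av a s hR hγ0 hγ1 (av_mem _ n b F.2)
    have h2 : 0 ≤ 1 - θ := by linarith
    calc (1 - θ) * θ ^ s * ‖L K‖
        ≤ (1 - θ) * θ ^ s * (2 * (n + 1) * (lam ^ s * (R : ℝ) ^ (-γ)) *
            (C * (R : ℝ) ^ (-σ) * (C1 * ‖f‖))) := by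
          refine mul_le_mul_of_nonneg_left ?_ (by positivity)
          exact e3.trans (mul_le_mul_of_nonneg_left hH (by positivity))
      _ = _ := by rw [mul_pow]; ring
  have hgeo : HasSum (fun s : ℕ => (2 * (n + 1) * (1 - θ) * (C * (R : ℝ) ^ (-σ) * (C1 * ‖f‖)) *
      (R : ℝ) ^ (-γ)) * (θ * lam) ^ s)
      ((2 * (n + 1) * (1 - θ) * (C * (R : ℝ) ^ (-σ) * (C1 * ‖f‖)) * (R : ℝ) ^ (-γ)) *
        (1 - θ * lam)⁻¹) :=
    (hasSum_geometric_of_lt_one (by positivity) hθl).mul_left _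
  have hfin := hLs.norm_le_of_bounded hgeo hbound
  have e5 : ‖L (⟨f, hf⟩ : CE S)‖ = ‖av R n a (av R n b f)‖ := rfl
  rw [e5] at hfin
  refine hfin.trans (le_of_eq ?_)
  have e6 : (R : ℝ) ^ (-(σ + γ)) = (R : ℝ) ^ (-σ) * (R : ℝ) ^ (-γ) := by
    rw [← Real.rpow_add hR']
    congr 1
    ring
  rw [hC2, e6]
  ring

/-- Every rate is attained. -/
theorem boot_all {S : Set ℤ} {n : ℕ} {C σ : ℝ} (h : Dec S n C σ) (hC : 0 ≤ C) (hσ : 0 < σ) (τ : ℝ) :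
    ∃ (n' : ℕ) (C' σ' : ℝ), 0 ≤ C' ∧ τ ≤ σ' ∧ Dec S n' C' σ' := by
  have hq1 : (2 : ℝ) ^ (-σ) < 1 := Real.rpow_lt_one_of_one_lt_of_neg (by norm_num) (by linarith)
  obtain ⟨θ, hqθ, hθ1⟩ := exists_between hq1
  have hθ0 : 0 < θ := (Real.rpow_pos_of_pos (by norm_num) _).trans hqθ
  have hinv : 1 < θ⁻¹ := (one_lt_inv₀ hθ0).2 hθ1
  obtain ⟨lam, hl1, hl⟩ := exists_between (lt_min hinv (by norm_num : (1 : ℝ) < 2))
  have hl2 : lam ≤ 2 := (hl.trans_le (min_le_right _ _)).le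
  have hlθ : lam < θ⁻¹ := hl.trans_le (min_le_left _ _)
  have hlp : 0 < lam := by linarith
  set γ : ℝ := Real.logb 2 lam with hγ
  have hγ0 : 0 < γ := Real.logb_pos (by norm_num) hl1
  have hγ1 : γ ≤ 1 := by
    rw [hγ, Real.logb_le_iff_le_rpow (by norm_num) hlp, Real.rpow_one]
    exact hl2
  have hlam : (2 : ℝ) ^ γ = lam := Real.rpow_logb (by norm_num) (by norm_num) hlp
  have hθl : θ * (2 : ℝ) ^ γ < 1 := by
    rw [hlam]
    have := mul_lt_mul_of_pos_left hlθ hθ0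
    rwa [mul_inv_cancel₀ hθ0.ne'] at this
  have hit : ∀ k : ℕ, ∃ (n' : ℕ) (C' : ℝ), 0 ≤ C' ∧ Dec S n' C' (σ + k * γ) := by
    intro k
    induction k with
    | zero => exact ⟨n, C, hC, by simpa using h⟩
    | succ k ih =>
      obtain ⟨n', C', hC', hD⟩ := ih
      have h1 : (2 : ℝ) ^ (-(σ + k * γ)) < θ := by
        refine lt_of_le_of_lt ?_ hqθ
        refine Real.rpow_le_rpow_of_exponent_le (by norm_num) ?_
        have : 0 ≤ (k : ℝ) * γ := by positivity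
        linarith
      obtain ⟨C'', hC'', hD''⟩ := boot hD hC' h1 hθ1 hγ0.le hγ1 hθl
      refine ⟨n' + n', C'', hC'', ?_⟩
      have h2 : σ + ((k + 1 : ℕ) : ℝ) * γ = σ + k * γ + γ := by push_cast; ring
      rw [h2]
      exact hD''
  obtain ⟨k, hk⟩ := exists_nat_gt (τ / γ)
  obtain ⟨n', C', hC', hD⟩ := hit k
  refine ⟨n', C', σ + k * γ, hC', ?_, hD⟩
  rw [div_lt_iff₀ hγ0] at hk
  linarith

end Pool.Agent.Lib_helper87.Tilf.Cha
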