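import Pool.Agent.Lib_helper23.TILF.Dense

/-!
Explicit form of the box averages.
-/

noncomputable section

namespace Pool.Agent.Lib_helper87.Tilf.Cha

open MeasureTheory AddCircle Topology Finset Filter

theorem av_apply {R : ℕ} (hR : 1 ≤ R) : ∀ (n : ℕ) (a : Fin n → UnitAddCircle)
    (f : C(UnitAddCircle, ℂ)) (x : UnitAddCircle),
    (R : ℂ) ^ n * av R n a f x = ∑ m : Fin n → Fin R, f (x - ∑ i, ((m i : ℕ)) • a i)
  | 0, a, f, x => by simp [av]
  | n + 1, a, f, x => by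
    have hRc : (R : ℂ) ≠ 0 := by
      have : R ≠ 0 := by omega
      exact_mod_cast this
    rw [av, av1, ContinuousMap.smul_apply, ContinuousMap.sum_apply, smul_eq_mul]
    simp only [translate_apply]
    have h1 : (R : ℂ) ^ (n + 1) * ((R : ℂ)⁻¹ * ∑ j ∈ range R, av R n (Fin.tail a) f (x - j • a 0))
        = ∑ j ∈ range R, (R : ℂ) ^ n * av R n (Fin.tail a) f (x - j • a 0) := by
      rw [← Finset.mul_sum, pow_succ]
      field_simp
    rw [h1]
    have h2 : ∀ j ∈ range R, (R : ℂ) ^ n * av R n (Fin.tail a) f (x - j • a 0)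
        = ∑ m : Fin n → Fin R, f (x - j • a 0 - ∑ i, ((m i : ℕ)) • Fin.tail a i) := fun j _ =>
      av_apply hR n (Fin.tail a) f (x - j • a 0)
    rw [Finset.sum_congr rfl h2, ← (Fin.consEquiv (fun _ => Fin R)).sum_comp, Fintype.sum_prod_type]
    rw [← Fin.sum_univ_eq_sum_range
      (fun j => ∑ m : Fin n → Fin R, f (x - j • a 0 - ∑ i, ((m i : ℕ)) • Fin.tail a i)) R]
    refine Finset.sum_congr rfl fun j _ => Finset.sum_congr rfl fun m _ => ?_
    congr 1
    rw [Fin.sum_univ_succ]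
    simp only [Fin.consEquiv_apply, Fin.cons_zero, Fin.cons_succ, Fin.tail]
    abel

theorem norm_av_iff {R n : ℕ} (hR : 1 ≤ R) (a : Fin n → UnitAddCircle) (f : C(UnitAddCircle, ℂ))
    {B : ℝ} (hB : 0 ≤ B) : ‖av R n a f‖ ≤ B ↔
      ∀ x, ‖∑ m : Fin n → Fin R, f (x - ∑ i, ((m i : ℕ)) • a i)‖ ≤ (R : ℝ) ^ n * B := by
  have hR' : (0 : ℝ) < R := by exact_mod_cast hR
  rw [ContinuousMap.norm_le _ hB]
  refine forall_congr' fun x => ?_
  rw [← av_apply hR, norm_mul, norm_pow, Complex.norm_natCast]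
  exact (mul_le_mul_iff_right₀ (by positivity)).symm

end Pool.Agent.Lib_helper87.Tilf.Cha
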