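import Pool.Agent.Lib_helper87.Tilf.NonAuto

/-!
Fejér sums and trigonometric polynomials with prescribed spectrum.
-/

noncomputable section

namespace Pool.Agent.Lib_helper87.Tilf.Cha

open MeasureTheory AddCircle Topology Finset Filter

/-- Fejér sum, not normalised. -/
def fej (N : ℕ) (g : C(UnitAddCircle, ℂ)) : C(UnitAddCircle, ℂ) :=
  ∑ j ∈ range (N + 1), ∑ l ∈ range (N + 1), coeffL ((j : ℤ) - l) g • fourier ((j : ℤ) - l)

/-- Dirichlet kernel. -/
def Dk (N : ℕ) (y : UnitAddCircle) : ℂ := ∑ j ∈ range (N + 1), fourier (j : ℤ) y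

theorem continuous_Dk (N : ℕ) : Continuous (Dk N) := by
  unfold Dk
  exact continuous_finsetSum _ fun j _ => (fourier (j : ℤ)).continuous

theorem fourier_sub_arg (k : ℤ) (x t : UnitAddCircle) :
    (fourier k (x - t) : ℂ) = fourier k x * fourier (-k) t := by
  rw [fourier_apply, fourier_apply, fourier_apply, smul_sub, sub_eq_add_neg, toCircle_add,
    Circle.coe_mul, neg_smul]

theorem Dk_sq (N : ℕ) (y : UnitAddCircle) : ((‖Dk N y‖ ^ 2 : ℝ) : ℂ)
    = ∑ j ∈ range (N + 1), ∑ l ∈ range (N + 1), (fourier ((j : ℤ) - l) y : ℂ) := by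
  have h1 : ((‖Dk N y‖ ^ 2 : ℝ) : ℂ) = Dk N y * (starRingEnd ℂ) (Dk N y) := by
    rw [Complex.mul_conj, Complex.normSq_eq_norm_sq]
  rw [h1, Dk, map_sum, Finset.sum_mul_sum]
  refine Finset.sum_congr rfl fun j _ => Finset.sum_congr rfl fun l _ => ?_
  rw [sub_eq_add_neg, fourier_add, fourier_neg]

theorem fej_apply (N : ℕ) (g : C(UnitAddCircle, ℂ)) (x : UnitAddCircle) :
    fej N g x = ∫ t, ((‖Dk N (x - t)‖ ^ 2 : ℝ) : ℂ) * g t ∂(haarAddCircle : Measure UnitAddCircle) := by
  have h1 : ∀ t, ((‖Dk N (x - t)‖ ^ 2 : ℝ) : ℂ) * g t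
      = ∑ j ∈ range (N + 1), ∑ l ∈ range (N + 1),
        (fourier ((j : ℤ) - l) x : ℂ) * (fourier (-((j : ℤ) - l)) t • g t) := by
    intro t
    rw [Dk_sq, Finset.sum_mul]
    refine Finset.sum_congr rfl fun j _ => ?_
    rw [Finset.sum_mul]
    refine Finset.sum_congr rfl fun l _ => ?_
    rw [fourier_sub_arg, smul_eq_mul]
    ring
  have hint : ∀ k : ℤ, ∀ c : ℂ, Integrable (fun t => c * (fourier k t • g t))
      (haarAddCircle : Measure UnitAddCircle) := by
    intro k c
    refine Continuous.integrable_of_hasCompactSupport ?_ (HasCompactSupport.of_compactSpace _)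
    fun_prop
  simp_rw [h1]
  rw [integral_finsetSum _ fun j _ => integrable_finsetSum _ fun l _ => hint _ _]
  rw [fej, ContinuousMap.sum_apply]
  refine Finset.sum_congr rfl fun j _ => ?_
  rw [integral_finsetSum _ fun l _ => hint _ _, ContinuousMap.sum_apply]
  refine Finset.sum_congr rfl fun l _ => ?_
  rw [integral_const_mul, ContinuousMap.smul_apply, coeffL_apply, fourierCoeff, smul_eq_mul, mul_comm]

theorem fej_one (N : ℕ) (x : UnitAddCircle) :
    ∫ t, ‖Dk N (x - t)‖ ^ 2 ∂(haarAddCircle : Measure UnitAddCircle) = (N + 1 : ℝ) := by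
  have h1 := fej_apply N (fourier 0) x
  have h2 : fej N (fourier 0) x = ((N + 1 : ℝ) : ℂ) := by
    rw [fej, ContinuousMap.sum_apply]
    have h3 : ∀ j ∈ range (N + 1), (∑ l ∈ range (N + 1),
        coeffL ((j : ℤ) - l) (fourier 0) • fourier ((j : ℤ) - l) : C(UnitAddCircle, ℂ)) x = 1 := by
      intro j hj
      rw [ContinuousMap.sum_apply, Finset.sum_eq_single j]
      · rw [sub_self, ContinuousMap.smul_apply, coeffL_fourier]
        simp
      · intro l _ hlj
        rw [ContinuousMap.smul_apply, coeffL_fourier, if_neg, zero_smul]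
        intro h
        apply hlj
        have : (j : ℤ) = l := by linarith
        exact_mod_cast this.symm
      · intro h; exact absurd hj h
    rw [Finset.sum_congr rfl h3]
    simp
  rw [h2] at h1
  have h4 : ∫ t, ((‖Dk N (x - t)‖ ^ 2 : ℝ) : ℂ) * (fourier 0 : C(UnitAddCircle, ℂ)) t
      ∂(haarAddCircle : Measure UnitAddCircle)
      = ((∫ t, ‖Dk N (x - t)‖ ^ 2 ∂(haarAddCircle : Measure UnitAddCircle) : ℝ) : ℂ) := by
    rw [← integral_complex_ofReal]
    congr 1
    ext t
    simp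
  rw [h4] at h1
  exact_mod_cast h1.symm

theorem norm_fej_le (N : ℕ) (g : C(UnitAddCircle, ℂ)) : ‖fej N g‖ ≤ (N + 1) * ‖g‖ := by
  rw [ContinuousMap.norm_le _ (by positivity)]
  intro x
  rw [fej_apply]
  have hc : Continuous fun t => ‖Dk N (x - t)‖ ^ 2 := by
    have := (continuous_Dk N).comp (continuous_const.sub continuous_id : Continuous fun t => x - t)
    exact (this.norm).pow 2
  have h1 : ‖∫ t, ((‖Dk N (x - t)‖ ^ 2 : ℝ) : ℂ) * g t ∂(haarAddCircle : Measure UnitAddCircle)‖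
      ≤ ∫ t, ‖Dk N (x - t)‖ ^ 2 * ‖g‖ ∂(haarAddCircle : Measure UnitAddCircle) := by
    refine norm_integral_le_of_norm_le ?_ (Eventually.of_forall fun t => ?_)
    · exact (hc.mul continuous_const).integrable_of_hasCompactSupport (HasCompactSupport.of_compactSpace _)
    · rw [norm_mul, Complex.norm_real, Real.norm_eq_abs, abs_of_nonneg (by positivity)]
      exact mul_le_mul_of_nonneg_left (g.norm_coe_le_norm t) (by positivity)
  refine h1.trans (le_of_eq ?_)
  rw [integral_mul_const, fej_one]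

/-- The number of the representations. -/
def cnt (N : ℕ) (k : ℤ) : ℝ :=
  ∑ j ∈ range (N + 1), ∑ l ∈ range (N + 1), if k = (j : ℤ) - l then 1 else 0

theorem coeff_fej (N : ℕ) (g : C(UnitAddCircle, ℂ)) (k : ℤ) :
    coeffL k (fej N g) = (cnt N k : ℂ) * coeffL k g := by
  rw [fej, map_sum, cnt, Complex.ofReal_sum, Finset.sum_mul]
  refine Finset.sum_congr rfl fun j _ => ?_
  rw [map_sum, Complex.ofReal_sum, Finset.sum_mul]
  refine Finset.sum_congr rfl fun l _ => ?_
  rw [map_smul, coeffL_fourier]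
  by_cases h : k = (j : ℤ) - l
  · rw [if_pos h, if_pos h, h]; simp
  · rw [if_neg h, if_neg h]; simp

theorem cnt_le (N : ℕ) (k : ℤ) : cnt N k ≤ N + 1 := by
  rw [cnt]
  calc ∑ j ∈ range (N + 1), ∑ l ∈ range (N + 1), (if k = (j : ℤ) - l then (1 : ℝ) else 0)
      ≤ ∑ j ∈ range (N + 1), (1 : ℝ) := by
        refine Finset.sum_le_sum fun j _ => ?_
        rw [Finset.sum_ite, Finset.sum_const_zero, add_zero, Finset.sum_const, nsmul_eq_mul, mul_one]
        have h1 : ((range (N + 1)).filter fun l : ℕ => k = (j : ℤ) - (l : ℤ)).card ≤ 1 := by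
          rw [Finset.card_le_one]
          intro a ha b hb
          have h2 := (Finset.mem_filter.1 ha).2
          have h3 := (Finset.mem_filter.1 hb).2
          have : (a : ℤ) = b := by linarith
          exact_mod_cast this
        exact_mod_cast h1
    _ = N + 1 := by simp

theorem le_cnt_nat (N m : ℕ) : (N + 1 : ℝ) - m ≤ cnt N (m : ℤ) := by
  rw [cnt, Finset.sum_comm]
  have h1 : ∀ l ∈ range (N + 1 - m), (1 : ℝ) ≤ ∑ j ∈ range (N + 1), if (m : ℤ) = (j : ℤ) - l then 1 else 0 := by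
    intro l hl
    rw [Finset.mem_range] at hl
    have h2 : l + m ∈ range (N + 1) := Finset.mem_range.2 (by omega)
    have h3 := Finset.single_le_sum (f := fun j : ℕ => if (m : ℤ) = (j : ℤ) - l then (1 : ℝ) else 0)
      (fun j _ => by split_ifs <;> norm_num) h2
    refine le_trans (le_of_eq ?_) h3
    rw [if_pos]
    push_cast
    ring
  have h4 : (N + 1 : ℝ) - m ≤ ((N + 1 - m : ℕ) : ℝ) := by
    rcases le_total m (N + 1) with h | h
    · rw [Nat.cast_sub h]; push_cast; exact le_rfl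
    · rw [Nat.sub_eq_zero_of_le h]
      have : ((N + 1 : ℕ) : ℝ) ≤ m := by exact_mod_cast h
      push_cast at this ⊢
      linarith
  refine h4.trans ?_
  calc ((N + 1 - m : ℕ) : ℝ) = ∑ l ∈ range (N + 1 - m), (1 : ℝ) := by simp
    _ ≤ ∑ l ∈ range (N + 1 - m), ∑ j ∈ range (N + 1), (if (m : ℤ) = (j : ℤ) - l then (1 : ℝ) else 0) :=
        Finset.sum_le_sum h1
    _ ≤ _ := by
        refine Finset.sum_le_sum_of_subset_of_nonneg ?_ fun l _ _ =>
          Finset.sum_nonneg fun j _ => by split_ifs <;> norm_num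
        intro l hl
        rw [Finset.mem_range] at hl ⊢
        omega

theorem cnt_neg (N : ℕ) (k : ℤ) : cnt N (-k) = cnt N k := by
  rw [cnt, Finset.sum_comm, cnt]
  refine Finset.sum_congr rfl fun j _ => Finset.sum_congr rfl fun l _ => ?_
  have : (-k = (l : ℤ) - j) ↔ (k = (j : ℤ) - l) := by constructor <;> intro h <;> linarith
  simp only [this]

theorem le_cnt (N : ℕ) (k : ℤ) : (N + 1 : ℝ) - |(k : ℝ)| ≤ cnt N k := by
  rcases le_total 0 k with h | h
  · obtain ⟨m, rfl⟩ := Int.eq_ofNat_of_zero_le h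
    have := le_cnt_nat N m
    simpa using this
  · obtain ⟨m, hm⟩ := Int.eq_ofNat_of_zero_le (neg_nonneg.2 h)
    have h1 := le_cnt_nat N m
    rw [← hm, cnt_neg] at h1
    have h2 : |(k : ℝ)| = m := by
      have h3 : (k : ℝ) = -(m : ℝ) := by
        have : k = -(m : ℤ) := by linarith
        rw [this]; push_cast; ring
      rw [h3, abs_neg, abs_of_nonneg (Nat.cast_nonneg m)]
    rw [h2]
    exact h1

/-- Trigonometric polynomials with spectrum in `S`. -/
def TP (S : Set ℤ) : Submodule ℂ C(UnitAddCircle, ℂ) :=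
  Submodule.span ℂ {f | ∃ k ∈ S, f = (fourier k : C(UnitAddCircle, ℂ))}

theorem fourier_mem_TP {S : Set ℤ} {k : ℤ} (hk : k ∈ S) :
    (fourier k : C(UnitAddCircle, ℂ)) ∈ TP S := Submodule.subset_span ⟨k, hk, rfl⟩

theorem TP_le_CE (S : Set ℤ) : TP S ≤ CE S := by
  rw [TP, Submodule.span_le]
  rintro f ⟨k, hk, rfl⟩
  intro m hm
  have h1 : coeffL m (fourier k : C(UnitAddCircle, ℂ)) = 0 := by
    rw [coeffL_fourier, if_neg]
    rintro rfl
    exact hm hk
  exact h1

theorem fej_mem {S : Set ℤ} (N : ℕ) {g : C(UnitAddCircle, ℂ)} (hg : g ∈ CE S) : fej N g ∈ TP S := by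
  refine Submodule.sum_mem _ fun j _ => Submodule.sum_mem _ fun l _ => ?_
  by_cases h : (j : ℤ) - l ∈ S
  · exact Submodule.smul_mem _ _ (fourier_mem_TP h)
  · rw [(mem_CE.1 hg) _ h, czero_smul]
    exact Submodule.zero_mem _

/-- The multiplier which is `1` on a finite set. -/
def vp (N : ℕ) (s : Finset ℤ) (g : C(UnitAddCircle, ℂ)) : C(UnitAddCircle, ℂ) :=
  ((N + 1 : ℝ) : ℂ)⁻¹ • fej N g
    + ∑ k ∈ s, ((((1 - cnt N k / (N + 1)) : ℝ) : ℂ) * coeffL k g) • fourier k

theorem vp_mem {S : Set ℤ} (N : ℕ) (s : Finset ℤ) {g : C(UnitAddCircle, ℂ)} (hg : g ∈ CE S) :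
    vp N s g ∈ TP S := by
  refine Submodule.add_mem _ (Submodule.smul_mem _ _ (fej_mem N hg)) (Submodule.sum_mem _ fun k _ => ?_)
  by_cases h : k ∈ S
  · exact Submodule.smul_mem _ _ (fourier_mem_TP h)
  · rw [(mem_CE.1 hg) _ h, mul_zero, czero_smul]
    exact Submodule.zero_mem _

theorem norm_coeffL_le (k : ℤ) (g : C(UnitAddCircle, ℂ)) : ‖coeffL k g‖ ≤ ‖g‖ := by
  have h := (coeffL k).le_of_opNorm_le (LinearMap.mkContinuous_norm_le _ zero_le_one _) g
  rwa [one_mul] at h

theorem exists_N (s : Finset ℤ) : ∃ N : ℕ, ∀ g, ‖vp N s g‖ ≤ 2 * ‖g‖ := by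
  obtain ⟨N, hN⟩ := exists_nat_gt (∑ k ∈ s, |(k : ℝ)|)
  refine ⟨N, fun g => ?_⟩
  have hN1 : (0 : ℝ) < N + 1 := by positivity
  rw [vp]
  refine (norm_add_le _ _).trans ?_
  have h1 : ‖((N + 1 : ℝ) : ℂ)⁻¹ • fej N g‖ ≤ ‖g‖ := by
    rw [norm_smul, norm_inv, Complex.norm_real, Real.norm_eq_abs, abs_of_pos hN1, inv_mul_le_iff₀ hN1]
    exact norm_fej_le N g
  have h2 : ‖∑ k ∈ s, ((((1 - cnt N k / (N + 1)) : ℝ) : ℂ) * coeffL k g) • (fourier k : C(UnitAddCircle, ℂ))‖
      ≤ ‖g‖ := by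
    refine (norm_sum_le _ _).trans ?_
    have h3 : ∀ k ∈ s, ‖((((1 - cnt N k / (N + 1)) : ℝ) : ℂ) * coeffL k g) • (fourier k : C(UnitAddCircle, ℂ))‖
        ≤ |(k : ℝ)| / (N + 1) * ‖g‖ := by
      intro k _
      rw [norm_smul, norm_mul, fourier_norm, mul_one, Complex.norm_real, Real.norm_eq_abs]
      have h4 : |1 - cnt N k / (N + 1)| ≤ |(k : ℝ)| / (N + 1) := by
        have h5 := cnt_le N k
        have h6 := le_cnt N k
        rw [abs_le]
        constructor
        · have : cnt N k / (N + 1) ≤ 1 := by rw [div_le_one hN1]; exact h5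
          have h7 : 0 ≤ |(k : ℝ)| / (N + 1) := by positivity
          linarith
        · rw [sub_le_iff_le_add, ← add_div, le_div_iff₀ hN1]
          linarith
      exact mul_le_mul h4 (norm_coeffL_le k g) (norm_nonneg _) (by positivity)
    refine (Finset.sum_le_sum h3).trans ?_
    rw [← Finset.sum_mul, ← Finset.sum_div]
    have h8 : (∑ k ∈ s, |(k : ℝ)|) / (N + 1) ≤ 1 := by
      rw [div_le_one hN1]
      linarith
    calc (∑ k ∈ s, |(k : ℝ)|) / (N + 1) * ‖g‖ ≤ 1 * ‖g‖ := mul_le_mul_of_nonneg_right h8 (norm_nonneg _)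
      _ = ‖g‖ := one_mul _
  linarith

/-- Two functions with the same Fourier coefficients are equal. -/
theorem ext_coeff {f g : C(UnitAddCircle, ℂ)} (h : ∀ k, coeffL k f = coeffL k g) : f = g := by
  have h1 : ∀ k, coeffL k (f - g) = 0 := fun k => by rw [map_sub, h, sub_self]
  have h2 := hasSum_fourier_series_of_summable (f := f - g) (by
    have : fourierCoeff (↑(f - g) : UnitAddCircle → ℂ) = fun _ => 0 := by
      funext k; exact h1 k
    rw [this]; exact summable_zero)
  have h3 : ∀ k, fourierCoeff (↑(f - g) : UnitAddCircle → ℂ) k • (fourier k : C(UnitAddCircle, ℂ)) = 0 := by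
    intro k
    have : fourierCoeff (↑(f - g) : UnitAddCircle → ℂ) k = 0 := h1 k
    rw [this, czero_smul]
  simp only [h3] at h2
  exact sub_eq_zero.1 (h2.unique hasSum_zero)

theorem vp_fourier {N : ℕ} {s : Finset ℤ} {k : ℤ} (hk : k ∈ s) :
    vp N s (fourier k) = fourier k := by
  apply ext_coeff
  intro m
  have hN1 : ((N + 1 : ℝ) : ℂ) ≠ 0 := by
    have : (0 : ℝ) < N + 1 := by positivity
    exact_mod_cast this.ne'
  rw [vp, map_add, map_smul, coeff_fej, map_sum, coeffL_fourier]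
  by_cases hmk : m = k
  · subst hmk
    rw [if_pos rfl, Finset.sum_eq_single m]
    · rw [map_smul, coeffL_fourier, if_pos rfl]
      simp only [smul_eq_mul, mul_one]
      push_cast
      push_cast at hN1
      field_simp
      ring
    · intro l _ hlm
      rw [map_smul, coeffL_fourier, coeffL_fourier, if_neg hlm]
      simp
    · intro h; exact absurd hk h
  · rw [if_neg hmk, mul_zero, smul_zero, zero_add]
    refine Finset.sum_eq_zero fun l _ => ?_
    rw [map_smul, coeffL_fourier, coeffL_fourier]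
    by_cases hlk : l = k
    · subst hlk
      rw [if_neg hmk, smul_zero]
    · rw [if_neg hlk, mul_zero, zero_smul]

end Pool.Agent.Lib_helper87.Tilf.Cha
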