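import Pool.Agent.Lib_helper23.TILF.Exact
import Pool.Agent.Lib_helper23.TILF.Fejer
import Pool.Agent.Lib_helper87.Tilf.Positive

/-!
From trigonometric polynomials to all functions and back; automatic continuity and decay.
-/

noncomputable section

namespace Pool.Agent.Lib_helper87.Tilf.Cha

open MeasureTheory AddCircle Topology Finset Filter

/-- The multiplier of `vp`. -/
def wv (N : ℕ) (s : Finset ℤ) (m : ℤ) : ℂ :=
  ((N + 1 : ℝ) : ℂ)⁻¹ * (cnt N m : ℂ) + if m ∈ s then (((1 - cnt N m / (N + 1)) : ℝ) : ℂ) else 0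

theorem coeff_vp (N : ℕ) (s : Finset ℤ) (g : C(UnitAddCircle, ℂ)) (m : ℤ) :
    coeffL m (vp N s g) = wv N s m * coeffL m g := by
  rw [vp, map_add, map_smul, coeff_fej, map_sum, wv, add_mul, smul_eq_mul, mul_assoc]
  congr 1
  have h1 : ∀ k ∈ s, coeffL m (((((1 - cnt N k / (N + 1)) : ℝ) : ℂ) * coeffL k g) •
      (fourier k : C(UnitAddCircle, ℂ)))
      = if k = m then (((1 - cnt N m / (N + 1)) : ℝ) : ℂ) * coeffL m g else 0 := by
    intro k _
    rw [map_smul, coeffL_fourier]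
    by_cases h : m = k
    · subst h; simp
    · rw [if_neg h, if_neg (Ne.symm h), smul_zero]
  rw [Finset.sum_congr rfl h1, Finset.sum_ite_eq']
  by_cases h : m ∈ s
  · rw [if_pos h, if_pos h]
  · rw [if_neg h, if_neg h, zero_mul]

theorem vp_add (N : ℕ) (s : Finset ℤ) (f g : C(UnitAddCircle, ℂ)) :
    vp N s (f + g) = vp N s f + vp N s g :=
  ext_coeff fun m => by rw [coeff_vp, map_add, map_add, coeff_vp, coeff_vp, mul_add]

theorem vp_sub (N : ℕ) (s : Finset ℤ) (f g : C(UnitAddCircle, ℂ)) :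
    vp N s (f - g) = vp N s f - vp N s g :=
  ext_coeff fun m => by rw [coeff_vp, map_sub, map_sub, coeff_vp, coeff_vp, mul_sub]

theorem vp_smul (N : ℕ) (s : Finset ℤ) (c : ℂ) (f : C(UnitAddCircle, ℂ)) :
    vp N s (c • f) = c • vp N s f :=
  ext_coeff fun m => by
    rw [coeff_vp, map_smul, map_smul, coeff_vp, smul_eq_mul, smul_eq_mul]; ring

theorem vp_sum (N : ℕ) (s : Finset ℤ) {ι : Type*} (t : Finset ι) (f : ι → C(UnitAddCircle, ℂ)) :
    vp N s (∑ i ∈ t, f i) = ∑ i ∈ t, vp N s (f i) :=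
  ext_coeff fun m => by
    rw [coeff_vp, map_sum, map_sum, Finset.mul_sum]
    exact Finset.sum_congr rfl fun i _ => (coeff_vp N s (f i) m).symm

theorem vp_translate (N : ℕ) (s : Finset ℤ) (a : UnitAddCircle) (f : C(UnitAddCircle, ℂ)) :
    vp N s (translate a f) = translate a (vp N s f) :=
  ext_coeff fun m => by
    rw [coeff_vp, coeff_translate, coeff_translate, coeff_vp]; ring

theorem TP_mono {S T : Set ℤ} (h : S ⊆ T) : TP S ≤ TP T :=
  Submodule.span_mono fun _ ⟨k, hk, hf⟩ => ⟨k, h hk, hf⟩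

theorem exists_finset {S : Set ℤ} {f : C(UnitAddCircle, ℂ)} (hf : f ∈ TP S) :
    ∃ s : Finset ℤ, ∀ N, vp N s f = f := by
  classical
  have h1 : ∃ s : Finset ℤ, f ∈ TP (s : Set ℤ) := by
    refine Submodule.span_induction (p := fun f _ => ∃ s : Finset ℤ, f ∈ TP (s : Set ℤ))
      ?_ ?_ ?_ ?_ hf
    · rintro f ⟨k, hk, rfl⟩
      exact ⟨{k}, fourier_mem_TP (by simp)⟩
    · exact ⟨∅, Submodule.zero_mem _⟩
    · rintro x y _ _ ⟨s, hs⟩ ⟨t, ht⟩
      refine ⟨s ∪ t, Submodule.add_mem _ (TP_mono ?_ hs) (TP_mono ?_ ht)⟩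
      · intro k hk; simp at hk ⊢; exact Or.inl hk
      · intro k hk; simp at hk ⊢; exact Or.inr hk
    · rintro c x _ ⟨s, hs⟩
      exact ⟨s, Submodule.smul_mem _ _ hs⟩
  obtain ⟨s, hs⟩ := h1
  refine ⟨s, fun N => ?_⟩
  refine Submodule.span_induction (p := fun f _ => vp N s f = f) ?_ ?_ ?_ ?_ hs
  · rintro f ⟨k, hk, rfl⟩
    exact vp_fourier (by exact_mod_cast hk)
  · have h2 := vp_smul N s 0 0
    rw [czero_smul, czero_smul] at h2
    exact h2
  · intro x y _ _ hx hy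
    rw [vp_add, hx, hy]
  · intro c x _ hx
    rw [vp_smul, hx]

theorem CE_subset_closure (S : Set ℤ) : (CE S : Set C(UnitAddCircle, ℂ)) ⊆ closure (TP S) := by
  intro f hf
  rw [Metric.mem_closure_iff]
  intro ε hε
  have h1 : f ∈ (Submodule.span ℂ (Set.range (@fourier (1 : ℝ)))).topologicalClosure := by
    rw [span_fourier_closure_eq_top]; trivial
  have h2 : f ∈ closure ((Submodule.span ℂ (Set.range (@fourier (1 : ℝ))) : Set C(UnitAddCircle, ℂ))) := h1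
  obtain ⟨p, hp, hpf⟩ := Metric.mem_closure_iff.1 h2 (ε / 3) (by positivity)
  have hp' : p ∈ TP Set.univ := by
    refine Submodule.span_mono ?_ hp
    rintro _ ⟨k, rfl⟩
    exact ⟨k, trivial, rfl⟩
  obtain ⟨s, hs⟩ := exists_finset hp'
  obtain ⟨N, hN⟩ := exists_N s
  refine ⟨vp N s f, vp_mem N s hf, ?_⟩
  rw [dist_eq_norm] at hpf ⊢
  have h3 : f - vp N s f = (f - p) - vp N s (f - p) := by
    rw [vp_sub, hs N]; abel
  rw [h3]
  have h4 := hN (f - p)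
  calc ‖(f - p) - vp N s (f - p)‖ ≤ ‖f - p‖ + ‖vp N s (f - p)‖ := norm_sub_le _ _
    _ ≤ 3 * ‖f - p‖ := by linarith
    _ < ε := by linarith

/-- Decay for trigonometric polynomials. -/
def DecP (S : Set ℤ) (n : ℕ) (C σ : ℝ) : Prop :=
  ∀ f ∈ TP S, ∃ a : Fin n → UnitAddCircle, ∀ R : ℕ, 1 ≤ R → ‖av R n a f‖ ≤ C * (R : ℝ) ^ (-σ) * ‖f‖

theorem isClosed_dec (n : ℕ) (C σ : ℝ) : IsClosed {f : C(UnitAddCircle, ℂ) |
    ∃ a : Fin n → UnitAddCircle, ∀ R : ℕ, 1 ≤ R → ‖av R n a f‖ ≤ C * (R : ℝ) ^ (-σ) * ‖f‖} := by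
  have h1 : {f : C(UnitAddCircle, ℂ) | ∃ a : Fin n → UnitAddCircle, ∀ R : ℕ, 1 ≤ R →
      ‖av R n a f‖ ≤ C * (R : ℝ) ^ (-σ) * ‖f‖}
      = Prod.snd '' {p : (Fin n → UnitAddCircle) × C(UnitAddCircle, ℂ) |
        ∀ R : ℕ, 1 ≤ R → ‖av R n p.1 p.2‖ ≤ C * (R : ℝ) ^ (-σ) * ‖p.2‖} := by
    ext f
    constructor
    · rintro ⟨a, ha⟩
      exact ⟨(a, f), ha, rfl⟩
    · rintro ⟨⟨a, f'⟩, ha, rfl⟩
      exact ⟨a, ha⟩
  rw [h1]
  apply isClosedMap_snd_of_compactSpace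
  have h2 : {p : (Fin n → UnitAddCircle) × C(UnitAddCircle, ℂ) |
      ∀ R : ℕ, 1 ≤ R → ‖av R n p.1 p.2‖ ≤ C * (R : ℝ) ^ (-σ) * ‖p.2‖}
      = ⋂ R : ℕ, ⋂ _ : 1 ≤ R, {p : (Fin n → UnitAddCircle) × C(UnitAddCircle, ℂ) |
        ‖av R n p.1 p.2‖ ≤ C * (R : ℝ) ^ (-σ) * ‖p.2‖} := by
    ext q; simp only [Set.mem_ofPred_eq, Set.mem_iInter]
  rw [h2]
  refine isClosed_iInter (fun R => isClosed_iInter (fun _ => ?_))
  refine isClosed_le ?_ (by fun_prop)
  exact (continuous_av R n).norm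

theorem dec_of_decP {S : Set ℤ} {n : ℕ} {C σ : ℝ} (h : DecP S n C σ) : Dec S n C σ := by
  intro f hf
  exact closure_minimal (fun p hp => h p hp) (isClosed_dec n C σ) (CE_subset_closure S hf)

theorem decP_of_dec {S : Set ℤ} {n : ℕ} {C σ : ℝ} (h : Dec S n C σ) : DecP S n C σ :=
  fun f hf => h f (TP_le_CE S hf)

/-- Sums of `n` differences of trigonometric polynomials. -/
def ExactP (S : Set ℤ) (n : ℕ) (C : ℝ) : Prop :=
  ∀ f ∈ TP S, ∃ (a : Fin n → UnitAddCircle) (g : Fin n → C(UnitAddCircle, ℂ)),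
    (∀ i, g i ∈ TP S ∧ ‖g i‖ ≤ C * ‖f‖) ∧ f = ∑ i, (g i - translate (a i) (g i))

theorem exactP_of_exact {S : Set ℤ} {n : ℕ} {C : ℝ} (h : Exact S n C) : ExactP S n (2 * C) := by
  intro f hf
  obtain ⟨a, g, hg, hsum⟩ := h f (TP_le_CE S hf)
  obtain ⟨s, hs⟩ := exists_finset hf
  obtain ⟨N, hN⟩ := exists_N s
  refine ⟨a, fun i => vp N s (g i), fun i => ⟨vp_mem N s (hg i).1, ?_⟩, ?_⟩
  · refine (hN _).trans ?_
    have := (hg i).2
    linarith
  · calc f = vp N s f := (hs N).symm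
      _ = vp N s (∑ i, (g i - translate (a i) (g i))) := by rw [← hsum]
      _ = _ := by
        rw [vp_sum]
        exact Finset.sum_congr rfl fun i _ => by rw [vp_sub, vp_translate]

theorem decP_of_exactP {S : Set ℤ} {n : ℕ} {C : ℝ} (h : ExactP S n C) :
    DecP S n (2 * n * C) 1 := by
  intro f hf
  obtain ⟨a, g, hg, hsum⟩ := h f hf
  refine ⟨a, fun R hR => ?_⟩
  have hR' : (0 : ℝ) < R := by exact_mod_cast hR
  refine (norm_av_of_sum hR n a g f hsum).trans ?_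
  have h1 : ∑ i, 2 * ‖g i‖ ≤ n * (2 * (C * ‖f‖)) := by
    calc ∑ i, 2 * ‖g i‖ ≤ ∑ _i : Fin n, 2 * (C * ‖f‖) := by
          refine Finset.sum_le_sum fun i _ => ?_
          have := (hg i).2
          linarith
      _ = n * (2 * (C * ‖f‖)) := by
          rw [Finset.sum_const, Finset.card_univ, Fintype.card_fin, nsmul_eq_mul]
  calc (∑ i, 2 * ‖g i‖) / R ≤ (n * (2 * (C * ‖f‖))) / R := by gcongr
    _ = 2 * n * C * (R : ℝ) ^ (-1 : ℝ) * ‖f‖ := by rw [Real.rpow_neg_one]; ring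

theorem automaticContinuity_of_exact {E : Set ℤ} {n : ℕ} {C : ℝ} (h : Exact (E \ {0}) n C) :
    AutomaticContinuity E := by
  intro Φ hΦ
  refine continuous_of_vanish Φ fun f hf => ?_
  have hfS : f.1 ∈ CE (E \ {0}) := by
    rw [mem_CE]
    intro k hk
    by_cases h0 : k = 0
    · rw [h0]; exact hf
    · exact (mem_CE.1 f.2) k fun hkE => hk ⟨hkE, h0⟩
  obtain ⟨a, g, hg, hsum⟩ := h f.1 hfS
  have hgE : ∀ i, g i ∈ CE E := fun i => by
    rw [mem_CE]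
    intro k hk
    exact (mem_CE.1 (hg i).1) k fun hkE => hk hkE.1
  set G : Fin n → CE E := fun i => ⟨g i, hgE i⟩ with hG
  have hf' : f = ∑ i, (G i - tr (a i) (G i)) := by
    apply Subtype.ext
    rw [AddSubmonoidClass.coe_finsetSum, hsum]
    rfl
  have h1 : Φ f = ∑ i, Φ (G i - tr (a i) (G i)) := by
    conv_lhs => rw [hf']
    exact map_sum Φ _ _
  rw [h1]
  refine Finset.sum_eq_zero fun i _ => ?_
  have e2 : Φ (G i - tr (a i) (G i)) = Φ (G i) - Φ (tr (a i) (G i)) := phi_sub Φ _ _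
  rw [e2, hΦ (a i) (G i) (tr (a i) (G i)) rfl, sub_self]

theorem dec_of_automaticContinuity {E : Set ℤ} (hAC : AutomaticContinuity E) :
    ∃ (n : ℕ) (C : ℝ), 0 ≤ C ∧ Dec (E \ {0}) n C 1 := by
  have hcov : ⋃ n, GSet E n = Set.univ := by
    rw [Set.eq_univ_iff_forall]
    intro f
    have hfE : f.1 ∈ CE E := by
      intro k hk
      exact f.2 k (fun h => hk h.1)
    have hf0 : coeffL 0 f.1 = 0 := f.2 0 (fun h => h.2 rfl)
    obtain ⟨n, hn⟩ := mem_GSet_of_span f ⟨f.1, hfE⟩ rfl (mem_span_differences hAC ⟨f.1, hfE⟩ hf0)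
    exact Set.mem_iUnion.mpr ⟨n, hn⟩
  obtain ⟨n, f₀, hf₀⟩ := nonempty_interior_of_iUnion_of_closed (fun n => isClosed_GSet E n) hcov
  rw [mem_interior_iff_mem_nhds] at hf₀
  obtain ⟨r, hr, hball⟩ : ∃ r > 0, ∀ f : CE (E \ {0}), ‖f.1 - f₀.1‖ < r → f ∈ GSet E n := by
    obtain ⟨r, hr, h⟩ := Metric.mem_nhds_iff.mp hf₀
    refine ⟨r, hr, fun f hf => h ?_⟩
    rw [Metric.mem_ball, Subtype.dist_eq, dist_eq_norm]
    exact hf
  refine ⟨n + n, 4 * n / r, by positivity, fun f hf => ?_⟩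
  by_cases hf0 : f = 0
  · refine ⟨fun _ => 0, fun R _ => ?_⟩
    rw [hf0, av_zero, norm_zero, mul_zero]
  have hfn : 0 < ‖f‖ := norm_pos_iff.2 hf0
  set s : ℂ := ((r / (2 * ‖f‖) : ℝ) : ℂ) with hs
  have hsn : ‖s‖ = r / (2 * ‖f‖) := by
    rw [hs, Complex.norm_real, Real.norm_eq_abs, abs_of_pos (by positivity)]
  have hsh : ‖s • f‖ < r := by
    rw [norm_smul, hsn]
    have : r / (2 * ‖f‖) * ‖f‖ = r / 2 := by field_simp
    rw [this]
    linarith
  obtain ⟨a, ha⟩ := hball ⟨f₀.1 + s • f, Submodule.add_mem _ f₀.2 (Submodule.smul_mem _ s hf)⟩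
    (by simpa using hsh)
  obtain ⟨b, hb⟩ := hball f₀ (by simpa using hr)
  obtain ⟨c, hc⟩ := exists_append a b
  refine ⟨c, fun R hR => ?_⟩
  have hR' : (0 : ℝ) < R := by exact_mod_cast hR
  have ha' := ha R hR
  have hb' := hb R hR
  simp only at ha'
  rw [hc]
  have h2 : av R n a (av R n b (s • f)) = av R n b (av R n a (f₀.1 + s • f)) - av R n a (av R n b f₀.1) := by
    rw [av_comm R n b R n a, ← av_sub, ← av_sub, add_sub_cancel_left]
  have h3 : ‖av R n a (av R n b (s • f))‖ ≤ n / R + n / R := by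
    rw [h2]
    refine (norm_sub_le _ _).trans ?_
    exact add_le_add ((norm_av_le hR n b _).trans ha') ((norm_av_le hR n a _).trans hb')
  rw [av_smul, av_smul, norm_smul, hsn] at h3
  rw [Real.rpow_neg_one]
  have h4 : ‖av R n a (av R n b f)‖ = (2 * ‖f‖ / r) * (r / (2 * ‖f‖) * ‖av R n a (av R n b f)‖) := by
    field_simp
  rw [h4]
  calc (2 * ‖f‖ / r) * (r / (2 * ‖f‖) * ‖av R n a (av R n b f)‖)
      ≤ (2 * ‖f‖ / r) * (n / R + n / R) := mul_le_mul_of_nonneg_left h3 (by positivity)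
    _ = 4 * n / r * (R : ℝ)⁻¹ * ‖f‖ := by ring

end Pool.Agent.Lib_helper87.Tilf.Cha
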