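import Pool.Agent.Lib_helper87.Tilf.NonAuto

/-!
`h - (box average of h)` is a sum of differences with control of the norms; appending translations.
-/

noncomputable section

namespace Pool.Agent.Lib_helper87.Tilf.Cha

open MeasureTheory AddCircle Topology Finset

theorem csub (c : ℂ) (f g : C(UnitAddCircle, ℂ)) : c • (f - g) = c • f - c • g := smul_sub c f g

theorem translate_sum' {ι : Type*} (s : Finset ι) (a : UnitAddCircle) (f : ι → C(UnitAddCircle, ℂ)) :
    translate a (∑ i ∈ s, f i) = ∑ i ∈ s, translate a (f i) := by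
  classical
  induction s using Finset.induction_on with
  | empty => ext t; simp [translate_apply]
  | insert i s hi ih => rw [Finset.sum_insert hi, Finset.sum_insert hi, translate_add, ih]

theorem av1_mem {F : Set ℤ} (R : ℕ) (a : UnitAddCircle) {h : C(UnitAddCircle, ℂ)} (hh : h ∈ CE F) :
    av1 R a h ∈ CE F :=
  Submodule.smul_mem _ _ (Submodule.sum_mem _ fun _ _ => translate_mem _ hh)

theorem av_mem {F : Set ℤ} (R : ℕ) : ∀ (n : ℕ) (a : Fin n → UnitAddCircle) {h : C(UnitAddCircle, ℂ)},
    h ∈ CE F → av R n a h ∈ CE F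
  | 0, _, _, hh => hh
  | n + 1, a, _, hh => av1_mem R (a 0) (av_mem R n (Fin.tail a) hh)

theorem sub_av1 {F : Set ℤ} {R : ℕ} (hR : 1 ≤ R) (a : UnitAddCircle) {h : C(UnitAddCircle, ℂ)}
    (hh : h ∈ CE F) : ∃ g ∈ CE F, ‖g‖ ≤ R * ‖h‖ ∧ h - av1 R a h = g - translate a g := by
  have hR' : (0 : ℝ) < R := by exact_mod_cast hR
  have hRc : (R : ℂ) ≠ 0 := by
    have : R ≠ 0 := by omega
    exact_mod_cast this
  refine ⟨(R : ℂ)⁻¹ • ∑ j ∈ range R, ∑ i ∈ range j, translate (i • a) h, ?_, ?_, ?_⟩
  · exact Submodule.smul_mem _ _ (Submodule.sum_mem _ fun _ _ => Submodule.sum_mem _ fun _ _ =>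
      translate_mem _ hh)
  · rw [norm_smul, norm_inv, Complex.norm_natCast]
    have h1 : ‖∑ j ∈ range R, ∑ i ∈ range j, translate (i • a) h‖ ≤ R * (R * ‖h‖) := by
      refine (norm_sum_le _ _).trans ?_
      calc ∑ j ∈ range R, ‖∑ i ∈ range j, translate (i • a) h‖
          ≤ ∑ j ∈ range R, (R : ℝ) * ‖h‖ := by
            refine Finset.sum_le_sum fun j hj => (norm_sum_le _ _).trans ?_
            calc ∑ i ∈ range j, ‖translate (i • a) h‖ ≤ ∑ i ∈ range j, ‖h‖ :=
                  Finset.sum_le_sum fun i _ => norm_translate _ _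
              _ = j * ‖h‖ := by rw [Finset.sum_const, Finset.card_range, nsmul_eq_mul]
              _ ≤ R * ‖h‖ := by
                have : (j : ℝ) ≤ R := by exact_mod_cast (Finset.mem_range.1 hj).le
                exact mul_le_mul_of_nonneg_right this (norm_nonneg _)
        _ = R * (R * ‖h‖) := by rw [Finset.sum_const, Finset.card_range, nsmul_eq_mul]
    calc (R : ℝ)⁻¹ * ‖∑ j ∈ range R, ∑ i ∈ range j, translate (i • a) h‖
        ≤ (R : ℝ)⁻¹ * (R * (R * ‖h‖)) := by gcongr
      _ = R * ‖h‖ := by field_simp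
  · have h1 : ∀ j, (∑ i ∈ range j, translate (i • a) h) - translate a (∑ i ∈ range j, translate (i • a) h)
        = h - translate (j • a) h := by
      intro j
      rw [translate_sum', ← Finset.sum_sub_distrib]
      have h2 : ∀ i, translate (i • a) h - translate a (translate (i • a) h)
          = translate (i • a) h - translate ((i + 1) • a) h := by
        intro i
        rw [translate_translate, succ_nsmul, add_comm a]
      simp_rw [h2]
      rw [Finset.sum_range_sub' (fun i => translate (i • a) h) j, zero_smul, translate_zero]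
    rw [translate_smul, ← csub, translate_sum', ← Finset.sum_sub_distrib]
    simp_rw [h1]
    rw [Finset.sum_sub_distrib, Finset.sum_const, Finset.card_range, csub, av1]
    have h3 : (R : ℂ)⁻¹ • (R • h) = h := by
      ext t
      have e1 : ((R : ℂ)⁻¹ • (R • h)) t = (R : ℂ)⁻¹ * (R • h t) := rfl
      rw [e1, nsmul_eq_mul]
      field_simp
    rw [h3]

theorem sub_av {F : Set ℤ} {R : ℕ} (hR : 1 ≤ R) : ∀ (n : ℕ) (a : Fin n → UnitAddCircle)
    {h : C(UnitAddCircle, ℂ)}, h ∈ CE F → ∃ g : Fin n → C(UnitAddCircle, ℂ),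
      (∀ i, g i ∈ CE F ∧ ‖g i‖ ≤ R * ‖h‖) ∧ h - av R n a h = ∑ i, (g i - translate (a i) (g i))
  | 0, _, h, _ => ⟨Fin.elim0, fun i => i.elim0, by simp [av]⟩
  | n + 1, a, h, hh => by
    obtain ⟨g, hg, hsum⟩ := sub_av hR n (Fin.tail a) hh
    obtain ⟨g0, hg0, hn0, h0⟩ := sub_av1 hR (a 0) (av_mem R n (Fin.tail a) hh)
    refine ⟨Fin.cons g0 g, ?_, ?_⟩
    · intro i
      refine Fin.cases ?_ (fun j => ?_) i
      · rw [Fin.cons_zero]
        exact ⟨hg0, hn0.trans (mul_le_mul_of_nonneg_left (norm_av_le hR _ _ _) (Nat.cast_nonneg _))⟩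
      · rw [Fin.cons_succ]; exact hg j
    · rw [Fin.sum_univ_succ]
      simp only [Fin.cons_zero, Fin.cons_succ]
      rw [← h0, av]
      have h2 : ∑ i : Fin n, (g i - translate (a i.succ) (g i)) = h - av R n (Fin.tail a) h := by
        rw [hsum]; rfl
      rw [h2]
      abel

/-- box averages along a list of translations. -/
def avl (R : ℕ) : List UnitAddCircle → C(UnitAddCircle, ℂ) → C(UnitAddCircle, ℂ)
  | [], f => f
  | a :: l, f => av1 R a (avl R l f)

theorem avl_append (R : ℕ) (l l' : List UnitAddCircle) (f : C(UnitAddCircle, ℂ)) :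
    avl R (l ++ l') f = avl R l (avl R l' f) := by
  induction l with
  | nil => rfl
  | cons a l ih => simp only [List.cons_append, avl, ih]

theorem avl_ofFn (R : ℕ) : ∀ (n : ℕ) (a : Fin n → UnitAddCircle) (f : C(UnitAddCircle, ℂ)),
    avl R (List.ofFn a) f = av R n a f
  | 0, _, _ => by simp [avl, av]
  | n + 1, a, f => by
    rw [List.ofFn_succ, avl, av]
    congr 1
    exact avl_ofFn R n (Fin.tail a) f

theorem exists_fn (l : List UnitAddCircle) (k : ℕ) (hk : l.length = k) :
    ∃ c : Fin k → UnitAddCircle, ∀ (R : ℕ) (f : C(UnitAddCircle, ℂ)), av R k c f = avl R l f := by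
  subst hk
  refine ⟨l.get, fun R f => ?_⟩
  rw [← avl_ofFn, List.ofFn_get]

theorem exists_append {n m : ℕ} (a : Fin n → UnitAddCircle) (b : Fin m → UnitAddCircle) :
    ∃ c : Fin (n + m) → UnitAddCircle, ∀ (R : ℕ) (f : C(UnitAddCircle, ℂ)),
      av R (n + m) c f = av R n a (av R m b f) := by
  obtain ⟨c, hc⟩ := exists_fn (List.ofFn a ++ List.ofFn b) (n + m) (by simp)
  refine ⟨c, fun R f => ?_⟩
  rw [hc, avl_append, avl_ofFn, avl_ofFn]

theorem av_one (n : ℕ) (a : Fin n → UnitAddCircle) (f : C(UnitAddCircle, ℂ)) : av 1 n a f = f := by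
  induction n with
  | zero => rfl
  | succ n ih =>
    rw [av, ih, av1]
    simp only [Finset.range_one, Finset.sum_singleton, zero_smul, translate_zero, Nat.cast_one, inv_one]
    exact one_smul ℂ f

end Pool.Agent.Lib_helper87.Tilf.Cha
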