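import Pool.Agent.Lib_helper23.TILF.Boot
import Pool.Agent.Lib_helper87.Tilf.Cutoff

/-!
If the box averages of side `2^s` decay like `q^s` with `q < 1/2` then the function is a sum of
differences.
-/

noncomputable section

namespace Pool.Agent.Lib_helper87.Tilf.Cha

open MeasureTheory AddCircle Topology Finset Filter

/-- Iterated averages. -/
def itav (n : ℕ) (a : Fin n → UnitAddCircle) (f : C(UnitAddCircle, ℂ)) : ℕ → C(UnitAddCircle, ℂ)
  | 0 => f
  | s + 1 => av (2 ^ (s + 1)) n a (itav n a f s)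

theorem itav_mem {S : Set ℤ} (n : ℕ) (a : Fin n → UnitAddCircle) {f : C(UnitAddCircle, ℂ)}
    (hf : f ∈ CE S) : ∀ s, itav n a f s ∈ CE S
  | 0 => hf
  | s + 1 => av_mem _ n a (itav_mem n a hf s)

theorem norm_itav_le (n : ℕ) (a : Fin n → UnitAddCircle) (f : C(UnitAddCircle, ℂ)) :
    ∀ s, ‖itav n a f s‖ ≤ ‖f‖
  | 0 => le_rfl
  | s + 1 => (norm_av_le Nat.one_le_two_pow n a _).trans (norm_itav_le n a f s)

theorem itav_av (n : ℕ) (a : Fin n → UnitAddCircle) (f : C(UnitAddCircle, ℂ)) (R : ℕ) :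
    ∀ s, itav n a (av R n a f) s = av R n a (itav n a f s)
  | 0 => rfl
  | s + 1 => by rw [itav, itav, itav_av n a f R s, av_comm]

theorem norm_itav_le' (n : ℕ) (a : Fin n → UnitAddCircle) (f : C(UnitAddCircle, ℂ)) (s : ℕ) :
    ‖itav n a f s‖ ≤ ‖av (2 ^ s) n a f‖ := by
  cases s with
  | zero => rw [pow_zero, av_one]; exact le_rfl
  | succ s =>
    rw [itav, ← itav_av]
    exact norm_itav_le n a _ s

theorem exact_of_decay {S : Set ℤ} {n : ℕ} {C q : ℝ} (hC : 0 ≤ C) (hq0 : 0 ≤ q) (hq : q < 1 / 2)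
    {f : C(UnitAddCircle, ℂ)} (hf : f ∈ CE S) (a : Fin n → UnitAddCircle)
    (ha : ∀ s : ℕ, ‖av (2 ^ s) n a f‖ ≤ C * q ^ s * ‖f‖) :
    ∃ g : Fin n → C(UnitAddCircle, ℂ), (∀ i, g i ∈ CE S ∧ ‖g i‖ ≤ 2 * C / (1 - 2 * q) * ‖f‖) ∧
      f = ∑ i, (g i - translate (a i) (g i)) := by
  have hQ : ∀ s, ‖itav n a f s‖ ≤ C * q ^ s * ‖f‖ := fun s => (norm_itav_le' n a f s).trans (ha s)
  choose g hg hgs using fun s => sub_av (F := S) (R := 2 ^ (s + 1)) Nat.one_le_two_pow n a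
    (itav_mem n a hf s)
  have hb : ∀ i s, ‖g s i‖ ≤ 2 * C * ‖f‖ * (2 * q) ^ s := by
    intro i s
    refine (hg s i).2.trans ?_
    calc ((2 ^ (s + 1) : ℕ) : ℝ) * ‖itav n a f s‖ ≤ 2 ^ (s + 1) * (C * q ^ s * ‖f‖) := by
          push_cast
          exact mul_le_mul_of_nonneg_left (hQ s) (by positivity)
      _ = _ := by rw [mul_pow]; ring
  have h2q0 : 0 ≤ 2 * q := by linarith
  have h2q1 : 2 * q < 1 := by linarith
  have hgeo : HasSum (fun s : ℕ => 2 * C * ‖f‖ * (2 * q) ^ s) (2 * C * ‖f‖ * (1 - 2 * q)⁻¹) :=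
    (hasSum_geometric_of_lt_one h2q0 h2q1).mul_left _
  have hsum : ∀ i, Summable fun s => g s i := fun i =>
    Summable.of_norm_bounded hgeo.summable (hb i)
  set G : Fin n → C(UnitAddCircle, ℂ) := fun i => ∑' s, g s i with hG
  have hGs : ∀ i, HasSum (fun s => g s i) (G i) := fun i => (hsum i).hasSum
  refine ⟨G, fun i => ⟨?_, ?_⟩, ?_⟩
  · rw [mem_CE]
    intro k hk
    have h1 := (hGs i).mapL (coeffL k)
    have h2 : ∀ s, coeffL k (g s i) = 0 := fun s => (mem_CE.1 (hg s i).1) k hk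
    simp only [h2] at h1
    exact h1.unique hasSum_zero
  · refine ((hGs i).norm_le_of_bounded hgeo (hb i)).trans (le_of_eq ?_)
    ring
  · have h3 : HasSum (fun s => ∑ i, (g s i - translate (a i) (g s i)))
        (∑ i, (G i - translate (a i) (G i))) := by
      refine hasSum_sum fun i _ => ?_
      exact (hGs i).sub ((hGs i).mapL (trL (a i)))
    have h4 : (fun s => ∑ i, (g s i - translate (a i) (g s i)))
        = fun s => itav n a f s - itav n a f (s + 1) := by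
      funext s
      rw [← hgs s, itav]
    rw [h4] at h3
    have h5 := h3.tendsto_sum_nat
    have h6 : ∀ N, ∑ s ∈ range N, (itav n a f s - itav n a f (s + 1)) = f - itav n a f N := by
      intro N
      rw [Finset.sum_range_sub']
      rfl
    simp_rw [h6] at h5
    have h7 : Tendsto (fun N => itav n a f N) atTop (𝓝 0) := by
      have h8 : Tendsto (fun N : ℕ => C * q ^ N * ‖f‖) atTop (𝓝 0) := by
        have h9 := ((tendsto_pow_atTop_nhds_zero_of_lt_one hq0 (by linarith : q < 1)).const_mul C).mul_const ‖f‖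
        simpa using h9
      exact squeeze_zero_norm hQ h8
    have h10 : Tendsto (fun N => f - itav n a f N) atTop (𝓝 (f - 0)) := tendsto_const_nhds.sub h7
    rw [sub_zero] at h10
    exact tendsto_nhds_unique h10 h5

/-- Sums of `n` differences with control of the norms. -/
def Exact (S : Set ℤ) (n : ℕ) (C : ℝ) : Prop :=
  ∀ f ∈ CE S, ∃ (a : Fin n → UnitAddCircle) (g : Fin n → C(UnitAddCircle, ℂ)),
    (∀ i, g i ∈ CE S ∧ ‖g i‖ ≤ C * ‖f‖) ∧ f = ∑ i, (g i - translate (a i) (g i))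

theorem exact_of_dec {S : Set ℤ} {n : ℕ} {C σ : ℝ} (h : Dec S n C σ) (hC : 0 ≤ C) (hσ : 1 < σ) :
    ∃ C', Exact S n C' := by
  set q : ℝ := (2 : ℝ) ^ (-σ) with hq
  have hq0 : 0 ≤ q := by positivity
  have hq1 : q < 1 / 2 := by
    have h1 : (2 : ℝ) ^ (-σ) < (2 : ℝ) ^ (-1 : ℝ) :=
      Real.rpow_lt_rpow_of_exponent_lt (by norm_num) (by linarith)
    rw [Real.rpow_neg_one] at h1
    rw [hq]
    linarith
  refine ⟨2 * C / (1 - 2 * q), fun f hf => ?_⟩
  obtain ⟨a, ha⟩ := h f hf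
  have ha' : ∀ s : ℕ, ‖av (2 ^ s) n a f‖ ≤ C * q ^ s * ‖f‖ := by
    intro s
    have h1 := ha (2 ^ s) Nat.one_le_two_pow
    have h2 : (((2 ^ s : ℕ) : ℝ)) ^ (-σ) = q ^ s := by
      push_cast
      rw [hq, ← Real.rpow_natCast, ← Real.rpow_natCast, ← Real.rpow_mul (by norm_num),
        ← Real.rpow_mul (by norm_num), mul_comm]
    rwa [h2] at h1
  obtain ⟨g, hg, hs⟩ := exact_of_decay hC hq0 hq1 hf a ha'
  exact ⟨a, g, hg, hs⟩

end Pool.Agent.Lib_helper87.Tilf.Cha
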