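import Pool.Agent.Lib_helper23.TILF.Local

/-!
A set of integers which contains the finite sums of arbitrarily long systems of nonzero integers
does not have the automatic continuity property.

`h(w) = ((1 + ρ)/2) (1 - w) / (1 - ρ w)` is bounded by `1` in the unit disc, `h 0` is near `1` and
`h 1 = 0`. Its multi-affine version `Qa` (`w ^ k` replaced by the average of the products of `k`
distinct variables) has the same properties, so a product `H` over `R ^ n` disjoint blocks of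
variables is bounded by `2`, has constant coefficient at least `1/2`, and for every choice of `n`
translations there is a point at which all the `R ^ n` translates of `H` are small.
-/

set_option autoImplicit false

noncomputable section

namespace Pool.Agent.Lib_helper87.Tilf.Cha

open MeasureTheory AddCircle Topology Finset Filter

/-! ### averages over injective maps -/

/-- injective maps -/
def Inj (k b : ℕ) : Finset (Fin k → Fin b) := by
  classical
  exact Finset.univ.filter Function.Injective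

theorem mem_Inj {k b : ℕ} {f : Fin k → Fin b} : f ∈ Inj k b ↔ Function.Injective f := by
  classical
  unfold Inj
  simp

theorem card_Inj (k b : ℕ) : (Inj k b).card = b.descFactorial k := by
  classical
  have h1 : (Inj k b).card = Fintype.card {f : Fin k → Fin b // Function.Injective f} := by
    rw [Fintype.card_subtype]
    unfold Inj
    congr
  rw [h1, Fintype.card_congr (Equiv.subtypeInjectiveEquivEmbedding (Fin k) (Fin b)),
    Fintype.card_embedding_eq, Fintype.card_fin, Fintype.card_fin]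

theorem desc_ratio {b : ℕ} (hb : 0 < b) (k : ℕ) (hk : k ≤ b) :
    1 - (b.descFactorial k : ℝ) / (b : ℝ) ^ k ≤ (k : ℝ) ^ 2 / (2 * b) := by
  have hb' : (0 : ℝ) < b := by exact_mod_cast hb
  induction k with
  | zero => simp
  | succ k ih =>
    have h1 := ih (by omega)
    have h2 : (b.descFactorial (k + 1) : ℝ) = (b - k) * b.descFactorial k := by
      rw [Nat.descFactorial_succ, Nat.cast_mul, Nat.cast_sub (by omega)]
    have h3 : (b.descFactorial k : ℝ) / (b : ℝ) ^ k ≤ 1 := by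
      rw [div_le_one (by positivity)]
      exact_mod_cast Nat.descFactorial_le_pow b k
    have h4 : (b.descFactorial (k + 1) : ℝ) / (b : ℝ) ^ (k + 1) =
        (b.descFactorial k : ℝ) / (b : ℝ) ^ k - (k / b) * ((b.descFactorial k : ℝ) / (b : ℝ) ^ k) := by
      rw [h2]
      field_simp
      ring
    have h5 : ((k : ℝ) / b) * ((b.descFactorial k : ℝ) / (b : ℝ) ^ k) ≤ k / b :=
      mul_le_of_le_one_right (by positivity) h3
    have h6 : ((k : ℝ)) ^ 2 / (2 * b) + k / b ≤ ((k + 1 : ℕ) : ℝ) ^ 2 / (2 * b) := by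
      rw [div_add_div _ _ (by positivity) (by positivity), div_le_div_iff₀ (by positivity) (by positivity)]
      push_cast
      have : (0 : ℝ) ≤ 2 * b * b * 2 * b := by positivity
      nlinarith [hb', mul_pos hb' hb']
    rw [h4]
    linarith

/-- the average of the products over the injective maps -/
def ek (b k : ℕ) (z : Fin b → ℂ) : ℂ :=
  ((b.descFactorial k : ℝ) : ℂ)⁻¹ * ∑ f ∈ Inj k b, ∏ j, z (f j)

theorem norm_prod_le_one {k b : ℕ} {z : Fin b → ℂ} (hz : ∀ i, ‖z i‖ ≤ 1) (f : Fin k → Fin b) :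
    ‖∏ j, z (f j)‖ ≤ 1 := by
  rw [norm_prod]
  exact Finset.prod_le_one (fun j _ => norm_nonneg _) fun j _ => hz _

theorem ek_sub_pow {b k : ℕ} (hb : 0 < b) (hk : k ≤ b) {z : Fin b → ℂ} (hz : ∀ i, ‖z i‖ ≤ 1) :
    ‖ek b k z - ((∑ i, z i) / b) ^ k‖ ≤ (k : ℝ) ^ 2 / b := by
  classical
  have hb' : (0 : ℝ) < b := by exact_mod_cast hb
  set D : ℝ := ((b.descFactorial k : ℕ) : ℝ) with hD
  have hD0 : 0 < D := by
    rw [hD]; exact_mod_cast Nat.descFactorial_pos.2 hk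
  set T : ℝ := (b : ℝ) ^ k with hT
  have hT0 : 0 < T := by positivity
  have hDT : D ≤ T := by
    rw [hD, hT]; exact_mod_cast Nat.descFactorial_le_pow b k
  have hsplit : (∑ i, z i) ^ k = ∑ f ∈ Inj k b, ∏ j, z (f j) +
      ∑ f ∈ (Inj k b)ᶜ, ∏ j, z (f j) := by
    rw [Finset.sum_add_sum_compl]
    have h1 : (∑ i, z i) ^ k = ∏ _j : Fin k, ∑ i, z i := by simp
    rw [h1, Finset.prod_univ_sum]
    simp [Fintype.piFinset_univ]
  set A : ℂ := ∑ f ∈ Inj k b, ∏ j, z (f j) with hA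
  set B : ℂ := ∑ f ∈ (Inj k b)ᶜ, ∏ j, z (f j) with hB
  have hA1 : ‖A‖ ≤ D := by
    rw [hA, hD, ← card_Inj]
    refine (norm_sum_le _ _).trans ?_
    refine (Finset.sum_le_card_nsmul _ _ 1 fun f _ => norm_prod_le_one hz f).trans ?_
    simp
  have hB1 : ‖B‖ ≤ T - D := by
    rw [hB]
    refine (norm_sum_le _ _).trans ?_
    refine (Finset.sum_le_card_nsmul _ _ 1 fun f _ => norm_prod_le_one hz f).trans ?_
    have h2 : ((Inj k b)ᶜ).card + (Inj k b).card = b ^ k := by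
      rw [Finset.card_compl_add_card]
      simp
    have h3 : (((Inj k b)ᶜ).card : ℝ) = T - D := by
      rw [card_Inj] at h2
      have h4 : (((Inj k b)ᶜ).card : ℝ) + D = T := by
        rw [hD, hT]; exact_mod_cast h2
      linarith
    rw [nsmul_eq_mul, mul_one, h3]
  have key : ek b k z - ((∑ i, z i) / b) ^ k =
      ((1 / D - 1 / T : ℝ) : ℂ) * A - ((1 / T : ℝ) : ℂ) * B := by
    unfold ek
    rw [div_pow, hsplit, ← hA, ← hD]
    have hT1 : ((b : ℂ)) ^ k = (T : ℂ) := by rw [hT]; push_cast; rfl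
    rw [hT1]
    have hDc : (D : ℂ) ≠ 0 := by exact_mod_cast hD0.ne'
    have hTc : (T : ℂ) ≠ 0 := by exact_mod_cast hT0.ne'
    push_cast
    field_simp
    ring
  rw [key]
  refine (norm_sub_le _ _).trans ?_
  rw [norm_mul, norm_mul, Complex.norm_real, Complex.norm_real, Real.norm_eq_abs, Real.norm_eq_abs]
  have h5 : 0 ≤ 1 / D - 1 / T := by
    have := one_div_le_one_div_of_le hD0 hDT
    linarith
  rw [abs_of_nonneg h5, abs_of_pos (by positivity : 0 < 1 / T)]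
  have h6 : (1 / D - 1 / T) * ‖A‖ ≤ (1 / D - 1 / T) * D := mul_le_mul_of_nonneg_left hA1 h5
  have h7 : 1 / T * ‖B‖ ≤ 1 / T * (T - D) := mul_le_mul_of_nonneg_left hB1 (by positivity)
  have h8 : (1 / D - 1 / T) * D = 1 - D / T := by field_simp
  have h9 : 1 / T * (T - D) = 1 - D / T := by field_simp
  have h10 := desc_ratio hb k hk
  rw [← hD, ← hT] at h10
  have h11 : (k : ℝ) ^ 2 / b = 2 * ((k : ℝ) ^ 2 / (2 * b)) := by field_simp
  rw [h11]
  linarith

theorem norm_prod_sub_one_le {ι : Type*} (s : Finset ι) (u : ι → ℂ) {ε : ℝ} (hu : ∀ i ∈ s, ‖u i‖ ≤ 1)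
    (hε : ∀ i ∈ s, ‖u i - 1‖ ≤ ε) : ‖∏ i ∈ s, u i - 1‖ ≤ s.card * ε := by
  classical
  induction s using Finset.induction_on with
  | empty => simp
  | insert a s ha ih =>
    have h1 := ih (fun i hi => hu i (Finset.mem_insert_of_mem hi))
      (fun i hi => hε i (Finset.mem_insert_of_mem hi))
    rw [Finset.prod_insert ha, Finset.card_insert_of_notMem ha]
    have h2 : u a * ∏ i ∈ s, u i - 1 = u a * (∏ i ∈ s, u i - 1) + (u a - 1) := by ring
    rw [h2]
    refine (norm_add_le _ _).trans ?_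
    rw [norm_mul]
    have h3 := hu a (Finset.mem_insert_self a s)
    have h4 := hε a (Finset.mem_insert_self a s)
    have h5 : ‖u a‖ * ‖∏ i ∈ s, u i - 1‖ ≤ 1 * (s.card * ε) :=
      mul_le_mul h3 h1 (norm_nonneg _) zero_le_one
    push_cast
    linarith

theorem ek_sub_one {b k : ℕ} (hk : k ≤ b) {z : Fin b → ℂ} (hz : ∀ i, ‖z i‖ ≤ 1) {ε : ℝ}
    (hε : ∀ i, ‖z i - 1‖ ≤ ε) : ‖ek b k z - 1‖ ≤ k * ε := by
  have hD0 : (0 : ℝ) < b.descFactorial k := by exact_mod_cast Nat.descFactorial_pos.2 hk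
  have hDc : ((b.descFactorial k : ℝ) : ℂ) ≠ 0 := by exact_mod_cast hD0.ne'
  have h1 : ek b k z - 1 = ((b.descFactorial k : ℝ) : ℂ)⁻¹ * ∑ f ∈ Inj k b, (∏ j, z (f j) - 1) := by
    unfold ek
    rw [Finset.sum_sub_distrib, mul_sub]
    congr 1
    rw [Finset.sum_const, card_Inj, nsmul_eq_mul, mul_one]
    push_cast at hDc ⊢
    field_simp
  rw [h1, norm_mul, norm_inv, Complex.norm_real, Real.norm_of_nonneg hD0.le]
  have h2 : ‖∑ f ∈ Inj k b, (∏ j, z (f j) - 1)‖ ≤ b.descFactorial k * (k * ε) := by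
    refine (norm_sum_le _ _).trans ?_
    refine (Finset.sum_le_card_nsmul _ _ (k * ε) fun f _ => ?_).trans ?_
    · have h3 := norm_prod_sub_one_le (Finset.univ : Finset (Fin k)) (fun j => z (f j))
        (fun j _ => hz _) (fun j _ => hε _)
      simpa using h3
    · rw [card_Inj, nsmul_eq_mul]
  calc (b.descFactorial k : ℝ)⁻¹ * ‖∑ f ∈ Inj k b, (∏ j, z (f j) - 1)‖
      ≤ (b.descFactorial k : ℝ)⁻¹ * (b.descFactorial k * (k * ε)) :=
        mul_le_mul_of_nonneg_left h2 (by positivity)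
    _ = k * ε := by field_simp


/-! ### the Moebius function -/

/-- the truncated Moebius function -/
def Pp (ρ : ℝ) (N : ℕ) (w : ℂ) : ℂ :=
  (((1 + ρ) / 2 : ℝ) : ℂ) * (1 - ((1 - ρ : ℝ) : ℂ) * ∑ k ∈ range N, (ρ : ℂ) ^ k * w ^ (k + 1))

/-- its multi-affine version -/
def Qa (ρ : ℝ) (N b : ℕ) (z : Fin b → ℂ) : ℂ :=
  (((1 + ρ) / 2 : ℝ) : ℂ) * (1 - ((1 - ρ : ℝ) : ℂ) * ∑ k ∈ range N, (ρ : ℂ) ^ k * ek b (k + 1) z)

theorem geom_le_one (ρ : ℝ) (N : ℕ) :
    (1 - ρ) * ∑ k ∈ range N, ρ ^ k = 1 - ρ ^ N := by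
  have := mul_neg_geom_sum ρ N
  linarith

theorem norm_Pp_le {ρ : ℝ} (h0 : 0 ≤ ρ) (h1 : ρ < 1) (N : ℕ) {w : ℂ} (hw : ‖w‖ ≤ 1) :
    ‖Pp ρ N w‖ ≤ 1 + ρ ^ N := by
  -- the closed form
  have hsum : (∑ k ∈ range N, (ρ : ℂ) ^ k * w ^ (k + 1)) * (1 - ρ * w) =
      w * (1 - (ρ : ℂ) ^ N * w ^ N) := by
    have h2 : ∑ k ∈ range N, (ρ : ℂ) ^ k * w ^ (k + 1) = w * ∑ k ∈ range N, (ρ * w) ^ k := by
      rw [Finset.mul_sum]
      refine Finset.sum_congr rfl fun k _ => ?_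
      rw [mul_pow]; ring
    have h3 := geom_sum_mul_neg ((ρ : ℂ) * w) N
    rw [h2, mul_assoc, h3, mul_pow]
  have hPw : Pp ρ N w * (1 - ρ * w) = (((1 + ρ) / 2 : ℝ) : ℂ) * (1 - w) +
      (((1 + ρ) / 2 * ((1 - ρ) * ρ ^ N) : ℝ) : ℂ) * w ^ (N + 1) := by
    unfold Pp
    push_cast
    linear_combination (-((1 + (ρ : ℂ)) / 2) * (1 - ρ)) * hsum
  have hw2 : ‖w‖ ^ 2 ≤ 1 := by nlinarith [norm_nonneg w]
  -- (1 + ρ) |1 - w| ≤ 2 |1 - ρ w|
  have hM : (1 + ρ) / 2 * ‖1 - w‖ ≤ ‖1 - (ρ : ℂ) * w‖ := by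
    have h4 : ((1 + ρ) / 2 * ‖1 - w‖) ^ 2 ≤ ‖1 - (ρ : ℂ) * w‖ ^ 2 := by
      rw [mul_pow, ← Complex.normSq_eq_norm_sq, ← Complex.normSq_eq_norm_sq]
      rw [← Complex.normSq_eq_norm_sq] at hw2
      simp only [Complex.normSq_apply, Complex.sub_re, Complex.one_re, Complex.sub_im, Complex.one_im,
        Complex.mul_re, Complex.ofReal_re, Complex.ofReal_im, Complex.mul_im] at hw2 ⊢
      nlinarith [mul_nonneg (sub_nonneg.2 h1.le) (sub_nonneg.2 hw2), mul_nonneg (mul_nonneg (sub_nonneg.2 h1.le) h0) (sub_nonneg.2 hw2), sq_nonneg (w.re + 1), sq_nonneg w.im,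
        mul_nonneg (sq_nonneg (1 - ρ)) (sq_nonneg (w.re + 1)), mul_nonneg (sq_nonneg (1 - ρ)) (sq_nonneg w.im),
        mul_nonneg (mul_nonneg (sub_nonneg.2 h1.le) (by linarith : 0 ≤ 1 + ρ)) (sub_nonneg.2 hw2)]
    exact le_of_sq_le_sq h4 (norm_nonneg _)
  have hL : 1 - ρ ≤ ‖1 - (ρ : ℂ) * w‖ := by
    have h5 : ‖(ρ : ℂ) * w‖ ≤ ρ := by
      rw [norm_mul, Complex.norm_real, Real.norm_of_nonneg h0]
      exact mul_le_of_le_one_right h0 hw
    have h6 := norm_sub_norm_le (1 : ℂ) ((ρ : ℂ) * w)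
    rw [norm_one] at h6
    linarith
  have hpos : 0 < ‖1 - (ρ : ℂ) * w‖ := by linarith
  have h7 : ‖Pp ρ N w‖ * ‖1 - (ρ : ℂ) * w‖ ≤ (1 + ρ ^ N) * ‖1 - (ρ : ℂ) * w‖ := by
    rw [← norm_mul, hPw]
    refine (norm_add_le _ _).trans ?_
    rw [norm_mul, norm_mul, Complex.norm_real, Complex.norm_real,
      Real.norm_of_nonneg (by linarith : (0 : ℝ) ≤ (1 + ρ) / 2), norm_pow]
    have hρN : 0 ≤ ρ ^ N := pow_nonneg h0 N
    have h8 : (0 : ℝ) ≤ (1 + ρ) / 2 * ((1 - ρ) * ρ ^ N) :=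
      mul_nonneg (by linarith) (mul_nonneg (by linarith) hρN)
    rw [Real.norm_of_nonneg h8]
    have h9 : ‖w‖ ^ (N + 1) ≤ 1 := pow_le_one₀ (norm_nonneg _) hw
    have h10 : (1 + ρ) / 2 * ((1 - ρ) * ρ ^ N) * ‖w‖ ^ (N + 1) ≤ (1 - ρ) * ρ ^ N := by
      have h11 : (1 + ρ) / 2 * ((1 - ρ) * ρ ^ N) ≤ 1 * ((1 - ρ) * ρ ^ N) :=
        mul_le_mul_of_nonneg_right (by linarith) (mul_nonneg (by linarith) hρN)
      calc (1 + ρ) / 2 * ((1 - ρ) * ρ ^ N) * ‖w‖ ^ (N + 1)
          ≤ (1 + ρ) / 2 * ((1 - ρ) * ρ ^ N) * 1 := mul_le_mul_of_nonneg_left h9 h8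
        _ ≤ _ := by linarith
    have h12 : (1 - ρ) * ρ ^ N ≤ ρ ^ N * ‖1 - (ρ : ℂ) * w‖ := by
      rw [mul_comm]
      exact mul_le_mul_of_nonneg_left hL hρN
    linarith
  exact le_of_mul_le_mul_right h7 hpos

theorem Qa_sub_Pp {ρ : ℝ} (h0 : 0 ≤ ρ) (h1 : ρ < 1) {N b : ℕ} (hb : 0 < b) (hN : N ≤ b)
    {z : Fin b → ℂ} (hz : ∀ i, ‖z i‖ ≤ 1) :
    ‖Qa ρ N b z - Pp ρ N ((∑ i, z i) / b)‖ ≤ (N : ℝ) ^ 2 / b := by
  have hb' : (0 : ℝ) < b := by exact_mod_cast hb
  have h2 : Qa ρ N b z - Pp ρ N ((∑ i, z i) / b) = -((((1 + ρ) / 2 : ℝ) : ℂ) *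
      (((1 - ρ : ℝ) : ℂ) * ∑ k ∈ range N, (ρ : ℂ) ^ k *
        (ek b (k + 1) z - ((∑ i, z i) / b) ^ (k + 1)))) := by
    unfold Qa Pp
    simp only [mul_sub, Finset.sum_sub_distrib]
    ring
  rw [h2, norm_neg, norm_mul, norm_mul, Complex.norm_real, Complex.norm_real,
    Real.norm_of_nonneg (by linarith : (0 : ℝ) ≤ (1 + ρ) / 2),
    Real.norm_of_nonneg (by linarith : (0 : ℝ) ≤ 1 - ρ)]
  have h3 : ‖∑ k ∈ range N, (ρ : ℂ) ^ k * (ek b (k + 1) z - ((∑ i, z i) / b) ^ (k + 1))‖ ≤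
      (∑ k ∈ range N, ρ ^ k) * ((N : ℝ) ^ 2 / b) := by
    rw [Finset.sum_mul]
    refine (norm_sum_le _ _).trans (Finset.sum_le_sum fun k hk => ?_)
    have hk' : k + 1 ≤ N := Finset.mem_range.1 hk
    rw [norm_mul, norm_pow, Complex.norm_real, Real.norm_of_nonneg h0]
    refine mul_le_mul_of_nonneg_left ?_ (pow_nonneg h0 k)
    refine (ek_sub_pow hb (hk'.trans hN) hz).trans ?_
    have h4 : (((k + 1 : ℕ) : ℝ)) ≤ N := by exact_mod_cast hk'
    have h5 : (0 : ℝ) ≤ ((k + 1 : ℕ) : ℝ) := Nat.cast_nonneg _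
    gcongr
  have h6 := geom_le_one ρ N
  have h7 : (0 : ℝ) ≤ ρ ^ N := pow_nonneg h0 N
  have h8 : (0 : ℝ) ≤ (N : ℝ) ^ 2 / b := by positivity
  calc (1 + ρ) / 2 * ((1 - ρ) * ‖∑ k ∈ range N, (ρ : ℂ) ^ k *
        (ek b (k + 1) z - ((∑ i, z i) / b) ^ (k + 1))‖)
      ≤ 1 * ((1 - ρ) * ((∑ k ∈ range N, ρ ^ k) * ((N : ℝ) ^ 2 / b))) := by
        refine mul_le_mul (by linarith) ?_ ?_ zero_le_one
        · exact mul_le_mul_of_nonneg_left h3 (by linarith)
        · exact mul_nonneg (by linarith) (norm_nonneg _)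
    _ = ((1 - ρ) * ∑ k ∈ range N, ρ ^ k) * ((N : ℝ) ^ 2 / b) := by ring
    _ ≤ 1 * ((N : ℝ) ^ 2 / b) := mul_le_mul_of_nonneg_right (by linarith) h8
    _ = _ := one_mul _

theorem norm_Qa_le {ρ : ℝ} (h0 : 0 ≤ ρ) (h1 : ρ < 1) {N b : ℕ} (hb : 0 < b) (hN : N ≤ b)
    {z : Fin b → ℂ} (hz : ∀ i, ‖z i‖ ≤ 1) : ‖Qa ρ N b z‖ ≤ 1 + ρ ^ N + (N : ℝ) ^ 2 / b := by
  have hb' : (0 : ℝ) < b := by exact_mod_cast hb
  have hw : ‖(∑ i, z i) / (b : ℂ)‖ ≤ 1 := by
    rw [norm_div, Complex.norm_natCast, div_le_one hb']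
    refine (norm_sum_le _ _).trans ?_
    refine (Finset.sum_le_card_nsmul _ _ 1 fun i _ => hz i).trans ?_
    simp
  have h2 := norm_Pp_le h0 h1 N hw
  have h3 := Qa_sub_Pp h0 h1 hb hN hz
  have h4 : Qa ρ N b z = Pp ρ N ((∑ i, z i) / b) + (Qa ρ N b z - Pp ρ N ((∑ i, z i) / b)) := by ring
  rw [h4]
  refine (norm_add_le _ _).trans ?_
  linarith

theorem norm_Qa_near {ρ : ℝ} (h0 : 0 ≤ ρ) (h1 : ρ < 1) {N b : ℕ} (hN : N ≤ b)
    {z : Fin b → ℂ} (hz : ∀ i, ‖z i‖ ≤ 1) {ε : ℝ} (hε0 : 0 ≤ ε) (hε : ∀ i, ‖z i - 1‖ ≤ ε) :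
    ‖Qa ρ N b z‖ ≤ ρ ^ N + N * ε := by
  have h6 := geom_le_one ρ N
  have h7 : (0 : ℝ) ≤ ρ ^ N := pow_nonneg h0 N
  have h2 : Qa ρ N b z = (((1 + ρ) / 2 : ℝ) : ℂ) * ((ρ ^ N : ℝ) : ℂ) - (((1 + ρ) / 2 : ℝ) : ℂ) *
      (((1 - ρ : ℝ) : ℂ) * ∑ k ∈ range N, (ρ : ℂ) ^ k * (ek b (k + 1) z - 1)) := by
    unfold Qa
    simp only [mul_sub, Finset.sum_sub_distrib, mul_one]
    have h8 : (((1 - ρ : ℝ) : ℂ) * ∑ k ∈ range N, (ρ : ℂ) ^ k) = ((1 - ρ ^ N : ℝ) : ℂ) := by
      rw [← h6]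
      push_cast
      rfl
    have h9 : ((ρ ^ N : ℝ) : ℂ) = 1 - (((1 - ρ : ℝ) : ℂ) * ∑ k ∈ range N, (ρ : ℂ) ^ k) := by
      rw [h8]; push_cast; ring
    rw [h9]
    ring
  rw [h2]
  refine (norm_sub_le _ _).trans ?_
  rw [norm_mul, norm_mul, norm_mul, Complex.norm_real, Complex.norm_real, Complex.norm_real,
    Real.norm_of_nonneg (by linarith : (0 : ℝ) ≤ (1 + ρ) / 2),
    Real.norm_of_nonneg (by linarith : (0 : ℝ) ≤ 1 - ρ), Real.norm_of_nonneg h7]
  have h3 : ‖∑ k ∈ range N, (ρ : ℂ) ^ k * (ek b (k + 1) z - 1)‖ ≤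
      (∑ k ∈ range N, ρ ^ k) * (N * ε) := by
    rw [Finset.sum_mul]
    refine (norm_sum_le _ _).trans (Finset.sum_le_sum fun k hk => ?_)
    have hk' : k + 1 ≤ N := Finset.mem_range.1 hk
    rw [norm_mul, norm_pow, Complex.norm_real, Real.norm_of_nonneg h0]
    refine mul_le_mul_of_nonneg_left ?_ (pow_nonneg h0 k)
    refine (ek_sub_one (hk'.trans hN) hz hε).trans ?_
    have h4 : (((k + 1 : ℕ) : ℝ)) ≤ N := by exact_mod_cast hk'
    exact mul_le_mul_of_nonneg_right h4 hε0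
  have h8 : (0 : ℝ) ≤ N * ε := by positivity
  have h10 : (1 + ρ) / 2 * ((1 - ρ) * ‖∑ k ∈ range N, (ρ : ℂ) ^ k * (ek b (k + 1) z - 1)‖) ≤
      1 * ((1 - ρ) * ((∑ k ∈ range N, ρ ^ k) * (N * ε))) := by
    refine mul_le_mul (by linarith) ?_ ?_ zero_le_one
    · exact mul_le_mul_of_nonneg_left h3 (by linarith)
    · exact mul_nonneg (by linarith) (norm_nonneg _)
  have h11 : 1 * ((1 - ρ) * ((∑ k ∈ range N, ρ ^ k) * (N * ε))) =
      ((1 - ρ) * ∑ k ∈ range N, ρ ^ k) * (N * ε) := by ring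
  have h12 : ((1 - ρ) * ∑ k ∈ range N, ρ ^ k) * (N * ε) ≤ 1 * (N * ε) :=
    mul_le_mul_of_nonneg_right (by linarith) h8
  have h13 : (1 + ρ) / 2 * ρ ^ N ≤ 1 * ρ ^ N := mul_le_mul_of_nonneg_right (by linarith) h7
  linarith


/-! ### functions on the circle -/

/-- the sums of the numbers `y i` over nonempty finite sets -/
def FSS {ι : Type*} (y : ι → ℤ) (A : Set ι) : Set ℤ :=
  {s | ∃ F : Finset ι, F.Nonempty ∧ (∀ i ∈ F, i ∈ A) ∧ s = ∑ i ∈ F, y i}

theorem fourier_mul_fourier (k l : ℤ) : (fourier k : C(UnitAddCircle, ℂ)) * fourier l =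
    fourier (k + l) := by
  ext t
  rw [ContinuousMap.mul_apply, ← fourier_add]

theorem TP_mul {S T U : Set ℤ} (h : ∀ s ∈ S, ∀ t ∈ T, s + t ∈ U) {f g : C(UnitAddCircle, ℂ)}
    (hf : f ∈ TP S) (hg : g ∈ TP T) : f * g ∈ TP U := by
  refine Submodule.span_induction (p := fun f _ => f * g ∈ TP U) ?_ ?_ ?_ ?_ hf
  · rintro _ ⟨k, hk, rfl⟩
    refine Submodule.span_induction (p := fun g _ => (fourier k : C(UnitAddCircle, ℂ)) * g ∈ TP U)
      ?_ ?_ ?_ ?_ hg
    · rintro _ ⟨l, hl, rfl⟩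
      rw [fourier_mul_fourier]
      exact fourier_mem_TP (h k hk l hl)
    · rw [mul_zero]; exact Submodule.zero_mem _
    · intro u v _ _ hu hv
      rw [mul_add]; exact Submodule.add_mem _ hu hv
    · intro c u _ hu
      rw [mul_smul_comm]; exact Submodule.smul_mem _ _ hu
  · rw [zero_mul]; exact Submodule.zero_mem _
  · intro u v _ _ hu hv
    rw [add_mul]; exact Submodule.add_mem _ hu hv
  · intro c u _ hu
    rw [smul_mul_assoc]; exact Submodule.smul_mem _ _ hu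

theorem fourier_sum {ι : Type*} (s : Finset ι) (y : ι → ℤ) (t : UnitAddCircle) :
    (fourier (∑ j ∈ s, y j) : C(UnitAddCircle, ℂ)) t = ∏ j ∈ s, (fourier (y j) : C(UnitAddCircle, ℂ)) t := by
  classical
  induction s using Finset.induction_on with
  | empty => simp
  | insert a s ha ih => rw [Finset.sum_insert ha, Finset.prod_insert ha, fourier_add, ih]

/-- the multi-affine Moebius function on the circle -/
def QF (ρ : ℝ) (N b : ℕ) (y : Fin b → ℤ) : C(UnitAddCircle, ℂ) :=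
  (((1 + ρ) / 2 : ℝ) : ℂ) • ((1 : C(UnitAddCircle, ℂ)) - ((1 - ρ : ℝ) : ℂ) • ∑ k ∈ range N,
    ((ρ : ℂ) ^ k) • (((b.descFactorial (k + 1) : ℝ) : ℂ)⁻¹ •
      ∑ f ∈ Inj (k + 1) b, (fourier (∑ j, y (f j)) : C(UnitAddCircle, ℂ))))

theorem QF_apply (ρ : ℝ) (N b : ℕ) (y : Fin b → ℤ) (t : UnitAddCircle) :
    QF ρ N b y t = Qa ρ N b (fun i => (fourier (y i) : C(UnitAddCircle, ℂ)) t) := by
  unfold QF Qa ek
  simp only [ContinuousMap.smul_apply, ContinuousMap.sub_apply, ContinuousMap.one_apply,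
    ContinuousMap.sum_apply, smul_eq_mul, fourier_sum]

theorem QF_spec (ρ : ℝ) (N b : ℕ) (y : Fin b → ℤ) :
    QF ρ N b y - (((1 + ρ) / 2 : ℝ) : ℂ) • (1 : C(UnitAddCircle, ℂ)) ∈ TP (FSS y Set.univ) := by
  classical
  have h1 : QF ρ N b y - (((1 + ρ) / 2 : ℝ) : ℂ) • (1 : C(UnitAddCircle, ℂ)) =
      -((((1 + ρ) / 2 : ℝ) : ℂ) • (((1 - ρ : ℝ) : ℂ) • ∑ k ∈ range N,
    ((ρ : ℂ) ^ k) • (((b.descFactorial (k + 1) : ℝ) : ℂ)⁻¹ •
      ∑ f ∈ Inj (k + 1) b, (fourier (∑ j, y (f j)) : C(UnitAddCircle, ℂ))))) := by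
    unfold QF
    rw [smul_sub]
    abel
  rw [h1]
  refine Submodule.neg_mem _ (Submodule.smul_mem _ _ (Submodule.smul_mem _ _
    (Submodule.sum_mem _ fun k _ => Submodule.smul_mem _ _ (Submodule.smul_mem _ _
      (Submodule.sum_mem _ fun f hf => fourier_mem_TP ?_)))))
  rw [mem_Inj] at hf
  refine ⟨Finset.univ.image f, ?_, fun i _ => Set.mem_univ i, ?_⟩
  · exact (Finset.univ_nonempty (α := Fin (k + 1))).image f
  · rw [Finset.sum_image fun i _ j _ hij => hf hij]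

theorem prod_spec {J : Type*} [DecidableEq J] (ρ : ℝ) (N b : ℕ) (Y : J × Fin b → ℤ) (A : Finset J) :
    ∏ m ∈ A, QF ρ N b (fun i => Y (m, i)) -
      ((((1 + ρ) / 2 : ℝ) : ℂ) ^ A.card) • (1 : C(UnitAddCircle, ℂ)) ∈ TP (FSS Y {p | p.1 ∈ A}) := by
  classical
  induction A using Finset.induction_on with
  | empty =>
    simp
  | insert a A ha ih =>
    set c : ℂ := (((1 + ρ) / 2 : ℝ) : ℂ) with hc
    rw [Finset.prod_insert ha, Finset.card_insert_of_notMem ha]
    set G : C(UnitAddCircle, ℂ) := ∏ m ∈ A, QF ρ N b (fun i => Y (m, i)) -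
      (c ^ A.card) • (1 : C(UnitAddCircle, ℂ)) with hG
    set g : C(UnitAddCircle, ℂ) := QF ρ N b (fun i => Y (a, i)) - c • (1 : C(UnitAddCircle, ℂ)) with hg
    have hg1 : g ∈ TP (FSS Y {p | p.1 = a}) := by
      have h1 := QF_spec ρ N b (fun i => Y (a, i))
      rw [← hc, ← hg] at h1
      refine TP_mono ?_ h1
      rintro s ⟨F, hF, _, rfl⟩
      refine ⟨F.image fun i => (a, i), hF.image _, ?_, ?_⟩
      · intro p hp
        obtain ⟨i, _, rfl⟩ := Finset.mem_image.1 hp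
        rfl
      · rw [Finset.sum_image]
        intro i _ j _ hij
        exact (Prod.mk.inj hij).2
    have hsub1 : FSS Y {p | p.1 = a} ⊆ FSS Y {p | p.1 ∈ insert a A} := by
      rintro s ⟨F, hF, hF2, rfl⟩
      exact ⟨F, hF, fun i hi => by
        have := hF2 i hi
        simp only [Set.mem_ofPred_eq] at this ⊢
        rw [this]; exact Finset.mem_insert_self a A, rfl⟩
    have hsub2 : FSS Y {p | p.1 ∈ A} ⊆ FSS Y {p | p.1 ∈ insert a A} := by
      rintro s ⟨F, hF, hF2, rfl⟩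
      exact ⟨F, hF, fun i hi => Finset.mem_insert_of_mem (hF2 i hi), rfl⟩
    have hmul : g * G ∈ TP (FSS Y {p | p.1 ∈ insert a A}) := by
      refine TP_mul ?_ hg1 ih
      rintro s ⟨F, hF, hF2, rfl⟩ t ⟨F', hF', hF2', rfl⟩
      refine ⟨F ∪ F', hF.mono Finset.subset_union_left, ?_, ?_⟩
      · intro i hi
        rcases Finset.mem_union.1 hi with hi | hi
        · have := hF2 i hi
          simp only [Set.mem_ofPred_eq] at this ⊢
          rw [this]; exact Finset.mem_insert_self a A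
        · exact Finset.mem_insert_of_mem (hF2' i hi)
      · rw [Finset.sum_union]
        rw [Finset.disjoint_left]
        intro i hi hi'
        have h1 := hF2 i hi
        have h2 := hF2' i hi'
        simp only [Set.mem_ofPred_eq] at h1 h2
        rw [h1] at h2
        exact ha h2
    have key : QF ρ N b (fun i => Y (a, i)) * ∏ m ∈ A, QF ρ N b (fun i => Y (m, i)) -
        (c ^ (A.card + 1)) • (1 : C(UnitAddCircle, ℂ)) = g * G + (c ^ A.card) • g + c • G := by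
      have e1 : QF ρ N b (fun i => Y (a, i)) = g + c • (1 : C(UnitAddCircle, ℂ)) := by
        rw [hg]; abel
      have e2 : ∏ m ∈ A, QF ρ N b (fun i => Y (m, i)) = G + (c ^ A.card) • (1 : C(UnitAddCircle, ℂ)) := by
        rw [hG]; abel
      rw [e1, e2, pow_succ]
      ext t
      simp only [ContinuousMap.sub_apply, ContinuousMap.mul_apply, ContinuousMap.add_apply,
        ContinuousMap.smul_apply, ContinuousMap.one_apply, smul_eq_mul]
      ring
    rw [key]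
    exact Submodule.add_mem _ (Submodule.add_mem _ hmul
      (Submodule.smul_mem _ _ (TP_mono hsub1 hg1))) (Submodule.smul_mem _ _ (TP_mono hsub2 ih))

/-! ### points -/

theorem fs_norm_coe_le (x : ℝ) : ‖(x : UnitAddCircle)‖ ≤ |x| := by
  rw [UnitAddCircle.norm_eq]
  have h := round_le x 0
  simpa using h

theorem fs_exists_rep (c : UnitAddCircle) : ∃ x : ℝ, |x| ≤ 1 / 2 ∧ (x : UnitAddCircle) = c := by
  induction c using QuotientAddGroup.induction_on with
  | H x =>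
    refine ⟨x - round x, abs_sub_round x, ?_⟩
    have h1 : ((round x : ℝ) : UnitAddCircle) = 0 := by
      rw [AddCircle.coe_eq_zero_iff]
      exact ⟨round x, by simp⟩
    change ((x - round x : ℝ) : UnitAddCircle) = (x : UnitAddCircle)
    rw [AddCircle.coe_sub, h1, sub_zero]

theorem fs_exists_point (w : ℕ → ℤ) (θ : ℕ → UnitAddCircle) {K : ℝ} (hK : 0 < K) (L : ℕ)
    (hw : ∀ i < L, w i ≠ 0) (hr : ∀ i j, i < j → j < L → K * |(w i : ℝ)| ≤ |(w j : ℝ)|) :
    ∃ t : UnitAddCircle, ∀ i < L, ‖w i • t - θ i‖ ≤ L / K := by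
  induction L with
  | zero => exact ⟨0, fun i hi => absurd hi (Nat.not_lt_zero i)⟩
  | succ L ih =>
    obtain ⟨t, ht⟩ := ih (fun i hi => hw i (by omega)) (fun i j hij hj => hr i j hij (by omega))
    obtain ⟨x, hx, hx2⟩ := fs_exists_rep (θ L - w L • t)
    have hwL : (w L : ℝ) ≠ 0 := by exact_mod_cast hw L (by omega)
    have hwL' : 0 < |(w L : ℝ)| := abs_pos.2 hwL
    have hsm : ∀ k : ℤ, k • ((x / w L : ℝ) : UnitAddCircle) = ((k * (x / w L) : ℝ) : UnitAddCircle) := by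
      intro k
      rw [← zsmul_eq_mul, AddCircle.coe_zsmul]
    refine ⟨t + ((x / w L : ℝ) : UnitAddCircle), fun i hi => ?_⟩
    have hLK : (0 : ℝ) ≤ (L : ℝ) / K := by positivity
    have h1K : 0 < 1 / K := by positivity
    have e1 : (((L + 1 : ℕ) : ℝ)) / K = L / K + 1 / K := by push_cast; rw [add_div]
    rw [e1, zsmul_add, hsm]
    rcases Nat.lt_succ_iff_lt_or_eq.1 hi with h | rfl
    · have h2 := ht i h
      have h3 : ‖((w i * (x / w L) : ℝ) : UnitAddCircle)‖ ≤ 1 / K := by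
        refine (fs_norm_coe_le _).trans ?_
        rw [abs_mul, abs_div, ← mul_div_assoc, div_le_div_iff₀ hwL' hK, one_mul]
        have h4 := hr i L h (by omega)
        have h5 : 0 ≤ |(w i : ℝ)| := abs_nonneg _
        nlinarith [mul_nonneg h5 hK.le]
      have h6 : w i • t + ((w i * (x / w L) : ℝ) : UnitAddCircle) - θ i =
          (w i • t - θ i) + ((w i * (x / w L) : ℝ) : UnitAddCircle) := by abel
      rw [h6]
      exact (norm_add_le _ _).trans (add_le_add h2 h3)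
    · have h7 : (w i * (x / w i) : ℝ) = x := by field_simp
      rw [h7, hx2]
      have h8 : w i • t + (θ i - w i • t) - θ i = 0 := by abel
      rw [h8, norm_zero]
      linarith


/-! ### sorting and blocks -/

/-- the set contains the finite sums of arbitrarily long systems of nonzero integers -/
def HasFS (E : Set ℤ) : Prop :=
  ∀ m : ℕ, ∃ x : Fin m → ℤ, (∀ i, x i ≠ 0) ∧ ∀ F : Finset (Fin m), F.Nonempty → ∑ i ∈ F, x i ∈ E

theorem fs_sorted {E : Set ℤ} (h : HasFS E) (M : ℕ) :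
    ∃ (σ : ℤ) (X : ℕ → ℤ), (σ = 1 ∨ σ = -1) ∧ (∀ i ≤ M, 0 < σ * X i) ∧
      (∀ i j, i ≤ j → j ≤ M → σ * X i ≤ σ * X j) ∧
      ∀ G : Finset ℕ, G.Nonempty → (∀ i ∈ G, i ≤ M) → ∑ i ∈ G, X i ∈ E := by
  classical
  obtain ⟨x, hx, hF⟩ := h (2 * (M + 1))
  -- a sign
  have hsign : ∃ σ : ℤ, (σ = 1 ∨ σ = -1) ∧
      M + 1 ≤ (Finset.univ.filter fun i : Fin (2 * (M + 1)) => 0 < σ * x i).card := by
    by_contra hcon
    push Not at hcon
    have h1 := hcon 1 (Or.inl rfl)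
    have h2 := hcon (-1) (Or.inr rfl)
    have h3 : (Finset.univ : Finset (Fin (2 * (M + 1)))) ⊆
        (Finset.univ.filter fun i => 0 < (1 : ℤ) * x i) ∪
          (Finset.univ.filter fun i => 0 < (-1 : ℤ) * x i) := by
      intro i _
      simp only [Finset.mem_union, Finset.mem_filter, Finset.mem_univ, true_and]
      rcases lt_or_gt_of_ne (hx i) with h | h
      · right; linarith
      · left; linarith
    have h4 := Finset.card_le_card h3
    have h5 := Finset.card_union_le (Finset.univ.filter fun i : Fin (2 * (M + 1)) => 0 < (1 : ℤ) * x i)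
      (Finset.univ.filter fun i => 0 < (-1 : ℤ) * x i)
    rw [Finset.card_univ, Fintype.card_fin] at h4
    omega
  obtain ⟨σ, hσ, hcard⟩ := hsign
  obtain ⟨A, hA1, hA2⟩ := Finset.exists_subset_card_eq hcard
  set e : Fin (M + 1) ↪o Fin (2 * (M + 1)) := A.orderEmbOfFin hA2 with he
  have heA : ∀ i, 0 < σ * x (e i) := by
    intro i
    have h1 := hA1 (A.orderEmbOfFin_mem hA2 i)
    exact (Finset.mem_filter.1 h1).2
  set u : Fin (M + 1) → ℤ := fun i => σ * x (e i) with hu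
  have hmono := Tuple.monotone_sort u
  set φ : ℕ → Fin (2 * (M + 1)) := fun i => e (Tuple.sort u ⟨i % (M + 1), Nat.mod_lt _ (by omega)⟩) with hφ
  have hφi : ∀ i j, i ≤ M → j ≤ M → φ i = φ j → i = j := by
    intro i j hi hj hij
    have h1 := (Tuple.sort u).injective (e.injective hij)
    have h2 := (Fin.mk.inj_iff.1 h1)
    rwa [Nat.mod_eq_of_lt (by omega), Nat.mod_eq_of_lt (by omega)] at h2
  refine ⟨σ, fun i => x (φ i), hσ, fun i _ => heA _, fun i j hij hj => ?_, fun G hG hGM => ?_⟩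
  · have h1 : (⟨i % (M + 1), Nat.mod_lt _ (by omega)⟩ : Fin (M + 1)) ≤
        ⟨j % (M + 1), Nat.mod_lt _ (by omega)⟩ := by
      rw [Fin.mk_le_mk, Nat.mod_eq_of_lt (by omega), Nat.mod_eq_of_lt (by omega)]
      exact hij
    exact hmono h1
  · have h1 : ∑ i ∈ G, x (φ i) = ∑ p ∈ G.image φ, x p := by
      rw [Finset.sum_image]
      intro i hi j hj hij
      exact hφi i j (hGM i hi) (hGM j hj) hij
    rw [h1]
    exact hF _ (hG.image φ)

theorem fs_lacunary {E : Set ℤ} (h : HasFS E) (L K : ℕ) (hK : 1 ≤ K) :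
    ∃ w : ℕ → ℤ, (∀ i < L, w i ≠ 0) ∧
      (∀ i j, i < j → j < L → (K : ℝ) * |(w i : ℝ)| ≤ |(w j : ℝ)|) ∧
      ∀ F : Finset ℕ, F.Nonempty → (∀ i ∈ F, i < L) → ∑ i ∈ F, w i ∈ E \ {0} := by
  classical
  set s : ℕ → ℕ := fun l => ∑ j ∈ range l, K ^ j with hs
  have hs1 : ∀ l, s (l + 1) = s l + K ^ l := fun l => Finset.sum_range_succ _ _
  have hsm : Monotone s := monotone_nat_of_le_succ fun l => by rw [hs1]; omega
  obtain ⟨σ, X, hσ, hpos, hmono, hsum⟩ := fs_sorted h (s L)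
  set w : ℕ → ℤ := fun l => ∑ i ∈ Finset.Ico (s l) (s (l + 1)), X i with hw
  have hσw : ∀ l, σ * w l = ∑ i ∈ Finset.Ico (s l) (s (l + 1)), σ * X i := fun l => Finset.mul_sum _ _ _
  have hcard : ∀ l, (Finset.Ico (s l) (s (l + 1))).card = K ^ l := by
    intro l
    rw [Nat.card_Ico, hs1]
    omega
  have hlow : ∀ l < L, (K : ℤ) ^ l * (σ * X (s l)) ≤ σ * w l := by
    intro l hl
    rw [hσw]
    have h1 : (Finset.Ico (s l) (s (l + 1))).card • (σ * X (s l)) ≤
        ∑ i ∈ Finset.Ico (s l) (s (l + 1)), σ * X i := by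
      refine Finset.card_nsmul_le_sum _ _ _ fun i hi => ?_
      rw [Finset.mem_Ico] at hi
      exact hmono _ _ hi.1 (hi.2.le.trans (hsm hl))
    rw [hcard, nsmul_eq_mul] at h1
    push_cast at h1
    exact h1
  have hup : ∀ l j, l < j → j ≤ L → σ * w l ≤ (K : ℤ) ^ l * (σ * X (s j)) := by
    intro l j hl hj
    rw [hσw]
    have h1 : ∑ i ∈ Finset.Ico (s l) (s (l + 1)), σ * X i ≤
        (Finset.Ico (s l) (s (l + 1))).card • (σ * X (s j)) := by
      refine Finset.sum_le_card_nsmul _ _ _ fun i hi => ?_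
      rw [Finset.mem_Ico] at hi
      exact hmono _ _ (hi.2.le.trans (hsm hl)) (hsm hj)
    rw [hcard, nsmul_eq_mul] at h1
    push_cast at h1
    exact h1
  have hwpos : ∀ l < L, 0 < σ * w l := by
    intro l hl
    refine lt_of_lt_of_le ?_ (hlow l hl)
    exact mul_pos (pow_pos (by exact_mod_cast hK) l) (hpos _ (hsm hl.le))
  have habs : ∀ l < L, |(w l : ℝ)| = ((σ * w l : ℤ) : ℝ) := by
    intro l hl
    have h1 := hwpos l hl
    rcases hσ with rfl | rfl
    · rw [one_mul] at h1 ⊢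
      exact abs_of_pos (by exact_mod_cast h1)
    · have h2 : w l < 0 := by linarith
      rw [abs_of_neg (by exact_mod_cast h2)]
      push_cast
      ring
  refine ⟨w, fun i hi h0 => ?_, fun i j hij hj => ?_, fun F hF hFL => ?_⟩
  · have := hwpos i hi
    rw [h0, mul_zero] at this
    exact lt_irrefl _ this
  · rw [habs i (hij.trans hj), habs j hj]
    have h1 := hup i j hij hj.le
    have h2 := hlow j hj
    have h3 : (K : ℤ) * (σ * w i) ≤ σ * w j := by
      have h4 : (K : ℤ) * ((K : ℤ) ^ i * (σ * X (s j))) ≤ (K : ℤ) ^ j * (σ * X (s j)) := by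
        rw [← mul_assoc, ← pow_succ']
        refine mul_le_mul_of_nonneg_right ?_ (hpos _ (hsm hj.le)).le
        exact pow_le_pow_right₀ (by exact_mod_cast hK) hij
      have h5 : (K : ℤ) * (σ * w i) ≤ (K : ℤ) * ((K : ℤ) ^ i * (σ * X (s j))) :=
        mul_le_mul_of_nonneg_left h1 (by positivity)
      linarith
    exact_mod_cast h3
  · have h1 : ∑ l ∈ F, w l = ∑ i ∈ F.biUnion fun l => Finset.Ico (s l) (s (l + 1)), X i := by
      rw [Finset.sum_biUnion]
      intro a _ b _ hab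
      rw [Function.onFun, Finset.disjoint_left]
      intro i hi hi'
      rw [Finset.mem_Ico] at hi hi'
      rcases lt_or_gt_of_ne hab with h | h
      · have := hsm (show a + 1 ≤ b from h)
        omega
      · have := hsm (show b + 1 ≤ a from h)
        omega
    refine ⟨?_, ?_⟩
    · rw [h1]
      refine hsum _ ?_ ?_
      · obtain ⟨l, hl⟩ := hF
        refine ⟨s l, Finset.mem_biUnion.2 ⟨l, hl, Finset.mem_Ico.2 ⟨le_rfl, ?_⟩⟩⟩
        rw [hs1]
        have : 0 < K ^ l := pow_pos hK l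
        omega
      · intro i hi
        obtain ⟨l, hl, hi⟩ := Finset.mem_biUnion.1 hi
        rw [Finset.mem_Ico] at hi
        exact hi.2.le.trans (hsm (hFL l hl))
    · intro h0
      have h0' : ∑ l ∈ F, w l = 0 := h0
      have h2 : 0 < σ * ∑ l ∈ F, w l := by
        rw [Finset.mul_sum]
        exact Finset.sum_pos (fun l hl => hwpos l (hFL l hl)) hF
      rw [h0', mul_zero] at h2
      exact lt_irrefl _ h2


/-! ### the theorem -/

theorem fs_norm_fourier_sub_one (k : ℤ) (t : UnitAddCircle) :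
    ‖(fourier k : C(UnitAddCircle, ℂ)) t - 1‖ ≤ 7 * ‖k • t‖ := by
  obtain ⟨x, hx1, hx2⟩ := fs_exists_rep (k • t)
  have h1 : (fourier k : C(UnitAddCircle, ℂ)) t = Complex.exp (Complex.I * ((2 * Real.pi * x : ℝ) : ℂ)) := by
    rw [fourier_apply, ← hx2]
    have h2 : (((AddCircle.toCircle ((x : ℝ) : UnitAddCircle)) : Circle) : ℂ) =
        (fourier 1 : C(UnitAddCircle, ℂ)) ((x : ℝ) : UnitAddCircle) := by
      rw [fourier_apply, one_zsmul]
    rw [h2, fourier_coe_apply]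
    congr 1
    push_cast
    ring
  have h3 : ‖k • t‖ = |x| := by
    rw [← hx2, UnitAddCircle.norm_eq]
    have h4 : |x - round x| = |x| := by
      apply le_antisymm
      · have h := round_le x 0
        simpa using h
      · by_contra hcon
        push Not at hcon
        by_cases h0 : round x = 0
        · rw [h0] at hcon
          simp at hcon
        · have h5 : (1 : ℝ) ≤ |((round x : ℤ) : ℝ)| := by
            exact_mod_cast Int.one_le_abs h0
          have h6 : |((round x : ℤ) : ℝ)| ≤ |x| + |x - round x| := by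
            have h7 : ((round x : ℤ) : ℝ) = x - (x - round x) := by ring
            calc |((round x : ℤ) : ℝ)| = |x - (x - round x)| := by rw [← h7]
              _ ≤ |x| + |x - round x| := abs_sub _ _
          linarith
    exact h4
  rw [h1, h3]
  have h8 := Real.norm_exp_I_mul_ofReal_sub_one_le (x := 2 * Real.pi * x)
  refine h8.trans ?_
  rw [Real.norm_eq_abs, abs_mul, abs_of_pos (by positivity : (0 : ℝ) < 2 * Real.pi)]
  have h9 : 2 * Real.pi ≤ 7 := by linarith [Real.pi_lt_d2]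
  exact mul_le_mul_of_nonneg_right h9 (abs_nonneg x)

theorem not_automaticContinuity_of_HasFS {E : Set ℤ} (h : HasFS E) : ¬ AutomaticContinuity E := by
  classical
  intro hAC
  obtain ⟨n, C, hC, hD⟩ := dec_of_automaticContinuity hAC
  obtain ⟨R, hR8⟩ := exists_nat_gt (8 * C)
  have hR0 : (0 : ℝ) < R := lt_of_le_of_lt (by positivity) hR8
  have hR1 : 1 ≤ R := by exact_mod_cast hR0
  -- the number of points of the box
  set M : ℕ := R ^ n with hM
  have hM1 : 1 ≤ M := Nat.one_le_pow _ _ hR1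
  have hMr : (1 : ℝ) ≤ M := by exact_mod_cast hM1
  have hcardJ : (Finset.univ : Finset (Fin n → Fin R)).card = M := by
    rw [Finset.card_univ, Fintype.card_fun, Fintype.card_fin, Fintype.card_fin]
  -- the parameters
  set ρ : ℝ := 1 - 1 / M with hρ
  have hMi : 1 / (M : ℝ) ≤ 1 := by rw [div_le_one (by linarith)]; exact hMr
  have hMi0 : 0 < 1 / (M : ℝ) := by positivity
  have hρ0 : 0 ≤ ρ := by rw [hρ]; linarith
  have hρ1 : ρ < 1 := by rw [hρ]; linarith
  set c0 : ℝ := (1 + ρ) / 2 with hc0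
  have hc00 : 0 ≤ c0 := by rw [hc0]; linarith
  have hc01 : c0 ≤ 1 := by rw [hc0]; linarith
  have hc0M : 1 / 2 ≤ c0 ^ M := by
    have h1 := one_add_mul_le_pow (a := -(1 / (2 * (M : ℝ)))) (by
      have : 1 / (2 * (M : ℝ)) ≤ 1 := by rw [div_le_one (by linarith)]; linarith
      linarith) M
    have h2 : 1 + (M : ℝ) * -(1 / (2 * (M : ℝ))) = 1 / 2 := by
      field_simp
      ring
    have h3 : (1 : ℝ) + -(1 / (2 * (M : ℝ))) = c0 := by
      rw [hc0, hρ]
      field_simp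
      ring
    rw [h2, h3] at h1
    exact h1
  obtain ⟨N, hN⟩ := exists_pow_lt_of_lt_one (show (0 : ℝ) < min (1 / (4 * (M : ℝ))) (1 / 64) by positivity) hρ1
  have hN1 : ρ ^ N ≤ 1 / (4 * M) := hN.le.trans (min_le_left _ _)
  have hN2 : ρ ^ N ≤ 1 / 64 := hN.le.trans (min_le_right _ _)
  set b : ℕ := 4 * M * N ^ 2 + N + 1 with hb
  have hb0 : 0 < b := by omega
  have hNb : N ≤ b := by rw [hb]; omega
  have hbr : (0 : ℝ) < b := by exact_mod_cast hb0
  have hNb2 : (N : ℝ) ^ 2 / b ≤ 1 / (4 * M) := by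
    rw [div_le_div_iff₀ hbr (by positivity)]
    have h1 : (b : ℝ) = 4 * M * (N : ℝ) ^ 2 + N + 1 := by rw [hb]; push_cast; ring
    rw [h1]
    have : (0 : ℝ) ≤ N := Nat.cast_nonneg N
    nlinarith
  set η : ℝ := ρ ^ N + (N : ℝ) ^ 2 / b with hη
  have hη0 : 0 ≤ η := by
    have : 0 ≤ ρ ^ N := pow_nonneg hρ0 N
    positivity
  have hη1 : M * η ≤ 1 / 2 := by
    have h1 : η ≤ 1 / (4 * M) + 1 / (4 * M) := add_le_add hN1 hNb2
    have h2 : M * (1 / (4 * (M : ℝ)) + 1 / (4 * M)) = 1 / 2 := by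
      field_simp
      ring
    calc M * η ≤ M * (1 / (4 * (M : ℝ)) + 1 / (4 * M)) := mul_le_mul_of_nonneg_left h1 (by linarith)
      _ = 1 / 2 := h2
  have hηM : (1 + η) ^ M ≤ 2 := by
    have h1 : (1 + η) ^ M ≤ Real.exp (1 / 2) := by
      calc (1 + η) ^ M ≤ (Real.exp η) ^ M := by
            refine pow_le_pow_left₀ (by linarith) ?_ M
            linarith [Real.add_one_le_exp η]
        _ = Real.exp (M * η) := by rw [← Real.exp_nat_mul]
        _ ≤ Real.exp (1 / 2) := Real.exp_le_exp.2 hη1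
    have h2 : Real.exp (1 / 2) ≤ 2 := by
      have h3 : Real.exp (1 / 2) ^ 2 ≤ 2 ^ 2 := by
        rw [← Real.exp_nat_mul]
        norm_num
        linarith [Real.exp_one_lt_d9]
      exact le_of_sq_le_sq h3 (by norm_num)
    exact h1.trans h2
  -- the numbers
  set L : ℕ := Fintype.card ((Fin n → Fin R) × Fin b) with hL
  set K : ℕ := 448 * N * L + 1 with hK
  have hK1 : 1 ≤ K := by omega
  have hK0 : (0 : ℝ) < K := by exact_mod_cast hK1
  obtain ⟨w, hw0, hwl, hwF⟩ := fs_lacunary h L K hK1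
  set e := Fintype.equivFin ((Fin n → Fin R) × Fin b) with he
  set Y : (Fin n → Fin R) × Fin b → ℤ := fun p => w (e p) with hY
  set H : C(UnitAddCircle, ℂ) := ∏ m ∈ (Finset.univ : Finset (Fin n → Fin R)),
    QF ρ N b (fun i => Y (m, i)) with hH
  have hspec := prod_spec ρ N b Y (Finset.univ : Finset (Fin n → Fin R))
  rw [hcardJ, ← hc0, ← hH] at hspec
  set f : C(UnitAddCircle, ℂ) := H - ((c0 : ℂ) ^ M) • (1 : C(UnitAddCircle, ℂ)) with hf
  have hfCE : f ∈ CE (E \ {0}) := by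
    refine TP_le_CE _ (TP_mono ?_ hspec)
    rintro s ⟨F, hF, _, rfl⟩
    have h1 : ∑ p ∈ F, Y p = ∑ i ∈ F.image fun p => (e p : ℕ), w i := by
      rw [Finset.sum_image]
      intro p _ q _ hpq
      exact e.injective (Fin.ext hpq)
    rw [h1]
    refine hwF _ (hF.image _) ?_
    intro i hi
    obtain ⟨p, _, rfl⟩ := Finset.mem_image.1 hi
    exact (e p).2
  -- bounds
  have hfou : ∀ (k : ℤ) (t : UnitAddCircle), ‖(fourier k : C(UnitAddCircle, ℂ)) t‖ ≤ 1 := by
    intro k t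
    rw [fourier_apply]
    exact (Circle.norm_coe _).le
  have hHapp : ∀ t, H t = ∏ m : Fin n → Fin R,
      Qa ρ N b (fun i => (fourier (Y (m, i)) : C(UnitAddCircle, ℂ)) t) := by
    intro t
    rw [hH, ContinuousMap.prod_apply]
    exact Finset.prod_congr rfl fun m _ => QF_apply ρ N b _ t
  have hQ : ∀ (m : Fin n → Fin R) (t : UnitAddCircle),
      ‖Qa ρ N b (fun i => (fourier (Y (m, i)) : C(UnitAddCircle, ℂ)) t)‖ ≤ 1 + η := by
    intro m t
    refine (norm_Qa_le hρ0 hρ1 hb0 hNb fun i => hfou _ t).trans ?_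
    rw [hη]
    linarith
  have hHn : ∀ t, ‖H t‖ ≤ 2 := by
    intro t
    rw [hHapp, norm_prod]
    refine (Finset.prod_le_prod (fun m _ => norm_nonneg _) fun m _ => hQ m t).trans ?_
    rw [Finset.prod_const, hcardJ]
    exact hηM
  have hHm : ∀ (m : Fin n → Fin R) (t : UnitAddCircle), ‖H t‖ ≤
      2 * ‖Qa ρ N b (fun i => (fourier (Y (m, i)) : C(UnitAddCircle, ℂ)) t)‖ := by
    intro m t
    rw [hHapp, norm_prod, ← Finset.mul_prod_erase _ _ (Finset.mem_univ m), mul_comm]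
    refine mul_le_mul_of_nonneg_right ?_ (norm_nonneg _)
    refine (Finset.prod_le_prod (fun m _ => norm_nonneg _) fun m _ => hQ m t).trans ?_
    rw [Finset.prod_const]
    refine le_trans (pow_le_pow_right₀ (by linarith) ?_) hηM
    exact (Finset.card_erase_le).trans hcardJ.le
  have hfn : ‖f‖ ≤ 3 := by
    rw [ContinuousMap.norm_le _ (by norm_num)]
    intro t
    rw [hf, ContinuousMap.sub_apply, ContinuousMap.smul_apply, ContinuousMap.one_apply, smul_eq_mul,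
      mul_one]
    refine (norm_sub_le _ _).trans ?_
    have h1 : ‖(c0 : ℂ) ^ M‖ ≤ 1 := by
      rw [norm_pow, Complex.norm_real, Real.norm_of_nonneg hc00]
      exact pow_le_one₀ hc00 hc01
    linarith [hHn t]
  -- the translations and the point
  obtain ⟨a, ha⟩ := hD f hfCE
  have hav := ha R hR1
  have hBnn : 0 ≤ C * (R : ℝ) ^ (-(1 : ℝ)) * ‖f‖ := by positivity
  rw [norm_av_iff hR1 a f hBnn] at hav
  set sh : (Fin n → Fin R) → UnitAddCircle := fun m => ∑ i, (m i : ℕ) • a i with hsh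
  set θ : ℕ → UnitAddCircle := fun i => if hi : i < L then w i • sh (e.symm ⟨i, hi⟩).1 else 0 with hθ
  obtain ⟨t, ht⟩ := fs_exists_point w θ hK0 L hw0 hwl
  have hnear : ∀ (m : Fin n → Fin R) (i : Fin b),
      ‖(fourier (Y (m, i)) : C(UnitAddCircle, ℂ)) (t - sh m) - 1‖ ≤ 7 * (L / K) := by
    intro m i
    refine (fs_norm_fourier_sub_one _ _).trans ?_
    refine mul_le_mul_of_nonneg_left ?_ (by norm_num)
    have h1 := ht (e (m, i)) (e (m, i)).2
    have h2 : θ (e (m, i)) = w (e (m, i)) • sh m := by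
      have h3 : ((e (m, i) : Fin _) : ℕ) < L := (e (m, i)).2
      rw [hθ]
      beta_reduce
      rw [dif_pos h3]
      simp
    rw [h2, ← zsmul_sub] at h1
    exact h1
  have hKL : (N : ℝ) * (7 * (L / K)) ≤ 1 / 64 := by
    have h1 : (K : ℝ) = 448 * N * L + 1 := by rw [hK]; push_cast; ring
    rw [← mul_div_assoc, ← mul_div_assoc, div_le_div_iff₀ hK0 (by norm_num), h1]
    have : (0 : ℝ) ≤ N * L := by positivity
    nlinarith
  have hHsm : ∀ m : Fin n → Fin R, ‖H (t - sh m)‖ ≤ 1 / 8 := by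
    intro m
    refine (hHm m _).trans ?_
    have h1 := norm_Qa_near hρ0 hρ1 (b := b) hNb (z := fun i =>
      (fourier (Y (m, i)) : C(UnitAddCircle, ℂ)) (t - sh m)) (fun i => hfou _ _)
      (ε := 7 * (L / K)) (by positivity) (fun i => hnear m i)
    linarith
  have hfin := hav t
  have hsum : ∑ m : Fin n → Fin R, f (t - sh m) =
      ∑ m : Fin n → Fin R, H (t - sh m) - (M : ℂ) * (c0 : ℂ) ^ M := by
    have h1 : ∀ m : Fin n → Fin R, f (t - sh m) = H (t - sh m) - (c0 : ℂ) ^ M := by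
      intro m
      rw [hf, ContinuousMap.sub_apply, ContinuousMap.smul_apply, ContinuousMap.one_apply,
        smul_eq_mul, mul_one]
    rw [Finset.sum_congr rfl fun m _ => h1 m, Finset.sum_sub_distrib, Finset.sum_const, hcardJ,
      nsmul_eq_mul]
  have hfin' : ‖∑ m : Fin n → Fin R, f (t - sh m)‖ ≤
      (R : ℝ) ^ n * (C * (R : ℝ) ^ (-(1 : ℝ)) * ‖f‖) := hfin
  rw [hsum] at hfin'
  have hlow : (M : ℝ) * c0 ^ M - M * (1 / 8) ≤
      ‖∑ m : Fin n → Fin R, H (t - sh m) - (M : ℂ) * (c0 : ℂ) ^ M‖ := by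
    have h1 : ‖∑ m : Fin n → Fin R, H (t - sh m)‖ ≤ M * (1 / 8) := by
      refine (norm_sum_le _ _).trans ?_
      refine (Finset.sum_le_card_nsmul _ _ (1 / 8) fun m _ => hHsm m).trans ?_
      rw [hcardJ, nsmul_eq_mul]
    have h2 : ‖(M : ℂ) * (c0 : ℂ) ^ M‖ = M * c0 ^ M := by
      rw [norm_mul, norm_pow, Complex.norm_natCast, Complex.norm_real, Real.norm_of_nonneg hc00]
    have h3 := norm_sub_norm_le ((M : ℂ) * (c0 : ℂ) ^ M) (∑ m : Fin n → Fin R, H (t - sh m))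
    rw [norm_sub_rev, h2] at h3
    linarith
  have hMR : (R : ℝ) ^ n = M := by rw [hM]; push_cast; rfl
  rw [hMR, Real.rpow_neg_one] at hfin'
  have hCR : C * (R : ℝ)⁻¹ < 1 / 8 := by
    rw [← div_eq_mul_inv, div_lt_div_iff₀ hR0 (by norm_num)]
    linarith
  have h4 : C * (R : ℝ)⁻¹ * ‖f‖ ≤ C * (R : ℝ)⁻¹ * 3 := mul_le_mul_of_nonneg_left hfn (by positivity)
  have h5 : (M : ℝ) * (C * (R : ℝ)⁻¹ * ‖f‖) ≤ M * (C * (R : ℝ)⁻¹ * 3) :=
    mul_le_mul_of_nonneg_left h4 (by linarith)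
  have h6 : (M : ℝ) * (C * (R : ℝ)⁻¹ * 3) < M * (3 / 8) :=
    mul_lt_mul_of_pos_left (by linarith) (by linarith)
  have h7 : (M : ℝ) * (1 / 2) ≤ M * c0 ^ M := mul_le_mul_of_nonneg_left hc0M (by linarith)
  linarith

end Pool.Agent.Lib_helper87.Tilf.Cha
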