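import Pool.Agent.Lib_helper23.TILF.BoxSum

/-!
Automatic continuity is a local property at `0` for the Bohr topology, and passes to subsets.
-/

noncomputable section

namespace Pool.Agent.Lib_helper87.Tilf.Cha

open MeasureTheory AddCircle Topology Finset Filter

theorem CE_mono {S T : Set ℤ} (h : S ⊆ T) : CE S ≤ CE T :=
  fun _ hf k hk => hf k fun hkS => hk (h hkS)

theorem automaticContinuity_of_local {E : Set ℤ} (s : Finset UnitAddCircle) {δ : ℝ} (hδ : 0 < δ)
    (h : AutomaticContinuity {k : ℤ | k ∈ E ∧ ∀ α ∈ s, ‖k • α‖ < δ}) : AutomaticContinuity E := by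
  intro Φ hΦ
  refine continuous_of_vanish Φ fun f hf => ?_
  obtain ⟨g, hg1, hg2, hg3⟩ := localise_finset Φ hΦ s (δ := min δ (1 / 2))
    (lt_min hδ (by norm_num)) (min_le_right _ _) f
  set V : Set ℤ := {k : ℤ | k ∈ E ∧ ∀ α ∈ s, ‖k • α‖ < δ} with hV
  have hgV : g.1 ∈ CE V := by
    rw [mem_CE]
    intro k hk
    by_cases hkE : k ∈ E
    · have : ∃ α ∈ s, δ ≤ ‖k • α‖ := by
        by_contra hcon
        push Not at hcon
        exact hk ⟨hkE, hcon⟩
      obtain ⟨α, hα, h1⟩ := this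
      exact hg3 k ⟨α, hα, (min_le_left _ _).trans h1⟩
    · exact g.2 k hkE
  have hle : CE V ≤ CE E := CE_mono fun k hk => hk.1
  set Φ' : CE V →ₗ[ℂ] ℂ := Φ.comp (Submodule.inclusion hle) with hΦ'
  have hT : IsTILF Φ' := by
    intro a u v huv
    exact hΦ a (Submodule.inclusion hle u) (Submodule.inclusion hle v) huv
  have h1 := continuous_tilf_vanish Φ' hT (h Φ' hT) ⟨g.1, hgV⟩ (hg2 0 hf)
  rw [hg1]
  exact h1

theorem dec_mono {S T : Set ℤ} (h : S ⊆ T) {n : ℕ} {C σ : ℝ} (hT : Dec T n C σ) : Dec S n C σ :=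
  fun f hf => hT f (CE_mono h hf)

theorem automaticContinuity_of_dec {E : Set ℤ} {n : ℕ} {C σ : ℝ} (h : Dec (E \ {0}) n C σ)
    (hC : 0 ≤ C) (hσ : 0 < σ) : AutomaticContinuity E := by
  obtain ⟨n', C', σ', hC', hσ', hD⟩ := boot_all h hC hσ 2
  obtain ⟨C'', hE⟩ := exact_of_dec hD hC' (by linarith)
  exact automaticContinuity_of_exact hE

theorem automaticContinuity_subset {E E' : Set ℤ} (h : AutomaticContinuity E) (hE : E' ⊆ E) :
    AutomaticContinuity E' := by
  obtain ⟨n, C, hC, hD⟩ := dec_of_automaticContinuity h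
  exact automaticContinuity_of_dec (dec_mono (Set.diff_subset_diff_left hE) hD) hC one_pos

end Pool.Agent.Lib_helper87.Tilf.Cha
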