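import Pool.Agent.Lib_helper23.TILF.LacForms
import Pool.Agent.Lib_helper23.TILF.Fejer
import Pool.Agent.Lib_helper23.TILF.Diff
import Pool.Agent.Lib_helper23.TILF.Bad
import Pool.Agent.Lib_helper23.TILF.Local
import Pool.Agent.Lib_helper87.Tilf.Random
import Pool.Agent.Lib_helper87.Tilf.OddSet

/-!
The differences of a lacunary sequence with ratio at least `3` form a set with the automatic
continuity property which is not a Sidon set near `0`.
-/

noncomputable section

namespace Pool.Agent.Lib_helper87.Tilf.Cha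

section Kernel

open MeasureTheory AddCircle Topology Finset Filter
open Pool.Agent.Lib_helper23.TILF.DS (Ex)

/-- The Fejér kernel. -/
def kap (N : ℕ) (y : UnitAddCircle) : ℝ := ‖Dk N y‖ ^ 2 / (N + 1)

theorem kap_nonneg (N : ℕ) (y : UnitAddCircle) : 0 ≤ kap N y := by unfold kap; positivity

theorem norm_Dk_le (N : ℕ) (y : UnitAddCircle) : ‖Dk N y‖ ≤ N + 1 := by
  unfold Dk
  refine (norm_sum_le _ _).trans ?_
  have : ∀ j ∈ range (N + 1), ‖(fourier (j : ℤ) y : ℂ)‖ ≤ 1 := fun j _ => by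
    rw [fourier_apply, Circle.norm_coe]
  refine (Finset.sum_le_sum this).trans (le_of_eq ?_)
  simp

theorem kap_le (N : ℕ) (y : UnitAddCircle) : kap N y ≤ N + 1 := by
  have h1 := norm_Dk_le N y
  have hN : (0 : ℝ) < N + 1 := by positivity
  unfold kap
  rw [div_le_iff₀ hN]
  nlinarith [norm_nonneg (Dk N y)]

theorem kap_zero (N : ℕ) : kap N 0 = N + 1 := by
  have hN : (0 : ℝ) < N + 1 := by positivity
  have h1 : Dk N 0 = ((N + 1 : ℝ) : ℂ) := by
    unfold Dk
    have : ∀ j ∈ range (N + 1), (fourier (j : ℤ) (0 : UnitAddCircle) : ℂ) = 1 := fun j _ => by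
      rw [fourier_apply]; simp
    rw [Finset.sum_congr rfl this]
    simp
  unfold kap
  rw [h1, Complex.norm_real, Real.norm_eq_abs, abs_of_pos hN]
  field_simp

theorem kap_coe (N : ℕ) (y : UnitAddCircle) : ((kap N y : ℝ) : ℂ)
    = ((N + 1 : ℝ) : ℂ)⁻¹ * ∑ j ∈ range (N + 1), ∑ l ∈ range (N + 1), (fourier ((j : ℤ) - l) y : ℂ) := by
  rw [← Dk_sq]
  unfold kap
  push_cast
  rw [div_eq_inv_mul]

/-- Grid points. -/
def gp (Q : ℕ) (w : Fin Q) : UnitAddCircle := (((w : ℕ) : ℝ) / Q : ℝ)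

theorem fourier_gp (Q : ℕ) (w : Fin Q) (k : ℤ) :
    (fourier k (gp Q w) : ℂ) = Complex.exp (2 * Real.pi * Complex.I * k / Q) ^ (w : ℕ) := by
  rw [gp, fourier_coe_apply, ← Complex.exp_nat_mul]
  congr 1
  push_cast
  ring

theorem sum_fourier_gp {Q : ℕ} (hQ : 0 < Q) {k : ℤ} (hk : k ≠ 0) (hkQ : |k| < Q) :
    ∑ w : Fin Q, (fourier k (gp Q w) : ℂ) = 0 := by
  simp_rw [fourier_gp]
  rw [Fin.sum_univ_eq_sum_range (fun j => Complex.exp (2 * Real.pi * Complex.I * k / Q) ^ j) Q]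
  have hQc : (Q : ℂ) ≠ 0 := by exact_mod_cast hQ.ne'
  have h1 : Complex.exp (2 * Real.pi * Complex.I * k / Q) ≠ 1 := by
    intro h
    rw [Complex.exp_eq_one_iff] at h
    obtain ⟨n, hn⟩ := h
    have hpi : (2 * Real.pi * Complex.I : ℂ) ≠ 0 := Complex.two_pi_I_ne_zero
    have h2 : (k : ℂ) = n * Q := by
      rw [div_eq_iff hQc] at hn
      have h3 : (2 * Real.pi * Complex.I : ℂ) * k = (2 * Real.pi * Complex.I : ℂ) * (n * Q) := by
        rw [hn]; ring
      exact mul_left_cancel₀ hpi h3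
    have h4 : k = n * Q := by exact_mod_cast h2
    have h5 : n ≠ 0 := by
      rintro rfl
      rw [zero_mul] at h4
      exact hk h4
    have h6 : (Q : ℤ) ≤ |k| := by
      rw [h4, abs_mul, Nat.abs_cast]
      have : 1 ≤ |n| := Int.one_le_abs h5
      nlinarith
    linarith
  have h7 : Complex.exp (2 * Real.pi * Complex.I * k / Q) ^ Q = 1 := by
    rw [← Complex.exp_nat_mul, Complex.exp_eq_one_iff]
    refine ⟨k, ?_⟩
    field_simp
  rw [geom_sum_eq h1, h7, sub_self, zero_div]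

theorem fourier_zero_arg (y : UnitAddCircle) : (fourier 0 y : ℂ) = 1 := by simp

theorem Ex_kap {Q N : ℕ} (hQ : N + 1 ≤ Q) (t : UnitAddCircle) :
    Ex (fun w : Fin Q => kap N (gp Q w - t)) = 1 := by
  have hQ0 : 0 < Q := by omega
  have hQr : (Q : ℝ) ≠ 0 := by exact_mod_cast hQ0.ne'
  have hN : ((N + 1 : ℝ) : ℂ) ≠ 0 := by
    have : (0 : ℝ) < N + 1 := by positivity
    exact_mod_cast this.ne'
  have h1 : ((∑ w : Fin Q, kap N (gp Q w - t) : ℝ) : ℂ) = Q := by
    rw [Complex.ofReal_sum]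
    simp_rw [kap_coe, fourier_sub_arg]
    rw [← Finset.mul_sum, Finset.sum_comm]
    have h2 : ∀ j ∈ range (N + 1), ∑ w : Fin Q, ∑ l ∈ range (N + 1),
        (fourier ((j : ℤ) - l) (gp Q w) : ℂ) * fourier (-((j : ℤ) - l)) t = Q := by
      intro j hj
      rw [Finset.sum_comm, Finset.sum_eq_single j]
      · simp only [sub_self, neg_zero, fourier_zero_arg, mul_one]
        simp
      · intro l hl hlj
        rw [← Finset.sum_mul, sum_fourier_gp hQ0, zero_mul]
        · intro h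
          apply hlj
          have : (j : ℤ) = l := by linarith
          exact_mod_cast this.symm
        · rw [Finset.mem_range] at hl hj
          rw [abs_lt]
          constructor <;> omega
      · intro h; exact absurd hj h
    rw [Finset.sum_congr rfl h2, Finset.sum_const, Finset.card_range, nsmul_eq_mul]
    push_cast
    push_cast at hN
    field_simp
  have h3 : ∑ w : Fin Q, kap N (gp Q w - t) = Q := by exact_mod_cast h1
  unfold Ex
  rw [h3, Fintype.card_fin, div_self hQr]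

theorem Ex_kap_sq {Q N : ℕ} (hQ : N + 1 ≤ Q) (t : UnitAddCircle) :
    Ex (fun w : Fin Q => kap N (gp Q w - t) ^ 2) ≤ N + 1 := by
  have h1 : ∀ w : Fin Q, kap N (gp Q w - t) ^ 2 ≤ (N + 1) * kap N (gp Q w - t) := by
    intro w
    rw [pow_two]
    exact mul_le_mul_of_nonneg_right (kap_le _ _) (kap_nonneg _ _)
  refine (Pool.Agent.Lib_helper23.TILF.DS.Ex_mono h1).trans ?_
  rw [Pool.Agent.Lib_helper23.TILF.DS.Ex_mul_left, Ex_kap hQ, mul_one]

/-- The index set of the smoothing operator. -/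
def Iq (N : ℕ) : Finset ((ℕ × ℕ) × (ℕ × ℕ)) :=
  ((range (N + 1) ×ˢ range (N + 1)) ×ˢ (range (N + 1) ×ˢ range (N + 1))).filter
    fun p => p.1.1 + p.2.1 = p.1.2 + p.2.2

/-- The multiplier of the smoothing operator. -/
def Lk (N : ℕ) (y : UnitAddCircle) : ℂ :=
  (((N + 1 : ℝ) : ℂ)⁻¹) ^ 2 * ∑ p ∈ Iq N, (fourier ((p.1.1 : ℤ) - p.1.2) y : ℂ)

theorem Lk_eq (N : ℕ) (x y : UnitAddCircle) : Lk N (x - y)
    = ((Ex (fun t : Fin (2 * (N + 1)) => kap N (x - gp _ t) * kap N (y - gp _ t)) : ℝ) : ℂ) := by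
  have hM : (0 : ℝ) < ((2 * (N + 1) : ℕ) : ℝ) := by positivity
  have hMc : ((2 * (N + 1) : ℕ) : ℂ) ≠ 0 := by exact_mod_cast hM.ne'
  have key : ((∑ t : Fin (2 * (N + 1)), kap N (x - gp _ t) * kap N (y - gp _ t) : ℝ) : ℂ)
      = ((2 * (N + 1) : ℕ) : ℂ) * Lk N (x - y) := by
    rw [Complex.ofReal_sum]
    have e1 : ∀ t : Fin (2 * (N + 1)), ((kap N (x - gp _ t) * kap N (y - gp _ t) : ℝ) : ℂ)
        = (((N + 1 : ℝ) : ℂ)⁻¹) ^ 2 * ∑ p ∈ (range (N + 1) ×ˢ range (N + 1)) ×ˢ
            (range (N + 1) ×ˢ range (N + 1)),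
          (fourier ((p.1.1 : ℤ) - p.1.2) x * fourier ((p.2.1 : ℤ) - p.2.2) y) *
            (fourier (-(((p.1.1 : ℤ) - p.1.2) + ((p.2.1 : ℤ) - p.2.2))) (gp _ t) : ℂ) := by
      intro t
      rw [Complex.ofReal_mul, kap_coe, kap_coe, Finset.sum_product]
      simp_rw [Finset.sum_product, fourier_sub_arg, neg_add, fourier_add]
      rw [pow_two, mul_mul_mul_comm]
      congr 1
      rw [Finset.sum_mul]
      refine Finset.sum_congr rfl fun j _ => ?_
      rw [Finset.sum_mul]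
      refine Finset.sum_congr rfl fun l _ => ?_
      rw [Finset.mul_sum]
      refine Finset.sum_congr rfl fun j' _ => ?_
      rw [Finset.mul_sum]
      refine Finset.sum_congr rfl fun l' _ => ?_
      ring
    simp_rw [e1]
    rw [← Finset.mul_sum, Finset.sum_comm, Lk, mul_left_comm]
    congr 1
    rw [Iq, Finset.sum_filter, Finset.mul_sum]
    refine Finset.sum_congr rfl fun p hp => ?_
    rw [Finset.mem_product, Finset.mem_product, Finset.mem_product, Finset.mem_range,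
      Finset.mem_range, Finset.mem_range, Finset.mem_range] at hp
    rw [← Finset.mul_sum]
    by_cases h : p.1.1 + p.2.1 = p.1.2 + p.2.2
    · rw [if_pos h]
      have h0 : ((p.1.1 : ℤ) - p.1.2) + ((p.2.1 : ℤ) - p.2.2) = 0 := by omega
      have h2 : (p.2.1 : ℤ) - p.2.2 = -((p.1.1 : ℤ) - p.1.2) := by omega
      simp only [h0, neg_zero, fourier_zero_arg]
      rw [h2, fourier_sub_arg]
      simp only [Finset.sum_const, Finset.card_univ, Fintype.card_fin, nsmul_eq_mul, mul_one]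
      ring
    · rw [if_neg h, sum_fourier_gp (by positivity), mul_zero, mul_zero]
      · omega
      · rw [abs_lt]; constructor <;> omega
  unfold Ex
  rw [Fintype.card_fin, Complex.ofReal_div, key, Complex.ofReal_natCast, mul_div_cancel_left₀ _ hMc]

/-- The normalisation. -/
def Zk (N : ℕ) : ℝ := ((N + 1 : ℝ)⁻¹) ^ 2 * (Iq N).card

theorem Lk_zero (N : ℕ) : Lk N 0 = (Zk N : ℂ) := by
  unfold Lk Zk
  have : ∀ p ∈ Iq N, (fourier ((p.1.1 : ℤ) - p.1.2) (0 : UnitAddCircle) : ℂ) = 1 := fun p _ => by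
    rw [fourier_apply]; simp
  rw [Finset.sum_congr rfl this]
  push_cast
  simp

theorem Zk_ge (N : ℕ) : ((N : ℝ) + 1) / 2 ≤ Zk N := by
  have h1 := Lk_eq N 0 0
  rw [sub_self, Lk_zero] at h1
  have h2 : Zk N = Ex (fun t : Fin (2 * (N + 1)) => kap N (0 - gp _ t) * kap N (0 - gp _ t)) := by
    exact_mod_cast h1
  rw [h2]
  unfold Ex
  rw [Fintype.card_fin]
  have hM : (0 : ℝ) < ((2 * (N + 1) : ℕ) : ℝ) := by positivity
  rw [le_div_iff₀ hM]
  have h3 : (0 : ℕ) < 2 * (N + 1) := by omega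
  have h4 := Finset.single_le_sum (f := fun t : Fin (2 * (N + 1)) => kap N (0 - gp _ t) * kap N (0 - gp _ t))
    (fun t _ => mul_nonneg (kap_nonneg _ _) (kap_nonneg _ _)) (Finset.mem_univ (⟨0, h3⟩ : Fin (2 * (N + 1))))
  refine le_trans (le_of_eq ?_) h4
  have h5 : (0 : UnitAddCircle) - gp (2 * (N + 1)) ⟨0, h3⟩ = 0 := by
    simp [gp]
  rw [h5, kap_zero]
  push_cast
  ring

end Kernel

section Smooth

open MeasureTheory AddCircle Topology Finset Filter
open Pool.Agent.Lib_helper23.TILF.DS (Ex Qf)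

theorem norm_av1_nsmul {R : ℕ} (hR : 1 ≤ R) (α : UnitAddCircle) (n : ℕ) (f : C(UnitAddCircle, ℂ)) :
    ‖av1 R α (f - translate (n • α) f)‖ ≤ n * (2 * ‖f‖ / R) := by
  induction n with
  | zero =>
    rw [zero_smul, translate_zero, av1_sub, sub_self, norm_zero, Nat.cast_zero, zero_mul]
  | succ n ih =>
    have h1 : f - translate ((n + 1) • α) f
        = (f - translate (n • α) f) + (translate (n • α) f - translate α (translate (n • α) f)) := by
      rw [translate_translate, succ_nsmul, add_comm α]; abel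
    rw [h1, av1_add]
    refine (norm_add_le _ _).trans ?_
    have h2 := norm_av1_diff hR α (translate (n • α) f)
    have h3 := norm_translate (n • α) f
    have h4 : 2 * ‖translate (n • α) f‖ / R ≤ 2 * ‖f‖ / R := by gcongr
    push_cast
    linarith

theorem norm_av1_zsmul {R : ℕ} (hR : 1 ≤ R) (α : UnitAddCircle) (k : ℤ) (f : C(UnitAddCircle, ℂ)) :
    ‖av1 R α (f - translate (k • α) f)‖ ≤ |(k : ℝ)| * (2 * ‖f‖ / R) := by
  rcases Int.eq_nat_or_neg k with ⟨n, rfl | rfl⟩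
  · rw [natCast_zsmul, Int.cast_natCast, Nat.abs_cast]
    exact norm_av1_nsmul hR α n f
  · rw [neg_smul, natCast_zsmul, Int.cast_neg, Int.cast_natCast, abs_neg, Nat.abs_cast]
    set g := translate (-(n • α)) f with hg
    have h1 : translate (n • α) g = f := by
      rw [hg, translate_translate, add_neg_cancel, translate_zero]
    have h2 := norm_av1_nsmul hR α n g
    rw [h1, av1_sub, norm_sub_rev, ← av1_sub] at h2
    refine h2.trans ?_
    have h3 : ‖g‖ ≤ ‖f‖ := norm_translate _ _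
    gcongr

/-- The smoothing operator. -/
def Pop (N : ℕ) (α : UnitAddCircle) (f : C(UnitAddCircle, ℂ)) : C(UnitAddCircle, ℂ) :=
  ((((N + 1 : ℝ) : ℂ)⁻¹) ^ 2) • ∑ p ∈ Iq N, translate (((p.1.2 : ℤ) - p.1.1) • α) f

theorem av1_sum (R : ℕ) (a : UnitAddCircle) {ι : Type*} (s : Finset ι)
    (f : ι → C(UnitAddCircle, ℂ)) : av1 R a (∑ i ∈ s, f i) = ∑ i ∈ s, av1 R a (f i) := by
  have h := av_sum R 1 (fun _ => a) s f
  exact h

theorem smoothing {R N : ℕ} (hR : 1 ≤ R) (α : UnitAddCircle) (f : C(UnitAddCircle, ℂ)) :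
    ‖av1 R α f‖ ≤ 2 / ((N : ℝ) + 1) * ‖Pop N α f‖ + 2 * N * ‖f‖ / R := by
  have hR' : (0 : ℝ) < R := by exact_mod_cast hR
  have hN : (0 : ℝ) < (N : ℝ) + 1 := by positivity
  have hZ := Zk_ge N
  have hZ0 : 0 < Zk N := lt_of_lt_of_le (by positivity) hZ
  set c : ℂ := (((N + 1 : ℝ) : ℂ)⁻¹) ^ 2 with hc
  have hcn : ‖c‖ = ((N + 1 : ℝ)⁻¹) ^ 2 := by
    rw [hc, norm_pow, norm_inv, Complex.norm_real, Real.norm_eq_abs, abs_of_pos hN]
  have h1 : (Zk N : ℂ) • f = Pop N α f + c • ∑ p ∈ Iq N, (f - translate (((p.1.2 : ℤ) - p.1.1) • α) f) := by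
    rw [Finset.sum_sub_distrib, csub, Pop, ← hc, Finset.sum_const, Zk]
    have h2 : c • ((Iq N).card • f) = (((((N + 1 : ℝ)⁻¹) ^ 2 * (Iq N).card : ℝ)) : ℂ) • f := by
      ext t
      have e1 : (c • ((Iq N).card • f)) t = c * ((Iq N).card • f t) := rfl
      rw [e1, nsmul_eq_mul, ContinuousMap.smul_apply, smul_eq_mul, hc]
      push_cast
      ring
    rw [h2]
    abel
  have h3 : (Zk N : ℂ) • av1 R α f = av1 R α (Pop N α f)
      + c • ∑ p ∈ Iq N, av1 R α (f - translate (((p.1.2 : ℤ) - p.1.1) • α) f) := by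
    rw [← av1_smul, h1, av1_add, av1_smul, av1_sum]
  have h4 : Zk N * ‖av1 R α f‖ ≤ ‖Pop N α f‖ + Zk N * (2 * N * ‖f‖ / R) := by
    have h5 : Zk N * ‖av1 R α f‖ = ‖(Zk N : ℂ) • av1 R α f‖ := by
      rw [norm_smul, Complex.norm_real, Real.norm_eq_abs, abs_of_pos hZ0]
    rw [h5, h3]
    refine (norm_add_le _ _).trans (add_le_add (norm_av1_le hR _ _) ?_)
    rw [norm_smul, hcn]
    have h6 : ‖∑ p ∈ Iq N, av1 R α (f - translate (((p.1.2 : ℤ) - p.1.1) • α) f)‖
        ≤ (Iq N).card * (2 * N * ‖f‖ / R) := by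
      refine (norm_sum_le _ _).trans ?_
      rw [← nsmul_eq_mul, ← Finset.sum_const]
      refine Finset.sum_le_sum fun p hp => ?_
      refine (norm_av1_zsmul hR α _ f).trans ?_
      rw [Iq, Finset.mem_filter, Finset.mem_product, Finset.mem_product, Finset.mem_range,
        Finset.mem_range] at hp
      have h7 : |(((p.1.2 : ℤ) - p.1.1 : ℤ) : ℝ)| ≤ N := by
        have : |(p.1.2 : ℤ) - p.1.1| ≤ N := by rw [abs_le]; constructor <;> omega
        exact_mod_cast this
      calc |(((p.1.2 : ℤ) - p.1.1 : ℤ) : ℝ)| * (2 * ‖f‖ / R) ≤ N * (2 * ‖f‖ / R) := by gcongr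
        _ = 2 * N * ‖f‖ / R := by ring
    calc ((N + 1 : ℝ)⁻¹) ^ 2 * ‖∑ p ∈ Iq N, av1 R α (f - translate (((p.1.2 : ℤ) - p.1.1) • α) f)‖
        ≤ ((N + 1 : ℝ)⁻¹) ^ 2 * ((Iq N).card * (2 * N * ‖f‖ / R)) := by gcongr
      _ = Zk N * (2 * N * ‖f‖ / R) := by rw [Zk]; ring
  have h8 : ‖av1 R α f‖ ≤ ‖Pop N α f‖ / Zk N + 2 * N * ‖f‖ / R := by
    rw [← sub_le_iff_le_add, le_div_iff₀ hZ0]
    linarith
  refine h8.trans (add_le_add ?_ le_rfl)
  rw [div_eq_inv_mul]
  refine mul_le_mul_of_nonneg_right ?_ (norm_nonneg _)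
  rw [show 2 / ((N : ℝ) + 1) = (((N : ℝ) + 1) / 2)⁻¹ by rw [inv_div]]
  exact inv_anti₀ (by positivity) hZ

theorem Iq_card_le (N : ℕ) : (Iq N).card ≤ (N + 1) * (N + 1) * (N + 1) := by
  have h1 : (Iq N).card ≤ ((range (N + 1) ×ˢ range (N + 1)) ×ˢ range (N + 1)).card := by
    refine Finset.card_le_card_of_injOn (fun p => (p.1, p.2.1)) ?_ ?_
    · intro p hp
      rw [Finset.mem_coe, Iq, Finset.mem_filter, Finset.mem_product, Finset.mem_product,
        Finset.mem_product] at hp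
      rw [Finset.mem_coe, Finset.mem_product, Finset.mem_product]
      exact ⟨hp.1.1, hp.1.2.1⟩
    · intro p hp q hq hpq
      rw [Finset.mem_coe, Iq, Finset.mem_filter] at hp hq
      obtain ⟨⟨p1, p2⟩, p3, p4⟩ := p
      obtain ⟨⟨q1, q2⟩, q3, q4⟩ := q
      simp only [Prod.mk.injEq] at hpq hp hq ⊢
      obtain ⟨⟨rfl, rfl⟩, rfl⟩ := hpq
      refine ⟨⟨rfl, rfl⟩, rfl, ?_⟩
      have := hp.2
      have := hq.2
      omega
  refine h1.trans (le_of_eq ?_)
  rw [Finset.card_product, Finset.card_product, Finset.card_range]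

theorem Lk_lip (N : ℕ) (x y : UnitAddCircle) :
    ‖Lk N x - Lk N y‖ ≤ 2 * Real.pi * N * (N + 1) * ‖x - y‖ := by
  have hN : (0 : ℝ) < (N : ℝ) + 1 := by positivity
  unfold Lk
  rw [← mul_sub, ← Finset.sum_sub_distrib, norm_mul, norm_pow, norm_inv, Complex.norm_real,
    Real.norm_eq_abs, abs_of_pos hN]
  have h1 : ‖∑ p ∈ Iq N, ((fourier ((p.1.1 : ℤ) - p.1.2) x : ℂ) - fourier ((p.1.1 : ℤ) - p.1.2) y)‖
      ≤ (Iq N).card * (2 * Real.pi * N * ‖x - y‖) := by
    refine (norm_sum_le _ _).trans ?_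
    rw [← nsmul_eq_mul, ← Finset.sum_const]
    refine Finset.sum_le_sum fun p hp => ?_
    have h2 := Pool.Agent.Lib_helper23.TILF.fourier_shift ((p.1.1 : ℤ) - p.1.2) x (x - y)
    rw [sub_sub_cancel, norm_sub_rev] at h2
    refine h2.trans ?_
    rw [Iq, Finset.mem_filter, Finset.mem_product, Finset.mem_product, Finset.mem_range,
      Finset.mem_range] at hp
    have h7 : ‖((p.1.1 : ℤ) - p.1.2)‖ ≤ N := by
      have : |(p.1.1 : ℤ) - p.1.2| ≤ N := by rw [abs_le]; constructor <;> omega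
      rw [Int.norm_eq_abs]
      exact_mod_cast this
    have h8 : ‖((p.1.1 : ℤ) - p.1.2) • (x - y)‖ ≤ ‖((p.1.1 : ℤ) - p.1.2)‖ * ‖x - y‖ := norm_zsmul_le _ _
    calc 2 * Real.pi * ‖((p.1.1 : ℤ) - p.1.2) • (x - y)‖
        ≤ 2 * Real.pi * (‖((p.1.1 : ℤ) - p.1.2)‖ * ‖x - y‖) := by gcongr
      _ ≤ 2 * Real.pi * (N * ‖x - y‖) := by gcongr
      _ = _ := by ring
  have h3 : ((Iq N).card : ℝ) ≤ (N + 1) ^ 3 := by
    have := Iq_card_le N
    calc ((Iq N).card : ℝ) ≤ (((N + 1) * (N + 1) * (N + 1) : ℕ) : ℝ) := by exact_mod_cast this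
      _ = (N + 1) ^ 3 := by push_cast; ring
  calc ((N + 1 : ℝ)⁻¹) ^ 2 * ‖∑ p ∈ Iq N, ((fourier ((p.1.1 : ℤ) - p.1.2) x : ℂ)
        - fourier ((p.1.1 : ℤ) - p.1.2) y)‖
      ≤ ((N + 1 : ℝ)⁻¹) ^ 2 * ((Iq N).card * (2 * Real.pi * N * ‖x - y‖)) := by gcongr
    _ ≤ ((N + 1 : ℝ)⁻¹) ^ 2 * ((N + 1) ^ 3 * (2 * Real.pi * N * ‖x - y‖)) := by gcongr
    _ = _ := by field_simp

/-- A trigonometric polynomial with spectrum in a set of differences. -/
def bl {m : ℕ} (lam : Fin m → ℤ) (a : Fin m → Fin m → ℂ) : C(UnitAddCircle, ℂ) :=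
  ∑ i, ∑ j, a i j • fourier (lam i - lam j)

theorem fourier_diff (k l : ℤ) (x : UnitAddCircle) :
    (fourier (k - l) x : ℂ) = fourier k x * (starRingEnd ℂ) (fourier l x) := by
  rw [sub_eq_add_neg, fourier_add, fourier_neg]

theorem bl_apply {m : ℕ} (lam : Fin m → ℤ) (a : Fin m → Fin m → ℂ) (x : UnitAddCircle) :
    bl lam a x = Qf a (fun i => fourier (lam i) x) := by
  rw [bl, ContinuousMap.sum_apply, Qf]
  refine Finset.sum_congr rfl fun i _ => ?_
  rw [ContinuousMap.sum_apply]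
  refine Finset.sum_congr rfl fun j _ => ?_
  rw [ContinuousMap.smul_apply, smul_eq_mul, fourier_diff]

theorem norm_bl_le {m : ℕ} (lam : Fin m → ℤ) {a : Fin m → Fin m → ℂ} {B : ℝ}
    (hA : ∀ z : Fin m → ℂ, (∀ i, ‖z i‖ = 1) → ‖Qf a z‖ ≤ B) (hB : 0 ≤ B) : ‖bl lam a‖ ≤ B := by
  rw [ContinuousMap.norm_le _ hB]
  intro x
  rw [bl_apply]
  exact hA _ fun i => Pool.Agent.Lib_helper23.TILF.norm_fourier_all _ _

theorem Pop_bl {m : ℕ} (N : ℕ) (α : UnitAddCircle) (lam : Fin m → ℤ) (a : Fin m → Fin m → ℂ)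
    (x : UnitAddCircle) : Pop N α (bl lam a) x
      = Qf (fun i j => a i j * Lk N ((lam i - lam j) • α)) (fun i => fourier (lam i) x) := by
  rw [Pop, ContinuousMap.smul_apply, ContinuousMap.sum_apply, smul_eq_mul, Finset.mul_sum]
  have h1 : ∀ p ∈ Iq N, (((N + 1 : ℝ) : ℂ)⁻¹) ^ 2 * (translate (((p.1.2 : ℤ) - p.1.1) • α) (bl lam a)) x
      = ∑ i, ∑ j, (a i j * (fourier (lam i) x * (starRingEnd ℂ) (fourier (lam j) x)))
        * ((((N + 1 : ℝ) : ℂ)⁻¹) ^ 2 * (fourier ((p.1.1 : ℤ) - p.1.2) ((lam i - lam j) • α) : ℂ)) := by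
    intro p _
    rw [translate_apply, bl, ContinuousMap.sum_apply, Finset.mul_sum]
    refine Finset.sum_congr rfl fun i _ => ?_
    rw [ContinuousMap.sum_apply, Finset.mul_sum]
    refine Finset.sum_congr rfl fun j _ => ?_
    rw [ContinuousMap.smul_apply, smul_eq_mul, fourier_sub_arg, fourier_diff]
    have h2 : (fourier (-(lam i - lam j)) ((((p.1.2 : ℤ) - p.1.1)) • α) : ℂ)
        = fourier ((p.1.1 : ℤ) - p.1.2) ((lam i - lam j) • α) := by
      rw [fourier_apply, fourier_apply, smul_smul, smul_smul]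
      congr 3
      ring
    rw [h2]
    ring
  rw [Finset.sum_congr rfl h1, Finset.sum_comm, Qf]
  refine Finset.sum_congr rfl fun i _ => ?_
  rw [Finset.sum_comm]
  refine Finset.sum_congr rfl fun j _ => ?_
  rw [← Finset.mul_sum, ← Finset.mul_sum, Lk]
  ring

end Smooth

section Low

open MeasureTheory AddCircle Topology Finset Filter
open scoped ENNReal
open Pool.Agent.Lib_helper23.TILF.DS (Ex Qf)

theorem norm_fourier_fun (k : ℤ) : ‖(fourier k : C(UnitAddCircle, ℂ))‖ = 1 := fourier_norm k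

theorem av1_fourier_le {R : ℕ} (hR : 1 ≤ R) (k : ℤ) (α : UnitAddCircle) (hk : k • α ≠ 0) :
    ‖av1 R α (fourier k)‖ ≤ (√R)⁻¹ * (√‖k • α‖)⁻¹ := by
  have hR' : (0 : ℝ) < R := by exact_mod_cast hR
  have hk' : 0 < ‖k • α‖ := norm_pos_iff.2 hk
  have h1 := norm_av1_diff hR α (fourier k)
  rw [norm_fourier_fun, mul_one] at h1
  have h2 : (fourier k : C(UnitAddCircle, ℂ)) - translate α (fourier k)
      = ((1 : ℂ) - fourier 1 (-(k • α))) • (fourier k : C(UnitAddCircle, ℂ)) := by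
    rw [translate_fourier, fourier_neg_zsmul]
    ext t
    simp only [ContinuousMap.sub_apply, ContinuousMap.smul_apply, smul_eq_mul]
    ring
  rw [h2, av1_smul, norm_smul] at h1
  have h3 := four_norm_le (-(k • α))
  rw [norm_neg] at h3
  have h4 : ‖av1 R α (fourier k)‖ ≤ 1 := (norm_av1_le hR _ _).trans (norm_fourier_fun k).le
  set v := ‖av1 R α (fourier k)‖ with hv
  have hv0 : 0 ≤ v := norm_nonneg _
  have h5 : 4 * ‖k • α‖ * v ≤ 2 / R := (mul_le_mul_of_nonneg_right h3 hv0).trans h1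
  have h6 : v ^ 2 ≤ (R : ℝ)⁻¹ * ‖k • α‖⁻¹ := by
    have h7 : v ^ 2 ≤ v := by nlinarith
    have h8 : v ≤ (R : ℝ)⁻¹ * ‖k • α‖⁻¹ := by
      rw [← mul_inv, ← one_div, le_div_iff₀ (by positivity)]
      rw [le_div_iff₀ hR'] at h5
      nlinarith
    exact h7.trans h8
  rw [← Real.sqrt_inv, ← Real.sqrt_inv, ← Real.sqrt_mul (by positivity)]
  exact Real.le_sqrt_of_sq_le h6

/-- The mean of the weight. -/
def Wt : ℝ := (∫⁻ θ : UnitAddCircle, wt θ).toReal

theorem Wt_nonneg : 0 ≤ Wt := ENNReal.toReal_nonneg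

theorem wt_eq {θ : UnitAddCircle} (h : θ ≠ 0) : wt θ = ENNReal.ofReal (√‖θ‖)⁻¹ := by
  have h1 : 0 < ‖θ‖ := norm_pos_iff.2 h
  unfold wt
  rw [ENNReal.ofReal_rpow_of_pos h1, Real.rpow_neg h1.le, Real.sqrt_eq_rpow]

theorem wt_zero : wt 0 = ⊤ := by
  unfold wt
  rw [norm_zero, ENNReal.ofReal_zero, ENNReal.zero_rpow_of_neg (by norm_num)]

theorem exists_point {ι : Type*} (s : Finset ι) (c : ι → ℝ) (hc : ∀ i ∈ s, 0 ≤ c i) (k : ι → ℤ)
    (hk : ∀ i ∈ s, c i ≠ 0 → k i ≠ 0) : ∃ α : UnitAddCircle,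
      (∀ i ∈ s, c i ≠ 0 → k i • α ≠ 0) ∧
      ∑ i ∈ s, c i * (√‖k i • α‖)⁻¹ ≤ Wt * ∑ i ∈ s, c i := by
  classical
  set F : UnitAddCircle → ℝ≥0∞ := fun α => ∑ i ∈ s.filter (fun i => c i ≠ 0),
    ENNReal.ofReal (c i) * wt (k i • α) with hF
  have hmeas : ∀ k : ℤ, Measurable (fun a : UnitAddCircle => wt (k • a)) := by
    intro k
    exact measurable_wt.comp (continuous_zsmul k).measurable
  have hFm : Measurable F := by
    rw [hF]
    exact Finset.measurable_sum _ fun i _ => (hmeas _).const_mul _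
  have : IsProbabilityMeasure (volume : Measure UnitAddCircle) := ⟨by simp⟩
  obtain ⟨α, hα⟩ := exists_le_lintegral (μ := (volume : Measure UnitAddCircle)) hFm.aemeasurable
  have hI : ∫⁻ α : UnitAddCircle, F α
      = ENNReal.ofReal (∑ i ∈ s.filter (fun i => c i ≠ 0), c i) * ∫⁻ θ : UnitAddCircle, wt θ := by
    rw [hF, lintegral_finsetSum _ fun i _ => (hmeas _).const_mul _, ENNReal.ofReal_sum_of_nonneg
      (fun i hi => hc i (Finset.mem_filter.1 hi).1), Finset.sum_mul]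
    refine Finset.sum_congr rfl fun i hi => ?_
    rw [Finset.mem_filter] at hi
    rw [lintegral_const_mul _ (hmeas _), lintegral_wt_zsmul (hk i hi.1 hi.2)]
  have hfin : F α ≠ ⊤ := by
    refine ne_top_of_le_ne_top ?_ hα
    rw [hI]
    exact ENNReal.mul_ne_top ENNReal.ofReal_ne_top lintegral_wt_lt_top.ne
  have hne : ∀ i ∈ s, c i ≠ 0 → k i • α ≠ 0 := by
    intro i hi hci h0
    apply hfin
    rw [hF]
    refine ENNReal.sum_eq_top.2 ⟨i, Finset.mem_filter.2 ⟨hi, hci⟩, ?_⟩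
    rw [h0, wt_zero, ENNReal.mul_top]
    have : 0 < c i := lt_of_le_of_ne (hc i hi) (Ne.symm hci)
    simpa using this
  refine ⟨α, hne, ?_⟩
  have hsum : ∑ i ∈ s, c i * (√‖k i • α‖)⁻¹
      = ∑ i ∈ s.filter (fun i => c i ≠ 0), c i * (√‖k i • α‖)⁻¹ := by
    rw [Finset.sum_filter]
    refine Finset.sum_congr rfl fun i _ => ?_
    by_cases h : c i = 0
    · simp [h]
    · rw [if_pos h]
  have hsum' : ∑ i ∈ s, c i = ∑ i ∈ s.filter (fun i => c i ≠ 0), c i := by
    rw [Finset.sum_filter]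
    refine Finset.sum_congr rfl fun i _ => ?_
    by_cases h : c i = 0
    · simp [h]
    · rw [if_pos h]
  have hFr : F α = ENNReal.ofReal (∑ i ∈ s.filter (fun i => c i ≠ 0), c i * (√‖k i • α‖)⁻¹) := by
    rw [hF, ENNReal.ofReal_sum_of_nonneg]
    · refine Finset.sum_congr rfl fun i hi => ?_
      rw [Finset.mem_filter] at hi
      rw [wt_eq (hne i hi.1 hi.2), ENNReal.ofReal_mul (hc i hi.1)]
    · intro i hi
      rw [Finset.mem_filter] at hi
      exact mul_nonneg (hc i hi.1) (by positivity)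
  rw [hsum, hsum']
  have hWt : ENNReal.ofReal Wt = ∫⁻ θ : UnitAddCircle, wt θ := ENNReal.ofReal_toReal lintegral_wt_lt_top.ne
  rw [hFr, hI, ← hWt, ← ENNReal.ofReal_mul (Finset.sum_nonneg fun i hi => hc i (Finset.mem_filter.1 hi).1)] at hα
  rw [mul_comm Wt]
  exact (ENNReal.ofReal_le_ofReal_iff (mul_nonneg (Finset.sum_nonneg fun i hi =>
    hc i (Finset.mem_filter.1 hi).1) Wt_nonneg)).1 hα

end Low

section Seq

open MeasureTheory AddCircle Topology Finset Filter
open Pool.Agent.Lib_helper23.TILF.DS (Ex Qf)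

theorem tail_sum (n M : ℕ) : ∑ i ∈ range M, (if n ≤ i then 1 / ((i : ℝ) + 1) ^ 2 else 0)
    ≤ 2 / ((n : ℝ) + 1) - (if n < M then 1 / (M : ℝ) else 0) := by
  induction M with
  | zero => simp; positivity
  | succ M ih =>
    rw [Finset.sum_range_succ]
    have hn : (0 : ℝ) < (n : ℝ) + 1 := by positivity
    have hM : (0 : ℝ) < (M : ℝ) + 1 := by positivity
    rcases Nat.lt_trichotomy M n with hlt | heq | hgt
    · rw [if_neg (by omega)] at ih
      rw [if_neg (by omega), if_neg (by omega)]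
      linarith
    · subst heq
      rw [if_neg (by omega)] at ih
      have h0 : ∑ i ∈ range M, (if M ≤ i then 1 / ((i : ℝ) + 1) ^ 2 else 0) = 0 :=
        Finset.sum_eq_zero fun i hi => by
          rw [if_neg]; rw [Finset.mem_range] at hi; omega
      rw [h0, if_pos le_rfl, if_pos (by omega)]
      push_cast
      have h1 : 1 / ((M : ℝ) + 1) ^ 2 ≤ 1 / ((M : ℝ) + 1) := by
        rw [div_le_div_iff₀ (by positivity) hM]
        nlinarith [(Nat.cast_nonneg M : (0 : ℝ) ≤ M)]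
      have h2 : (2 : ℝ) / ((M : ℝ) + 1) = 1 / ((M : ℝ) + 1) + 1 / ((M : ℝ) + 1) := by ring
      rw [h2]
      linarith
    · rw [if_pos hgt] at ih
      rw [if_pos hgt.le, if_pos (by omega)]
      have hM0 : (0 : ℝ) < (M : ℝ) := by
        have : 0 < M := by omega
        exact_mod_cast this
      have h1 : 1 / ((M : ℝ) + 1) ^ 2 ≤ 1 / (M : ℝ) - 1 / ((M : ℝ) + 1) := by
        rw [div_sub_div _ _ hM0.ne' hM.ne', div_le_div_iff₀ (by positivity) (by positivity)]
        nlinarith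
      push_cast
      linarith

theorem tail_sum' (n M : ℕ) : ∑ i : Fin M, (if n ≤ (i : ℕ) then 1 / (((i : ℕ) : ℝ) + 1) ^ 2 else 0)
    ≤ 2 / ((n : ℝ) + 1) := by
  rw [← Finset.sum_range (fun i => if n ≤ i then 1 / ((i : ℝ) + 1) ^ 2 else 0)]
  refine (tail_sum n M).trans ?_
  have : (0 : ℝ) ≤ (if n < M then 1 / (M : ℝ) else 0) := by split_ifs <;> positivity
  linarith

theorem sum_all (M : ℕ) : ∑ i : Fin M, 1 / (((i : ℕ) : ℝ) + 1) ^ 2 ≤ 2 := by
  have h := tail_sum' 0 M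
  simpa using h

/-- Differences. -/
def Df (lam : ℕ → ℤ) : Set ℤ := {k | ∃ i j : ℕ, i ≠ j ∧ k = lam i - lam j}

theorem repr {lam : ℕ → ℤ} {f : C(UnitAddCircle, ℂ)} (hf : f ∈ TP (Df lam)) :
    ∃ (M : ℕ) (a : Fin M → Fin M → ℂ), (∀ i, a i i = 0) ∧ f = bl (fun i => lam i) a := by
  have key : ∃ (M : ℕ) (A : ℕ → ℕ → ℂ), (∀ i, A i i = 0) ∧ (∀ i j, (M ≤ i ∨ M ≤ j) → A i j = 0) ∧
      f = ∑ i ∈ range M, ∑ j ∈ range M, A i j • (fourier (lam i - lam j) : C(UnitAddCircle, ℂ)) := by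
    have hext : ∀ (M M' : ℕ) (A : ℕ → ℕ → ℂ), M ≤ M' → (∀ i j, (M ≤ i ∨ M ≤ j) → A i j = 0) →
        ∑ i ∈ range M, ∑ j ∈ range M, A i j • (fourier (lam i - lam j) : C(UnitAddCircle, ℂ))
        = ∑ i ∈ range M', ∑ j ∈ range M', A i j • (fourier (lam i - lam j) : C(UnitAddCircle, ℂ)) := by
      intro M M' A hM hA
      have h1 : ∀ i, ∑ j ∈ range M, A i j • (fourier (lam i - lam j) : C(UnitAddCircle, ℂ))
          = ∑ j ∈ range M', A i j • (fourier (lam i - lam j) : C(UnitAddCircle, ℂ)) := by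
        intro i
        refine Finset.sum_subset (Finset.range_subset_range.2 hM) fun j _ hj => ?_
        rw [hA i j (Or.inr (by rw [Finset.mem_range] at hj; omega)), czero_smul]
      simp_rw [h1]
      refine Finset.sum_subset (Finset.range_subset_range.2 hM) fun i _ hi => ?_
      refine Finset.sum_eq_zero fun j _ => ?_
      rw [hA i j (Or.inl (by rw [Finset.mem_range] at hi; omega)), czero_smul]
    refine Submodule.span_induction (p := fun f _ => ∃ (M : ℕ) (A : ℕ → ℕ → ℂ), (∀ i, A i i = 0) ∧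
      (∀ i j, (M ≤ i ∨ M ≤ j) → A i j = 0) ∧
      f = ∑ i ∈ range M, ∑ j ∈ range M, A i j • (fourier (lam i - lam j) : C(UnitAddCircle, ℂ)))
      ?_ ?_ ?_ ?_ hf
    · rintro f ⟨k, ⟨i, j, hij, rfl⟩, rfl⟩
      refine ⟨max i j + 1, fun p q => if p = i ∧ q = j then 1 else 0, ?_, ?_, ?_⟩
      · intro p
        beta_reduce
        rw [if_neg]
        rintro ⟨rfl, h⟩
        exact hij h
      · intro p q hpq
        beta_reduce
        rw [if_neg]
        rintro ⟨rfl, rfl⟩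
        omega
      · rw [Finset.sum_eq_single i, Finset.sum_eq_single j]
        · simp only [and_self, if_true]
          ext t
          rw [ContinuousMap.smul_apply, smul_eq_mul, one_mul]
        · intro q _ hq
          beta_reduce
          rw [if_neg (fun h => hq h.2), czero_smul]
        · intro h
          exact absurd (Finset.mem_range.2 (by omega)) h
        · intro p _ hp
          refine Finset.sum_eq_zero fun q _ => ?_
          beta_reduce
          rw [if_neg (fun h => hp h.1), czero_smul]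
        · intro h
          exact absurd (Finset.mem_range.2 (by omega)) h
    · exact ⟨0, fun _ _ => 0, fun _ => rfl, fun _ _ _ => rfl, by simp⟩
    · rintro f g _ _ ⟨M, A, hA0, hA, rfl⟩ ⟨M', A', hA0', hA', rfl⟩
      refine ⟨max M M', fun i j => A i j + A' i j, fun i => by beta_reduce; rw [hA0, hA0', add_zero], ?_, ?_⟩
      · intro i j h
        beta_reduce
        rw [hA i j (by omega), hA' i j (by omega), add_zero]
      · rw [hext M (max M M') A (le_max_left _ _) hA, hext M' (max M M') A' (le_max_right _ _) hA',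
          ← Finset.sum_add_distrib]
        refine Finset.sum_congr rfl fun i _ => ?_
        rw [← Finset.sum_add_distrib]
        refine Finset.sum_congr rfl fun j _ => ?_
        ext t
        simp only [ContinuousMap.add_apply, ContinuousMap.smul_apply, smul_eq_mul]
        ring
    · rintro c f _ ⟨M, A, hA0, hA, rfl⟩
      refine ⟨M, fun i j => c * A i j, fun i => by beta_reduce; rw [hA0, mul_zero], ?_, ?_⟩
      · intro i j h
        beta_reduce
        rw [hA i j h, mul_zero]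
      · rw [Finset.smul_sum]
        refine Finset.sum_congr rfl fun i _ => ?_
        rw [Finset.smul_sum]
        refine Finset.sum_congr rfl fun j _ => ?_
        ext t
        simp only [ContinuousMap.smul_apply, smul_eq_mul]
        ring
  obtain ⟨M, A, hA0, _, rfl⟩ := key
  refine ⟨M, fun i j => A i j, fun i => hA0 i, ?_⟩
  rw [bl, Finset.sum_range]
  refine Finset.sum_congr rfl fun i _ => ?_
  rw [Finset.sum_range]

end Seq

section Auto

open MeasureTheory AddCircle Topology Finset Filter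
open Pool.Agent.Lib_helper23.TILF.DS (Ex Qf)

theorem av1_comm (R S : ℕ) (a b : UnitAddCircle) (f : C(UnitAddCircle, ℂ)) :
    av1 R a (av1 S b f) = av1 S b (av1 R a f) :=
  av_av1 R 1 (fun _ => a) S b f

theorem av1_zero (R : ℕ) (a : UnitAddCircle) : av1 R a 0 = 0 := av_zero R 1 (fun _ => a)

end Auto

section NonSidon

open MeasureTheory AddCircle Topology Finset Filter
open Pool.Agent.Lib_helper23.TILF.DS (Ex Qf)

theorem dft_bound {k : ℕ} (hk : 0 < k) (z w : Fin k → ℂ) (hz : ∀ i, ‖z i‖ ≤ 1) (hw : ∀ i, ‖w i‖ ≤ 1) :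
    ‖∑ p : Fin k, ∑ q : Fin k, (fourier ((q : ℕ) : ℤ) (gp k p) : ℂ) * (z p * w q)‖ ≤ k * √k := by
  have hk' : (0 : ℝ) < k := by exact_mod_cast hk
  set T : Fin k → ℂ := fun p => ∑ q : Fin k, (fourier ((q : ℕ) : ℤ) (gp k p) : ℂ) * w q with hT
  have h1 : ∑ p : Fin k, ∑ q : Fin k, (fourier ((q : ℕ) : ℤ) (gp k p) : ℂ) * (z p * w q)
      = ∑ p, z p * T p := by
    refine Finset.sum_congr rfl fun p _ => ?_
    simp only [hT]
    rw [Finset.mul_sum]
    exact Finset.sum_congr rfl fun q _ => by ring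
  have h2 : ∑ p, ‖T p‖ ^ 2 = k * ∑ q, ‖w q‖ ^ 2 := by
    have h3 : ((∑ p, ‖T p‖ ^ 2 : ℝ) : ℂ) = ((k * ∑ q, ‖w q‖ ^ 2 : ℝ) : ℂ) := by
      push_cast
      have e1 : ∀ c : ℂ, ((‖c‖ : ℝ) : ℂ) ^ 2 = c * (starRingEnd ℂ) c := by
        intro c
        rw [Complex.mul_conj, Complex.normSq_eq_norm_sq]
        push_cast
        rfl
      simp_rw [e1]
      have e2 : ∀ p, T p * (starRingEnd ℂ) (T p)
          = ∑ q : Fin k, ∑ q' : Fin k, (w q * (starRingEnd ℂ) (w q'))
            * (fourier (((q : ℕ) : ℤ) - ((q' : ℕ) : ℤ)) (gp k p) : ℂ) := by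
        intro p
        simp only [hT]
        rw [map_sum, Finset.sum_mul_sum]
        refine Finset.sum_congr rfl fun q _ => Finset.sum_congr rfl fun q' _ => ?_
        rw [map_mul, fourier_diff]
        ring
      simp_rw [e2]
      rw [Finset.sum_comm, Finset.mul_sum]
      refine Finset.sum_congr rfl fun q _ => ?_
      rw [Finset.sum_comm, Finset.sum_eq_single q]
      · simp_rw [sub_self, fourier_zero_arg]
        simp only [mul_one, Finset.sum_const, Finset.card_univ, Fintype.card_fin, nsmul_eq_mul]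
      · intro q' _ hq
        rw [← Finset.mul_sum, sum_fourier_gp hk, mul_zero]
        · intro h0
          apply hq
          apply Fin.ext
          omega
        · have := q.2
          have := q'.2
          rw [abs_lt]
          constructor <;> omega
      · intro h; exact absurd (Finset.mem_univ q) h
    exact_mod_cast h3
  have h4 : ∑ q, ‖w q‖ ^ 2 ≤ k := by
    calc ∑ q, ‖w q‖ ^ 2 ≤ ∑ _q : Fin k, (1 : ℝ) := Finset.sum_le_sum fun q _ => by
          have := hw q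
          have := norm_nonneg (w q)
          nlinarith
      _ = k := by simp
  rw [h1]
  have h5 : ‖∑ p, z p * T p‖ ≤ ∑ p, ‖T p‖ := by
    refine (norm_sum_le _ _).trans (Finset.sum_le_sum fun p _ => ?_)
    rw [norm_mul]
    have := hz p
    have := norm_nonneg (T p)
    nlinarith
  refine h5.trans ?_
  have h6 : (∑ p, ‖T p‖) ^ 2 ≤ (k * √k) ^ 2 := by
    have h7 := sq_sum_le_card_mul_sum_sq (s := (Finset.univ : Finset (Fin k))) (f := fun p => ‖T p‖)
    rw [Finset.card_univ, Fintype.card_fin, h2] at h7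
    refine h7.trans ?_
    rw [mul_pow, Real.sq_sqrt hk'.le]
    calc (k : ℝ) * (k * ∑ q, ‖w q‖ ^ 2) ≤ k * (k * k) := by gcongr
      _ = _ := by ring
  exact le_of_sq_le_sq h6 (by positivity)

theorem exists_subseq (lam : ℕ → ℤ) (s : Finset UnitAddCircle) {δ : ℝ} (hδ : 0 < δ) :
    ∃ ψ : ℕ → ℕ, StrictMono ψ ∧ ∀ p q, ∀ α ∈ s, ‖(lam (ψ p) - lam (ψ q)) • α‖ < δ := by
  obtain ⟨a, φ, hφ, ha⟩ := CompactSpace.tendsto_subseq (fun i : ℕ => fun α : s => lam i • (α : UnitAddCircle))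
  rw [Metric.tendsto_atTop] at ha
  obtain ⟨N0, hN0⟩ := ha (δ / 2) (by positivity)
  refine ⟨fun p => φ (N0 + p), fun p q hpq => hφ (by omega), fun p q α hα => ?_⟩
  have h1 : ∀ p, ‖lam (φ (N0 + p)) • α - a ⟨α, hα⟩‖ < δ / 2 := by
    intro p
    have h2 := hN0 (N0 + p) (by omega)
    rw [← dist_eq_norm]
    exact lt_of_le_of_lt (dist_le_pi_dist (fun α : s => lam (φ (N0 + p)) • (α : UnitAddCircle)) a
      ⟨α, hα⟩) h2
  have h3 : (lam (φ (N0 + p)) - lam (φ (N0 + q))) • α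
      = (lam (φ (N0 + p)) • α - a ⟨α, hα⟩) - (lam (φ (N0 + q)) • α - a ⟨α, hα⟩) := by
    rw [sub_smul]; abel
  rw [h3]
  refine lt_of_le_of_lt (norm_sub_le _ _) ?_
  have := h1 p
  have := h1 q
  linarith

end NonSidon

section LacPoint

open MeasureTheory AddCircle Topology Finset Filter
open Pool.Agent.Lib_helper23.TILF.DS (Ex Qf dg)

/-- Lacunary sequences of positive integers with ratio at least `3`. -/
def Lac (lam : ℕ → ℤ) : Prop := 0 < lam 0 ∧ ∀ i : ℕ, 3 * lam i ≤ lam (i + 1)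

theorem Lac.pos {lam : ℕ → ℤ} (h : Lac lam) (i : ℕ) : 0 < lam i := by
  induction i with
  | zero => exact h.1
  | succ i ih =>
    have h1 := h.2 i
    linarith

theorem Lac.pow_le {lam : ℕ → ℤ} (h : Lac lam) (i d : ℕ) : 3 ^ d * lam i ≤ lam (i + d) := by
  induction d with
  | zero => simp
  | succ d ih =>
    have h1 := h.2 (i + d)
    rw [pow_succ, ← add_assoc]
    linarith

theorem Lac.strictMono {lam : ℕ → ℤ} (h : Lac lam) : StrictMono lam :=
  strictMono_nat_of_lt_succ fun i => by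
    have h1 := h.2 i
    have h2 := h.pos i
    linarith

/-- The shift of a digit. -/
def yy (lam : ℕ → ℤ) {M Q : ℕ} (L : ℕ) (i : Fin M) (v : Fin M → Fin Q) : ℝ :=
  ∑ j : Fin M, if j ≠ i ∧ (j : ℕ) < i + L then ((v j : ℕ) : ℝ) / Q * (lam i / lam j) else 0

def HH (lam : ℕ → ℤ) {M Q : ℕ} (L : ℕ) (i : Fin M) (v : Fin M → Fin Q) : ℤ := ⌊(Q : ℝ) * yy lam L i v⌋

theorem HH_dep (lam : ℕ → ℤ) {M Q : ℕ} (L : ℕ) (i : Fin M) (v w : Fin M → Fin Q)
    (h : ∀ j : Fin M, j ≠ i → (j : ℕ) < i + L → v j = w j) : HH lam L i v = HH lam L i w := by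
  unfold HH yy
  congr 2
  refine Finset.sum_congr rfl fun j _ => ?_
  by_cases hj : j ≠ i ∧ (j : ℕ) < i + L
  · rw [if_pos hj, if_pos hj, h j hj.1 hj.2]
  · rw [if_neg hj, if_neg hj]

/-- The approximating grid point. -/
def th (lam : ℕ → ℤ) {M Q : ℕ} (hQ : 0 < Q) (L : ℕ) (v : Fin M → Fin Q) (i : Fin M) : Fin Q :=
  dg Q hQ (((v i : ℕ) : ℤ) + HH lam L i v)

/-- The random point. -/
def pt (lam : ℕ → ℤ) {M Q : ℕ} (v : Fin M → Fin Q) : UnitAddCircle :=
  ((∑ j : Fin M, ((v j : ℕ) : ℝ) / Q / lam j : ℝ) : UnitAddCircle)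

theorem gp_dg {Q : ℕ} (hQ : 0 < Q) (x : ℤ) : gp Q (dg Q hQ x) = ((x / Q : ℝ) : UnitAddCircle) := by
  have hQr : (Q : ℝ) ≠ 0 := by exact_mod_cast hQ.ne'
  have h1 : 0 ≤ x % (Q : ℤ) := Int.emod_nonneg _ (by omega)
  have h2 : (((dg Q hQ x : Fin Q) : ℕ) : ℤ) = x % Q := by
    simp only [dg]
    omega
  have h3 : (((dg Q hQ x : Fin Q) : ℕ) : ℝ) = ((x % (Q : ℤ) : ℤ) : ℝ) := by
    rw [← h2]; push_cast; rfl
  have h4 : ((x % (Q : ℤ) : ℤ) : ℝ) = x - Q * ((x / (Q : ℤ) : ℤ) : ℝ) := by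
    have := Int.emod_def x Q
    rw [this]; push_cast; ring
  rw [gp, h3, h4]
  have h5 : ((x : ℝ) - Q * ((x / (Q : ℤ) : ℤ) : ℝ)) / Q = x / Q - ((x / (Q : ℤ) : ℤ) : ℝ) := by
    field_simp
  rw [h5, AddCircle.coe_sub]
  have h6 : ((((x / (Q : ℤ) : ℤ)) : ℝ) : UnitAddCircle) = 0 := by
    rw [AddCircle.coe_eq_zero_iff]
    exact ⟨x / (Q : ℤ), by simp⟩
  rw [h6, sub_zero]

theorem norm_coe_le_abs (x : ℝ) : ‖(x : UnitAddCircle)‖ ≤ |x| := by
  rw [UnitAddCircle.norm_eq]
  have h := round_le x 0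
  simpa using h

theorem geom_tail (n M : ℕ) : ∑ j ∈ range M, (if n ≤ j then (1 / 3 : ℝ) ^ (j - n) else 0) ≤ 3 / 2 := by
  have h1 : ∑ j ∈ range M, (if n ≤ j then (1 / 3 : ℝ) ^ (j - n) else 0)
      ≤ 3 / 2 - (if n ≤ M then 3 / 2 * (1 / 3 : ℝ) ^ (M - n) else 3 / 2) := by
    induction M with
    | zero =>
      rcases Nat.eq_zero_or_pos n with rfl | hn
      · simp
      · rw [if_neg (by omega)]; simp
    | succ M ih =>
      rw [Finset.sum_range_succ]
      rcases Nat.lt_trichotomy (M + 1) n with hlt | heq | hgt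
      · rw [if_neg (by omega)] at ih
        rw [if_neg (by omega), if_neg (by omega)]
        linarith
      · rw [if_neg (by omega)] at ih
        rw [if_neg (by omega), if_pos (by omega)]
        have : M + 1 - n = 0 := by omega
        rw [this]
        linarith
      · rw [if_pos (by omega)] at ih
        rw [if_pos (by omega), if_pos (by omega)]
        have : M + 1 - n = (M - n) + 1 := by omega
        rw [this, pow_succ]
        linarith
  refine h1.trans ?_
  have : (0 : ℝ) ≤ (if n ≤ M then 3 / 2 * (1 / 3 : ℝ) ^ (M - n) else 3 / 2) := by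
    split_ifs <;> positivity
  linarith

theorem pt_approx {lam : ℕ → ℤ} (h : Lac lam) {M Q : ℕ} (hQ : 0 < Q) (L : ℕ) (v : Fin M → Fin Q)
    (i : Fin M) : ‖lam i • pt lam v - gp Q (th lam hQ L v i)‖ ≤ 1 / Q + 3 / 2 * (1 / 3) ^ L := by
  have hQr : (0 : ℝ) < Q := by exact_mod_cast hQ
  have hpos : ∀ j : ℕ, (0 : ℝ) < lam j := fun j => by exact_mod_cast h.pos j
  set y := yy lam L i v with hy
  set t : ℝ := ∑ j : Fin M, if j ≠ i ∧ ¬ (j : ℕ) < i + L then ((v j : ℕ) : ℝ) / Q * (lam i / lam j) else 0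
    with ht
  have h1 : (lam i : ℝ) * ∑ j : Fin M, ((v j : ℕ) : ℝ) / Q / lam j = ((v i : ℕ) : ℝ) / Q + y + t := by
    have e1 : ∀ j : Fin M, (lam i : ℝ) * (((v j : ℕ) : ℝ) / Q / lam j)
        = (if j = i then ((v i : ℕ) : ℝ) / Q else 0)
          + (if j ≠ i ∧ (j : ℕ) < i + L then ((v j : ℕ) : ℝ) / Q * (lam i / lam j) else 0)
          + (if j ≠ i ∧ ¬ (j : ℕ) < i + L then ((v j : ℕ) : ℝ) / Q * (lam i / lam j) else 0) := by
      intro j
      by_cases hj : j = i
      · subst hj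
        simp only [ne_eq, not_true_eq_false, false_and, if_false, if_true, add_zero]
        have := hpos j
        field_simp
      · by_cases hjL : (j : ℕ) < i + L
        · simp only [hj, hjL, ne_eq, not_false_eq_true, true_and, if_true, if_false, not_true_eq_false,
            add_zero, zero_add]
          ring
        · simp only [hj, hjL, ne_eq, not_false_eq_true, true_and, if_true, if_false, zero_add]
          ring
    rw [Finset.mul_sum, Finset.sum_congr rfl fun j _ => e1 j, Finset.sum_add_distrib,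
      Finset.sum_add_distrib, Finset.sum_ite_eq' Finset.univ i, if_pos (Finset.mem_univ i)]
    rfl
  have h2 : lam i • pt lam v = ((((v i : ℕ) : ℝ) / Q + y + t : ℝ) : UnitAddCircle) := by
    rw [pt, ← AddCircle.coe_zsmul, zsmul_eq_mul, h1]
  have h3 : gp Q (th lam hQ L v i) = (((((v i : ℕ) : ℝ) + ⌊(Q : ℝ) * y⌋) / Q : ℝ) : UnitAddCircle) := by
    rw [th, gp_dg hQ, HH, ← hy]
    push_cast
    rfl
  rw [h2, h3, ← AddCircle.coe_sub]
  refine (norm_coe_le_abs _).trans ?_
  have h4 : ((v i : ℕ) : ℝ) / Q + y + t - (((v i : ℕ) : ℝ) + ⌊(Q : ℝ) * y⌋) / Q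
      = (Q * y - ⌊(Q : ℝ) * y⌋) / Q + t := by
    field_simp
    ring
  rw [h4]
  refine (abs_add_le _ _).trans (add_le_add ?_ ?_)
  · rw [abs_div, abs_of_pos hQr]
    have f1 := Int.floor_le ((Q : ℝ) * y)
    have f2 := Int.lt_floor_add_one ((Q : ℝ) * y)
    rw [abs_of_nonneg (by linarith)]
    gcongr
    linarith
  · have e1 : ∀ j : Fin M, |if j ≠ i ∧ ¬ (j : ℕ) < i + L then ((v j : ℕ) : ℝ) / Q * (lam i / lam j) else 0|
        ≤ (1 / 3) ^ L * (if (i : ℕ) + L ≤ j then (1 / 3 : ℝ) ^ ((j : ℕ) - (i + L)) else 0) := by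
      intro j
      by_cases hj : (i : ℕ) + L ≤ j
      · rw [if_pos hj]
        by_cases hc : j ≠ i ∧ ¬ (j : ℕ) < i + L
        · rw [if_pos hc, ← pow_add]
          have e2 : L + ((j : ℕ) - (i + L)) = (j : ℕ) - i := by omega
          rw [e2]
          have hvj : ((v j : ℕ) : ℝ) / Q ≤ 1 := by
            rw [div_le_one hQr]
            exact_mod_cast (v j).2.le
          have hvj0 : 0 ≤ ((v j : ℕ) : ℝ) / Q := by positivity
          have e3 : (3 : ℝ) ^ ((j : ℕ) - i) * lam i ≤ lam j := by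
            have := h.pow_le i ((j : ℕ) - i)
            rw [show (i : ℕ) + ((j : ℕ) - i) = j by omega] at this
            exact_mod_cast this
          have e4 : (lam i : ℝ) / lam j ≤ (1 / 3) ^ ((j : ℕ) - i) := by
            rw [div_le_iff₀ (hpos j), one_div, inv_pow]
            rw [inv_mul_eq_div, le_div_iff₀ (by positivity)]
            linarith
          have e5 : 0 ≤ (lam i : ℝ) / lam j := (div_pos (hpos i) (hpos j)).le
          rw [abs_of_nonneg (mul_nonneg hvj0 e5)]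
          calc ((v j : ℕ) : ℝ) / Q * (lam i / lam j) ≤ 1 * (lam i / lam j) := by gcongr
            _ ≤ _ := by rw [one_mul]; exact e4
        · rw [if_neg hc, abs_zero]; positivity
      · rw [if_neg hj, if_neg (fun hc => by omega), abs_zero, mul_zero]
    refine (Finset.abs_sum_le_sum_abs _ _).trans ((Finset.sum_le_sum fun j _ => e1 j).trans ?_)
    rw [← Finset.mul_sum, mul_comm]
    refine mul_le_mul_of_nonneg_right ?_ (by positivity)
    rw [← Finset.sum_range (fun j => if (i : ℕ) + L ≤ j then (1 / 3 : ℝ) ^ (j - (i + L)) else 0)]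
    exact geom_tail _ _

end LacPoint

section LacRiesz

open MeasureTheory AddCircle Topology Finset Filter
open Pool.Agent.Lib_helper23.TILF.DS (Ex Qf)

theorem Lac.two_sum {lam : ℕ → ℤ} (h : Lac lam) (M : ℕ) :
    2 * ∑ i : Fin M, lam i ≤ lam M - lam 0 := by
  induction M with
  | zero => simp
  | succ M ih =>
    rw [Fin.sum_univ_castSucc]
    simp only [Fin.val_castSucc, Fin.val_last]
    have h1 := h.2 M
    linarith

theorem Lac.unique {lam : ℕ → ℤ} (h : Lac lam) : ∀ (M : ℕ) (p q : Fin M → ℤ), (∀ i, |p i| ≤ 1) →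
    (∀ i, |q i| ≤ 1) → ∑ i, p i * lam i = ∑ i, q i * lam i → p = q
  | 0, p, q, _, _, _ => by funext i; exact i.elim0
  | M + 1, p, q, hp, hq, he => by
    rw [Fin.sum_univ_castSucc, Fin.sum_univ_castSucc] at he
    simp only [Fin.val_castSucc, Fin.val_last] at he
    have h1 : |∑ i : Fin M, (q i.castSucc - p i.castSucc) * lam i| ≤ 2 * ∑ i : Fin M, lam i := by
      refine (Finset.abs_sum_le_sum_abs _ _).trans ?_
      rw [Finset.mul_sum]
      refine Finset.sum_le_sum fun i _ => ?_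
      have a1 := abs_le.1 (hp i.castSucc)
      have a2 := abs_le.1 (hq i.castSucc)
      rw [abs_mul, abs_of_pos (h.pos i)]
      refine mul_le_mul_of_nonneg_right ?_ (h.pos i).le
      rw [abs_le]
      constructor <;> linarith [a1.1, a1.2, a2.1, a2.2]
    have h2 : ∑ i : Fin M, (q i.castSucc - p i.castSucc) * lam i
        = (p (Fin.last M) - q (Fin.last M)) * lam M := by
      simp_rw [sub_mul]
      rw [Finset.sum_sub_distrib]
      linarith
    have h3 := h.two_sum M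
    have h4 := h.pos M
    have h5 := h.1
    have h6 : p (Fin.last M) = q (Fin.last M) := by
      by_contra hne
      have h7 : 1 ≤ |p (Fin.last M) - q (Fin.last M)| := Int.one_le_abs (sub_ne_zero.2 hne)
      rw [h2, abs_mul, abs_of_pos h4] at h1
      nlinarith
    have h8 : ∑ i : Fin M, p i.castSucc * lam i = ∑ i : Fin M, q i.castSucc * lam i := by
      rw [h6] at he
      linarith
    have h9 := Lac.unique h M (fun i => p i.castSucc) (fun i => q i.castSucc)
      (fun i => hp _) (fun i => hq _) h8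
    funext i
    refine Fin.lastCases ?_ (fun i => ?_) i
    · exact h6
    · exact congrFun h9 i

/-- Coefficients of a factor. -/
def u3 (w : ℂ) (e : ℤ) : ℂ := if e = 0 then 1 else if e = 1 then w / 2 else (starRingEnd ℂ) w / 2

/-- The signs. -/
def s3 : Finset ℤ := {-1, 0, 1}

theorem factor_eq (l : ℤ) (w : ℂ) (x : UnitAddCircle) :
    ∑ e ∈ s3, u3 w e * (fourier (e * l) x : ℂ) = ((1 + (w * fourier l x).re : ℝ) : ℂ) := by
  have h1 : ∑ e ∈ s3, u3 w e * (fourier (e * l) x : ℂ)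
      = u3 w (-1) * fourier (-1 * l) x + (u3 w 0 * fourier (0 * l) x + u3 w 1 * fourier (1 * l) x) := by
    unfold s3
    rw [Finset.sum_insert (by decide), Finset.sum_insert (by decide), Finset.sum_singleton]
  rw [h1]
  have h2 : u3 w (-1) = (starRingEnd ℂ) w / 2 := by simp [u3]
  have h3 : u3 w 0 = 1 := by simp [u3]
  have h4 : u3 w 1 = w / 2 := by simp [u3]
  have h5 : (fourier (-1 * l) x : ℂ) = (starRingEnd ℂ) (fourier l x) := by
    rw [neg_one_mul, fourier_neg]
  rw [h2, h3, h4, h5, zero_mul, one_mul, fourier_zero_arg]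
  have h6 := Complex.re_eq_add_conj (w * fourier l x)
  push_cast
  rw [h6, map_mul]
  ring

theorem coeff_zero_eq (g : C(UnitAddCircle, ℂ)) :
    coeffL 0 g = ∫ t, g t ∂(haarAddCircle : Measure UnitAddCircle) := by
  rw [coeffL_apply, fourierCoeff]
  congr 1
  ext t
  simp

theorem norm_coeff_mul_le (f g ρ : C(UnitAddCircle, ℂ)) (r : UnitAddCircle → ℝ) (hr : ∀ x, 0 ≤ r x)
    (hρ : ∀ x, ρ x = r x) (h1 : coeffL 0 ρ = 1) (hg : ∀ x, g x = f x * ρ x) :
    ‖coeffL 0 g‖ ≤ ‖f‖ := by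
  have hint : ∫ t, r t ∂(haarAddCircle : Measure UnitAddCircle) = 1 := by
    have h2 : ∫ t, ρ t ∂(haarAddCircle : Measure UnitAddCircle)
        = ((∫ t, r t ∂(haarAddCircle : Measure UnitAddCircle) : ℝ) : ℂ) := by
      rw [← integral_complex_ofReal]
      congr 1
      ext t
      exact hρ t
    rw [← coeff_zero_eq, h1] at h2
    exact_mod_cast h2.symm
  have hri : Integrable r (haarAddCircle : Measure UnitAddCircle) := by
    have h3 := (integrable_of_cont ρ).re
    refine h3.congr (Eventually.of_forall fun t => ?_)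
    simp [hρ t]
  rw [coeff_zero_eq]
  have h4 : ‖∫ t, g t ∂(haarAddCircle : Measure UnitAddCircle)‖
      ≤ ∫ t, ‖f‖ * r t ∂(haarAddCircle : Measure UnitAddCircle) := by
    refine norm_integral_le_of_norm_le (hri.const_mul _) (Eventually.of_forall fun t => ?_)
    rw [hg, hρ, norm_mul, Complex.norm_real, Real.norm_eq_abs, abs_of_nonneg (hr t)]
    exact mul_le_mul_of_nonneg_right (f.norm_coe_le_norm t) (hr t)
  refine h4.trans (le_of_eq ?_)
  rw [integral_const_mul, hint, mul_one]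

theorem fourier_sum {ι : Type*} (s : Finset ι) (k : ι → ℤ) (x : UnitAddCircle) :
    (fourier (∑ i ∈ s, k i) x : ℂ) = ∏ i ∈ s, (fourier (k i) x : ℂ) := by
  classical
  induction s using Finset.induction_on with
  | empty => simp
  | insert i s hi ih => rw [Finset.sum_insert hi, Finset.prod_insert hi, fourier_add, ih]

theorem mem_s3 {e : ℤ} : e ∈ s3 ↔ |e| ≤ 1 := by
  unfold s3
  simp only [Finset.mem_insert, Finset.mem_singleton]
  rw [abs_le]
  omega

theorem riesz_torus {lam : ℕ → ℤ} (h : Lac lam) {M : ℕ} (a : Fin M → Fin M → ℂ)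
    (ha0 : ∀ i, a i i = 0) (z : Fin M → ℂ) (hz : ∀ i, ‖z i‖ = 1) :
    ‖Qf a z‖ ≤ 4 * ‖bl (fun i => lam i) a‖ := by
  set w : Fin M → ℂ := fun i => (starRingEnd ℂ) (z i) with hw
  set P : Finset (Fin M → ℤ) := Fintype.piFinset fun _ : Fin M => s3 with hP
  have hPm : ∀ p, p ∈ P ↔ ∀ i, |p i| ≤ 1 := by
    intro p
    rw [hP, Fintype.mem_piFinset]
    exact forall_congr' fun i => mem_s3
  set U : (Fin M → ℤ) → ℂ := fun p => ∏ i, u3 (w i) (p i) with hU
  set ρ : C(UnitAddCircle, ℂ) := ∑ p ∈ P, U p • (fourier (∑ i, p i * lam i) : C(UnitAddCircle, ℂ)) with hρ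
  set r : UnitAddCircle → ℝ := fun x => ∏ i : Fin M, (1 + (w i * fourier (lam i) x).re) with hr
  have hr0 : ∀ x, 0 ≤ r x := by
    intro x
    refine Finset.prod_nonneg fun i _ => ?_
    have h1 : |(w i * fourier (lam i) x).re| ≤ 1 := by
      refine (Complex.abs_re_le_norm _).trans (le_of_eq ?_)
      rw [norm_mul, Pool.Agent.Lib_helper23.TILF.norm_fourier_all, mul_one, hw, RCLike.norm_conj, hz]
    have := abs_le.1 h1
    linarith [this.1]
  have hρr : ∀ x, ρ x = r x := by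
    intro x
    rw [hr]
    simp only
    rw [Complex.ofReal_prod]
    simp_rw [← factor_eq]
    rw [Finset.prod_univ_sum, hρ, ContinuousMap.sum_apply]
    refine Finset.sum_congr rfl fun p _ => ?_
    rw [ContinuousMap.smul_apply, smul_eq_mul, fourier_sum, Finset.prod_mul_distrib]
  have hcρ : coeffL 0 ρ = 1 := by
    rw [hρ, map_sum, Finset.sum_eq_single (0 : Fin M → ℤ)]
    · rw [map_smul, coeffL_fourier, if_pos (by simp), smul_eq_mul, mul_one, hU]
      simp [u3]
    · intro p hp hp0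
      rw [map_smul, coeffL_fourier, if_neg, smul_zero]
      intro he
      apply hp0
      refine h.unique M p 0 ((hPm p).1 hp) (fun i => by simp) ?_
      rw [← he]
      simp
    · intro h0
      exact absurd ((hPm 0).2 fun i => by simp) h0
  set g : C(UnitAddCircle, ℂ) := ∑ i : Fin M, ∑ j : Fin M, ∑ p ∈ P,
    (a i j * U p) • (fourier ((lam i - lam j) + ∑ k, p k * lam k) : C(UnitAddCircle, ℂ)) with hg
  have hgx : ∀ x, g x = bl (fun i => lam i) a x * ρ x := by
    intro x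
    rw [hg, bl, ContinuousMap.sum_apply, ContinuousMap.sum_apply, Finset.sum_mul]
    refine Finset.sum_congr rfl fun i _ => ?_
    rw [ContinuousMap.sum_apply, ContinuousMap.sum_apply, Finset.sum_mul]
    refine Finset.sum_congr rfl fun j _ => ?_
    rw [ContinuousMap.sum_apply, hρ, ContinuousMap.sum_apply, Finset.mul_sum]
    refine Finset.sum_congr rfl fun p _ => ?_
    rw [ContinuousMap.smul_apply, ContinuousMap.smul_apply, ContinuousMap.smul_apply, smul_eq_mul,
      smul_eq_mul, smul_eq_mul, fourier_add]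
    ring
  have hcg : coeffL 0 g = Qf a z / 4 := by
    rw [hg, map_sum, Qf, Finset.sum_div]
    refine Finset.sum_congr rfl fun i _ => ?_
    rw [map_sum, Finset.sum_div]
    refine Finset.sum_congr rfl fun j _ => ?_
    by_cases hij : i = j
    · subst hij
      rw [ha0, zero_mul, zero_div, map_sum]
      refine Finset.sum_eq_zero fun p _ => ?_
      rw [zero_mul, czero_smul, map_zero]
    · set q : Fin M → ℤ := fun k => if k = j then 1 else if k = i then -1 else 0 with hq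
      have hq1 : ∀ k, |q k| ≤ 1 := by
        intro k
        simp only [hq]
        split_ifs <;> simp
      have hqs : ∑ k, q k * lam k = lam j - lam i := by
        have e1 : ∀ k : Fin M, q k * lam k = (if k = j then lam j else 0) - (if k = i then lam i else 0) := by
          intro k
          simp only [hq]
          by_cases hkj : k = j
          · have hki : k ≠ i := fun hki => hij (hki.symm.trans hkj)
            rw [if_pos hkj, if_pos hkj, if_neg hki, hkj]; ring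
          · rw [if_neg hkj, if_neg hkj]
            by_cases hki : k = i
            · rw [if_pos hki, if_pos hki, hki]; ring
            · rw [if_neg hki, if_neg hki]; ring
        rw [Finset.sum_congr rfl fun k _ => e1 k, Finset.sum_sub_distrib, Finset.sum_ite_eq',
          Finset.sum_ite_eq', if_pos (Finset.mem_univ _), if_pos (Finset.mem_univ _)]
      rw [map_sum, Finset.sum_eq_single q]
      · rw [map_smul, coeffL_fourier, if_pos (by rw [hqs]; ring), smul_eq_mul, mul_one]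
        have e2 : U q = (starRingEnd ℂ) (w i) / 2 * (w j / 2) := by
          rw [hU]
          simp only
          rw [Finset.prod_eq_mul i j hij]
          · have e3 : q i = -1 := by simp only [hq, if_neg hij, if_true]
            have e4 : q j = 1 := by simp only [hq, if_true]
            rw [e3, e4]
            simp [u3]
          · intro k _ hk
            have e5 : q k = 0 := by simp only [hq]; rw [if_neg hk.2, if_neg hk.1]
            rw [e5]
            simp [u3]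
          · intro h0; exact absurd (Finset.mem_univ _) h0
          · intro h0; exact absurd (Finset.mem_univ _) h0
        rw [e2, hw]
        simp only [Complex.conj_conj]
        ring
      · intro p hp hpq
        rw [map_smul, coeffL_fourier, if_neg, smul_zero]
        intro he
        apply hpq
        refine h.unique M p q ((hPm p).1 hp) hq1 ?_
        rw [hqs]
        linarith
      · intro h0
        exact absurd ((hPm q).2 hq1) h0
  have h1 := norm_coeff_mul_le (bl (fun i => lam i) a) g ρ r hr0 hρr hcρ hgx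
  rw [hcg, norm_div, Complex.norm_ofNat, div_le_iff₀ (by norm_num)] at h1
  linarith

end LacRiesz

section LacHigh

open MeasureTheory AddCircle Topology Finset Filter
open Pool.Agent.Lib_helper23.TILF.DS (Ex Qf dg nn rc rcc far)

theorem kap_lip (N : ℕ) (x y : UnitAddCircle) :
    |kap N x - kap N y| ≤ 2 * Real.pi * (N + 1) ^ 2 * ‖x - y‖ := by
  have hN : (0 : ℝ) < (N : ℝ) + 1 := by positivity
  have h1 : |kap N x - kap N y| = ‖((kap N x : ℝ) : ℂ) - ((kap N y : ℝ) : ℂ)‖ := by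
    rw [← Complex.ofReal_sub, Complex.norm_real, Real.norm_eq_abs]
  rw [h1, kap_coe, kap_coe, ← mul_sub, norm_mul, norm_inv, Complex.norm_real, Real.norm_eq_abs,
    abs_of_pos hN, ← Finset.sum_sub_distrib]
  have h2 : ‖∑ j ∈ range (N + 1), (∑ l ∈ range (N + 1), (fourier ((j : ℤ) - l) x : ℂ)
      - ∑ l ∈ range (N + 1), (fourier ((j : ℤ) - l) y : ℂ))‖
      ≤ (N + 1) * ((N + 1) * (2 * Real.pi * (N + 1) * ‖x - y‖)) := by
    refine (norm_sum_le _ _).trans ?_
    have h3 : ∀ j ∈ range (N + 1), ‖∑ l ∈ range (N + 1), (fourier ((j : ℤ) - l) x : ℂ)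
      - ∑ l ∈ range (N + 1), (fourier ((j : ℤ) - l) y : ℂ)‖ ≤ (N + 1) * (2 * Real.pi * (N + 1) * ‖x - y‖) := by
      intro j hj
      rw [← Finset.sum_sub_distrib]
      refine (norm_sum_le _ _).trans ?_
      have h4 : ∀ l ∈ range (N + 1), ‖(fourier ((j : ℤ) - l) x : ℂ) - fourier ((j : ℤ) - l) y‖
          ≤ 2 * Real.pi * (N + 1) * ‖x - y‖ := by
        intro l hl
        have h5 := Pool.Agent.Lib_helper23.TILF.fourier_shift ((j : ℤ) - l) x (x - y)
        rw [sub_sub_cancel, norm_sub_rev] at h5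
        refine h5.trans ?_
        rw [Finset.mem_range] at hj hl
        have h7 : ‖((j : ℤ) - l)‖ ≤ (N : ℝ) + 1 := by
          have : |(j : ℤ) - l| ≤ N + 1 := by rw [abs_le]; constructor <;> omega
          rw [Int.norm_eq_abs]
          exact_mod_cast this
        have h8 : ‖((j : ℤ) - l) • (x - y)‖ ≤ ‖((j : ℤ) - l)‖ * ‖x - y‖ := norm_zsmul_le _ _
        calc 2 * Real.pi * ‖((j : ℤ) - l) • (x - y)‖
            ≤ 2 * Real.pi * (‖((j : ℤ) - l)‖ * ‖x - y‖) := by gcongr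
          _ ≤ 2 * Real.pi * (((N : ℝ) + 1) * ‖x - y‖) := by gcongr
          _ = _ := by ring
      refine (Finset.sum_le_sum h4).trans (le_of_eq ?_)
      rw [Finset.sum_const, Finset.card_range, nsmul_eq_mul]
      push_cast
      ring
    refine (Finset.sum_le_sum h3).trans (le_of_eq ?_)
    rw [Finset.sum_const, Finset.card_range, nsmul_eq_mul]
    push_cast
    ring
  calc ((N : ℝ) + 1)⁻¹ * ‖∑ j ∈ range (N + 1), (∑ l ∈ range (N + 1), (fourier ((j : ℤ) - l) x : ℂ)
      - ∑ l ∈ range (N + 1), (fourier ((j : ℤ) - l) y : ℂ))‖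
      ≤ ((N : ℝ) + 1)⁻¹ * ((N + 1) * ((N + 1) * (2 * Real.pi * (N + 1) * ‖x - y‖))) := by gcongr
    _ = _ := by field_simp

/-- A form with the multiplier `Lk`. -/
theorem Qf_Lk_le {m N : ℕ} (b : Fin m → Fin m → ℂ) (y : Fin m → UnitAddCircle) (z : Fin m → ℂ)
    (hz : ∀ i, ‖z i‖ = 1) : ‖Qf (fun i j => b i j * Lk N (y i - y j)) z‖
      ≤ Ex (fun t : Fin (2 * (N + 1)) =>
        2 * nn (fun i j => kap N (y i - gp _ t) * (1 * b i j).re * kap N (y j - gp _ t))
        + 2 * nn (fun i j => kap N (y i - gp _ t) * (-Complex.I * b i j).re * kap N (y j - gp _ t))) := by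
  have hM : (0 : ℝ) < ((2 * (N + 1) : ℕ) : ℝ) := by positivity
  have e2 : Qf (fun i j => b i j * Lk N (y i - y j)) z
      = (((2 * (N + 1) : ℕ) : ℝ)⁻¹ : ℂ) * ∑ t : Fin (2 * (N + 1)), Qf (fun i j => b i j *
        ((kap N (y i - gp _ t) * kap N (y j - gp _ t) : ℝ) : ℂ)) z := by
    unfold Qf
    conv_rhs => rw [Finset.sum_comm, Finset.mul_sum]
    refine Finset.sum_congr rfl fun i _ => ?_
    conv_rhs => rw [Finset.sum_comm, Finset.mul_sum]
    refine Finset.sum_congr rfl fun j _ => ?_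
    beta_reduce
    rw [Lk_eq, Ex, Fintype.card_fin, ← Finset.sum_mul, ← Finset.mul_sum]
    push_cast
    ring
  rw [e2, norm_mul, norm_inv]
  have e3 : ‖(((2 * (N + 1) : ℕ) : ℝ) : ℂ)‖ = ((2 * (N + 1) : ℕ) : ℝ) := by
    rw [Complex.norm_real, Real.norm_eq_abs, abs_of_pos hM]
  rw [e3, Ex, Fintype.card_fin, div_eq_inv_mul]
  refine mul_le_mul_of_nonneg_left ?_ (by positivity)
  refine (norm_sum_le _ _).trans (Finset.sum_le_sum fun t _ => ?_)
  have h1 := Pool.Agent.Lib_helper23.TILF.DS.form_le (fun i j => b i j *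
      ((kap N (y i - gp _ t) * kap N (y j - gp _ t) : ℝ) : ℂ)) z
      (fun j => (starRingEnd ℂ) (z j)) (fun i => (hz i).le)
      (fun i => by rw [RCLike.norm_conj]; exact (hz i).le)
  refine h1.trans (le_of_eq ?_)
  congr 2
  · congr 1
    funext i j
    rw [Complex.re_mul_ofReal, one_mul]
    ring
  · congr 1
    funext i j
    have e2 : (-Complex.I * b i j).re = (b i j).im := by simp
    rw [Complex.im_mul_ofReal, e2]
    ring

theorem far_bound {m : ℕ} {a : Fin m → Fin m → ℂ} {B : ℝ}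
    (hA : ∀ z : Fin m → ℂ, (∀ i, ‖z i‖ = 1) → ‖Qf a z‖ ≤ B) (L : ℕ) :
    ∀ z : Fin m → ℂ, (∀ i, ‖z i‖ = 1) → ‖Qf (far L a) z‖ ≤ 64 * B := by
  intro z hz
  refine (Pool.Agent.Lib_helper23.TILF.DS.decouple_far L a z).trans ?_
  have h1 : ∀ S : Fin (m + 3) → Bool, ‖Qf (rc L a S) z‖ ≤ 4 * B := by
    intro S
    have h2 := Pool.Agent.Lib_helper23.TILF.DS.form_le (rc L a S) z
      (fun j => (starRingEnd ℂ) (z j)) (fun i => (hz i).le)
      (fun i => by rw [RCLike.norm_conj]; exact (hz i).le)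
    have h3 := Pool.Agent.Lib_helper23.TILF.DS.nn_rc_le hA L S 1 norm_one
    have h4 := Pool.Agent.Lib_helper23.TILF.DS.nn_rc_le hA L S (-Complex.I)
      (by rw [norm_neg, Complex.norm_I])
    have e1 : (fun i j => (1 * rc L a S i j).re) = fun i j => (rc L a S i j).re := by
      funext i j; rw [one_mul]
    have e2 : (fun i j => (-Complex.I * rc L a S i j).re) = fun i j => (rc L a S i j).im := by
      funext i j; simp
    rw [e1] at h3
    rw [e2] at h4
    refine h2.trans ?_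
    linarith
  calc 16 * Ex (fun S : Fin (m + 3) → Bool => ‖Qf (rc L a S) z‖)
      ≤ 16 * Ex (fun _ : Fin (m + 3) → Bool => 4 * B) := by
        refine mul_le_mul_of_nonneg_left ?_ (by norm_num)
        exact Pool.Agent.Lib_helper23.TILF.DS.Ex_mono h1
    _ = 64 * B := by rw [Pool.Agent.Lib_helper23.TILF.DS.Ex_const]; ring

theorem high_lac {lam : ℕ → ℤ} {M Q N L : ℕ} (hQ : N + 1 ≤ Q) (hQ0 : 0 < Q) (hL : 0 < L)
    (a : Fin M → Fin M → ℂ) {B : ℝ}
    (hA : ∀ z : Fin M → ℂ, (∀ i, ‖z i‖ = 1) → ‖Qf a z‖ ≤ B) (hB : 0 ≤ B) :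
    ∃ G : (Fin M → Fin Q) → ℝ, (∀ v, 0 ≤ G v) ∧ Ex G ≤ 820 * L ^ 2 / √((N : ℝ) + 1) * B ∧
      ∀ (v : Fin M → Fin Q) (ε : ℝ), 0 ≤ ε → ∀ (α : UnitAddCircle),
        (∀ i : Fin M, ‖lam i • α - gp Q (th lam hQ0 L v i)‖ ≤ ε) → ∀ R : ℕ, 1 ≤ R →
          ‖av1 R α (bl (fun i : Fin M => lam i) (far L a))‖ ≤ G v
            + 512 * Real.pi * (N + 1) ^ 2 * ε * B + 128 * N * B / R := by
  have hN : (0 : ℝ) < (N : ℝ) + 1 := by positivity
  have hN1 : (1 : ℝ) ≤ (N : ℝ) + 1 := by
    have : (0 : ℝ) ≤ (N : ℝ) := Nat.cast_nonneg _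
    linarith
  have hs : √((N : ℝ) + 1) * √((N : ℝ) + 1) = (N : ℝ) + 1 := Real.mul_self_sqrt hN.le
  have hs0 : 0 < √((N : ℝ) + 1) := Real.sqrt_pos.2 hN
  have : Nonempty (Fin (2 * (N + 1))) := ⟨⟨0, by omega⟩⟩
  set K : ℂ → (Fin M → Fin Q) → (Fin (M + 3) → Bool) → ℕ → ℕ → Fin (2 * (N + 1)) → ℝ :=
    fun k v S c c' t => nn (fun i j => kap N (gp Q (th lam hQ0 L v i) - gp _ t)
      * (k * rcc L a S c c' i j).re * kap N (gp Q (th lam hQ0 L v j) - gp _ t)) with hK
  have hK0 : ∀ k v S c c' t, 0 ≤ K k v S c c' t := fun k v S c c' t =>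
    Pool.Agent.Lib_helper23.TILF.DS.nn_nonneg _
  have hKE : ∀ k : ℂ, ‖k‖ = 1 → ∀ S c c' t, Ex (fun v => K k v S c c' t) ≤ 32 / 5 * √((N : ℝ) + 1) * B := by
    intro k hk S c c' t
    exact Pool.Agent.Lib_helper23.TILF.DS.Ex_rcc_le hQ0 hL (fun i v => HH lam L i v)
      (fun i v w h => HH_dep lam L i v w h) (fun w : Fin Q => kap N (gp Q w - gp _ t))
      (fun w => kap_nonneg _ _) (Ex_kap hQ _) (Ex_kap_sq hQ _) hN1 hA hB S c c' k hk
  set G : (Fin M → Fin Q) → ℝ := fun v => 2 / ((N : ℝ) + 1) * (16 * Ex (fun S : Fin (M + 3) → Bool =>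
    Ex (fun t : Fin (2 * (N + 1)) => ∑ c ∈ range L, ∑ c' ∈ range L,
      (2 * K 1 v S c c' t + 2 * K (-Complex.I) v S c c' t)))) with hG
  have hG0 : ∀ v, 0 ≤ G v := by
    intro v
    simp only [hG]
    refine mul_nonneg (by positivity) (mul_nonneg (by norm_num)
      (Pool.Agent.Lib_helper23.TILF.DS.Ex_nonneg fun S =>
      Pool.Agent.Lib_helper23.TILF.DS.Ex_nonneg fun t => Finset.sum_nonneg fun c _ =>
      Finset.sum_nonneg fun c' _ => ?_))
    have := hK0 1 v S c c' t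
    have := hK0 (-Complex.I) v S c c' t
    linarith
  refine ⟨G, hG0, ?_, ?_⟩
  · simp only [hG]
    rw [Pool.Agent.Lib_helper23.TILF.DS.Ex_mul_left, Pool.Agent.Lib_helper23.TILF.DS.Ex_mul_left,
      Pool.Agent.Lib_helper23.TILF.DS.Ex_comm]
    have h1 : ∀ S : Fin (M + 3) → Bool, Ex (fun v => Ex (fun t : Fin (2 * (N + 1)) =>
        ∑ c ∈ range L, ∑ c' ∈ range L, (2 * K 1 v S c c' t + 2 * K (-Complex.I) v S c c' t)))
        ≤ L * (L * (4 * (32 / 5 * √((N : ℝ) + 1) * B))) := by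
      intro S
      rw [Pool.Agent.Lib_helper23.TILF.DS.Ex_comm]
      have h2 : ∀ t : Fin (2 * (N + 1)), Ex (fun v => ∑ c ∈ range L, ∑ c' ∈ range L,
          (2 * K 1 v S c c' t + 2 * K (-Complex.I) v S c c' t))
          ≤ L * (L * (4 * (32 / 5 * √((N : ℝ) + 1) * B))) := by
        intro t
        rw [Pool.Agent.Lib_helper23.TILF.DS.Ex_sum]
        have h3 : ∀ c ∈ range L, Ex (fun v => ∑ c' ∈ range L,
            (2 * K 1 v S c c' t + 2 * K (-Complex.I) v S c c' t))
            ≤ L * (4 * (32 / 5 * √((N : ℝ) + 1) * B)) := by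
          intro c _
          rw [Pool.Agent.Lib_helper23.TILF.DS.Ex_sum]
          have h4 : ∀ c' ∈ range L, Ex (fun v => 2 * K 1 v S c c' t + 2 * K (-Complex.I) v S c c' t)
              ≤ 4 * (32 / 5 * √((N : ℝ) + 1) * B) := by
            intro c' _
            rw [Pool.Agent.Lib_helper23.TILF.DS.Ex_add, Pool.Agent.Lib_helper23.TILF.DS.Ex_mul_left,
              Pool.Agent.Lib_helper23.TILF.DS.Ex_mul_left]
            have a1 := hKE 1 norm_one S c c' t
            have a2 := hKE (-Complex.I) (by rw [norm_neg, Complex.norm_I]) S c c' t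
            linarith
          refine (Finset.sum_le_sum h4).trans (le_of_eq ?_)
          rw [Finset.sum_const, Finset.card_range, nsmul_eq_mul]
        refine (Finset.sum_le_sum h3).trans (le_of_eq ?_)
        rw [Finset.sum_const, Finset.card_range, nsmul_eq_mul]
      refine (Pool.Agent.Lib_helper23.TILF.DS.Ex_mono h2).trans (le_of_eq ?_)
      exact Pool.Agent.Lib_helper23.TILF.DS.Ex_const _
    have h5 : Ex (fun S : Fin (M + 3) → Bool => Ex (fun v => Ex (fun t : Fin (2 * (N + 1)) =>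
        ∑ c ∈ range L, ∑ c' ∈ range L, (2 * K 1 v S c c' t + 2 * K (-Complex.I) v S c c' t))))
        ≤ L * (L * (4 * (32 / 5 * √((N : ℝ) + 1) * B))) := by
      refine (Pool.Agent.Lib_helper23.TILF.DS.Ex_mono h1).trans (le_of_eq ?_)
      exact Pool.Agent.Lib_helper23.TILF.DS.Ex_const _
    calc 2 / ((N : ℝ) + 1) * (16 * Ex (fun S : Fin (M + 3) → Bool => Ex (fun v =>
        Ex (fun t : Fin (2 * (N + 1)) =>
        ∑ c ∈ range L, ∑ c' ∈ range L, (2 * K 1 v S c c' t + 2 * K (-Complex.I) v S c c' t)))))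
        ≤ 2 / ((N : ℝ) + 1) * (16 * (L * (L * (4 * (32 / 5 * √((N : ℝ) + 1) * B))))) := by gcongr
      _ = (4096 / 5 * L ^ 2 * B) * (√((N : ℝ) + 1) / ((N : ℝ) + 1)) := by ring
      _ = (4096 / 5 * L ^ 2 * B) * (1 / √((N : ℝ) + 1)) := by
        congr 1
        rw [div_eq_div_iff hN.ne' hs0.ne', hs, one_mul]
      _ ≤ (820 * L ^ 2 * B) * (1 / √((N : ℝ) + 1)) := by
        gcongr
        norm_num
      _ = _ := by ring
  · intro v ε hε α he R hR
    have hR' : (0 : ℝ) < R := by exact_mod_cast hR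
    have h1 := smoothing (N := N) hR α (bl (fun i : Fin M => lam i) (far L a))
    have h2 := norm_bl_le (fun i : Fin M => lam i) (far_bound hA L) (by positivity)
    set y : Fin M → UnitAddCircle := fun i => lam i • α with hy
    set η : ℝ := 2 * Real.pi * (N + 1) ^ 2 * ε with hη
    have hη0 : 0 ≤ η := by positivity
    -- one selection of rows and columns
    have hone : ∀ (k : ℂ), ‖k‖ = 1 → ∀ (S : Fin (M + 3) → Bool) (t : Fin (2 * (N + 1))),
        nn (fun i j => kap N (y i - gp _ t) * (k * rc L a S i j).re * kap N (y j - gp _ t))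
        ≤ (∑ c ∈ range L, ∑ c' ∈ range L, K k v S c c' t) + 2 * ((N : ℝ) + 1) * η * B := by
      intro k hk S t
      have e1 := Pool.Agent.Lib_helper23.TILF.DS.nn_compare (fun i j => (k * rc L a S i j).re)
        (u := fun i => kap N (y i - gp (2 * (N + 1)) t))
        (v := fun i => kap N (gp Q (th lam hQ0 L v i) - gp (2 * (N + 1)) t)) (r := (N : ℝ) + 1) (η := η)
        hN.le hη0 (fun i => by rw [abs_of_nonneg (kap_nonneg _ _)]; exact kap_le _ _)
        (fun i => by rw [abs_of_nonneg (kap_nonneg _ _)]; exact kap_le _ _)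
        (fun i => by
          refine (kap_lip N _ _).trans ?_
          rw [sub_sub_sub_cancel_right, hη]
          have := he i
          gcongr)
      have e2 := Pool.Agent.Lib_helper23.TILF.DS.nn_rc_le hA L S k hk
      have e3 : nn (fun i j => kap N (gp Q (th lam hQ0 L v i) - gp (2 * (N + 1)) t)
          * (k * rc L a S i j).re * kap N (gp Q (th lam hQ0 L v j) - gp (2 * (N + 1)) t))
          ≤ ∑ c ∈ range L, ∑ c' ∈ range L, K k v S c c' t := by
        have e4 : (fun i j => kap N (gp Q (th lam hQ0 L v i) - gp (2 * (N + 1)) t)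
          * (k * rc L a S i j).re * kap N (gp Q (th lam hQ0 L v j) - gp (2 * (N + 1)) t))
          = fun i j => ∑ c ∈ range L, ∑ c' ∈ range L,
            kap N (gp Q (th lam hQ0 L v i) - gp (2 * (N + 1)) t)
          * (k * rcc L a S c c' i j).re * kap N (gp Q (th lam hQ0 L v j) - gp (2 * (N + 1)) t) := by
          funext i j
          rw [← Pool.Agent.Lib_helper23.TILF.DS.sum_rcc hL a S i j, Finset.mul_sum, Complex.re_sum,
            Finset.mul_sum, Finset.sum_mul]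
          refine Finset.sum_congr rfl fun c _ => ?_
          rw [Finset.mul_sum, Complex.re_sum, Finset.mul_sum, Finset.sum_mul]
        rw [e4]
        refine (Pool.Agent.Lib_helper23.TILF.DS.nn_sum (range L) fun c i j => ∑ c' ∈ range L,
            kap N (gp Q (th lam hQ0 L v i) - gp (2 * (N + 1)) t)
          * (k * rcc L a S c c' i j).re * kap N (gp Q (th lam hQ0 L v j) - gp (2 * (N + 1)) t)).trans
          (Finset.sum_le_sum fun c _ => ?_)
        exact Pool.Agent.Lib_helper23.TILF.DS.nn_sum (range L) fun c' i j =>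
            kap N (gp Q (th lam hQ0 L v i) - gp (2 * (N + 1)) t)
          * (k * rcc L a S c c' i j).re * kap N (gp Q (th lam hQ0 L v j) - gp (2 * (N + 1)) t)
      have e5 : 2 * ((N : ℝ) + 1) * η * nn (fun i j => (k * rc L a S i j).re)
          ≤ 2 * ((N : ℝ) + 1) * η * B := by gcongr
      linarith
    have h3 : ‖Pop N α (bl (fun i : Fin M => lam i) (far L a))‖
        ≤ 16 * Ex (fun S : Fin (M + 3) → Bool => Ex (fun t : Fin (2 * (N + 1)) =>
          ∑ c ∈ range L, ∑ c' ∈ range L, (2 * K 1 v S c c' t + 2 * K (-Complex.I) v S c c' t)))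
          + 128 * ((N : ℝ) + 1) * η * B := by
      have hE0 : 0 ≤ 16 * Ex (fun S : Fin (M + 3) → Bool => Ex (fun t : Fin (2 * (N + 1)) =>
          ∑ c ∈ range L, ∑ c' ∈ range L, (2 * K 1 v S c c' t + 2 * K (-Complex.I) v S c c' t))) := by
        refine mul_nonneg (by norm_num) (Pool.Agent.Lib_helper23.TILF.DS.Ex_nonneg fun S =>
          Pool.Agent.Lib_helper23.TILF.DS.Ex_nonneg fun t => Finset.sum_nonneg fun c _ =>
          Finset.sum_nonneg fun c' _ => ?_)
        have := hK0 1 v S c c' t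
        have := hK0 (-Complex.I) v S c c' t
        linarith
      rw [ContinuousMap.norm_le _ (by positivity)]
      intro x
      rw [Pop_bl]
      set z : Fin M → ℂ := fun i => fourier (lam i) x with hz
      have hz1 : ∀ i, ‖z i‖ = 1 := fun i => Pool.Agent.Lib_helper23.TILF.norm_fourier_all _ _
      have e1 : (fun i j : Fin M => far L a i j * Lk N ((lam i - lam j) • α))
          = far L (fun i j => a i j * Lk N (y i - y j)) := by
        funext i j
        unfold Pool.Agent.Lib_helper23.TILF.DS.far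
        have e0 : (lam i - lam j) • α = y i - y j := sub_smul _ _ _
        split_ifs
        · rw [e0]
        · rw [zero_mul]
      rw [e1]
      refine (Pool.Agent.Lib_helper23.TILF.DS.decouple_far L _ z).trans ?_
      have e2 : ∀ S : Fin (M + 3) → Bool, ‖Qf (rc L (fun i j => a i j * Lk N (y i - y j)) S) z‖
          ≤ Ex (fun t : Fin (2 * (N + 1)) => ∑ c ∈ range L, ∑ c' ∈ range L,
            (2 * K 1 v S c c' t + 2 * K (-Complex.I) v S c c' t)) + 8 * ((N : ℝ) + 1) * η * B := by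
        intro S
        have e3 : rc L (fun i j => a i j * Lk N (y i - y j)) S
            = fun i j => rc L a S i j * Lk N (y i - y j) := by
          funext i j
          unfold Pool.Agent.Lib_helper23.TILF.DS.rc
          split_ifs
          · rfl
          · rw [zero_mul]
        rw [e3]
        refine (Qf_Lk_le (rc L a S) y z hz1).trans ?_
        have e4 : ∀ t : Fin (2 * (N + 1)),
            2 * nn (fun i j => kap N (y i - gp _ t) * (1 * rc L a S i j).re * kap N (y j - gp _ t))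
            + 2 * nn (fun i j => kap N (y i - gp _ t) * (-Complex.I * rc L a S i j).re * kap N (y j - gp _ t))
            ≤ (∑ c ∈ range L, ∑ c' ∈ range L, (2 * K 1 v S c c' t + 2 * K (-Complex.I) v S c c' t))
              + 8 * ((N : ℝ) + 1) * η * B := by
          intro t
          have f1 := hone 1 norm_one S t
          have f2 := hone (-Complex.I) (by rw [norm_neg, Complex.norm_I]) S t
          have f3 : ∑ c ∈ range L, ∑ c' ∈ range L, (2 * K 1 v S c c' t + 2 * K (-Complex.I) v S c c' t)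
              = 2 * (∑ c ∈ range L, ∑ c' ∈ range L, K 1 v S c c' t)
                + 2 * ∑ c ∈ range L, ∑ c' ∈ range L, K (-Complex.I) v S c c' t := by
            simp_rw [Finset.sum_add_distrib, ← Finset.mul_sum]
          rw [f3]
          linarith
        refine (Pool.Agent.Lib_helper23.TILF.DS.Ex_mono e4).trans (le_of_eq ?_)
        rw [Pool.Agent.Lib_helper23.TILF.DS.Ex_add, Pool.Agent.Lib_helper23.TILF.DS.Ex_const]
      have e5 : Ex (fun S : Fin (M + 3) → Bool => ‖Qf (rc L (fun i j => a i j * Lk N (y i - y j)) S) z‖)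
          ≤ Ex (fun S : Fin (M + 3) → Bool => Ex (fun t : Fin (2 * (N + 1)) =>
          ∑ c ∈ range L, ∑ c' ∈ range L, (2 * K 1 v S c c' t + 2 * K (-Complex.I) v S c c' t)))
          + 8 * ((N : ℝ) + 1) * η * B := by
        refine (Pool.Agent.Lib_helper23.TILF.DS.Ex_mono e2).trans (le_of_eq ?_)
        rw [Pool.Agent.Lib_helper23.TILF.DS.Ex_add, Pool.Agent.Lib_helper23.TILF.DS.Ex_const]
      linarith
    have h4 : 2 / ((N : ℝ) + 1) * (128 * ((N : ℝ) + 1) * η * B)
        = 512 * Real.pi * (N + 1) ^ 2 * ε * B := by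
      rw [hη]
      field_simp
      ring
    calc ‖av1 R α (bl (fun i : Fin M => lam i) (far L a))‖
        ≤ 2 / ((N : ℝ) + 1) * ‖Pop N α (bl (fun i : Fin M => lam i) (far L a))‖
          + 2 * N * ‖bl (fun i : Fin M => lam i) (far L a)‖ / R := h1
      _ ≤ 2 / ((N : ℝ) + 1) * (16 * Ex (fun S : Fin (M + 3) → Bool => Ex (fun t : Fin (2 * (N + 1)) =>
          ∑ c ∈ range L, ∑ c' ∈ range L, (2 * K 1 v S c c' t + 2 * K (-Complex.I) v S c c' t)))
          + 128 * ((N : ℝ) + 1) * η * B) + 2 * N * (64 * B) / R := by gcongr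
      _ = G v + 2 / ((N : ℝ) + 1) * (128 * ((N : ℝ) + 1) * η * B) + 128 * N * B / R := by
        simp only [hG]
        ring
      _ = _ := by rw [h4]

end LacHigh

section LacAuto

open MeasureTheory AddCircle Topology Finset Filter
open Pool.Agent.Lib_helper23.TILF.DS (Ex Qf far)

theorem sq_le_four_pow (s : ℕ) : ((s : ℝ) + 1) ^ 2 ≤ 4 ^ s := by
  have h1 : s + 1 ≤ 2 ^ s := Nat.lt_two_pow_self
  have h2 : (s : ℝ) + 1 ≤ 2 ^ s := by exact_mod_cast h1
  calc ((s : ℝ) + 1) ^ 2 ≤ (2 ^ s) ^ 2 := by gcongr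
    _ = 4 ^ s := by rw [← pow_mul, mul_comm, pow_mul]; norm_num

theorem geom_le' (M : ℕ) : ∑ s ∈ range M, (5 / 8 : ℝ) ^ s ≤ 8 / 3 := by
  rw [geom_sum_eq (by norm_num)]
  have h : (0 : ℝ) ≤ (5 / 8) ^ M := by positivity
  have : ((5 / 8 : ℝ) ^ M - 1) / (5 / 8 - 1) = 8 / 3 - 8 / 3 * (5 / 8) ^ M := by ring
  rw [this]
  linarith

theorem weight_le' (s : ℕ) : (5 / 4 : ℝ) ^ s * (820 * ((16 * (s + 1) : ℕ) : ℝ) ^ 2 / √(64 ^ s))
    ≤ 209920 * (5 / 8) ^ s := by
  have h1 : √((64 : ℝ) ^ s) = 8 ^ s := by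
    rw [show (64 : ℝ) ^ s = (8 ^ s) ^ 2 by rw [← pow_mul, mul_comm, pow_mul]; norm_num]
    exact Real.sqrt_sq (by positivity)
  have h2 := sq_le_four_pow s
  rw [h1]
  push_cast
  calc (5 / 4 : ℝ) ^ s * (820 * (16 * ((s : ℝ) + 1)) ^ 2 / 8 ^ s)
      = (5 / 4 : ℝ) ^ s * (209920 * ((s : ℝ) + 1) ^ 2 / 8 ^ s) := by ring
    _ ≤ (5 / 4 : ℝ) ^ s * (209920 * 4 ^ s / 8 ^ s) := by gcongr
    _ = 209920 * ((5 / 4) ^ s * 4 ^ s / 8 ^ s) := by ring
    _ = _ := by rw [← mul_pow, ← div_pow]; norm_num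

theorem eps_le (s M : ℕ) (hs : s < M) : 512 * Real.pi * (64 ^ s) ^ 2
    * (1 / ((64 ^ (4 * (M + 1)) : ℕ) : ℝ) + 3 / 2 * (1 / 3) ^ (16 * (s + 1))) ≤ (4 / 5) ^ s := by
  have h1 : (1 : ℝ) / ((64 ^ (4 * (M + 1)) : ℕ) : ℝ) ≤ (1 / 16777216) ^ (s + 1) := by
    rw [one_div_pow]
    apply one_div_le_one_div_of_le (by positivity)
    push_cast
    rw [pow_mul]
    norm_num
    exact pow_le_pow_right₀ (by norm_num) (by omega)
  have h2 : (1 / 3 : ℝ) ^ (16 * (s + 1)) ≤ (1 / 16777216) ^ (s + 1) := by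
    rw [pow_mul]
    apply pow_le_pow_left₀ (by positivity)
    norm_num
  have h3 : ((64 : ℝ) ^ s) ^ 2 = 4096 ^ s := by
    rw [← pow_mul, mul_comm, pow_mul]; norm_num
  rw [h3]
  calc 512 * Real.pi * 4096 ^ s
      * (1 / ((64 ^ (4 * (M + 1)) : ℕ) : ℝ) + 3 / 2 * (1 / 3) ^ (16 * (s + 1)))
      ≤ 512 * 4 * 4096 ^ s * ((1 / 16777216) ^ (s + 1) + 3 / 2 * (1 / 16777216) ^ (s + 1)) := by
        gcongr
        exact Real.pi_lt_four.le
    _ = 5120 / 16777216 * (4096 ^ s * (1 / 16777216) ^ s) := by rw [pow_succ]; ring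
    _ = 5120 / 16777216 * (1 / 4096) ^ s := by rw [← mul_pow]; norm_num
    _ ≤ 1 * (4 / 5) ^ s := by
      gcongr <;> norm_num
    _ = _ := one_mul _

theorem high_part_lac {lam : ℕ → ℤ} (h : Lac lam) {M : ℕ} (a : Fin M → Fin M → ℂ) {B : ℝ}
    (hA : ∀ z : Fin M → ℂ, (∀ i, ‖z i‖ = 1) → ‖Qf a z‖ ≤ B)
    (hB : 0 ≤ B) : ∃ α : UnitAddCircle, ∀ s R : ℕ, 4096 ^ s ≤ R →
      ‖av1 R α (bl (fun i : Fin M => lam i) (far (16 * (s + 1)) a))‖ ≤ 560129 * (4 / 5) ^ s * B := by
  set Q : ℕ := 64 ^ (4 * (M + 1)) with hQdef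
  have hQ0 : 0 < Q := by positivity
  have hex : ∀ s : ℕ, ∃ G : (Fin M → Fin Q) → ℝ, s < M → ((∀ v, 0 ≤ G v) ∧
      Ex G ≤ 820 * ((16 * (s + 1) : ℕ) : ℝ) ^ 2 / √(64 ^ s) * B ∧
      ∀ (v : Fin M → Fin Q) (ε : ℝ), 0 ≤ ε → ∀ (α : UnitAddCircle),
        (∀ i : Fin M, ‖lam i • α - gp Q (th lam hQ0 (16 * (s + 1)) v i)‖ ≤ ε) → ∀ R : ℕ, 1 ≤ R →
          ‖av1 R α (bl (fun i : Fin M => lam i) (far (16 * (s + 1)) a))‖ ≤ G v
            + 512 * Real.pi * (64 ^ s) ^ 2 * ε * B + 128 * 64 ^ s * B / R) := by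
    intro s
    by_cases hs : s < M
    · have h1 : 64 ^ s - 1 + 1 = 64 ^ s := Nat.sub_add_cancel (Nat.one_le_pow _ _ (by norm_num))
      have h2 : ((64 ^ s - 1 : ℕ) : ℝ) + 1 = 64 ^ s := by exact_mod_cast h1
      have h3 : 64 ^ s - 1 + 1 ≤ Q := by
        rw [h1, hQdef]; exact Nat.pow_le_pow_right (by norm_num) (by omega)
      obtain ⟨G, hG0, hGE, hG⟩ := high_lac (lam := lam) h3 hQ0 (L := 16 * (s + 1)) (by omega) a hA hB
      refine ⟨G, fun _ => ⟨hG0, ?_, ?_⟩⟩
      · rw [h2] at hGE; exact hGE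
      · intro v ε hε α he R hR
        have hR' : (0 : ℝ) < R := by exact_mod_cast hR
        have h5 := hG v ε hε α he R hR
        rw [h2] at h5
        refine h5.trans ?_
        have h4 : ((64 ^ s - 1 : ℕ) : ℝ) ≤ 64 ^ s := by linarith
        gcongr
    · exact ⟨fun _ => 0, fun h => absurd h hs⟩
  choose G hG using hex
  have : Nonempty (Fin Q) := ⟨⟨0, hQ0⟩⟩
  obtain ⟨v, hv⟩ := Pool.Agent.Lib_helper23.TILF.DS.exists_le_Ex
    (fun v : Fin M → Fin Q => ∑ s ∈ range M, (5 / 4 : ℝ) ^ s * G s v)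
  have hE : Ex (fun v : Fin M → Fin Q => ∑ s ∈ range M, (5 / 4 : ℝ) ^ s * G s v) ≤ 560000 * B := by
    rw [Pool.Agent.Lib_helper23.TILF.DS.Ex_sum]
    calc ∑ s ∈ range M, Ex (fun v => (5 / 4 : ℝ) ^ s * G s v)
        ≤ ∑ s ∈ range M, 209920 * (5 / 8) ^ s * B := by
          refine Finset.sum_le_sum fun s hs => ?_
          rw [Pool.Agent.Lib_helper23.TILF.DS.Ex_mul_left]
          have h1 := (hG s (Finset.mem_range.1 hs)).2.1
          calc (5 / 4 : ℝ) ^ s * Ex (G s)
              ≤ (5 / 4 : ℝ) ^ s * (820 * ((16 * (s + 1) : ℕ) : ℝ) ^ 2 / √(64 ^ s) * B) := by gcongr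
            _ = ((5 / 4 : ℝ) ^ s * (820 * ((16 * (s + 1) : ℕ) : ℝ) ^ 2 / √(64 ^ s))) * B := by ring
            _ ≤ _ := mul_le_mul_of_nonneg_right (weight_le' s) hB
      _ = 209920 * B * ∑ s ∈ range M, (5 / 8 : ℝ) ^ s := by
          rw [Finset.mul_sum]
          exact Finset.sum_congr rfl fun s _ => by ring
      _ ≤ 209920 * B * (8 / 3) := mul_le_mul_of_nonneg_left (geom_le' M) (by positivity)
      _ ≤ 560000 * B := by nlinarith
  refine ⟨pt lam v, fun s R hsR => ?_⟩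
  have hR : 1 ≤ R := (Nat.one_le_pow _ _ (by norm_num)).trans hsR
  have hRr : (4096 : ℝ) ^ s ≤ R := by exact_mod_cast hsR
  have hR' : (0 : ℝ) < R := by exact_mod_cast hR
  by_cases hs : s < M
  · have h1 := (hG s hs).2.2 v (1 / Q + 3 / 2 * (1 / 3) ^ (16 * (s + 1))) (by positivity) (pt lam v)
      (fun i => pt_approx h hQ0 (16 * (s + 1)) v i) R hR
    have hg : G s v ≤ 560000 * (4 / 5) ^ s * B := by
      have h2 : (5 / 4 : ℝ) ^ s * G s v ≤ 560000 * B := by
        refine le_trans ?_ (hv.trans hE)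
        exact Finset.single_le_sum (f := fun s => (5 / 4 : ℝ) ^ s * G s v)
          (fun t ht => mul_nonneg (by positivity) ((hG t (Finset.mem_range.1 ht)).1 v))
          (Finset.mem_range.2 hs)
      have h3 : (4 / 5 : ℝ) ^ s * ((5 / 4 : ℝ) ^ s * G s v) = G s v := by
        rw [← mul_assoc, ← mul_pow]; norm_num
      calc G s v = (4 / 5 : ℝ) ^ s * ((5 / 4 : ℝ) ^ s * G s v) := h3.symm
        _ ≤ (4 / 5 : ℝ) ^ s * (560000 * B) := by gcongr
        _ = _ := by ring
    have h5 : 512 * Real.pi * (64 ^ s) ^ 2 * (1 / Q + 3 / 2 * (1 / 3) ^ (16 * (s + 1))) * B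
        ≤ (4 / 5) ^ s * B := mul_le_mul_of_nonneg_right (eps_le s M hs) hB
    have h6 : 128 * 64 ^ s * B / R ≤ 128 * (4 / 5) ^ s * B := by
      rw [div_le_iff₀ hR']
      have h7 : (64 : ℝ) ^ s ≤ (4 / 5) ^ s * R := by
        calc (64 : ℝ) ^ s ≤ ((4 / 5) * 4096) ^ s := by gcongr; norm_num
          _ = (4 / 5) ^ s * 4096 ^ s := mul_pow _ _ _
          _ ≤ _ := by gcongr
      calc 128 * 64 ^ s * B = 128 * B * 64 ^ s := by ring
        _ ≤ 128 * B * ((4 / 5) ^ s * R) := by gcongr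
        _ = _ := by ring
    linarith
  · have h1 : bl (fun i : Fin M => lam i) (far (16 * (s + 1)) a) = 0 := by
      rw [bl]
      refine Finset.sum_eq_zero fun i _ => Finset.sum_eq_zero fun j _ => ?_
      have hi := i.2
      have hj := j.2
      have h2 : (i : ℕ) / (16 * (s + 1)) = 0 := Nat.div_eq_of_lt (by omega)
      have h3 : (j : ℕ) / (16 * (s + 1)) = 0 := Nat.div_eq_of_lt (by omega)
      rw [Pool.Agent.Lib_helper23.TILF.DS.far, h2, h3, if_neg (by omega), czero_smul]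
    rw [h1, av1_zero, norm_zero]
    positivity

theorem transpose_bound {m : ℕ} {a : Fin m → Fin m → ℂ} {B : ℝ}
    (hA : ∀ z : Fin m → ℂ, (∀ i, ‖z i‖ = 1) → ‖Qf a z‖ ≤ B) :
    ∀ z : Fin m → ℂ, (∀ i, ‖z i‖ = 1) → ‖Qf (fun i j => a j i) z‖ ≤ B := by
  intro z hz
  have h1 : Qf (fun i j => a j i) z = Qf a (fun i => (starRingEnd ℂ) (z i)) := by
    unfold Qf
    rw [Finset.sum_comm]
    refine Finset.sum_congr rfl fun i _ => Finset.sum_congr rfl fun j _ => ?_
    rw [Complex.conj_conj]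
    ring
  rw [h1]
  exact hA _ fun i => by rw [RCLike.norm_conj]; exact hz i

/-- The distance of two indices. -/
def ds {M : ℕ} (i j : Fin M) : ℕ := ((j : ℕ) - (i : ℕ)) + ((i : ℕ) - (j : ℕ))

theorem near_sum {M : ℕ} {a : Fin M → Fin M → ℂ} (ha0 : ∀ i, a i i = 0) {B : ℝ}
    (hA : ∀ z : Fin M → ℂ, (∀ i, ‖z i‖ = 1) → ‖Qf a z‖ ≤ B) (hB : 0 ≤ B) :
    ∑ i : Fin M, ∑ j : Fin M, ‖a i j‖ * (1 / (ds i j : ℝ) ^ 2) ≤ 8 * B := by
  have h1 : ∀ i j : Fin M, ‖a i j‖ * (1 / (ds i j : ℝ) ^ 2)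
      ≤ ∑ e : Fin M, 1 / (((e : ℕ) : ℝ) + 1) ^ 2 *
        ((if (j : ℕ) = i + ((e : ℕ) + 1) then ‖a i j‖ else 0)
          + (if (i : ℕ) = j + ((e : ℕ) + 1) then ‖a i j‖ else 0)) := by
    intro i j
    have hnn : ∀ e : Fin M, 0 ≤ 1 / (((e : ℕ) : ℝ) + 1) ^ 2 *
        ((if (j : ℕ) = i + ((e : ℕ) + 1) then ‖a i j‖ else 0)
          + (if (i : ℕ) = j + ((e : ℕ) + 1) then ‖a i j‖ else 0)) := by
      intro e
      refine mul_nonneg (by positivity) (add_nonneg ?_ ?_) <;> split_ifs <;> first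
        | exact norm_nonneg _ | exact le_rfl
    rcases Nat.lt_trichotomy (i : ℕ) j with hlt | heq | hgt
    · have hjM := j.2
      set e : Fin M := ⟨(j : ℕ) - i - 1, by omega⟩ with he
      refine le_trans (le_of_eq ?_) (Finset.single_le_sum (fun e _ => hnn e) (Finset.mem_univ e))
      have e1 : (j : ℕ) = i + ((e : ℕ) + 1) := by simp only [he]; omega
      have e2 : ¬ (i : ℕ) = j + ((e : ℕ) + 1) := by omega
      have e3 : ((ds i j : ℕ) : ℝ) = ((e : ℕ) : ℝ) + 1 := by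
        have : ds i j = (e : ℕ) + 1 := by unfold ds; simp only [he]; omega
        rw [this]; push_cast; rfl
      rw [if_pos e1, if_neg e2, e3]
      ring
    · have : i = j := Fin.ext heq
      subst this
      rw [ha0, norm_zero, zero_mul]
      simp
    · have hiM := i.2
      set e : Fin M := ⟨(i : ℕ) - j - 1, by omega⟩ with he
      refine le_trans (le_of_eq ?_) (Finset.single_le_sum (fun e _ => hnn e) (Finset.mem_univ e))
      have e1 : (i : ℕ) = j + ((e : ℕ) + 1) := by simp only [he]; omega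
      have e2 : ¬ (j : ℕ) = i + ((e : ℕ) + 1) := by omega
      have e3 : ((ds i j : ℕ) : ℝ) = ((e : ℕ) : ℝ) + 1 := by
        have : ds i j = (e : ℕ) + 1 := by unfold ds; simp only [he]; omega
        rw [this]; push_cast; rfl
      rw [if_neg e2, if_pos e1, e3]
      ring
  have h2 : ∑ i : Fin M, ∑ j : Fin M, ‖a i j‖ * (1 / (ds i j : ℝ) ^ 2)
      ≤ ∑ e : Fin M, 1 / (((e : ℕ) : ℝ) + 1) ^ 2 *
        ((∑ i : Fin M, ∑ j : Fin M, (if (j : ℕ) = i + ((e : ℕ) + 1) then ‖a i j‖ else 0))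
          + ∑ i : Fin M, ∑ j : Fin M, (if (i : ℕ) = j + ((e : ℕ) + 1) then ‖a i j‖ else 0)) := by
    refine (Finset.sum_le_sum fun i _ => Finset.sum_le_sum fun j _ => h1 i j).trans (le_of_eq ?_)
    have e1 : ∀ i : Fin M, ∑ j : Fin M, ∑ e : Fin M, 1 / (((e : ℕ) : ℝ) + 1) ^ 2 *
        ((if (j : ℕ) = i + ((e : ℕ) + 1) then ‖a i j‖ else 0)
          + (if (i : ℕ) = j + ((e : ℕ) + 1) then ‖a i j‖ else 0))
        = ∑ e : Fin M, ∑ j : Fin M, 1 / (((e : ℕ) : ℝ) + 1) ^ 2 *
        ((if (j : ℕ) = i + ((e : ℕ) + 1) then ‖a i j‖ else 0)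
          + (if (i : ℕ) = j + ((e : ℕ) + 1) then ‖a i j‖ else 0)) := fun i => Finset.sum_comm
    simp_rw [e1]
    rw [Finset.sum_comm]
    refine Finset.sum_congr rfl fun e _ => ?_
    rw [← Finset.sum_add_distrib, Finset.mul_sum]
    refine Finset.sum_congr rfl fun i _ => ?_
    rw [← Finset.sum_add_distrib, Finset.mul_sum]
  refine h2.trans ?_
  have h3 : ∀ e : Fin M, 1 / (((e : ℕ) : ℝ) + 1) ^ 2 *
        ((∑ i : Fin M, ∑ j : Fin M, (if (j : ℕ) = i + ((e : ℕ) + 1) then ‖a i j‖ else 0))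
          + ∑ i : Fin M, ∑ j : Fin M, (if (i : ℕ) = j + ((e : ℕ) + 1) then ‖a i j‖ else 0))
      ≤ 1 / (((e : ℕ) : ℝ) + 1) ^ 2 * (4 * B) := by
    intro e
    have d1 := Pool.Agent.Lib_helper23.TILF.DS.diagonal_le hA (d := (e : ℕ) + 1) (by omega)
    have d2 := Pool.Agent.Lib_helper23.TILF.DS.diagonal_le (transpose_bound hA) (d := (e : ℕ) + 1)
      (by omega)
    rw [Finset.sum_comm] at d2
    gcongr
    linarith
  refine (Finset.sum_le_sum fun e _ => h3 e).trans ?_
  rw [← Finset.sum_mul]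
  have h4 := sum_all M
  nlinarith

theorem low_part_lac {lam : ℕ → ℤ} (h : Lac lam) {M : ℕ} (a : Fin M → Fin M → ℂ)
    (ha0 : ∀ i, a i i = 0) {B : ℝ} (hA : ∀ z : Fin M → ℂ, (∀ i, ‖z i‖ = 1) → ‖Qf a z‖ ≤ B)
    (hB : 0 ≤ B) : ∃ α : UnitAddCircle, ∀ s R : ℕ, 4096 ^ s ≤ R →
      ‖av1 R α (bl (fun i : Fin M => lam i) a - bl (fun i : Fin M => lam i) (far (16 * (s + 1)) a))‖
        ≤ 8192 * Wt * (4 / 5) ^ s * B := by
  set w : Fin M → Fin M → ℝ := fun i j => 1 / (ds i j : ℝ) ^ 2 with hw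
  have hw0 : ∀ i j, 0 ≤ w i j := fun i j => by simp only [hw]; positivity
  set c : Fin M × Fin M → ℝ := fun p => ‖a p.1 p.2‖ * w p.1 p.2 with hc
  have hc0 : ∀ p, 0 ≤ c p := fun p => mul_nonneg (norm_nonneg _) (hw0 _ _)
  set k : Fin M × Fin M → ℤ := fun p => lam p.1 - lam p.2 with hk
  have hk0 : ∀ p, c p ≠ 0 → k p ≠ 0 := by
    intro p hp hkp
    apply hp
    have h1 : lam p.1 = lam p.2 := by simp only [hk] at hkp; linarith
    have h2 : (p.1 : ℕ) = p.2 := h.strictMono.injective h1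
    have h3 : p.1 = p.2 := Fin.ext h2
    simp only [hc]
    rw [← h3, ha0, norm_zero, zero_mul]
  obtain ⟨α, hα0, hα⟩ := exists_point (Finset.univ : Finset (Fin M × Fin M)) c (fun p _ => hc0 p) k
    (fun p _ => hk0 p)
  have hcs : ∑ p : Fin M × Fin M, c p ≤ 8 * B := by
    rw [Fintype.sum_prod_type]
    exact near_sum ha0 hA hB
  refine ⟨α, fun s R hsR => ?_⟩
  have hR : 1 ≤ R := (Nat.one_le_pow _ _ (by norm_num)).trans hsR
  have hRr : (4096 : ℝ) ^ s ≤ R := by exact_mod_cast hsR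
  have hR' : (0 : ℝ) < R := by exact_mod_cast hR
  have hsq : (√(R : ℝ))⁻¹ ≤ (1 / 64) ^ s := by
    rw [one_div, inv_pow]
    apply inv_anti₀ (by positivity)
    apply Real.le_sqrt_of_sq_le
    rw [← pow_mul, mul_comm, pow_mul]
    norm_num
    exact hRr
  have h1 : bl (fun i : Fin M => lam i) a - bl (fun i : Fin M => lam i) (far (16 * (s + 1)) a)
      = ∑ i : Fin M, ∑ j : Fin M, (a i j - far (16 * (s + 1)) a i j)
        • (fourier (lam i - lam j) : C(UnitAddCircle, ℂ)) := by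
    rw [bl, bl, ← Finset.sum_sub_distrib]
    refine Finset.sum_congr rfl fun i _ => ?_
    rw [← Finset.sum_sub_distrib]
    refine Finset.sum_congr rfl fun j _ => ?_
    ext t
    simp only [ContinuousMap.sub_apply, ContinuousMap.smul_apply, smul_eq_mul]
    ring
  have h2 : ‖av1 R α (bl (fun i : Fin M => lam i) a - bl (fun i : Fin M => lam i) (far (16 * (s + 1)) a))‖
      ≤ ∑ i : Fin M, ∑ j : Fin M, 1024 * 4 ^ s * (1 / 64) ^ s * (c (i, j) * (√‖k (i, j) • α‖)⁻¹) := by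
    rw [h1, av1_sum]
    refine (norm_sum_le _ _).trans (Finset.sum_le_sum fun i _ => ?_)
    rw [av1_sum]
    refine (norm_sum_le _ _).trans (Finset.sum_le_sum fun j _ => ?_)
    rw [av1_smul, norm_smul]
    have hcij := hc0 (i, j)
    by_cases hij : (i : ℕ) / (16 * (s + 1)) + 1 < (j : ℕ) / (16 * (s + 1)) ∨
        (j : ℕ) / (16 * (s + 1)) + 1 < (i : ℕ) / (16 * (s + 1))
    · rw [Pool.Agent.Lib_helper23.TILF.DS.far, if_pos hij, sub_self, norm_zero, zero_mul]
      positivity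
    · rw [Pool.Agent.Lib_helper23.TILF.DS.far, if_neg hij, sub_zero]
      by_cases heq : i = j
      · subst heq
        rw [ha0, norm_zero, zero_mul]
        positivity
      · have hne : (i : ℕ) ≠ j := fun hij => heq (Fin.ext hij)
        have hds : 0 < ds i j := by unfold ds; omega
        have hds' : (0 : ℝ) < (ds i j : ℕ) := by exact_mod_cast hds
        have hdsu : ds i j ≤ 32 * (s + 1) := by
          have m1 := Nat.div_add_mod (i : ℕ) (16 * (s + 1))
          have m2 := Nat.div_add_mod (j : ℕ) (16 * (s + 1))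
          have m3 := Nat.mod_lt (i : ℕ) (show 0 < 16 * (s + 1) by omega)
          have m4 := Nat.mod_lt (j : ℕ) (show 0 < 16 * (s + 1) by omega)
          set L := 16 * (s + 1) with hL
          set qi := (i : ℕ) / L
          set qj := (j : ℕ) / L
          have m5 : qi ≤ qj + 1 := by omega
          have m6 : qj ≤ qi + 1 := by omega
          have m7 : L * qi ≤ L * (qj + 1) := Nat.mul_le_mul_left L m5
          have m8 : L * qj ≤ L * (qi + 1) := Nat.mul_le_mul_left L m6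
          rw [Nat.mul_add, Nat.mul_one] at m7 m8
          unfold ds
          omega
        by_cases ha : ‖a i j‖ = 0
        · rw [ha, zero_mul]
          positivity
        · have hcne : c (i, j) ≠ 0 := by
            simp only [hc, hw]
            have : (1 : ℝ) / (ds i j : ℝ) ^ 2 ≠ 0 := by positivity
            exact mul_ne_zero ha this
          have h4 := av1_fourier_le hR (k (i, j)) α (hα0 (i, j) (Finset.mem_univ _) hcne)
          have h9 : ‖a i j‖ ≤ 1024 * 4 ^ s * c (i, j) := by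
            have h10 : ((ds i j : ℕ) : ℝ) ^ 2 ≤ 1024 * 4 ^ s := by
              have h11 : ((ds i j : ℕ) : ℝ) ≤ 32 * ((s : ℝ) + 1) := by exact_mod_cast hdsu
              calc ((ds i j : ℕ) : ℝ) ^ 2 ≤ (32 * ((s : ℝ) + 1)) ^ 2 := by gcongr
                _ = 1024 * ((s : ℝ) + 1) ^ 2 := by ring
                _ ≤ _ := by gcongr; exact sq_le_four_pow s
            have h12 : ((ds i j : ℕ) : ℝ) ^ 2 * c (i, j) = ‖a i j‖ := by
              simp only [hc, hw]
              field_simp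
            rw [← h12]
            gcongr
          calc ‖a i j‖ * ‖av1 R α (fourier (lam i - lam j))‖
              ≤ (1024 * 4 ^ s * c (i, j)) * ((√(R : ℝ))⁻¹ * (√‖k (i, j) • α‖)⁻¹) :=
                mul_le_mul h9 h4 (norm_nonneg _) (by positivity)
            _ ≤ (1024 * 4 ^ s * c (i, j)) * ((1 / 64) ^ s * (√‖k (i, j) • α‖)⁻¹) := by
                gcongr
            _ = _ := by ring
  refine h2.trans ?_
  simp_rw [← Finset.mul_sum]
  have h3 : ∑ i : Fin M, ∑ j : Fin M, c (i, j) * (√‖k (i, j) • α‖)⁻¹ ≤ Wt * (8 * B) := by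
    have h4 : ∑ i : Fin M, ∑ j : Fin M, c (i, j) * (√‖k (i, j) • α‖)⁻¹
        = ∑ p : Fin M × Fin M, c p * (√‖k p • α‖)⁻¹ := by
      rw [Fintype.sum_prod_type]
    rw [h4]
    exact hα.trans (mul_le_mul_of_nonneg_left hcs Wt_nonneg)
  have h5 : (4 : ℝ) ^ s * (1 / 64) ^ s ≤ (4 / 5) ^ s := by
    rw [← mul_pow]
    gcongr
    norm_num
  calc 1024 * (4 : ℝ) ^ s * (1 / 64) ^ s * ∑ i : Fin M, ∑ j : Fin M, c (i, j) * (√‖k (i, j) • α‖)⁻¹
      ≤ 1024 * (4 : ℝ) ^ s * (1 / 64) ^ s * (Wt * (8 * B)) := by gcongr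
    _ = 1024 * ((4 : ℝ) ^ s * (1 / 64) ^ s) * (Wt * (8 * B)) := by ring
    _ ≤ 1024 * (4 / 5) ^ s * (Wt * (8 * B)) := by
      have := Wt_nonneg
      gcongr
    _ = _ := by ring

theorem decP_lacunary {lam : ℕ → ℤ} (h : Lac lam) :
    DecP (Df lam) 2 (5 * (560129 + 8192 * Wt)) (1 / 40) := by
  intro f hf
  obtain ⟨M, a, ha0, rfl⟩ := repr hf
  set f := bl (fun i : Fin M => lam i) a with hfd
  have hA := riesz_torus h a ha0
  have hB : 0 ≤ 4 * ‖f‖ := by positivity
  obtain ⟨α, hα⟩ := high_part_lac h a hA hB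
  obtain ⟨β, hβ⟩ := low_part_lac h a ha0 hA hB
  refine ⟨![α, β], fun R hR => ?_⟩
  have hR' : (0 : ℝ) < R := by exact_mod_cast hR
  have hW := Wt_nonneg
  set s := Nat.log 4096 R with hs
  have h1 : 4096 ^ s ≤ R := Nat.pow_log_le_self 4096 (by omega)
  have h2 : R < 4096 ^ (s + 1) := Nat.lt_pow_succ_log_self (by norm_num) R
  have h3 : av R 2 ![α, β] f = av1 R α (av1 R β f) := rfl
  have h4 : f = bl (fun i : Fin M => lam i) (far (16 * (s + 1)) a)
      + (f - bl (fun i : Fin M => lam i) (far (16 * (s + 1)) a)) := by abel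
  have h5 : ‖av R 2 ![α, β] f‖ ≤ (560129 + 8192 * Wt) * (4 / 5) ^ s * (4 * ‖f‖) := by
    rw [h3]
    conv_lhs => rw [h4]
    rw [av1_add, av1_add]
    refine (norm_add_le _ _).trans ?_
    have e1 : ‖av1 R α (av1 R β (bl (fun i : Fin M => lam i) (far (16 * (s + 1)) a)))‖
        ≤ 560129 * (4 / 5) ^ s * (4 * ‖f‖) := by
      rw [av1_comm]
      exact (norm_av1_le hR _ _).trans (hα s R h1)
    have e2 : ‖av1 R α (av1 R β (f - bl (fun i : Fin M => lam i) (far (16 * (s + 1)) a)))‖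
        ≤ 8192 * Wt * (4 / 5) ^ s * (4 * ‖f‖) := (norm_av1_le hR _ _).trans (hβ s R h1)
    linarith
  have h6 : (4 / 5 : ℝ) ^ s ≤ 5 / 4 * (R : ℝ) ^ (-(1 / 40) : ℝ) := by
    have e1 : (R : ℝ) ^ ((1 / 40) : ℝ) ≤ (5 / 4) ^ (s + 1) := by
      have e2 : (R : ℝ) ≤ ((5 / 4 : ℝ) ^ (s + 1)) ^ (40 : ℕ) := by
        have e3 : (R : ℝ) ≤ 4096 ^ (s + 1) := by exact_mod_cast h2.le
        refine e3.trans ?_
        rw [← pow_mul, mul_comm, pow_mul]
        gcongr
        norm_num
      calc (R : ℝ) ^ ((1 / 40) : ℝ) ≤ (((5 / 4 : ℝ) ^ (s + 1)) ^ (40 : ℕ)) ^ ((1 / 40) : ℝ) :=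
            Real.rpow_le_rpow hR'.le e2 (by norm_num)
        _ = (5 / 4) ^ (s + 1) := by
          rw [← Real.rpow_natCast, ← Real.rpow_mul (by positivity)]
          norm_num
    have e4 : 0 < (R : ℝ) ^ ((1 / 40) : ℝ) := Real.rpow_pos_of_pos hR' _
    rw [Real.rpow_neg hR'.le]
    have e5 : ((5 / 4 : ℝ) ^ (s + 1))⁻¹ ≤ ((R : ℝ) ^ ((1 / 40) : ℝ))⁻¹ := inv_anti₀ e4 e1
    have e6 : (4 / 5 : ℝ) ^ s = 5 / 4 * ((5 / 4 : ℝ) ^ (s + 1))⁻¹ := by
      rw [← inv_pow, pow_succ]
      norm_num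
      ring
    rw [e6]
    gcongr
  refine h5.trans ?_
  calc (560129 + 8192 * Wt) * (4 / 5) ^ s * (4 * ‖f‖)
      ≤ (560129 + 8192 * Wt) * (5 / 4 * (R : ℝ) ^ (-(1 / 40) : ℝ)) * (4 * ‖f‖) := by gcongr
    _ = _ := by ring

/-- The set of the differences of a lacunary sequence has the automatic continuity property. -/
theorem automaticContinuity_lacunary {lam : ℕ → ℤ} (h : Lac lam) : AutomaticContinuity (Df lam) := by
  have h1 : DecP (Df lam \ {0}) 2 (5 * (560129 + 8192 * Wt)) (1 / 40) :=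
    fun f hf => decP_lacunary h f (TP_mono Set.sdiff_subset hf)
  have hW := Wt_nonneg
  exact automaticContinuity_of_dec (dec_of_decP h1) (by positivity) (by norm_num)

end LacAuto

section LacSidon

open MeasureTheory AddCircle Topology Finset Filter

theorem Lac.mul_le {lam : ℕ → ℤ} (h : Lac lam) {i j : ℕ} (hij : i < j) : 3 * lam i ≤ lam j :=
  (h.2 i).trans (h.strictMono.monotone hij)

theorem Lac.diff_injective {lam : ℕ → ℤ} (h : Lac lam) {i j i' j' : ℕ} (hij : i < j)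
    (hij' : i' < j') (he : lam i - lam j = lam i' - lam j') : i = i' ∧ j = j' := by
  have a1 := h.mul_le hij
  have a2 := h.mul_le hij'
  have p1 := h.pos i
  have p2 := h.pos i'
  have p3 := h.pos j
  have p4 := h.pos j'
  rcases Nat.lt_trichotomy j j' with hlt | heq | hgt
  · exfalso
    have := h.mul_le hlt
    linarith
  · subst heq
    have h1 : lam i = lam i' := by linarith
    exact ⟨h.strictMono.injective h1, rfl⟩
  · exfalso
    have := h.mul_le hgt
    linarith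

theorem not_isSidon_trace_lac {lam : ℕ → ℤ} (h : Lac lam) (s : Finset UnitAddCircle) {δ : ℝ}
    (hδ : 0 < δ) : ¬ IsSidon {k : ℤ | k ∈ Df lam ∧ ∀ α ∈ s, ‖k • α‖ < δ} := by
  intro hS
  obtain ⟨C, hC⟩ := sidon_bound hS
  obtain ⟨ψ, hψ, hψs⟩ := exists_subseq lam s hδ
  have key : ∀ k : ℕ, 0 < k → (k : ℝ) * k ≤ C * (k * √k) ∧ 0 ≤ C := by
    intro k hk
    have hk' : (0 : ℝ) < k := by exact_mod_cast hk
    set κ : Fin k × Fin k → ℤ := fun p => lam (ψ p.1) - lam (ψ (k + p.2)) with hκ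
    have hlt : ∀ p : Fin k × Fin k, ψ p.1 < ψ (k + p.2) := by
      intro p
      apply hψ
      have := p.1.2
      omega
    have hinj : Function.Injective κ := by
      intro p q hpq
      obtain ⟨e1, e2⟩ := h.diff_injective (hlt p) (hlt q) hpq
      have e3 := hψ.injective e1
      have e4 := hψ.injective e2
      exact Prod.ext (Fin.ext e3) (Fin.ext (by omega))
    set f : C(UnitAddCircle, ℂ) := ∑ p : Fin k × Fin k,
      (fourier ((p.2 : ℕ) : ℤ) (gp k p.1) : ℂ) • (fourier (κ p) : C(UnitAddCircle, ℂ)) with hf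
    have hmem : f ∈ CE {k : ℤ | k ∈ Df lam ∧ ∀ α ∈ s, ‖k • α‖ < δ} := by
      rw [hf]
      refine Submodule.sum_mem _ fun p _ => Submodule.smul_mem _ _ (TP_le_CE _ (fourier_mem_TP ?_))
      exact ⟨⟨ψ p.1, ψ (k + p.2), (hlt p).ne, rfl⟩, fun α hα => hψs _ _ α hα⟩
    have hnorm : ‖f‖ ≤ k * √k := by
      rw [ContinuousMap.norm_le _ (by positivity)]
      intro x
      have e1 : f x = ∑ p : Fin k, ∑ q : Fin k, (fourier ((q : ℕ) : ℤ) (gp k p) : ℂ)
          * ((fourier (lam (ψ p)) x : ℂ) * (starRingEnd ℂ) (fourier (lam (ψ (k + q))) x)) := by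
        rw [hf, ContinuousMap.sum_apply, Fintype.sum_prod_type]
        refine Finset.sum_congr rfl fun p _ => Finset.sum_congr rfl fun q _ => ?_
        rw [ContinuousMap.smul_apply, smul_eq_mul, hκ]
        simp only
        rw [fourier_diff]
      rw [e1]
      refine dft_bound hk (fun p => (fourier (lam (ψ p)) x : ℂ))
        (fun q => (starRingEnd ℂ) (fourier (lam (ψ (k + q))) x)) (fun i => ?_) (fun i => ?_)
      · exact (Pool.Agent.Lib_helper23.TILF.norm_fourier_all _ _).le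
      · rw [RCLike.norm_conj]
        exact (Pool.Agent.Lib_helper23.TILF.norm_fourier_all _ _).le
    have hcoef : ∀ p, ‖coeffL (κ p) f‖ = 1 := by
      intro p
      have e1 : coeffL (κ p) f = (fourier ((p.2 : ℕ) : ℤ) (gp k p.1) : ℂ) := by
        rw [hf, map_sum, Finset.sum_eq_single p]
        · rw [map_smul, coeffL_fourier, if_pos rfl, smul_eq_mul, mul_one]
        · intro q _ hq
          rw [map_smul, coeffL_fourier, if_neg (fun he => hq (hinj he).symm), smul_zero]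
        · intro hp; exact absurd (Finset.mem_univ p) hp
      rw [e1]
      exact Pool.Agent.Lib_helper23.TILF.norm_fourier_all _ _
    have h1 := hC f hmem (Finset.univ.image κ)
    rw [Finset.sum_image fun p _ q _ hpq => hinj hpq] at h1
    simp_rw [hcoef] at h1
    rw [Finset.sum_const, Finset.card_univ, Fintype.card_prod, Fintype.card_fin, nsmul_eq_mul,
      mul_one] at h1
    push_cast at h1
    have hC0 : 0 ≤ C := by
      by_contra hneg
      push Not at hneg
      have h2 : C * ‖f‖ ≤ 0 := mul_nonpos_of_nonpos_of_nonneg hneg.le (norm_nonneg _)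
      have h3 : (0 : ℝ) < (k : ℝ) * k := by positivity
      linarith
    exact ⟨h1.trans (mul_le_mul_of_nonneg_left hnorm hC0), hC0⟩
  obtain ⟨n, hn⟩ := exists_nat_gt (C ^ 2)
  have hn0 : 0 < n := by
    have : (0 : ℝ) < n := lt_of_le_of_lt (sq_nonneg C) hn
    exact_mod_cast this
  have hn' : (0 : ℝ) < n := by exact_mod_cast hn0
  obtain ⟨h1, h2⟩ := key n hn0
  have hs : √(n : ℝ) * √(n : ℝ) = n := Real.mul_self_sqrt hn'.le
  have hs0 : 0 < √(n : ℝ) := Real.sqrt_pos.2 hn'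
  have h3 : √(n : ℝ) ≤ C := by
    have h4 : (n : ℝ) * √(n : ℝ) * √(n : ℝ) ≤ n * √(n : ℝ) * C := by
      calc (n : ℝ) * √(n : ℝ) * √(n : ℝ) = n * n := by rw [mul_assoc, hs]
        _ ≤ C * (n * √n) := h1
        _ = _ := by ring
    exact le_of_mul_le_mul_left h4 (by positivity)
  have h5 : (n : ℝ) ≤ C ^ 2 := by
    rw [← hs, pow_two]
    exact mul_self_le_mul_self hs0.le h3
  linarith

end LacSidon

end Pool.Agent.Lib_helper87.Tilf.Cha
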