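import Mathlib

/-!
Averages over finite sets, the contraction principle for sign averages, Khintchine's inequality,
random restrictions of matrices for the norm `sup ∑ x_i y_j b_ij`, `x_i, y_j = ± 1`, forms
`∑ a_ij z_i conj(z_j)` without diagonal on the torus, and the decoupling of the pairs of indices
which are far from each other.
-/

noncomputable section

namespace Pool.Agent.Lib_helper23.TILF.DS

section Signs

open Finset

/-- The sign of a Boolean. -/
def sg (b : Bool) : ℝ := if b then 1 else -1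

theorem sg_true : sg true = 1 := rfl

theorem sg_false : sg false = -1 := rfl

theorem sg_sq (b : Bool) : sg b * sg b = 1 := by cases b <;> norm_num [sg]

theorem abs_sg (b : Bool) : |sg b| = 1 := by cases b <;> norm_num [sg]

/-- Averages. -/
def Ex {α : Type*} [Fintype α] (F : α → ℝ) : ℝ := (∑ a, F a) / Fintype.card α

section Ex

variable {α β : Type*} [Fintype α] [Fintype β]

theorem Ex_mono {F G : α → ℝ} (h : ∀ a, F a ≤ G a) : Ex F ≤ Ex G :=
  div_le_div_of_nonneg_right (Finset.sum_le_sum fun a _ => h a) (Nat.cast_nonneg _)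

theorem Ex_nonneg {F : α → ℝ} (h : ∀ a, 0 ≤ F a) : 0 ≤ Ex F :=
  div_nonneg (Finset.sum_nonneg fun a _ => h a) (Nat.cast_nonneg _)

theorem Ex_add (F G : α → ℝ) : Ex (fun a => F a + G a) = Ex F + Ex G := by
  unfold Ex; rw [Finset.sum_add_distrib, add_div]

theorem Ex_sub (F G : α → ℝ) : Ex (fun a => F a - G a) = Ex F - Ex G := by
  unfold Ex; rw [Finset.sum_sub_distrib, sub_div]

theorem Ex_mul_left (c : ℝ) (F : α → ℝ) : Ex (fun a => c * F a) = c * Ex F := by
  unfold Ex; rw [← Finset.mul_sum, mul_div_assoc]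

theorem Ex_mul_right (c : ℝ) (F : α → ℝ) : Ex (fun a => F a * c) = Ex F * c := by
  unfold Ex; rw [← Finset.sum_mul, div_mul_eq_mul_div]

theorem Ex_const [Nonempty α] (c : ℝ) : Ex (fun _ : α => c) = c := by
  unfold Ex
  rw [Finset.sum_const, Finset.card_univ, nsmul_eq_mul]
  have : (Fintype.card α : ℝ) ≠ 0 := by exact_mod_cast Fintype.card_ne_zero
  field_simp

theorem Ex_sum {ι : Type*} (s : Finset ι) (F : ι → α → ℝ) :
    Ex (fun a => ∑ i ∈ s, F i a) = ∑ i ∈ s, Ex (F i) := by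
  unfold Ex; rw [Finset.sum_comm, Finset.sum_div]

theorem Ex_comm (F : α → β → ℝ) : Ex (fun a => Ex fun b => F a b) = Ex fun b => Ex fun a => F a b := by
  unfold Ex
  rw [← Finset.sum_div, ← Finset.sum_div, Finset.sum_comm, div_right_comm]

theorem Ex_equiv (e : α ≃ β) (F : β → ℝ) : Ex (fun a => F (e a)) = Ex F := by
  unfold Ex; rw [Fintype.card_congr e, e.sum_comp]

theorem Ex_prod (F : α × β → ℝ) : Ex F = Ex fun a => Ex fun b => F (a, b) := by
  unfold Ex
  rw [Fintype.sum_prod_type, Fintype.card_prod, ← Finset.sum_div, Nat.cast_mul, div_div, mul_comm]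

theorem exists_le_Ex [Nonempty α] (F : α → ℝ) : ∃ a, F a ≤ Ex F := by
  by_contra hcon
  push Not at hcon
  have h1 : ∑ a, Ex F < ∑ a, F a :=
    Finset.sum_lt_sum_of_nonempty univ_nonempty fun a _ => hcon a
  rw [Finset.sum_const, Finset.card_univ, nsmul_eq_mul] at h1
  have h2 : (0 : ℝ) < Fintype.card α := by exact_mod_cast Fintype.card_pos
  have h3 : (Fintype.card α : ℝ) * Ex F = ∑ a, F a := by
    unfold Ex; field_simp
  linarith

/-- The average of a function of one coordinate. -/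
theorem Ex_marginal {ι : Type*} [Fintype ι] [DecidableEq ι] {Ω : Type*} [Fintype Ω] [Nonempty Ω]
    (j : ι) (g : Ω → ℝ) : Ex (fun ω : ι → Ω => g (ω j)) = Ex g := by
  have h1 : Ex (fun ω : ι → Ω => g (ω j)) = Ex fun p : Ω × ({i // i ≠ j} → Ω) => g p.1 := by
    rw [← Ex_equiv (Equiv.funSplitAt j Ω) (fun p : Ω × ({i // i ≠ j} → Ω) => g p.1)]
    rfl
  rw [h1, Ex_prod]
  congr 1
  funext a
  exact Ex_const (α := {i // i ≠ j} → Ω) (g a)

/-- `(E |F|)² ≤ E F²`. -/
theorem Ex_le_sqrt [Nonempty α] (F : α → ℝ) : Ex F ≤ √(Ex fun a => F a ^ 2) := by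
  apply Real.le_sqrt_of_sq_le
  have h : 0 ≤ Ex fun a => (F a - Ex F) ^ 2 := Ex_nonneg fun a => sq_nonneg _
  have h2 : (Ex fun a => (F a - Ex F) ^ 2) = (Ex fun a => F a ^ 2) - Ex F ^ 2 := by
    have h3 : (fun a => (F a - Ex F) ^ 2) = fun a => (F a ^ 2 - 2 * Ex F * F a) + Ex F ^ 2 := by
      funext a; ring
    rw [h3, Ex_add, Ex_sub, Ex_mul_left, Ex_const]
    ring
  linarith

/-- Swapping the coordinates in `S` of two functions. -/
def swp {ι Ω : Type*} (S : ι → Bool) : ((ι → Ω) × (ι → Ω)) ≃ ((ι → Ω) × (ι → Ω)) where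
  toFun p := (fun i => if S i then p.2 i else p.1 i, fun i => if S i then p.1 i else p.2 i)
  invFun p := (fun i => if S i then p.2 i else p.1 i, fun i => if S i then p.1 i else p.2 i)
  left_inv p := by
    rcases p with ⟨a, b⟩
    refine Prod.ext ?_ ?_ <;> funext i <;> by_cases h : S i <;> simp [h]
  right_inv p := by
    rcases p with ⟨a, b⟩
    refine Prod.ext ?_ ?_ <;> funext i <;> by_cases h : S i <;> simp [h]

end Ex

/-! ### The contraction principle -/

section contraction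

variable {X : Type*} [Fintype X] [Nonempty X]

theorem le_sup' (F : X → ℝ) (x : X) : F x ≤ ⨆ x, F x :=
  le_ciSup (Set.finite_range F).bddAbove x

theorem exists_sup (F : X → ℝ) : ∃ x, ⨆ y, F y = F x := by
  obtain ⟨x, hx⟩ := exists_eq_ciSup_of_finite (f := F)
  exact ⟨x, hx.symm⟩

theorem two_term (g u : X → ℝ) (c : ℝ) :
    (⨆ x, (g x + c * |u x|)) + (⨆ x, (g x - c * |u x|))
      ≤ (⨆ x, (g x + c * u x)) + (⨆ x, (g x - c * u x)) := by
  obtain ⟨x, hx⟩ := exists_sup fun x => g x + c * |u x|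
  obtain ⟨y, hy⟩ := exists_sup fun x => g x - c * |u x|
  rw [hx, hy]
  have h1 := le_sup' (fun x => g x + c * u x) x
  have h2 := le_sup' (fun x => g x - c * u x) x
  have h3 := le_sup' (fun x => g x + c * u x) y
  have h4 := le_sup' (fun x => g x - c * u x) y
  have h5 : |c * (|u x| - |u y|)| ≤ |c * (u x - u y)| := by
    rw [abs_mul, abs_mul]
    exact mul_le_mul_of_nonneg_left (abs_abs_sub_abs_le_abs_sub _ _) (abs_nonneg _)
  have h6 := (abs_le.1 (le_refl |c * (|u x| - |u y|)|)).2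
  rcases abs_cases (c * (u x - u y)) with ⟨h7, _⟩ | ⟨h7, _⟩ <;> linarith

theorem sum_bool_fun (n : ℕ) (F : (Fin (n + 1) → Bool) → ℝ) :
    ∑ ε, F ε = ∑ ε' : Fin n → Bool, (F (Fin.cons true ε') + F (Fin.cons false ε')) := by
  rw [← (Fin.consEquiv (fun _ => Bool)).sum_comp, Fintype.sum_prod_type, Fintype.sum_bool,
    ← Finset.sum_add_distrib]
  rfl

theorem contraction : ∀ (n : ℕ) (h : X → ℝ) (u : Fin n → X → ℝ) (c : Fin n → ℝ),
    ∑ ε : Fin n → Bool, (⨆ x, (h x + ∑ j, sg (ε j) * c j * |u j x|))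
      ≤ ∑ ε : Fin n → Bool, (⨆ x, (h x + ∑ j, sg (ε j) * c j * u j x))
  | 0, h, u, c => by simp
  | n + 1, h, u, c => by
    rw [sum_bool_fun, sum_bool_fun]
    have e1 : ∀ (ε' : Fin n → Bool) (b : Bool) (v : Fin (n + 1) → X → ℝ) (x : X),
        h x + ∑ j, sg ((Fin.cons b ε' : Fin (n + 1) → Bool) j) * c j * v j x
          = (h x + sg b * c 0 * v 0 x) + ∑ j : Fin n, sg (ε' j) * c j.succ * v j.succ x := by
      intro ε' b v x
      rw [Fin.sum_univ_succ]
      simp only [Fin.cons_zero, Fin.cons_succ]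
      ring
    have key : ∀ b : Bool, ∑ ε' : Fin n → Bool, (⨆ x, ((h x + sg b * c 0 * |u 0 x|)
        + ∑ j : Fin n, sg (ε' j) * c j.succ * |u j.succ x|))
        ≤ ∑ ε' : Fin n → Bool, (⨆ x, ((h x + sg b * c 0 * |u 0 x|)
        + ∑ j : Fin n, sg (ε' j) * c j.succ * u j.succ x)) := fun b =>
      contraction n (fun x => h x + sg b * c 0 * |u 0 x|) (fun j => u j.succ) (fun j => c j.succ)
    have k1 := key true
    have k2 := key false
    rw [Finset.sum_add_distrib]
    simp only [e1 _ _ (fun j x => |u j x|)]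
    refine (add_le_add k1 k2).trans ?_
    rw [← Finset.sum_add_distrib]
    refine Finset.sum_le_sum fun ε' _ => ?_
    simp only [e1 _ _ u]
    have h2 := two_term (fun x => h x + ∑ j : Fin n, sg (ε' j) * c j.succ * u j.succ x) (u 0) (c 0)
    have s1 : ∀ w : X → ℝ, (fun x => (h x + sg true * c 0 * w x) + ∑ j : Fin n, sg (ε' j) * c j.succ * u j.succ x)
        = fun x => (h x + ∑ j : Fin n, sg (ε' j) * c j.succ * u j.succ x) + c 0 * w x := by
      intro w; funext x; rw [sg_true]; ring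
    have s2 : ∀ w : X → ℝ, (fun x => (h x + sg false * c 0 * w x) + ∑ j : Fin n, sg (ε' j) * c j.succ * u j.succ x)
        = fun x => (h x + ∑ j : Fin n, sg (ε' j) * c j.succ * u j.succ x) - c 0 * w x := by
      intro w; funext x; rw [sg_false]; ring
    have t1 := s1 (fun x => |u 0 x|)
    have t2 := s2 (fun x => |u 0 x|)
    have t3 := s1 (u 0)
    have t4 := s2 (u 0)
    rw [t1, t2, t3, t4]
    exact h2

end contraction

end Signs

section Norm

open Finset

/-! ### Khintchine -/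

/-- Rademacher sums. -/
def rad {n : ℕ} (b : Fin n → ℝ) (ε : Fin n → Bool) : ℝ := ∑ j, sg (ε j) * b j

theorem Ex_bool_fun {n : ℕ} (F : (Fin (n + 1) → Bool) → ℝ) :
    Ex F = Ex fun ε' : Fin n → Bool => (F (Fin.cons true ε') + F (Fin.cons false ε')) / 2 := by
  unfold Ex
  rw [sum_bool_fun, ← Finset.sum_div]
  have h1 : (Fintype.card (Fin (n + 1) → Bool) : ℝ) = 2 * Fintype.card (Fin n → Bool) := by
    simp only [Fintype.card_pi, Fintype.card_bool, Finset.prod_const, Finset.card_univ, Fintype.card_fin]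
    push_cast; ring
  rw [h1, div_div]

theorem rad_cons {n : ℕ} (b : Fin (n + 1) → ℝ) (c : Bool) (ε : Fin n → Bool) :
    rad b (Fin.cons c ε) = sg c * b 0 + rad (fun j => b j.succ) ε := by
  unfold rad
  rw [Fin.sum_univ_succ]
  simp only [Fin.cons_zero, Fin.cons_succ]

theorem Ex_rad_sq : ∀ {n : ℕ} (b : Fin n → ℝ), Ex (fun ε => rad b ε ^ 2) = ∑ j, b j ^ 2
  | 0, b => by simp [Ex, rad]
  | n + 1, b => by
    rw [Ex_bool_fun, Fin.sum_univ_succ, ← Ex_rad_sq (fun j : Fin n => b j.succ)]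
    have h1 : (fun ε' : Fin n → Bool => (rad b (Fin.cons true ε') ^ 2 + rad b (Fin.cons false ε') ^ 2) / 2)
        = fun ε' => b 0 ^ 2 + rad (fun j : Fin n => b j.succ) ε' ^ 2 := by
      funext ε'
      rw [rad_cons, rad_cons, sg_true, sg_false]; ring
    rw [h1, Ex_add, Ex_const]

theorem Ex_rad_four : ∀ {n : ℕ} (b : Fin n → ℝ),
    Ex (fun ε => rad b ε ^ 4) ≤ 3 * (∑ j, b j ^ 2) ^ 2
  | 0, b => by simp [Ex, rad]
  | n + 1, b => by
    rw [Ex_bool_fun, Fin.sum_univ_succ]
    have ih := Ex_rad_four (fun j : Fin n => b j.succ)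
    have h2 := Ex_rad_sq (fun j : Fin n => b j.succ)
    have h1 : (fun ε' : Fin n → Bool => (rad b (Fin.cons true ε') ^ 4 + rad b (Fin.cons false ε') ^ 4) / 2)
        = fun ε' => (b 0 ^ 4 + 6 * b 0 ^ 2 * rad (fun j : Fin n => b j.succ) ε' ^ 2)
          + rad (fun j : Fin n => b j.succ) ε' ^ 4 := by
      funext ε'
      rw [rad_cons, rad_cons, sg_true, sg_false]; ring
    rw [h1, Ex_add, Ex_add, Ex_const, Ex_mul_left, h2]
    nlinarith [sq_nonneg (b 0 ^ 2)]

theorem poly_ineq (x : ℝ) (s : ℝ) (hs : 0 < s) : x ^ 2 / s - 4 / 27 * x ^ 4 / s ^ 3 ≤ |x| := by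
  have key : ∀ t : ℝ, 0 ≤ t → t ^ 2 - 4 / 27 * t ^ 4 ≤ t := by
    intro t ht
    have h1 : 0 ≤ 4 / 27 * ((t - 3 / 2) ^ 2 * (t + 3)) := by positivity
    nlinarith
  have h2 := key (|x| / s) (by positivity)
  have h3 : x ^ 2 / s - 4 / 27 * x ^ 4 / s ^ 3 = s * ((|x| / s) ^ 2 - 4 / 27 * (|x| / s) ^ 4) := by
    rw [div_pow, div_pow, sq_abs]
    have : |x| ^ 4 = x ^ 4 := by
      calc |x| ^ 4 = (|x| ^ 2) ^ 2 := by ring
        _ = (x ^ 2) ^ 2 := by rw [sq_abs]
        _ = x ^ 4 := by ring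
    rw [this]
    field_simp
  rw [h3]
  calc s * ((|x| / s) ^ 2 - 4 / 27 * (|x| / s) ^ 4) ≤ s * (|x| / s) := by gcongr
    _ = |x| := by field_simp

/-- Khintchine's inequality. -/
theorem khintchine {n : ℕ} (b : Fin n → ℝ) :
    √(∑ j, b j ^ 2) ≤ 9 / 5 * Ex (fun ε => |rad b ε|) := by
  have h0 : 0 ≤ ∑ j, b j ^ 2 := Finset.sum_nonneg fun j _ => sq_nonneg _
  rcases h0.eq_or_lt with h | h
  · rw [← h, Real.sqrt_zero]
    exact mul_nonneg (by norm_num) (Ex_nonneg fun ε => abs_nonneg _)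
  · set s := √(∑ j, b j ^ 2) with hs
    have hs0 : 0 < s := Real.sqrt_pos.2 h
    have hss : s ^ 2 = ∑ j, b j ^ 2 := Real.sq_sqrt h0
    have h1 : Ex (fun ε => rad b ε ^ 2 / s - 4 / 27 * rad b ε ^ 4 / s ^ 3) ≤ Ex (fun ε => |rad b ε|) :=
      Ex_mono fun ε => poly_ineq _ s hs0
    have h2 : Ex (fun ε => rad b ε ^ 2 / s - 4 / 27 * rad b ε ^ 4 / s ^ 3)
        = s⁻¹ * Ex (fun ε => rad b ε ^ 2) - 4 / 27 / s ^ 3 * Ex (fun ε => rad b ε ^ 4) := by
      rw [← Ex_mul_left, ← Ex_mul_left, ← Ex_sub]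
      congr 1
      funext ε
      ring
    rw [h2, Ex_rad_sq, ← hss] at h1
    have h3 := Ex_rad_four b
    rw [← hss] at h3
    have h4 : 4 / 27 / s ^ 3 * Ex (fun ε => rad b ε ^ 4) ≤ 4 / 27 / s ^ 3 * (3 * (s ^ 2) ^ 2) :=
      mul_le_mul_of_nonneg_left h3 (by positivity)
    have h5 : s⁻¹ * s ^ 2 - 4 / 27 / s ^ 3 * (3 * (s ^ 2) ^ 2) = 5 / 9 * s := by
      field_simp
      ring
    linarith

/-! ### The norm -/

variable {m : ℕ}

/-- `sup ∑_j |∑_i x_i b_ij|` over `x_i = ± 1`. -/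
def nn (b : Fin m → Fin m → ℝ) : ℝ := ⨆ x : Fin m → Bool, ∑ j, |∑ i, sg (x i) * b i j|

theorem le_nn (b : Fin m → Fin m → ℝ) (x : Fin m → Bool) :
    ∑ j, |∑ i, sg (x i) * b i j| ≤ nn b := le_sup' (fun x : Fin m → Bool => ∑ j, |∑ i, sg (x i) * b i j|) x

theorem nn_le {b : Fin m → Fin m → ℝ} {B : ℝ} (h : ∀ x : Fin m → Bool, ∑ j, |∑ i, sg (x i) * b i j| ≤ B) :
    nn b ≤ B := ciSup_le h

theorem nn_nonneg (b : Fin m → Fin m → ℝ) : 0 ≤ nn b :=
  (Finset.sum_nonneg fun _ _ => abs_nonneg _).trans (le_nn b fun _ => true)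

/-- signs -/
def sb (x : ℝ) : Bool := decide (0 ≤ x)

theorem sg_sb (x : ℝ) : sg (sb x) * x = |x| := by
  unfold sb sg
  by_cases h : 0 ≤ x
  · simp [h, abs_of_nonneg h]
  · simp [h, abs_of_neg (not_le.1 h)]

theorem sum_abs_le (v : Fin m → ℝ) (x : Fin m → Bool) : ∑ i, sg (x i) * v i ≤ ∑ i, |v i| :=
  Finset.sum_le_sum fun i _ => by
    calc sg (x i) * v i ≤ |sg (x i) * v i| := le_abs_self _
      _ = |v i| := by rw [abs_mul, abs_sg, one_mul]

theorem nn_transpose (b : Fin m → Fin m → ℝ) : nn (fun i j => b j i) ≤ nn b := by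
  refine nn_le fun x => ?_
  set y : Fin m → Bool := fun j => sb (∑ i, sg (x i) * b j i) with hy
  have h1 : ∑ j, |∑ i, sg (x i) * b j i| = ∑ i, sg (x i) * ∑ j, sg (y j) * b j i := by
    have e1 : ∀ j, |∑ i, sg (x i) * b j i| = ∑ i, sg (y j) * (sg (x i) * b j i) := by
      intro j
      rw [← sg_sb, ← Finset.mul_sum]
    simp_rw [e1]
    rw [Finset.sum_comm]
    refine Finset.sum_congr rfl fun i _ => ?_
    rw [Finset.mul_sum]
    exact Finset.sum_congr rfl fun j _ => by ring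
  rw [h1]
  exact (sum_abs_le _ x).trans (le_nn b y)

/-- Rows: `∑_i ‖b_i‖₂ ≤ 9/5 nn b`. -/
theorem rows_le (b : Fin m → Fin m → ℝ) : ∑ i, √(∑ j, b i j ^ 2) ≤ 9 / 5 * nn b := by
  calc ∑ i, √(∑ j, b i j ^ 2) ≤ ∑ i, 9 / 5 * Ex (fun ε => |rad (b i) ε|) :=
        Finset.sum_le_sum fun i _ => khintchine (b i)
    _ = 9 / 5 * Ex (fun ε : Fin m → Bool => ∑ i, |rad (b i) ε|) := by
        rw [← Finset.mul_sum, Ex_sum]
    _ ≤ 9 / 5 * Ex (fun _ : Fin m → Bool => nn b) := by
        refine mul_le_mul_of_nonneg_left (Ex_mono fun ε => ?_) (by norm_num)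
        exact (le_nn (fun i j => b j i) ε).trans (nn_transpose b)
    _ = 9 / 5 * nn b := by rw [Ex_const]

theorem cols_le (b : Fin m → Fin m → ℝ) : ∑ j, √(∑ i, b i j ^ 2) ≤ 9 / 5 * nn b :=
  (rows_le (fun i j => b j i)).trans (mul_le_mul_of_nonneg_left (nn_transpose b) (by norm_num))

/-! ### Random multipliers -/

variable {Ω : Type*} [Fintype Ω] [Nonempty Ω]

theorem Ex_rad_abs_le {n : ℕ} (b : Fin n → ℝ) : Ex (fun ε => |rad b ε|) ≤ √(∑ j, b j ^ 2) := by
  refine (Ex_le_sqrt _).trans (le_of_eq ?_)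
  rw [← Ex_rad_sq]
  congr 1
  congr 1
  funext ε
  exact sq_abs _

theorem Ex_sup_le {α X : Type*} [Fintype α] [Fintype X] [Nonempty X] (F : α → X → ℝ) :
    (⨆ x, Ex fun a => F a x) ≤ Ex fun a => ⨆ x, F a x :=
  ciSup_le fun x => Ex_mono fun a => le_sup' (F a) x

theorem random_columns (d : Ω → ℝ) (hd0 : ∀ w, 0 ≤ d w) (hd1 : Ex d = 1) {V : ℝ}
    (hV : Ex (fun w => d w ^ 2) ≤ V) (b : Fin m → Fin m → ℝ) :
    Ex (fun ω : Fin m → Ω => nn (fun i j => b i j * d (ω j)))
      ≤ nn b + √(2 * V) * ∑ i, √(∑ j, b i j ^ 2) := by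
  classical
  set u : Fin m → (Fin m → Bool) → ℝ := fun j x => ∑ i, sg (x i) * b i j with hu
  -- step 0: rewrite the norm
  have h0 : ∀ ω : Fin m → Ω, nn (fun i j => b i j * d (ω j))
      = ⨆ x : Fin m → Bool, ∑ j, d (ω j) * |u j x| := by
    intro ω
    unfold nn
    congr 1
    funext x
    refine Finset.sum_congr rfl fun j _ => ?_
    have : ∑ i, sg (x i) * (b i j * d (ω j)) = d (ω j) * ∑ i, sg (x i) * b i j := by
      rw [Finset.mul_sum]
      exact Finset.sum_congr rfl fun i _ => by ring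
    rw [this, abs_mul, abs_of_nonneg (hd0 _)]
  -- step 1
  have h1 : ∀ ω : Fin m → Ω, nn (fun i j => b i j * d (ω j))
      ≤ (⨆ x : Fin m → Bool, ∑ j, (d (ω j) - 1) * |u j x|) + nn b := by
    intro ω
    rw [h0]
    refine ciSup_le fun x => ?_
    have e1 : ∑ j, d (ω j) * |u j x| = ∑ j, (d (ω j) - 1) * |u j x| + ∑ j, |u j x| := by
      rw [← Finset.sum_add_distrib]
      exact Finset.sum_congr rfl fun j _ => by ring
    rw [e1]
    exact add_le_add (le_sup' (fun x : Fin m → Bool => ∑ j, (d (ω j) - 1) * |u j x|) x) (le_nn b x)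
  -- step 2
  have h2 : ∀ ω : Fin m → Ω, (⨆ x : Fin m → Bool, ∑ j, (d (ω j) - 1) * |u j x|)
      ≤ Ex fun ω' : Fin m → Ω => ⨆ x : Fin m → Bool, ∑ j, (d (ω j) - d (ω' j)) * |u j x| := by
    intro ω
    refine le_trans (le_of_eq ?_) (Ex_sup_le fun (ω' : Fin m → Ω) x => ∑ j, (d (ω j) - d (ω' j)) * |u j x|)
    congr 1
    funext x
    rw [Ex_sum]
    refine Finset.sum_congr rfl fun j _ => ?_
    rw [Ex_mul_right, Ex_sub, Ex_const, Ex_marginal j d, hd1]
  -- step 3
  have h3 : ∀ ε : Fin m → Bool, Ex (fun p : (Fin m → Ω) × (Fin m → Ω) =>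
      ⨆ x : Fin m → Bool, ∑ j, (d (p.1 j) - d (p.2 j)) * |u j x|)
      = Ex (fun p : (Fin m → Ω) × (Fin m → Ω) =>
      ⨆ x : Fin m → Bool, (0 + ∑ j, sg (ε j) * (d (p.1 j) - d (p.2 j)) * |u j x|)) := by
    intro ε
    rw [← Ex_equiv (swp (Ω := Ω) (fun j => ! ε j)) (fun p : (Fin m → Ω) × (Fin m → Ω) =>
      ⨆ x : Fin m → Bool, ∑ j, (d (p.1 j) - d (p.2 j)) * |u j x|)]
    congr 1
    funext p
    congr 1
    funext x
    rw [zero_add]
    refine Finset.sum_congr rfl fun j _ => ?_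
    congr 1
    cases h : ε j <;> simp [swp, h, sg]
  -- step 4: contraction
  have h4 : ∀ p : (Fin m → Ω) × (Fin m → Ω), Ex (fun ε : Fin m → Bool => ⨆ x : Fin m → Bool,
      (0 + ∑ j, sg (ε j) * (d (p.1 j) - d (p.2 j)) * |u j x|))
      ≤ ∑ i, √(∑ j, ((d (p.1 j) - d (p.2 j)) * b i j) ^ 2) := by
    intro p
    have c1 := contraction m (fun _ : Fin m → Bool => (0 : ℝ)) u (fun j => d (p.1 j) - d (p.2 j))
    have c2 : Ex (fun ε : Fin m → Bool => ⨆ x : Fin m → Bool,
        (0 + ∑ j, sg (ε j) * (d (p.1 j) - d (p.2 j)) * |u j x|))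
        ≤ Ex (fun ε : Fin m → Bool => ⨆ x : Fin m → Bool,
        (0 + ∑ j, sg (ε j) * (d (p.1 j) - d (p.2 j)) * u j x)) :=
      div_le_div_of_nonneg_right c1 (Nat.cast_nonneg _)
    refine c2.trans ?_
    have c3 : ∀ ε : Fin m → Bool, (⨆ x : Fin m → Bool,
        (0 + ∑ j, sg (ε j) * (d (p.1 j) - d (p.2 j)) * u j x))
        ≤ ∑ i, |rad (fun j => (d (p.1 j) - d (p.2 j)) * b i j) ε| := by
      intro ε
      refine ciSup_le fun x => ?_
      rw [zero_add]
      have e2 : ∑ j, sg (ε j) * (d (p.1 j) - d (p.2 j)) * u j x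
          = ∑ i, sg (x i) * rad (fun j => (d (p.1 j) - d (p.2 j)) * b i j) ε := by
        simp only [hu, rad, Finset.mul_sum]
        rw [Finset.sum_comm]
        exact Finset.sum_congr rfl fun i _ => Finset.sum_congr rfl fun j _ => by ring
      rw [e2]
      exact sum_abs_le _ x
    refine (Ex_mono c3).trans ?_
    rw [Ex_sum]
    exact Finset.sum_le_sum fun i _ => Ex_rad_abs_le _
  -- step 5: second moments
  have h5 : ∀ i, Ex (fun p : (Fin m → Ω) × (Fin m → Ω) => √(∑ j, ((d (p.1 j) - d (p.2 j)) * b i j) ^ 2))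
      ≤ √(2 * V) * √(∑ j, b i j ^ 2) := by
    intro i
    refine (Ex_le_sqrt _).trans ?_
    rw [← Real.sqrt_mul' _ (Finset.sum_nonneg fun j _ => sq_nonneg _)]
    apply Real.sqrt_le_sqrt
    have e3 : (fun p : (Fin m → Ω) × (Fin m → Ω) => √(∑ j, ((d (p.1 j) - d (p.2 j)) * b i j) ^ 2) ^ 2)
        = fun p => ∑ j, ((d (p.1 j) - d (p.2 j)) * b i j) ^ 2 := by
      funext p
      exact Real.sq_sqrt (Finset.sum_nonneg fun j _ => sq_nonneg _)
    rw [e3, Ex_sum, Finset.mul_sum]
    refine Finset.sum_le_sum fun j _ => ?_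
    rw [Ex_prod]
    have e4 : (fun a : Fin m → Ω => Ex fun a' : Fin m → Ω => ((d (a j) - d (a' j)) * b i j) ^ 2)
        = fun a => (d (a j) ^ 2 - 2 * d (a j) + Ex (fun w => d w ^ 2)) * b i j ^ 2 := by
      funext a
      have e5 : (fun a' : Fin m → Ω => ((d (a j) - d (a' j)) * b i j) ^ 2)
          = fun a' => ((d (a j) ^ 2 - 2 * d (a j) * d (a' j)) + d (a' j) ^ 2) * b i j ^ 2 := by
        funext a'; ring
      rw [e5, Ex_mul_right, Ex_add, Ex_sub, Ex_const, Ex_mul_left, Ex_marginal j d,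
        Ex_marginal j (fun w => d w ^ 2), hd1, mul_one]
    rw [e4, Ex_mul_right]
    refine mul_le_mul_of_nonneg_right ?_ (sq_nonneg _)
    rw [Ex_add, Ex_sub, Ex_const, Ex_mul_left, Ex_marginal j d, Ex_marginal j (fun w => d w ^ 2), hd1]
    linarith
  calc Ex (fun ω : Fin m → Ω => nn (fun i j => b i j * d (ω j)))
      ≤ Ex (fun ω : Fin m → Ω => (Ex fun ω' : Fin m → Ω =>
          ⨆ x : Fin m → Bool, ∑ j, (d (ω j) - d (ω' j)) * |u j x|) + nn b) :=
        Ex_mono fun ω => (h1 ω).trans (by have := h2 ω; linarith)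
    _ = Ex (fun p : (Fin m → Ω) × (Fin m → Ω) =>
          ⨆ x : Fin m → Bool, ∑ j, (d (p.1 j) - d (p.2 j)) * |u j x|) + nn b := by
        rw [Ex_add, Ex_const, Ex_prod]
    _ = Ex (fun ε : Fin m → Bool => Ex (fun p : (Fin m → Ω) × (Fin m → Ω) =>
          ⨆ x : Fin m → Bool, (0 + ∑ j, sg (ε j) * (d (p.1 j) - d (p.2 j)) * |u j x|))) + nn b := by
        congr 1
        rw [← Ex_const (α := Fin m → Bool) (Ex (fun p : (Fin m → Ω) × (Fin m → Ω) =>
          ⨆ x : Fin m → Bool, ∑ j, (d (p.1 j) - d (p.2 j)) * |u j x|))]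
        congr 1
        funext ε
        exact h3 ε
    _ = Ex (fun p : (Fin m → Ω) × (Fin m → Ω) => Ex (fun ε : Fin m → Bool =>
          ⨆ x : Fin m → Bool, (0 + ∑ j, sg (ε j) * (d (p.1 j) - d (p.2 j)) * |u j x|))) + nn b := by
        rw [Ex_comm]
    _ ≤ Ex (fun p : (Fin m → Ω) × (Fin m → Ω) =>
          ∑ i, √(∑ j, ((d (p.1 j) - d (p.2 j)) * b i j) ^ 2)) + nn b := by
        have := Ex_mono h4
        linarith
    _ ≤ nn b + √(2 * V) * ∑ i, √(∑ j, b i j ^ 2) := by
        rw [Ex_sum, Finset.mul_sum]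
        have := Finset.sum_le_sum fun i (_ : i ∈ (univ : Finset (Fin m))) => h5 i
        linarith

end Norm

section Form

open Finset

variable {m : ℕ}

/-- The form. -/
def Qf (a : Fin m → Fin m → ℂ) (z : Fin m → ℂ) : ℂ := ∑ i, ∑ j, a i j * (z i * (starRingEnd ℂ) (z j))

/-- Restriction to the rows in `S` and the columns outside `S`. -/
def res (a : Fin m → Fin m → ℂ) (S : Fin m → Bool) (i j : Fin m) : ℂ :=
  if S i = true ∧ S j = false then a i j else 0

/-- A cube root of unity. -/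
def ζ : ℂ := ⟨-(1 / 2), √3 / 2⟩

theorem zeta_eq : 1 + ζ + ζ ^ 2 = 0 := by
  have h3 : √3 * √3 = (3 : ℝ) := Real.mul_self_sqrt (by norm_num)
  apply Complex.ext
  · simp only [ζ, pow_two, Complex.add_re, Complex.one_re, Complex.mul_re, Complex.zero_re]
    linarith
  · simp only [ζ, pow_two, Complex.add_im, Complex.one_im, Complex.mul_im, Complex.zero_im]
    ring

theorem zeta_cube : ζ ^ 3 = 1 := by
  have h := zeta_eq
  linear_combination (ζ - 1) * h

theorem conj_zeta : (starRingEnd ℂ) ζ = ζ ^ 2 := by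
  have h3 : √3 * √3 = (3 : ℝ) := Real.mul_self_sqrt (by norm_num)
  apply Complex.ext
  · simp only [ζ, pow_two, Complex.conj_re, Complex.mul_re]
    linarith
  · simp only [ζ, pow_two, Complex.conj_im, Complex.mul_im]
    ring

theorem norm_zeta : ‖ζ‖ = 1 := by
  have h : ‖ζ‖ ^ 3 = 1 := by rw [← norm_pow, zeta_cube, norm_one]
  exact (pow_eq_one_iff_of_nonneg (norm_nonneg _) (by norm_num)).1 h

theorem extraction {a : Fin m → Fin m → ℂ} {B : ℝ}
    (hA : ∀ z : Fin m → ℂ, (∀ i, ‖z i‖ = 1) → ‖Qf a z‖ ≤ B) (S : Fin m → Bool) (z : Fin m → ℂ)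
    (hz : ∀ i, ‖z i‖ = 1) : ‖Qf (res a S) z‖ ≤ B := by
  set z1 : Fin m → ℂ := fun i => if S i then ζ * z i else z i with hz1
  set z2 : Fin m → ℂ := fun i => if S i then ζ ^ 2 * z i else z i with hz2
  have h1 : ∀ i, ‖z1 i‖ = 1 := by
    intro i
    simp only [hz1]
    split_ifs
    · rw [norm_mul, norm_zeta, hz, one_mul]
    · exact hz i
  have h2 : ∀ i, ‖z2 i‖ = 1 := by
    intro i
    simp only [hz2]
    split_ifs
    · rw [norm_mul, norm_pow, norm_zeta, hz]; norm_num
    · exact hz i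
  have key : 3 * Qf (res a S) z = Qf a z + ζ ^ 2 * Qf a z1 + ζ * Qf a z2 := by
    unfold Qf
    rw [Finset.mul_sum, Finset.mul_sum, Finset.mul_sum, ← Finset.sum_add_distrib,
      ← Finset.sum_add_distrib]
    refine Finset.sum_congr rfl fun i _ => ?_
    rw [Finset.mul_sum, Finset.mul_sum, Finset.mul_sum, ← Finset.sum_add_distrib,
      ← Finset.sum_add_distrib]
    refine Finset.sum_congr rfl fun j _ => ?_
    have e3 := zeta_cube
    have e1 := zeta_eq
    simp only [res, hz1, hz2]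
    rcases hi : S i with _ | _ <;> rcases hj : S j with _ | _
    · simp only [Bool.false_eq_true, false_and, if_false, zero_mul, mul_zero]
      linear_combination (-(a i j * (z i * (starRingEnd ℂ) (z j)))) * e1
    · simp only [Bool.false_eq_true, false_and, if_false, zero_mul, mul_zero, if_true, map_mul,
        map_pow, conj_zeta]
      linear_combination (-(a i j * (z i * (starRingEnd ℂ) (z j)))) * e1
        + (-(a i j * (z i * (starRingEnd ℂ) (z j)))) * ((ζ + ζ ^ 2) * e3)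
    · simp only [Bool.false_eq_true, and_self, if_true, if_false]
      linear_combination (-(2 * a i j * (z i * (starRingEnd ℂ) (z j)))) * e3
    · simp only [Bool.true_eq_false, and_false, if_true, if_false, zero_mul, mul_zero, map_mul,
        map_pow, conj_zeta]
      linear_combination (-(a i j * (z i * (starRingEnd ℂ) (z j)))) * e1
        + (-(a i j * (z i * (starRingEnd ℂ) (z j)))) * ((ζ ^ 2 + ζ ^ 4 + ζ) * e3)
  have h3 : ‖3 * Qf (res a S) z‖ ≤ 3 * B := by
    rw [key]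
    have n1 := hA z hz
    have n2 := hA z1 h1
    have n3 := hA z2 h2
    have m2 : ‖ζ ^ 2 * Qf a z1‖ ≤ B := by
      rw [norm_mul, norm_pow, norm_zeta, one_pow, one_mul]; exact n2
    have m3 : ‖ζ * Qf a z2‖ ≤ B := by
      rw [norm_mul, norm_zeta, one_mul]; exact n3
    calc ‖Qf a z + ζ ^ 2 * Qf a z1 + ζ * Qf a z2‖
        ≤ ‖Qf a z + ζ ^ 2 * Qf a z1‖ + ‖ζ * Qf a z2‖ := norm_add_le _ _
      _ ≤ ‖Qf a z‖ + ‖ζ ^ 2 * Qf a z1‖ + ‖ζ * Qf a z2‖ := by
          have := norm_add_le (Qf a z) (ζ ^ 2 * Qf a z1)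
          linarith
      _ ≤ 3 * B := by linarith
  rw [norm_mul, Complex.norm_ofNat] at h3
  linarith

/-- The entries are bounded. -/
theorem row_bound {a : Fin m → Fin m → ℂ} (ha0 : ∀ i, a i i = 0) {B : ℝ}
    (hA : ∀ z : Fin m → ℂ, (∀ i, ‖z i‖ = 1) → ‖Qf a z‖ ≤ B) (i : Fin m) : ∑ j, ‖a i j‖ ≤ B := by
  set S : Fin m → Bool := fun k => decide (k = i) with hS
  set z : Fin m → ℂ := fun j => if a i j = 0 ∨ j = i then 1 else a i j / ‖a i j‖ with hz
  have hz1 : ∀ j, ‖z j‖ = 1 := by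
    intro j
    simp only [hz]
    split_ifs with h
    · exact norm_one
    · rw [not_or] at h
      rw [norm_div, Complex.norm_real, norm_norm]
      exact div_self (norm_ne_zero_iff.2 h.1)
  have h1 := extraction hA S z hz1
  have h2 : Qf (res a S) z = ((∑ j, ‖a i j‖ : ℝ) : ℂ) := by
    unfold Qf
    rw [Finset.sum_eq_single i]
    · push_cast
      refine Finset.sum_congr rfl fun j _ => ?_
      by_cases hj : j = i
      · subst hj
        simp only [res, hS, decide_true, Bool.true_eq_false, and_false, if_false, zero_mul, ha0,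
          norm_zero, Complex.ofReal_zero]
      · have hSj : S j = false := by simp [hS, hj]
        have hSi : S i = true := by simp [hS]
        have hzi : z i = 1 := by simp [hz]
        rw [res, if_pos ⟨hSi, hSj⟩, hzi, one_mul]
        by_cases h0 : a i j = 0
        · rw [h0, zero_mul, norm_zero, Complex.ofReal_zero]
        · have hzj : z j = a i j / ‖a i j‖ := by simp [hz, h0, hj]
          have hn : ((‖a i j‖ : ℝ) : ℂ) ≠ 0 := by
            exact_mod_cast norm_ne_zero_iff.2 h0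
          rw [hzj, map_div₀, Complex.conj_ofReal, mul_div_assoc', Complex.mul_conj,
            Complex.normSq_eq_norm_sq]
          push_cast
          field_simp
    · intro k _ hki
      refine Finset.sum_eq_zero fun j _ => ?_
      have hSk : S k = false := by simp [hS, hki]
      rw [res, if_neg, zero_mul]
      rw [hSk]
      simp
    · intro h; exact absurd (Finset.mem_univ i) h
  rw [h2, Complex.norm_real, Real.norm_eq_abs, abs_of_nonneg (Finset.sum_nonneg fun _ _ => norm_nonneg _)] at h1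
  exact h1

theorem entry_bound {a : Fin m → Fin m → ℂ} (ha0 : ∀ i, a i i = 0) {B : ℝ}
    (hA : ∀ z : Fin m → ℂ, (∀ i, ‖z i‖ = 1) → ‖Qf a z‖ ≤ B) (i j : Fin m) : ‖a i j‖ ≤ B :=
  (Finset.single_le_sum (f := fun j => ‖a i j‖) (fun j _ => norm_nonneg _) (Finset.mem_univ j)).trans
    (row_bound ha0 hA i)

/-! ### Upper bounds by the real norm -/

theorem real_cube {b : Fin m → Fin m → ℝ} {t : Fin m → ℝ} (ht : ∀ i, |t i| ≤ 1) :
    ∑ j, |∑ i, t i * b i j| ≤ nn b := by
  set y : Fin m → Bool := fun j => sb (∑ i, t i * b i j) with hy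
  have h1 : ∑ j, |∑ i, t i * b i j| = ∑ i, t i * ∑ j, sg (y j) * b i j := by
    have e1 : ∀ j, |∑ i, t i * b i j| = ∑ i, sg (y j) * (t i * b i j) := by
      intro j
      rw [← sg_sb, ← Finset.mul_sum]
    simp_rw [e1]
    rw [Finset.sum_comm]
    refine Finset.sum_congr rfl fun i _ => ?_
    rw [Finset.mul_sum]
    exact Finset.sum_congr rfl fun j _ => by ring
  rw [h1]
  calc ∑ i, t i * ∑ j, sg (y j) * b i j ≤ ∑ i, |∑ j, sg (y j) * b i j| := by
        refine Finset.sum_le_sum fun i _ => ?_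
        calc t i * ∑ j, sg (y j) * b i j ≤ |t i * ∑ j, sg (y j) * b i j| := le_abs_self _
          _ = |t i| * |∑ j, sg (y j) * b i j| := abs_mul _ _
          _ ≤ 1 * |∑ j, sg (y j) * b i j| := mul_le_mul_of_nonneg_right (ht i) (abs_nonneg _)
          _ = _ := one_mul _
    _ ≤ nn (fun i j => b j i) := le_nn (fun i j => b j i) y
    _ ≤ nn b := nn_transpose b

theorem complex_bound (b : Fin m → Fin m → ℝ) (z w : Fin m → ℂ) (hz : ∀ i, ‖z i‖ ≤ 1)
    (hw : ∀ i, ‖w i‖ ≤ 1) : ‖∑ i, ∑ j, (b i j : ℂ) * (z i * w j)‖ ≤ 2 * nn b := by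
  have h1 : ∑ i, ∑ j, (b i j : ℂ) * (z i * w j) = ∑ j, (∑ i, (b i j : ℂ) * z i) * w j := by
    rw [Finset.sum_comm]
    refine Finset.sum_congr rfl fun j _ => ?_
    rw [Finset.sum_mul]
    exact Finset.sum_congr rfl fun i _ => by ring
  rw [h1]
  have h2 : ∀ j, ‖(∑ i, (b i j : ℂ) * z i) * w j‖
      ≤ |∑ i, (z i).re * b i j| + |∑ i, (z i).im * b i j| := by
    intro j
    rw [norm_mul]
    have e1 : ‖∑ i, (b i j : ℂ) * z i‖ ≤ |(∑ i, (b i j : ℂ) * z i).re| + |(∑ i, (b i j : ℂ) * z i).im| :=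
      Complex.norm_le_abs_re_add_abs_im _
    have e2 : (∑ i, (b i j : ℂ) * z i).re = ∑ i, (z i).re * b i j := by
      rw [Complex.re_sum]
      exact Finset.sum_congr rfl fun i _ => by rw [Complex.re_ofReal_mul, mul_comm]
    have e3 : (∑ i, (b i j : ℂ) * z i).im = ∑ i, (z i).im * b i j := by
      rw [Complex.im_sum]
      exact Finset.sum_congr rfl fun i _ => by rw [Complex.im_ofReal_mul, mul_comm]
    rw [e2, e3] at e1
    calc ‖∑ i, (b i j : ℂ) * z i‖ * ‖w j‖ ≤ ‖∑ i, (b i j : ℂ) * z i‖ * 1 :=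
          mul_le_mul_of_nonneg_left (hw j) (norm_nonneg _)
      _ = ‖∑ i, (b i j : ℂ) * z i‖ := mul_one _
      _ ≤ _ := e1
  refine (norm_sum_le _ _).trans ((Finset.sum_le_sum fun j _ => h2 j).trans ?_)
  rw [Finset.sum_add_distrib]
  have h3 := real_cube (b := b) (t := fun i => (z i).re)
    (fun i => (Complex.abs_re_le_norm _).trans (hz i))
  have h4 := real_cube (b := b) (t := fun i => (z i).im)
    (fun i => (Complex.abs_im_le_norm _).trans (hz i))
  linarith

theorem form_le (a : Fin m → Fin m → ℂ) (z w : Fin m → ℂ) (hz : ∀ i, ‖z i‖ ≤ 1)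
    (hw : ∀ i, ‖w i‖ ≤ 1) : ‖∑ i, ∑ j, a i j * (z i * w j)‖
      ≤ 2 * nn (fun i j => (a i j).re) + 2 * nn (fun i j => (a i j).im) := by
  have h1 : ∑ i, ∑ j, a i j * (z i * w j) = (∑ i, ∑ j, ((a i j).re : ℂ) * (z i * w j))
      + Complex.I * ∑ i, ∑ j, ((a i j).im : ℂ) * (z i * w j) := by
    rw [Finset.mul_sum, ← Finset.sum_add_distrib]
    refine Finset.sum_congr rfl fun i _ => ?_
    rw [Finset.mul_sum, ← Finset.sum_add_distrib]
    refine Finset.sum_congr rfl fun j _ => ?_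
    conv_lhs => rw [← Complex.re_add_im (a i j)]
    ring
  rw [h1]
  refine (norm_add_le _ _).trans ?_
  rw [norm_mul, Complex.norm_I, one_mul]
  exact add_le_add (complex_bound _ z w hz hw) (complex_bound _ z w hz hw)

/-- The real and the imaginary part of a restriction. -/
theorem nn_part_le {a : Fin m → Fin m → ℂ} {B : ℝ}
    (hA : ∀ z : Fin m → ℂ, (∀ i, ‖z i‖ = 1) → ‖Qf a z‖ ≤ B) (S : Fin m → Bool)
    (c : ℂ) (hc : ‖c‖ = 1) : nn (fun i j => (c * res a S i j).re) ≤ B := by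
  refine nn_le fun x => ?_
  set y : Fin m → Bool := fun j => sb (∑ i, sg (x i) * (c * res a S i j).re) with hy
  set z : Fin m → ℂ := fun i => ((if S i then sg (x i) else sg (y i) : ℝ) : ℂ) with hz
  have hz1 : ∀ i, ‖z i‖ = 1 := by
    intro i
    simp only [hz]
    rw [Complex.norm_real, Real.norm_eq_abs]
    split_ifs <;> exact abs_sg _
  have h1 := extraction hA S z hz1
  have h2 : (c * Qf (res a S) z).re = ∑ j, |∑ i, sg (x i) * (c * res a S i j).re| := by
    have e1 : ∀ j, |∑ i, sg (x i) * (c * res a S i j).re|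
        = ∑ i, sg (y j) * (sg (x i) * (c * res a S i j).re) := by
      intro j
      rw [← sg_sb, ← Finset.mul_sum]
    simp_rw [e1]
    unfold Qf
    rw [Finset.mul_sum, Complex.re_sum, Finset.sum_comm]
    refine Finset.sum_congr rfl fun i _ => ?_
    rw [Finset.mul_sum, Complex.re_sum]
    refine Finset.sum_congr rfl fun j _ => ?_
    by_cases h : S i = true ∧ S j = false
    · have hzi : z i = ((sg (x i) : ℝ) : ℂ) := by simp only [hz, h.1, if_true]
      have hzj : z j = ((sg (y j) : ℝ) : ℂ) := by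
        simp only [hz, h.2, Bool.false_eq_true, if_false]
      rw [hzi, hzj, Complex.conj_ofReal]
      have e2 : c * (res a S i j * (((sg (x i) : ℝ) : ℂ) * ((sg (y j) : ℝ) : ℂ)))
          = ((sg (y j) * sg (x i) : ℝ) : ℂ) * (c * res a S i j) := by push_cast; ring
      rw [e2, Complex.re_ofReal_mul]
      ring
    · rw [res, if_neg h]
      simp
  rw [← h2]
  calc (c * Qf (res a S) z).re ≤ ‖c * Qf (res a S) z‖ := Complex.re_le_norm _
    _ = ‖Qf (res a S) z‖ := by rw [norm_mul, hc, one_mul]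
    _ ≤ B := h1

end Form

section Rand

open Finset

variable {m : ℕ} {Ω : Type*} [Fintype Ω] [Nonempty Ω]

theorem rr (d : Ω → ℝ) (hd0 : ∀ w, 0 ≤ d w) (hd1 : Ex d = 1) {V : ℝ}
    (hV : Ex (fun w => d w ^ 2) ≤ V) (b : Fin m → Fin m → ℝ) :
    Ex (fun ω : Fin m → Ω => Ex fun ω' : Fin m → Ω => nn (fun i j => d (ω i) * b i j * d (ω' j)))
      ≤ (1 + 18 / 5 * √(2 * V)) * nn b := by
  have hs : 0 ≤ √(2 * V) := Real.sqrt_nonneg _
  have h1 : ∀ ω : Fin m → Ω, Ex (fun ω' : Fin m → Ω => nn (fun i j => d (ω i) * b i j * d (ω' j)))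
      ≤ nn (fun i j => d (ω i) * b i j) + √(2 * V) * ∑ i, d (ω i) * √(∑ j, b i j ^ 2) := by
    intro ω
    refine (random_columns d hd0 hd1 hV (fun i j => d (ω i) * b i j)).trans (le_of_eq ?_)
    congr 2
    refine Finset.sum_congr rfl fun i _ => ?_
    have : ∑ j, (d (ω i) * b i j) ^ 2 = d (ω i) ^ 2 * ∑ j, b i j ^ 2 := by
      rw [Finset.mul_sum]
      exact Finset.sum_congr rfl fun j _ => by ring
    rw [this, Real.sqrt_mul (sq_nonneg _), Real.sqrt_sq (hd0 _)]
  refine (Ex_mono h1).trans ?_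
  rw [Ex_add, Ex_mul_left, Ex_sum]
  have h2 : ∑ i, Ex (fun ω : Fin m → Ω => d (ω i) * √(∑ j, b i j ^ 2)) = ∑ i, √(∑ j, b i j ^ 2) := by
    refine Finset.sum_congr rfl fun i _ => ?_
    rw [Ex_mul_right, Ex_marginal i d, hd1, one_mul]
  rw [h2]
  have h3 : Ex (fun ω : Fin m → Ω => nn (fun i j => d (ω i) * b i j))
      ≤ nn b + √(2 * V) * ∑ j, √(∑ i, b i j ^ 2) := by
    have h4 := random_columns d hd0 hd1 hV (fun i j => b j i)
    have h5 : ∀ ω : Fin m → Ω, nn (fun i j => d (ω i) * b i j) ≤ nn (fun i j => b j i * d (ω j)) := by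
      intro ω
      have := nn_transpose (fun i j => b j i * d (ω j))
      refine le_trans (le_of_eq ?_) this
      congr 1
      funext i j
      ring
    refine (Ex_mono h5).trans (h4.trans ?_)
    have := nn_transpose b
    linarith
  have h6 := rows_le b
  have h7 := cols_le b
  have h8 : √(2 * V) * ∑ j, √(∑ i, b i j ^ 2) ≤ √(2 * V) * (9 / 5 * nn b) :=
    mul_le_mul_of_nonneg_left h7 hs
  have h9 : √(2 * V) * ∑ i, √(∑ j, b i j ^ 2) ≤ √(2 * V) * (9 / 5 * nn b) :=
    mul_le_mul_of_nonneg_left h6 hs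
  nlinarith

/-- Decoupling for matrices supported on `S × Sᶜ`. -/
theorem rr_diag (d : Ω → ℝ) (hd0 : ∀ w, 0 ≤ d w) (hd1 : Ex d = 1) {V : ℝ}
    (hV : Ex (fun w => d w ^ 2) ≤ V) (b : Fin m → Fin m → ℝ) (S : Fin m → Bool)
    (hb : ∀ i j, ¬ (S i = true ∧ S j = false) → b i j = 0) :
    Ex (fun ω : Fin m → Ω => nn (fun i j => d (ω i) * b i j * d (ω j)))
      ≤ (1 + 18 / 5 * √(2 * V)) * nn b := by
  refine le_trans (le_of_eq ?_) (rr d hd0 hd1 hV b)
  have h1 : Ex (fun ω : Fin m → Ω => nn (fun i j => d (ω i) * b i j * d (ω j)))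
      = Ex (fun p : (Fin m → Ω) × (Fin m → Ω) => nn (fun i j => d (p.1 i) * b i j * d (p.1 j))) := by
    rw [Ex_prod]
    congr 1
    funext ω
    exact (Ex_const (α := Fin m → Ω) (nn (fun i j => d (ω i) * b i j * d (ω j)))).symm
  rw [h1, ← Ex_equiv (swp (Ω := Ω) (fun j => ! S j)), Ex_prod]
  congr 1
  funext ω
  congr 1
  funext ω'
  congr 1
  funext i j
  by_cases h : S i = true ∧ S j = false
  · have e1 : (swp (Ω := Ω) (fun j => ! S j) (ω, ω')).1 i = ω i := by simp [swp, h.1]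
    have e2 : (swp (Ω := Ω) (fun j => ! S j) (ω, ω')).1 j = ω' j := by simp [swp, h.2]
    rw [e1, e2]
  · rw [hb i j h]; ring

/-- Flipping one coordinate. -/
def flp (i : Fin m) : (Fin m → Bool) ≃ (Fin m → Bool) where
  toFun S := fun k => if k = i then ! S k else S k
  invFun S := fun k => if k = i then ! S k else S k
  left_inv S := by funext k; by_cases h : k = i <;> simp [h]
  right_inv S := by funext k; by_cases h : k = i <;> simp [h]

theorem quarter {i j : Fin m} (h : i ≠ j) :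
    Ex (fun S : Fin m → Bool => if S i = true ∧ S j = false then (1 : ℝ) else 0) = 1 / 4 := by
  set A := Ex (fun S : Fin m → Bool => if S i = true ∧ S j = false then (1 : ℝ) else 0) with hA
  have h1 : Ex (fun S : Fin m → Bool => if S i = false ∧ S j = false then (1 : ℝ) else 0) = A := by
    rw [hA, ← Ex_equiv (flp i) (fun S : Fin m → Bool => if S i = true ∧ S j = false then (1 : ℝ) else 0)]
    congr 1
    funext S
    have e1 : flp i S i = ! S i := by simp [flp]
    have e2 : flp i S j = S j := by simp [flp, h.symm]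
    rw [e1, e2]
    cases S i <;> simp
  have h2 : Ex (fun S : Fin m → Bool => if S i = true ∧ S j = true then (1 : ℝ) else 0) = A := by
    rw [hA, ← Ex_equiv (flp j) (fun S : Fin m → Bool => if S i = true ∧ S j = false then (1 : ℝ) else 0)]
    congr 1
    funext S
    have e1 : flp j S i = S i := by simp [flp, h]
    have e2 : flp j S j = ! S j := by simp [flp]
    rw [e1, e2]
    cases S j <;> simp
  have h3 : Ex (fun S : Fin m → Bool => if S i = false ∧ S j = true then (1 : ℝ) else 0)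
      = Ex (fun S : Fin m → Bool => if S i = true ∧ S j = true then (1 : ℝ) else 0) := by
    rw [← Ex_equiv (flp i) (fun S : Fin m → Bool => if S i = true ∧ S j = true then (1 : ℝ) else 0)]
    congr 1
    funext S
    have e1 : flp i S i = ! S i := by simp [flp]
    have e2 : flp i S j = S j := by simp [flp, h.symm]
    rw [e1, e2]
    cases S i <;> simp
  have h4 : (1 : ℝ) = Ex (fun S : Fin m → Bool => ((((if S i = true ∧ S j = false then (1 : ℝ) else 0)
      + (if S i = false ∧ S j = false then (1 : ℝ) else 0))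
      + (if S i = true ∧ S j = true then (1 : ℝ) else 0))
      + (if S i = false ∧ S j = true then (1 : ℝ) else 0))) := by
    refine (Ex_const (α := Fin m → Bool) (1 : ℝ)).symm.trans ?_
    congr 1
    funext S
    cases S i <;> cases S j <;> simp
  rw [Ex_add, Ex_add, Ex_add, h1, h3, h2, ← hA] at h4
  linarith

theorem decouple (a : Fin m → Fin m → ℂ) (ha0 : ∀ i, a i i = 0) (z : Fin m → ℂ) :
    ‖Qf a z‖ ≤ 4 * Ex (fun S : Fin m → Bool => ‖Qf (res a S) z‖) := by
  have hc : (0 : ℝ) < Fintype.card (Fin m → Bool) := by exact_mod_cast Fintype.card_pos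
  have h1 : ∑ S : Fin m → Bool, Qf (res a S) z
      = ((Fintype.card (Fin m → Bool) / 4 : ℝ) : ℂ) * Qf a z := by
    unfold Qf
    rw [Finset.sum_comm, Finset.mul_sum]
    refine Finset.sum_congr rfl fun i _ => ?_
    rw [Finset.sum_comm, Finset.mul_sum]
    refine Finset.sum_congr rfl fun j _ => ?_
    by_cases hij : i = j
    · subst hij
      have : ∀ S : Fin m → Bool, res a S i i = 0 := by
        intro S; unfold res; split_ifs
        · exact ha0 i
        · rfl
      simp only [this, ha0, zero_mul, mul_zero, Finset.sum_const_zero]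
    · have h2 := quarter hij
      unfold Ex at h2
      rw [div_eq_iff hc.ne'] at h2
      have h3 : ∑ S : Fin m → Bool, res a S i j
          = ((∑ S : Fin m → Bool, (if S i = true ∧ S j = false then (1 : ℝ) else 0) : ℝ) : ℂ) * a i j := by
        rw [Complex.ofReal_sum, Finset.sum_mul]
        refine Finset.sum_congr rfl fun S _ => ?_
        unfold res
        split_ifs <;> simp
      rw [← Finset.sum_mul, h3, h2]
      push_cast
      ring
  have h4 : ‖((Fintype.card (Fin m → Bool) / 4 : ℝ) : ℂ) * Qf a z‖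
      ≤ ∑ S : Fin m → Bool, ‖Qf (res a S) z‖ := by
    rw [← h1]; exact norm_sum_le _ _
  rw [norm_mul, Complex.norm_real, Real.norm_eq_abs, abs_of_pos (by positivity)] at h4
  unfold Ex
  rw [← mul_div_assoc, le_div_iff₀ hc]
  linarith

end Rand

section LacForm

open Finset

variable {m : ℕ}

theorem nn_mul_le (b : Fin m → Fin m → ℝ) {u v : Fin m → ℝ} {s t : ℝ} (hs : 0 ≤ s) (ht : 0 ≤ t)
    (hu : ∀ i, |u i| ≤ s) (hv : ∀ j, |v j| ≤ t) : nn (fun i j => u i * b i j * v j) ≤ s * t * nn b := by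
  refine nn_le fun x => ?_
  have h1 : ∀ j, |∑ i, sg (x i) * (u i * b i j * v j)| ≤ t * |∑ i, (sg (x i) * u i) * b i j| := by
    intro j
    have e1 : ∑ i, sg (x i) * (u i * b i j * v j) = v j * ∑ i, (sg (x i) * u i) * b i j := by
      rw [Finset.mul_sum]
      exact Finset.sum_congr rfl fun i _ => by ring
    rw [e1, abs_mul]
    exact mul_le_mul_of_nonneg_right (hv j) (abs_nonneg _)
  refine (Finset.sum_le_sum fun j _ => h1 j).trans ?_
  rw [← Finset.mul_sum]
  rcases hs.eq_or_lt with h0 | hpos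
  · have h2 : ∀ i, u i = 0 := fun i => by
      have := hu i
      rw [← h0] at this
      exact abs_eq_zero.1 (le_antisymm this (abs_nonneg _))
    have h3 : ∑ j, |∑ i, (sg (x i) * u i) * b i j| = 0 := by
      refine Finset.sum_eq_zero fun j _ => ?_
      rw [Finset.sum_eq_zero fun i _ => by rw [h2]; ring, abs_zero]
    rw [h3, ← h0]
    simp
  · have h2 := real_cube (b := b) (t := fun i => sg (x i) * u i / s) (fun i => by
      rw [abs_div, abs_mul, abs_sg, one_mul, abs_of_pos hpos]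
      exact (div_le_one hpos).2 (hu i))
    have h3 : ∑ j, |∑ i, (sg (x i) * u i) * b i j| = s * ∑ j, |∑ i, sg (x i) * u i / s * b i j| := by
      rw [Finset.mul_sum]
      refine Finset.sum_congr rfl fun j _ => ?_
      rw [← abs_of_pos hpos, ← abs_mul, abs_of_pos hpos, Finset.mul_sum]
      congr 1
      refine Finset.sum_congr rfl fun i _ => ?_
      field_simp
    rw [h3]
    calc t * (s * ∑ j, |∑ i, sg (x i) * u i / s * b i j|) ≤ t * (s * nn b) := by gcongr
      _ = _ := by ring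

theorem nn_add (b c : Fin m → Fin m → ℝ) : nn (fun i j => b i j + c i j) ≤ nn b + nn c := by
  refine nn_le fun x => ?_
  refine le_trans ?_ (add_le_add (le_nn b x) (le_nn c x))
  rw [← Finset.sum_add_distrib]
  refine Finset.sum_le_sum fun j _ => ?_
  have h1 : ∑ i, sg (x i) * (b i j + c i j) = (∑ i, sg (x i) * b i j) + ∑ i, sg (x i) * c i j := by
    rw [← Finset.sum_add_distrib]
    exact Finset.sum_congr rfl fun i _ => by ring
  rw [h1]
  exact abs_add_le _ _

theorem nn_restrict (b : Fin m → Fin m → ℝ) (p q : Fin m → Prop) [DecidablePred p] [DecidablePred q] :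
    nn (fun i j => if p i ∧ q j then b i j else 0) ≤ nn b := by
  have h1 := nn_mul_le b (u := fun i => if p i then 1 else 0) (v := fun j => if q j then 1 else 0)
    (s := 1) (t := 1) zero_le_one zero_le_one (fun i => by split_ifs <;> simp)
    (fun j => by split_ifs <;> simp)
  rw [one_mul, one_mul] at h1
  refine le_trans (le_of_eq ?_) h1
  congr 1
  funext i j
  by_cases hp : p i <;> by_cases hq : q j <;> simp [hp, hq]

/-! ### Coins -/

theorem half {n : ℕ} (p : Fin n) (v : Bool) (G : (Fin n → Bool) → ℝ)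
    (hG : ∀ S, G (flp p S) = G S) :
    Ex (fun S : Fin n → Bool => if S p = v then G S else 0) = Ex G / 2 := by
  have h1 : Ex (fun S : Fin n → Bool => if S p = v then G S else 0)
      = Ex (fun S : Fin n → Bool => if S p = v then 0 else G S) := by
    rw [← Ex_equiv (flp p) (fun S : Fin n → Bool => if S p = v then G S else 0)]
    congr 1
    funext S
    rw [hG]
    have h2 : (flp p S) p = ! S p := by simp [flp]
    rw [h2]
    cases S p <;> cases v <;> simp
  have h3 : Ex (fun S : Fin n → Bool => if S p = v then G S else 0)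
      + Ex (fun S : Fin n → Bool => if S p = v then 0 else G S) = Ex G := by
    rw [← Ex_add]
    congr 1
    funext S
    split_ifs <;> ring
  linarith

theorem flp_ne {n : ℕ} {p q : Fin n} (h : q ≠ p) (S : Fin n → Bool) : (flp p S) q = S q := by
  simp [flp, h]

theorem sixteenth {n : ℕ} {p q0 q1 q2 : Fin n} (h0 : p ≠ q0) (h1 : p ≠ q1) (h2 : p ≠ q2)
    (h3 : q0 ≠ q1) (h4 : q0 ≠ q2) (h5 : q1 ≠ q2) :
    Ex (fun S : Fin n → Bool => if S p = true then (if S q0 = false then (if S q1 = false then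
      (if S q2 = false then (1 : ℝ) else 0) else 0) else 0) else 0) = 1 / 16 := by
  rw [half p true _ fun S => by rw [flp_ne h0.symm, flp_ne h1.symm, flp_ne h2.symm],
    half q0 false _ fun S => by rw [flp_ne h3.symm, flp_ne h4.symm],
    half q1 false _ fun S => by rw [flp_ne h5.symm], half q2 false _ fun S => rfl, Ex_const]
  norm_num

/-- The value of a coin. -/
def cn {n : ℕ} (S : Fin n → Bool) (k : ℕ) : Bool := if h : k < n then S ⟨k, h⟩ else false

/-- Rows and columns selected by the coins. -/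
def rc (L : ℕ) (a : Fin m → Fin m → ℂ) (S : Fin (m + 3) → Bool) (i j : Fin m) : ℂ :=
  if cn S ((i : ℕ) / L + 1) = true ∧ (cn S ((j : ℕ) / L) = false ∧ cn S ((j : ℕ) / L + 1) = false ∧
    cn S ((j : ℕ) / L + 2) = false) then a i j else 0

/-- The far part. -/
def far (L : ℕ) (a : Fin m → Fin m → ℂ) (i j : Fin m) : ℂ :=
  if (i : ℕ) / L + 1 < (j : ℕ) / L ∨ (j : ℕ) / L + 1 < (i : ℕ) / L then a i j else 0

theorem Ex_rc_weight (L : ℕ) (i j : Fin m) :
    Ex (fun S : Fin (m + 3) → Bool => if cn S ((i : ℕ) / L + 1) = true ∧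
      (cn S ((j : ℕ) / L) = false ∧ cn S ((j : ℕ) / L + 1) = false ∧
      cn S ((j : ℕ) / L + 2) = false) then (1 : ℝ) else 0)
    = if (i : ℕ) / L + 1 < (j : ℕ) / L ∨ (j : ℕ) / L + 1 < (i : ℕ) / L then 1 / 16 else 0 := by
  have hi : (i : ℕ) / L < m := lt_of_le_of_lt (Nat.div_le_self _ _) i.2
  have hj : (j : ℕ) / L < m := lt_of_le_of_lt (Nat.div_le_self _ _) j.2
  set c := (i : ℕ) / L
  set d := (j : ℕ) / L
  by_cases h : c + 1 < d ∨ d + 1 < c
  · rw [if_pos h]
    have k1 : c + 1 < m + 3 := by omega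
    have k2 : d < m + 3 := by omega
    have k3 : d + 1 < m + 3 := by omega
    have k4 : d + 2 < m + 3 := by omega
    rw [← sixteenth (n := m + 3) (p := ⟨c + 1, k1⟩) (q0 := ⟨d, k2⟩) (q1 := ⟨d + 1, k3⟩)
      (q2 := ⟨d + 2, k4⟩) (by simp only [ne_eq, Fin.mk.injEq]; omega)
      (by simp only [ne_eq, Fin.mk.injEq]; omega) (by simp only [ne_eq, Fin.mk.injEq]; omega)
      (by simp only [ne_eq, Fin.mk.injEq]; omega) (by simp only [ne_eq, Fin.mk.injEq]; omega)
      (by simp only [ne_eq, Fin.mk.injEq]; omega)]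
    congr 1
    funext S
    have e1 : cn S (c + 1) = S ⟨c + 1, k1⟩ := by rw [cn, dif_pos k1]
    have e2 : cn S d = S ⟨d, k2⟩ := by rw [cn, dif_pos k2]
    have e3 : cn S (d + 1) = S ⟨d + 1, k3⟩ := by rw [cn, dif_pos k3]
    have e4 : cn S (d + 2) = S ⟨d + 2, k4⟩ := by rw [cn, dif_pos k4]
    rw [e1, e2, e3, e4]
    split_ifs <;> simp_all
  · rw [if_neg h]
    unfold Ex
    rw [Finset.sum_eq_zero, zero_div]
    intro S _
    rw [if_neg]
    rintro ⟨h1, h2, h3, h4⟩
    have h5 : c = d ∨ c + 1 = d ∨ c = d + 1 := by omega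
    rcases h5 with h5 | h5 | h5
    · rw [h5, h3] at h1; exact absurd h1 (by simp)
    · rw [h5, h2] at h1; exact absurd h1 (by simp)
    · rw [h5] at h1
      rw [show d + 1 + 1 = d + 2 from rfl, h4] at h1
      exact absurd h1 (by simp)

theorem decouple_far (L : ℕ) (a : Fin m → Fin m → ℂ) (z : Fin m → ℂ) :
    ‖Qf (far L a) z‖ ≤ 16 * Ex (fun S : Fin (m + 3) → Bool => ‖Qf (rc L a S) z‖) := by
  have hc : (0 : ℝ) < Fintype.card (Fin (m + 3) → Bool) := by exact_mod_cast Fintype.card_pos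
  have h1 : ∑ S : Fin (m + 3) → Bool, Qf (rc L a S) z
      = ((Fintype.card (Fin (m + 3) → Bool) / 16 : ℝ) : ℂ) * Qf (far L a) z := by
    unfold Qf
    rw [Finset.sum_comm, Finset.mul_sum]
    refine Finset.sum_congr rfl fun i _ => ?_
    rw [Finset.sum_comm, Finset.mul_sum]
    refine Finset.sum_congr rfl fun j _ => ?_
    have h2 := Ex_rc_weight L i j
    have h3 : ∑ S : Fin (m + 3) → Bool, rc L a S i j * (z i * (starRingEnd ℂ) (z j))
        = ((∑ S : Fin (m + 3) → Bool, (if cn S ((i : ℕ) / L + 1) = true ∧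
      (cn S ((j : ℕ) / L) = false ∧ cn S ((j : ℕ) / L + 1) = false ∧
      cn S ((j : ℕ) / L + 2) = false) then (1 : ℝ) else 0) : ℝ) : ℂ)
          * (a i j * (z i * (starRingEnd ℂ) (z j))) := by
      rw [Complex.ofReal_sum, Finset.sum_mul]
      refine Finset.sum_congr rfl fun S _ => ?_
      unfold rc
      split_ifs
      · rw [Complex.ofReal_one, one_mul]
      · rw [Complex.ofReal_zero, zero_mul, zero_mul]
    have h4 : ∑ S : Fin (m + 3) → Bool, (if cn S ((i : ℕ) / L + 1) = true ∧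
      (cn S ((j : ℕ) / L) = false ∧ cn S ((j : ℕ) / L + 1) = false ∧
      cn S ((j : ℕ) / L + 2) = false) then (1 : ℝ) else 0)
      = (Fintype.card (Fin (m + 3) → Bool) : ℝ) *
        (if (i : ℕ) / L + 1 < (j : ℕ) / L ∨ (j : ℕ) / L + 1 < (i : ℕ) / L then 1 / 16 else 0) := by
      rw [← h2]
      unfold Ex
      field_simp
    rw [h3, h4]
    unfold far
    split_ifs
    · push_cast
      ring
    · push_cast
      ring
  have h5 : Qf (far L a) z = ((16 / Fintype.card (Fin (m + 3) → Bool) : ℝ) : ℂ)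
      * ∑ S : Fin (m + 3) → Bool, Qf (rc L a S) z := by
    rw [h1, ← mul_assoc, ← Complex.ofReal_mul]
    have : (16 / Fintype.card (Fin (m + 3) → Bool) : ℝ) * (Fintype.card (Fin (m + 3) → Bool) / 16) = 1 := by
      field_simp
    rw [this, Complex.ofReal_one, one_mul]
  rw [h5, norm_mul, Complex.norm_real, Real.norm_eq_abs, abs_of_pos (by positivity)]
  unfold Ex
  calc 16 / (Fintype.card (Fin (m + 3) → Bool) : ℝ) * ‖∑ S : Fin (m + 3) → Bool, Qf (rc L a S) z‖
      ≤ 16 / (Fintype.card (Fin (m + 3) → Bool) : ℝ) * ∑ S : Fin (m + 3) → Bool, ‖Qf (rc L a S) z‖ := by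
        gcongr
        exact norm_sum_le _ _
    _ = _ := by ring

theorem nn_rc_le {a : Fin m → Fin m → ℂ} {B : ℝ}
    (hA : ∀ z : Fin m → ℂ, (∀ i, ‖z i‖ = 1) → ‖Qf a z‖ ≤ B) (L : ℕ) (S : Fin (m + 3) → Bool)
    (c : ℂ) (hc : ‖c‖ = 1) : nn (fun i j => (c * rc L a S i j).re) ≤ B := by
  set T : Fin m → Bool := fun i => cn S ((i : ℕ) / L + 1) with hT
  refine le_trans (le_of_eq ?_) ((nn_restrict (fun i j => (c * res a T i j).re) (fun _ => True)
    (fun j => cn S ((j : ℕ) / L) = false ∧ cn S ((j : ℕ) / L + 1) = false ∧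
    cn S ((j : ℕ) / L + 2) = false)).trans (nn_part_le hA T c hc))
  congr 1
  funext i j
  unfold rc res
  simp only [hT, true_and]
  by_cases h1 : cn S ((i : ℕ) / L + 1) = true
  · by_cases h2 : cn S ((j : ℕ) / L) = false ∧ cn S ((j : ℕ) / L + 1) = false ∧
      cn S ((j : ℕ) / L + 2) = false
    · rw [if_pos ⟨h1, h2⟩, if_pos h2, if_pos ⟨h1, h2.2.1⟩]
    · rw [if_neg (fun h => h2 h.2), if_neg h2]; simp
  · simp [h1]

/-! ### Diagonals -/

theorem Ex_sg_mul {n : ℕ} (p q : Fin n) :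
    Ex (fun S : Fin n → Bool => sg (S p) * sg (S q)) = if p = q then 1 else 0 := by
  by_cases h : p = q
  · subst h
    rw [if_pos rfl]
    simp_rw [sg_sq]
    exact Ex_const _
  · rw [if_neg h]
    have h1 : Ex (fun S : Fin n → Bool => sg (S p) * sg (S q))
        = Ex (fun S : Fin n → Bool => -(sg (S p) * sg (S q))) := by
      conv_lhs => rw [← Ex_equiv (flp p) (fun S : Fin n → Bool => sg (S p) * sg (S q))]
      congr 1
      funext S
      rw [flp_ne (Ne.symm h)]
      have h2 : (flp p S) p = ! S p := by simp [flp]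
      rw [h2]
      cases S p <;> cases S q <;> simp [sg]
    have h3 : Ex (fun S : Fin n → Bool => -(sg (S p) * sg (S q)))
        = - Ex (fun S : Fin n → Bool => sg (S p) * sg (S q)) := by
      unfold Ex
      rw [Finset.sum_neg_distrib, neg_div]
    linarith

/-- Sums over a matching. -/
theorem matching {a : Fin m → Fin m → ℂ} {B : ℝ}
    (hA : ∀ z : Fin m → ℂ, (∀ i, ‖z i‖ = 1) → ‖Qf a z‖ ≤ B) (S : Fin m → Bool) (d : ℕ) :
    ∑ i : Fin m, ∑ j : Fin m, (if (S i = true ∧ S j = false) ∧ (j : ℕ) = i + d then ‖a i j‖ else 0)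
      ≤ B := by
  -- labels
  set τ : Fin m → Fin (m + d) := fun i => if S i then ⟨i + d, by omega⟩ else ⟨i, by omega⟩ with hτ
  have hτij : ∀ i j, S i = true → S j = false → (τ i = τ j ↔ (j : ℕ) = i + d) := by
    intro i j hi hj
    simp only [hτ, hi, hj, if_true, Bool.false_eq_true, if_false, Fin.mk.injEq]
    exact ⟨fun h => h.symm, fun h => h.symm⟩
  -- the phases
  set z : Fin m → ℂ := fun j => if S j then 1 else
    if h : d ≤ (j : ℕ) then (if a ⟨(j : ℕ) - d, by omega⟩ j = 0 then 1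
      else a ⟨(j : ℕ) - d, by omega⟩ j / ‖a ⟨(j : ℕ) - d, by omega⟩ j‖) else 1 with hz
  have hz1 : ∀ j, ‖z j‖ = 1 := by
    intro j
    simp only [hz]
    split_ifs with h1 h2 h3
    · exact norm_one
    · exact norm_one
    · rw [norm_div, Complex.norm_real, norm_norm]
      exact div_self (norm_ne_zero_iff.2 h3)
    · exact norm_one
  have hval : ∀ i j, S i = true → S j = false → (j : ℕ) = i + d →
      a i j * (z i * (starRingEnd ℂ) (z j)) = ‖a i j‖ := by
    intro i j hi hj hij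
    have h1 : z i = 1 := by simp only [hz, hi, if_true]
    have h2 : d ≤ (j : ℕ) := by omega
    have h3 : (⟨(j : ℕ) - d, by omega⟩ : Fin m) = i := Fin.ext (by simp only; omega)
    by_cases h0 : a i j = 0
    · rw [h0, zero_mul, norm_zero, Complex.ofReal_zero]
    · have h4 : z j = a i j / ‖a i j‖ := by
        simp only [hz, hj, Bool.false_eq_true, if_false, dif_pos h2, h3, if_neg h0]
      have hn : ((‖a i j‖ : ℝ) : ℂ) ≠ 0 := by exact_mod_cast norm_ne_zero_iff.2 h0
      rw [h1, one_mul, h4, map_div₀, Complex.conj_ofReal, mul_div_assoc', Complex.mul_conj,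
        Complex.normSq_eq_norm_sq]
      push_cast
      field_simp
  -- the average
  have hc : (0 : ℝ) < Fintype.card (Fin (m + d) → Bool) := by exact_mod_cast Fintype.card_pos
  have h1 : ∑ ε : Fin (m + d) → Bool, Qf (res a S) (fun i => ((sg (ε (τ i)) : ℝ) : ℂ) * z i)
      = (((Fintype.card (Fin (m + d) → Bool) : ℝ) * ∑ i : Fin m, ∑ j : Fin m,
        (if (S i = true ∧ S j = false) ∧ (j : ℕ) = i + d then ‖a i j‖ else 0) : ℝ) : ℂ) := by
    unfold Qf
    rw [Finset.sum_comm, Finset.mul_sum, Complex.ofReal_sum]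
    refine Finset.sum_congr rfl fun i _ => ?_
    rw [Finset.sum_comm, Finset.mul_sum, Complex.ofReal_sum]
    refine Finset.sum_congr rfl fun j _ => ?_
    by_cases hS : S i = true ∧ S j = false
    · have e1 : ∀ ε : Fin (m + d) → Bool, res a S i j * (((sg (ε (τ i)) : ℝ) : ℂ) * z i
          * (starRingEnd ℂ) (((sg (ε (τ j)) : ℝ) : ℂ) * z j))
          = ((sg (ε (τ i)) * sg (ε (τ j)) : ℝ) : ℂ) * (a i j * (z i * (starRingEnd ℂ) (z j))) := by
        intro ε
        rw [res, if_pos hS, map_mul, Complex.conj_ofReal]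
        push_cast
        ring
      simp_rw [e1]
      rw [← Finset.sum_mul, ← Complex.ofReal_sum]
      have e2 : ∑ ε : Fin (m + d) → Bool, sg (ε (τ i)) * sg (ε (τ j))
          = (Fintype.card (Fin (m + d) → Bool) : ℝ) * (if τ i = τ j then 1 else 0) := by
        rw [← Ex_sg_mul (τ i) (τ j)]
        unfold Ex
        field_simp
      rw [e2]
      by_cases hij : (j : ℕ) = i + d
      · rw [if_pos ((hτij i j hS.1 hS.2).2 hij), if_pos ⟨hS, hij⟩, hval i j hS.1 hS.2 hij]
        push_cast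
        ring
      · rw [if_neg (fun h => hij ((hτij i j hS.1 hS.2).1 h)), if_neg (fun h => hij h.2)]
        simp
    · have e1 : ∀ ε : Fin (m + d) → Bool, res a S i j * (((sg (ε (τ i)) : ℝ) : ℂ) * z i
          * (starRingEnd ℂ) (((sg (ε (τ j)) : ℝ) : ℂ) * z j)) = 0 := by
        intro ε
        rw [res, if_neg hS, zero_mul]
      simp_rw [e1]
      rw [if_neg (fun h => hS h.1)]
      simp
  have h2 : ‖∑ ε : Fin (m + d) → Bool, Qf (res a S) (fun i => ((sg (ε (τ i)) : ℝ) : ℂ) * z i)‖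
      ≤ Fintype.card (Fin (m + d) → Bool) * B := by
    refine (norm_sum_le _ _).trans ?_
    rw [← nsmul_eq_mul, ← Finset.card_univ, ← Finset.sum_const]
    refine Finset.sum_le_sum fun ε _ => extraction hA S _ fun i => ?_
    rw [norm_mul, Complex.norm_real, Real.norm_eq_abs, abs_sg, hz1, one_mul]
  have h3 : 0 ≤ ∑ i : Fin m, ∑ j : Fin m,
      (if (S i = true ∧ S j = false) ∧ (j : ℕ) = i + d then ‖a i j‖ else 0) :=
    Finset.sum_nonneg fun i _ => Finset.sum_nonneg fun j _ => by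
      split_ifs
      · exact norm_nonneg _
      · exact le_rfl
  rw [h1, Complex.norm_real, Real.norm_eq_abs, abs_of_nonneg (mul_nonneg hc.le h3)] at h2
  exact le_of_mul_le_mul_left h2 hc

/-- Sums over a diagonal. -/
theorem diagonal_le {a : Fin m → Fin m → ℂ} {B : ℝ}
    (hA : ∀ z : Fin m → ℂ, (∀ i, ‖z i‖ = 1) → ‖Qf a z‖ ≤ B) {d : ℕ} (hd : 0 < d) :
    ∑ i : Fin m, ∑ j : Fin m, (if (j : ℕ) = i + d then ‖a i j‖ else 0) ≤ 2 * B := by
  set S : Fin m → Bool := fun i => decide ((i : ℕ) / d % 2 = 0) with hS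
  have h1 := matching hA S d
  have h2 := matching hA (fun i => ! S i) d
  have h3 : ∑ i : Fin m, ∑ j : Fin m, (if (j : ℕ) = i + d then ‖a i j‖ else 0)
      = (∑ i : Fin m, ∑ j : Fin m, (if (S i = true ∧ S j = false) ∧ (j : ℕ) = i + d then ‖a i j‖ else 0))
      + ∑ i : Fin m, ∑ j : Fin m,
        (if ((! S i) = true ∧ (! S j) = false) ∧ (j : ℕ) = i + d then ‖a i j‖ else 0) := by
    rw [← Finset.sum_add_distrib]
    refine Finset.sum_congr rfl fun i _ => ?_
    rw [← Finset.sum_add_distrib]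
    refine Finset.sum_congr rfl fun j _ => ?_
    by_cases hij : (j : ℕ) = i + d
    · have e1 : (j : ℕ) / d = (i : ℕ) / d + 1 := by
        rw [hij, Nat.add_div_right _ hd]
      have e2 : S j = ! S i := by
        simp only [hS, e1]
        rcases Nat.mod_two_eq_zero_or_one ((i : ℕ) / d) with h | h
        · have : ((i : ℕ) / d + 1) % 2 = 1 := by omega
          simp [h, this]
        · have : ((i : ℕ) / d + 1) % 2 = 0 := by omega
          simp [h, this]
      rw [if_pos hij, e2]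
      cases S i <;> simp [hij]
    · rw [if_neg hij, if_neg (fun h => hij h.2), if_neg (fun h => hij h.2), add_zero]
  rw [h3]
  linarith

end LacForm

section LacPoint

open Finset

/-- The digit in `Fin Q` with a given residue. -/
def dg (Q : ℕ) (hQ : 0 < Q) (x : ℤ) : Fin Q := ⟨(x % Q).toNat, by
  have h1 : 0 ≤ x % (Q : ℤ) := Int.emod_nonneg _ (by omega)
  have h2 : x % (Q : ℤ) < Q := Int.emod_lt_of_pos _ (by omega)
  omega⟩

theorem dg_eq {Q : ℕ} (hQ : 0 < Q) {a b : Fin Q} {x : ℤ}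
    (h : dg Q hQ (((a : ℕ) : ℤ) + x) = dg Q hQ (((b : ℕ) : ℤ) + x)) : a = b := by
  have h0 := congrArg Fin.val h
  simp only [dg] at h0
  have h1 : 0 ≤ (((a : ℕ) : ℤ) + x) % (Q : ℤ) := Int.emod_nonneg _ (by omega)
  have h2 : 0 ≤ (((b : ℕ) : ℤ) + x) % (Q : ℤ) := Int.emod_nonneg _ (by omega)
  have h3 : (((a : ℕ) : ℤ) + x) % (Q : ℤ) = (((b : ℕ) : ℤ) + x) % (Q : ℤ) := by omega
  have h4 : ((a : ℕ) : ℤ) % (Q : ℤ) = ((b : ℕ) : ℤ) % (Q : ℤ) := by
    have := Int.ModEq.add_right_cancel' x h3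
    exact this
  have ha := a.2
  have hb := b.2
  rw [Int.emod_eq_of_lt (by omega) (by omega), Int.emod_eq_of_lt (by omega) (by omega)] at h4
  exact Fin.ext (by omega)

/-- Independence of the points which belong to indices far from each other. -/
theorem Ex_theta {M Q : ℕ} (hQ : 0 < Q) (L : ℕ) (H : Fin M → (Fin M → Fin Q) → ℤ)
    (hH : ∀ i v w, (∀ j : Fin M, j ≠ i → (j : ℕ) < i + L → v j = w j) → H i v = H i w)
    (I : Fin M → Prop) [DecidablePred I]
    (hI : ∀ i j, I i → I j → (i : ℕ) < j → (i : ℕ) + L ≤ j) (G : (Fin M → Fin Q) → ℝ)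
    (hG : ∀ v w, (∀ i, I i → v i = w i) → G v = G w) :
    Ex (fun v => G fun i => dg Q hQ (((v i : ℕ) : ℤ) + H i v)) = Ex G := by
  set e : (Fin M → Fin Q) → (Fin M → Fin Q) := fun v i =>
    if I i then dg Q hQ (((v i : ℕ) : ℤ) + H i v) else v i with he
  have hinj : Function.Injective e := by
    intro v w hvw
    have key : ∀ n : ℕ, ∀ i : Fin M, (i : ℕ) = n → v i = w i := by
      intro n
      induction n using Nat.strong_induction_on with
      | _ n ih =>
        intro i hi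
        have h1 := congrFun hvw i
        simp only [he] at h1
        by_cases hIi : I i
        · rw [if_pos hIi, if_pos hIi] at h1
          have h2 : H i v = H i w := by
            refine hH i v w fun j hj hjL => ?_
            rcases Nat.lt_or_ge (j : ℕ) i with hlt | hge
            · exact ih j (by omega) j rfl
            · have hne : (j : ℕ) ≠ i := fun h => hj (Fin.ext h)
              have hlt : (i : ℕ) < j := by omega
              have hnI : ¬ I j := fun hIj => by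
                have := hI i j hIi hIj hlt
                omega
              have h3 := congrFun hvw j
              simp only [he] at h3
              rw [if_neg hnI, if_neg hnI] at h3
              exact h3
          rw [h2] at h1
          exact dg_eq hQ h1
        · rw [if_neg hIi, if_neg hIi] at h1
          exact h1
    funext i
    exact key i i rfl
  have hbij : Function.Bijective e := Finite.injective_iff_bijective.1 hinj
  rw [← Ex_equiv (Equiv.ofBijective e hbij) G]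
  congr 1
  funext v
  refine hG _ _ fun i hi => ?_
  rw [Equiv.ofBijective_apply, he]
  simp only [if_pos hi]

end LacPoint

section LacHigh

open Finset

variable {m : ℕ}

theorem nn_zero : nn (fun _ _ : Fin m => (0 : ℝ)) = 0 := by
  refine le_antisymm (nn_le fun x => ?_) (nn_nonneg _)
  simp

theorem nn_sum {ι : Type*} (s : Finset ι) (b : ι → Fin m → Fin m → ℝ) :
    nn (fun i j => ∑ k ∈ s, b k i j) ≤ ∑ k ∈ s, nn (b k) := by
  classical
  induction s using Finset.induction_on with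
  | empty => simp only [Finset.sum_empty]; rw [nn_zero]
  | insert k s hk ih =>
    rw [Finset.sum_insert hk]
    have h1 : (fun i j => ∑ k ∈ insert k s, b k i j) = fun i j => b k i j + ∑ k ∈ s, b k i j := by
      funext i j
      rw [Finset.sum_insert hk]
    rw [h1]
    exact (nn_add _ _).trans (add_le_add le_rfl ih)

/-- Comparison of two multipliers. -/
theorem nn_compare (b : Fin m → Fin m → ℝ) {u v : Fin m → ℝ} {r η : ℝ} (hr : 0 ≤ r) (hη : 0 ≤ η)
    (hu : ∀ i, |u i| ≤ r) (hv : ∀ i, |v i| ≤ r) (huv : ∀ i, |u i - v i| ≤ η) :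
    nn (fun i j => u i * b i j * u j) ≤ nn (fun i j => v i * b i j * v j) + 2 * r * η * nn b := by
  have h1 := nn_mul_le b (u := u) (v := fun i => u i - v i) hr hη hu huv
  have h2 := nn_mul_le b (u := fun i => u i - v i) (v := v) hη hr huv hv
  have h3 : (fun i j => u i * b i j * u j) = fun i j => v i * b i j * v j
      + (u i * b i j * (u j - v j) + (u i - v i) * b i j * v j) := by
    funext i j
    ring
  rw [h3]
  refine (nn_add _ _).trans ?_
  have h4 := nn_add (fun i j => u i * b i j * (u j - v j)) (fun i j => (u i - v i) * b i j * v j)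
  nlinarith

/-- Restriction to residue classes. -/
def rcc (L : ℕ) (a : Fin m → Fin m → ℂ) (S : Fin (m + 3) → Bool) (c c' : ℕ) (i j : Fin m) : ℂ :=
  if (i : ℕ) % L = c ∧ (j : ℕ) % L = c' then rc L a S i j else 0

theorem sum_rcc {L : ℕ} (hL : 0 < L) (a : Fin m → Fin m → ℂ) (S : Fin (m + 3) → Bool) (i j : Fin m) :
    ∑ c ∈ range L, ∑ c' ∈ range L, rcc L a S c c' i j = rc L a S i j := by
  rw [Finset.sum_eq_single ((i : ℕ) % L), Finset.sum_eq_single ((j : ℕ) % L)]
  · rw [rcc, if_pos ⟨rfl, rfl⟩]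
  · intro c _ hc
    rw [rcc, if_neg (fun h => hc h.2.symm)]
  · intro h
    exact absurd (Finset.mem_range.2 (Nat.mod_lt _ hL)) h
  · intro c _ hc
    refine Finset.sum_eq_zero fun c' _ => ?_
    rw [rcc, if_neg (fun h => hc h.1.symm)]
  · intro h
    exact absurd (Finset.mem_range.2 (Nat.mod_lt _ hL)) h

theorem rcc_ne {L : ℕ} {a : Fin m → Fin m → ℂ} {S : Fin (m + 3) → Bool} {c c' : ℕ} {i j : Fin m}
    (h : rcc L a S c c' i j ≠ 0) : ((i : ℕ) % L = c ∧ cn S ((i : ℕ) / L + 1) = true) ∧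
      ((j : ℕ) % L = c' ∧ cn S ((j : ℕ) / L) = false ∧ cn S ((j : ℕ) / L + 1) = false ∧
    cn S ((j : ℕ) / L + 2) = false) := by
  unfold rcc rc at h
  split_ifs at h with h1 h2
  · exact ⟨⟨h1.1, h2.1⟩, h1.2, h2.2⟩
  · exact absurd rfl h
  · exact absurd rfl h

theorem nn_rcc_le {a : Fin m → Fin m → ℂ} {B : ℝ}
    (hA : ∀ z : Fin m → ℂ, (∀ i, ‖z i‖ = 1) → ‖Qf a z‖ ≤ B) (L : ℕ) (S : Fin (m + 3) → Bool)
    (c c' : ℕ) (k : ℂ) (hk : ‖k‖ = 1) : nn (fun i j => (k * rcc L a S c c' i j).re) ≤ B := by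
  refine le_trans (le_of_eq ?_) ((nn_restrict (fun i j => (k * rc L a S i j).re)
    (fun i => (i : ℕ) % L = c) (fun j => (j : ℕ) % L = c')).trans (nn_rc_le hA L S k hk))
  congr 1
  funext i j
  unfold rcc
  split_ifs
  · rfl
  · simp

/-- The expectation for a pair of residue classes. -/
theorem Ex_rcc_le {M Q : ℕ} (hQ : 0 < Q) {L : ℕ} (hL : 0 < L) (H : Fin M → (Fin M → Fin Q) → ℤ)
    (hH : ∀ i v w, (∀ j : Fin M, j ≠ i → (j : ℕ) < i + L → v j = w j) → H i v = H i w)
    (d : Fin Q → ℝ) (hd0 : ∀ w, 0 ≤ d w) (hd1 : Ex d = 1) {V : ℝ}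
    (hV : Ex (fun w => d w ^ 2) ≤ V) (hV1 : 1 ≤ V) {a : Fin M → Fin M → ℂ} {B : ℝ}
    (hA : ∀ z : Fin M → ℂ, (∀ i, ‖z i‖ = 1) → ‖Qf a z‖ ≤ B) (hB : 0 ≤ B)
    (S : Fin (M + 3) → Bool) (c c' : ℕ) (k : ℂ) (hk : ‖k‖ = 1) :
    Ex (fun v : Fin M → Fin Q => nn (fun i j => d (dg Q hQ (((v i : ℕ) : ℤ) + H i v))
      * (k * rcc L a S c c' i j).re * d (dg Q hQ (((v j : ℕ) : ℤ) + H j v)))) ≤ 32 / 5 * √V * B := by
  have : Nonempty (Fin Q) := ⟨⟨0, hQ⟩⟩
  classical
  set I : Fin M → Prop := fun i => ((i : ℕ) % L = c ∧ cn S ((i : ℕ) / L + 1) = true) ∨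
      ((i : ℕ) % L = c' ∧ cn S ((i : ℕ) / L) = false ∧ cn S ((i : ℕ) / L + 1) = false ∧
    cn S ((i : ℕ) / L + 2) = false) with hI
  have hmod : ∀ i j : Fin M, (i : ℕ) % L = (j : ℕ) % L → (i : ℕ) < j → (i : ℕ) + L ≤ j := by
    intro i j hij hlt
    have h1 := Nat.div_add_mod (i : ℕ) L
    have h2 := Nat.div_add_mod (j : ℕ) L
    have h3 : (i : ℕ) / L < (j : ℕ) / L := by
      by_contra hcon
      have : (j : ℕ) / L ≤ (i : ℕ) / L := by omega
      have := Nat.mul_le_mul_left L this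
      omega
    have h4 : L * ((i : ℕ) / L + 1) ≤ L * ((j : ℕ) / L) := Nat.mul_le_mul_left L h3
    rw [Nat.mul_add, Nat.mul_one] at h4
    omega
  have hcell : ∀ p q : ℕ, p < q → cn S (p / L + 1) ≠ cn S (q / L) → cn S (p / L + 1) ≠ cn S (q / L + 1) →
      p / L ≤ q / L → p / L + 2 ≤ q / L := by
    intro p q _ h1 h2 h3
    by_contra hcon
    have h4 : p / L = q / L ∨ p / L + 1 = q / L := by omega
    rcases h4 with h4 | h4
    · rw [h4] at h2; exact h2 rfl
    · rw [h4] at h1; exact h1 rfl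
  have hfar : ∀ p q : ℕ, p / L + 2 ≤ q / L → p + L ≤ q := by
    intro p q h1
    have h2 := Nat.div_add_mod p L
    have h3 := Nat.div_add_mod q L
    have h4 := Nat.mod_lt p hL
    have h5 : L * (p / L + 2) ≤ L * (q / L) := Nat.mul_le_mul_left L h1
    have h6 : L * (p / L + 2) = L * (p / L) + 2 * L := by ring
    omega
  have hIs : ∀ i j, I i → I j → (i : ℕ) < j → (i : ℕ) + L ≤ j := by
    intro i j hi hj hlt
    have hdiv : (i : ℕ) / L ≤ (j : ℕ) / L := Nat.div_le_div_right hlt.le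
    rcases hi with hi | hi <;> rcases hj with hj | hj
    · exact hmod i j (hi.1.trans hj.1.symm) hlt
    · -- row, column
      refine hfar _ _ (hcell _ _ hlt ?_ ?_ hdiv)
      · rw [hi.2, hj.2.1]; decide
      · rw [hi.2, hj.2.2.1]; decide
    · -- column, row
      apply hfar
      by_contra hcon
      have h4 : (i : ℕ) / L = (j : ℕ) / L ∨ (i : ℕ) / L + 1 = (j : ℕ) / L := by omega
      rcases h4 with h4 | h4
      · have h5 := hj.2
        rw [← h4, hi.2.2.1] at h5
        exact absurd h5 (by decide)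
      · have h5 := hj.2
        rw [← h4] at h5
        have h6 := hi.2.2.2
        rw [show (i : ℕ) / L + 1 + 1 = (i : ℕ) / L + 2 from rfl, h6] at h5
        exact absurd h5 (by decide)
    · exact hmod i j (hi.1.trans hj.1.symm) hlt
  set G : (Fin M → Fin Q) → ℝ := fun ω => nn (fun i j => d (ω i)
      * (k * rcc L a S c c' i j).re * d (ω j)) with hG
  have hGdep : ∀ v w, (∀ i, I i → v i = w i) → G v = G w := by
    intro v w hvw
    simp only [hG]
    congr 1
    funext i j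
    by_cases h0 : rcc L a S c c' i j = 0
    · rw [h0]; simp
    · have h1 := rcc_ne h0
      rw [hvw i (Or.inl h1.1), hvw j (Or.inr h1.2)]
  have h1 := Ex_theta hQ L H hH I hIs G hGdep
  have h2 : Ex (fun v : Fin M → Fin Q => nn (fun i j => d (dg Q hQ (((v i : ℕ) : ℤ) + H i v))
      * (k * rcc L a S c c' i j).re * d (dg Q hQ (((v j : ℕ) : ℤ) + H j v)))) = Ex G := h1
  rw [h2]
  have h3 := rr_diag d hd0 hd1 hV (fun i j => (k * rcc L a S c c' i j).re)
    (fun i => cn S ((i : ℕ) / L + 1)) (fun i j h => by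
      by_cases h0 : rcc L a S c c' i j = 0
      · rw [h0]; simp
      · have h4 := rcc_ne h0
        exact absurd ⟨h4.1.2, h4.2.2.2.1⟩ h)
  refine h3.trans ?_
  have hs1 : 1 ≤ √V := by rw [← Real.sqrt_one]; exact Real.sqrt_le_sqrt hV1
  have h2V : √(2 * V) ≤ 3 / 2 * √V := by
    rw [Real.sqrt_mul (by norm_num)]
    have h2 : √2 ≤ 3 / 2 := by
      rw [Real.sqrt_le_left (by norm_num)]
      norm_num
    exact mul_le_mul_of_nonneg_right h2 (Real.sqrt_nonneg _)
  have h4 := nn_rcc_le hA L S c c' k hk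
  have h5 := nn_nonneg (fun i j => (k * rcc L a S c c' i j).re)
  calc (1 + 18 / 5 * √(2 * V)) * nn (fun i j => (k * rcc L a S c c' i j).re)
      ≤ (1 + 18 / 5 * √(2 * V)) * B := by gcongr
    _ ≤ (32 / 5 * √V) * B := by
      refine mul_le_mul_of_nonneg_right ?_ hB
      linarith
    _ = _ := by ring

end LacHigh

end Pool.Agent.Lib_helper23.TILF.DS
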