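import Pool.Agent.Lib_helper87.Tilf.NonAuto

/-!
Disjoint layers: continuous functions `u_s ≥ 0` on the circle with `∑ u_s ≤ 1`, each of which is
equal to `1` on a translate of every pair of boxes.
-/

noncomputable section

namespace Pool.Agent.Lib_helper23.TILF

open MeasureTheory AddCircle Topology Finset

/-- The points of a pair of boxes. -/
def pts {n R : ℕ} (a b : Fin n → UnitAddCircle) (m m' : Fin n → Fin R) : UnitAddCircle :=
  ∑ i, ((m i : ℕ)) • a i + ∑ i, ((m' i : ℕ)) • b i

/-- `W` contains a translate of every pair of boxes. -/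
def Univl (n R : ℕ) (W : Set UnitAddCircle) : Prop :=
  ∀ a b : Fin n → UnitAddCircle, ∃ x, ∀ m m' : Fin n → Fin R, x - pts a b m m' ∈ W

theorem continuous_pts {n R : ℕ} (m m' : Fin n → Fin R) :
    Continuous (fun p : (Fin n → UnitAddCircle) × (Fin n → UnitAddCircle) => pts p.1 p.2 m m') := by
  unfold pts
  fun_prop

/-- Compactness. -/
theorem univl_of_iUnion {n R : ℕ} (W : ℕ → Set UnitAddCircle) (hopen : ∀ k, IsOpen (W k))
    (hmono : Monotone W) (h : Univl n R (⋃ k, W k)) : ∃ k, Univl n R (W k) := by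
  set O : ℕ → Set ((Fin n → UnitAddCircle) × (Fin n → UnitAddCircle)) := fun k =>
    {p | ∃ x, ∀ m m' : Fin n → Fin R, x - pts p.1 p.2 m m' ∈ W k} with hO
  have hOopen : ∀ k, IsOpen (O k) := by
    intro k
    have h1 : O k = Prod.fst '' {q : ((Fin n → UnitAddCircle) × (Fin n → UnitAddCircle)) ×
        UnitAddCircle | ∀ m m' : Fin n → Fin R, q.2 - pts q.1.1 q.1.2 m m' ∈ W k} := by
      ext p
      constructor
      · rintro ⟨x, hx⟩
        exact ⟨(p, x), hx, rfl⟩
      · rintro ⟨⟨p', x⟩, hx, rfl⟩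
        exact ⟨x, hx⟩
    rw [h1]
    apply isOpenMap_fst
    have h2 : {q : ((Fin n → UnitAddCircle) × (Fin n → UnitAddCircle)) × UnitAddCircle |
        ∀ m m' : Fin n → Fin R, q.2 - pts q.1.1 q.1.2 m m' ∈ W k}
        = ⋂ m : Fin n → Fin R, ⋂ m' : Fin n → Fin R,
          {q : ((Fin n → UnitAddCircle) × (Fin n → UnitAddCircle)) × UnitAddCircle |
            q.2 - pts q.1.1 q.1.2 m m' ∈ W k} := by
      ext q; simp only [Set.mem_ofPred_eq, Set.mem_iInter]
    rw [h2]
    refine isOpen_iInter_of_finite (fun m => isOpen_iInter_of_finite (fun m' => ?_))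
    refine (hopen k).preimage ?_
    exact continuous_snd.sub ((continuous_pts m m').comp continuous_fst)
  have hcover : (Set.univ : Set ((Fin n → UnitAddCircle) × (Fin n → UnitAddCircle))) ⊆ ⋃ k, O k := by
    intro p _
    obtain ⟨x, hx⟩ := h p.1 p.2
    have hx' : ∀ q : (Fin n → Fin R) × (Fin n → Fin R), ∃ k, x - pts p.1 p.2 q.1 q.2 ∈ W k := by
      intro q
      exact Set.mem_iUnion.mp (hx q.1 q.2)
    choose κ hκ using hx'
    rw [Set.mem_iUnion]
    refine ⟨Finset.univ.sup κ, x, fun m m' => ?_⟩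
    exact hmono (Finset.le_sup (f := κ) (Finset.mem_univ (m, m'))) (hκ (m, m'))
  obtain ⟨k, hk⟩ := isCompact_univ.elim_directed_cover O hOopen hcover (by
    intro k l
    refine ⟨max k l, ?_, ?_⟩
    · rintro p ⟨x, hx⟩
      exact ⟨x, fun m m' => hmono (le_max_left k l) (hx m m')⟩
    · rintro p ⟨x, hx⟩
      exact ⟨x, fun m m' => hmono (le_max_right k l) (hx m m')⟩)
  exact ⟨k, fun a b => hk (Set.mem_univ (a, b))⟩

/-- A small closed set misses a translate of every pair of boxes. -/
theorem room {n R : ℕ} {C : Set UnitAddCircle} (hC : IsClosed C)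
    (hv : (Fintype.card ((Fin n → Fin R) × (Fin n → Fin R)) : ENNReal) * volume C < 1)
    (a b : Fin n → UnitAddCircle) :
    ∃ x, ∀ m m' : Fin n → Fin R, x - pts a b m m' ∉ C := by
  by_contra hcon
  push Not at hcon
  have h1 : (Set.univ : Set UnitAddCircle) ⊆
      ⋃ q : (Fin n → Fin R) × (Fin n → Fin R), (fun x => x + -pts a b q.1 q.2) ⁻¹' C := by
    intro x _
    obtain ⟨m, m', h⟩ := hcon x
    rw [Set.mem_iUnion]
    refine ⟨(m, m'), ?_⟩
    rw [Set.mem_preimage, ← sub_eq_add_neg]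
    exact h
  have h2 : (1 : ENNReal) ≤ (Fintype.card ((Fin n → Fin R) × (Fin n → Fin R)) : ENNReal) * volume C := by
    calc (1 : ENNReal) = volume (Set.univ : Set UnitAddCircle) := by
          rw [AddCircle.measure_univ]; simp
      _ ≤ volume (⋃ q : (Fin n → Fin R) × (Fin n → Fin R),
            (fun x => x + -pts a b q.1 q.2) ⁻¹' C) := measure_mono h1
      _ ≤ ∑ q : (Fin n → Fin R) × (Fin n → Fin R),
            volume ((fun x => x + -pts a b q.1 q.2) ⁻¹' C) := measure_iUnion_fintype_le _ _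
      _ = ∑ q : (Fin n → Fin R) × (Fin n → Fin R), volume C := by
          refine Finset.sum_congr rfl fun q _ => ?_
          rw [measure_preimage_add_right]
      _ = _ := by rw [Finset.sum_const, Finset.card_univ, nsmul_eq_mul]
  exact absurd (lt_of_le_of_lt h2 hv) (lt_irrefl _)

/-- One more layer. -/
theorem exists_layer {n R : ℕ} {C : Set UnitAddCircle} (hC : IsClosed C)
    (hv : (Fintype.card ((Fin n → Fin R) × (Fin n → Fin R)) : ENNReal) * volume C < 1)
    (hne : Cᶜ.Nonempty) {ε : ℝ} (hε : 0 < ε) :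
    ∃ (u : C(UnitAddCircle, ℝ)) (C' : Set UnitAddCircle), IsClosed C' ∧
      volume C' ≤ ENNReal.ofReal ε ∧ Disjoint C C' ∧ (∀ x, 0 ≤ u x) ∧ (∀ x, u x ≤ 1) ∧
      (∀ x, x ∉ C' → u x = 0) ∧ Univl n R {x | u x = 1} := by
  haveI : Nonempty (Cᶜ : Set UnitAddCircle) := hne.to_subtype
  set r : ℕ → (Cᶜ : Set UnitAddCircle) := TopologicalSpace.denseSeq _ with hr
  have hρ : ∀ j, ∃ ρ : ℝ, 0 < ρ ∧ 4 * ρ ≤ ε * (1 / 2) ^ (j + 1) ∧
      Disjoint C (Metric.closedBall (r j : UnitAddCircle) (2 * ρ)) := by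
    intro j
    have h1 : Cᶜ ∈ 𝓝 (r j : UnitAddCircle) := hC.isOpen_compl.mem_nhds (r j).2
    obtain ⟨δ, hδ, hball⟩ := Metric.nhds_basis_closedBall.mem_iff.1 h1
    have hp : (0 : ℝ) < ε * (1 / 2) ^ (j + 1) := by positivity
    refine ⟨min (δ / 2) (ε * (1 / 2) ^ (j + 1) / 4), lt_min (by positivity) (by positivity), ?_, ?_⟩
    · have := min_le_right (δ / 2) (ε * (1 / 2) ^ (j + 1) / 4)
      linarith
    · have h2 : Metric.closedBall (r j : UnitAddCircle) (2 * min (δ / 2) (ε * (1 / 2) ^ (j + 1) / 4)) ⊆ Cᶜ := by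
        refine (Metric.closedBall_subset_closedBall ?_).trans hball
        have := min_le_left (δ / 2) (ε * (1 / 2) ^ (j + 1) / 4)
        linarith
      exact Set.disjoint_left.2 fun x hx hx' => h2 hx' hx
  choose ρ hρ0 hρ1 hρ2 using hρ
  set V : ℕ → Set UnitAddCircle := fun j => Metric.ball (r j : UnitAddCircle) (ρ j) with hV
  set W : ℕ → Set UnitAddCircle := fun k => ⋃ j ∈ range k, V j with hW
  have hWopen : ∀ k, IsOpen (W k) := fun k => isOpen_biUnion (fun j _ => Metric.isOpen_ball)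
  have hWmono : Monotone W := by
    intro k l hkl
    refine Set.biUnion_subset_biUnion_left ?_
    intro j hj
    simp only [Finset.coe_range, Set.mem_Iio] at hj ⊢
    exact lt_of_lt_of_le hj hkl
  have hVW : ∀ j, V j ⊆ ⋃ k, W k := by
    intro j x hx
    rw [Set.mem_iUnion]
    refine ⟨j + 1, ?_⟩
    simp only [hW, Set.mem_iUnion]
    exact ⟨j, Finset.mem_range.mpr (Nat.lt_succ_self j), hx⟩
  have hWU : IsOpen (⋃ k, W k) := isOpen_iUnion hWopen
  -- density
  have hdense : Dense ((⋃ k, W k) ∪ interior C) := by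
    rw [dense_iff_inter_open]
    intro U hU hUne
    by_cases hUC : (U ∩ Cᶜ).Nonempty
    · obtain ⟨y, hyU, hyC⟩ := hUC
      have h1 : IsOpen ((Subtype.val : (Cᶜ : Set UnitAddCircle) → UnitAddCircle) ⁻¹' U) :=
        hU.preimage continuous_subtype_val
      obtain ⟨z, hz1, j, hz2⟩ := (TopologicalSpace.denseRange_denseSeq
        (Cᶜ : Set UnitAddCircle)).inter_open_nonempty _ h1 ⟨⟨y, hyC⟩, hyU⟩
      refine ⟨(r j : UnitAddCircle), ?_, Or.inl (hVW j (Metric.mem_ball_self (hρ0 j)))⟩
      have : r j = z := hz2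
      rw [this]
      exact hz1
    · obtain ⟨y, hy⟩ := hUne
      refine ⟨y, hy, Or.inr ?_⟩
      rw [mem_interior]
      refine ⟨U, fun z hz => ?_, hU, hy⟩
      by_contra hzC
      exact hUC ⟨z, hz, hzC⟩
  have huniv : Univl n R (⋃ k, W k) := by
    intro a b
    have hO : IsOpen {x : UnitAddCircle | ∀ m m' : Fin n → Fin R, x - pts a b m m' ∉ C} := by
      have h2 : {x : UnitAddCircle | ∀ m m' : Fin n → Fin R, x - pts a b m m' ∉ C}
          = ⋂ m : Fin n → Fin R, ⋂ m' : Fin n → Fin R, {x | x - pts a b m m' ∈ Cᶜ} := by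
        ext q; simp only [Set.mem_ofPred_eq, Set.mem_iInter, Set.mem_compl_iff]
      rw [h2]
      refine isOpen_iInter_of_finite (fun m => isOpen_iInter_of_finite (fun m' => ?_))
      exact hC.isOpen_compl.preimage (by fun_prop)
    obtain ⟨x₀, hx₀⟩ := room hC hv a b
    have hd : Dense (⋂ q : (Fin n → Fin R) × (Fin n → Fin R), {x : UnitAddCircle |
        x - pts a b q.1 q.2 ∈ (⋃ k, W k) ∪ interior C}) := by
      apply dense_iInter_of_isOpen
      · intro q
        exact (hWU.union isOpen_interior).preimage (by fun_prop)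
      · intro q
        exact hdense.preimage (Homeomorph.subRight (pts a b q.1 q.2)).isOpenMap
    obtain ⟨x, hxO, hx⟩ := hd.inter_open_nonempty _ hO ⟨x₀, hx₀⟩
    refine ⟨x, fun m m' => ?_⟩
    have h3 := Set.mem_iInter.1 hx (m, m')
    rcases h3 with h3 | h3
    · exact h3
    · exact absurd (interior_subset h3) (hxO m m')
  obtain ⟨k, hk⟩ := univl_of_iUnion W hWopen hWmono huniv
  -- the function
  set φ : ℕ → UnitAddCircle → ℝ := fun j x => max 0 (min 1 (2 - dist x (r j) / ρ j)) with hφ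
  have hφc : ∀ j, Continuous (φ j) := by
    intro j
    simp only [hφ]
    fun_prop
  have hφ0 : ∀ j x, 0 ≤ φ j x := fun j x => le_max_left _ _
  have hφ1 : ∀ j x, φ j x ≤ 1 := fun j x => max_le zero_le_one (min_le_left _ _)
  have hφV : ∀ j x, x ∈ V j → φ j x = 1 := by
    intro j x hx
    have h1 : dist x (r j) < ρ j := hx
    have h2 : dist x (r j) / ρ j < 1 := (div_lt_one (hρ0 j)).2 h1
    simp only [hφ]
    rw [min_eq_left (by linarith), max_eq_right zero_le_one]
  have hφB : ∀ j x, x ∉ Metric.closedBall (r j : UnitAddCircle) (2 * ρ j) → φ j x = 0 := by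
    intro j x hx
    rw [Metric.mem_closedBall, not_le] at hx
    have h2 : 2 < dist x (r j) / ρ j := by
      rw [lt_div_iff₀ (hρ0 j)]; exact hx
    simp only [hφ]
    apply max_eq_left
    exact (min_le_right _ _).trans (by linarith)
  have hprod0 : ∀ x, 0 ≤ ∏ j ∈ range k, (1 - φ j x) := fun x =>
    Finset.prod_nonneg fun j _ => by linarith [hφ1 j x]
  have hprod1 : ∀ x, ∏ j ∈ range k, (1 - φ j x) ≤ 1 := fun x =>
    Finset.prod_le_one (fun j _ => by linarith [hφ1 j x]) (fun j _ => by linarith [hφ0 j x])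
  refine ⟨⟨fun x => 1 - ∏ j ∈ range k, (1 - φ j x), ?_⟩,
    ⋃ j ∈ range k, Metric.closedBall (r j : UnitAddCircle) (2 * ρ j), ?_, ?_, ?_, ?_, ?_, ?_, ?_⟩
  · exact continuous_const.sub (continuous_finsetProd _ fun j _ => continuous_const.sub (hφc j))
  · exact isClosed_biUnion_finset fun j _ => Metric.isClosed_closedBall
  · refine (measure_biUnion_finset_le _ _).trans ?_
    have h1 : ∀ j ∈ range k, volume (Metric.closedBall (r j : UnitAddCircle) (2 * ρ j)) ≤
        ENNReal.ofReal (ε * (1 / 2) ^ (j + 1)) := by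
      intro j _
      rw [AddCircle.volume_closedBall]
      apply ENNReal.ofReal_le_ofReal
      refine (min_le_right _ _).trans ?_
      linarith [hρ1 j]
    refine (Finset.sum_le_sum h1).trans ?_
    rw [← ENNReal.ofReal_sum_of_nonneg (fun j _ => by positivity)]
    apply ENNReal.ofReal_le_ofReal
    rw [← Finset.mul_sum]
    have h2 : ∑ j ∈ range k, (1 / 2 : ℝ) ^ (j + 1) ≤ 1 := by
      have h3 : ∑ j ∈ range k, (1 / 2 : ℝ) ^ j ≤ ∑' j : ℕ, (1 / 2 : ℝ) ^ j :=
        Summable.sum_le_tsum _ (fun j _ => by positivity) summable_geometric_two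
      rw [tsum_geometric_two] at h3
      have h4 : ∑ j ∈ range k, (1 / 2 : ℝ) ^ (j + 1) = (1 / 2) * ∑ j ∈ range k, (1 / 2 : ℝ) ^ j := by
        rw [Finset.mul_sum]
        exact Finset.sum_congr rfl fun j _ => by ring
      rw [h4]
      linarith
    nlinarith
  · rw [Set.disjoint_iUnion₂_right]
    intro j _
    exact hρ2 j
  · intro x
    change 0 ≤ 1 - ∏ j ∈ range k, (1 - φ j x)
    linarith [hprod1 x]
  · intro x
    change 1 - ∏ j ∈ range k, (1 - φ j x) ≤ 1
    linarith [hprod0 x]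
  · intro x hx
    change 1 - ∏ j ∈ range k, (1 - φ j x) = 0
    have h1 : ∏ j ∈ range k, (1 - φ j x) = 1 := by
      apply Finset.prod_eq_one
      intro j hj
      rw [hφB j x, sub_zero]
      intro hxj
      apply hx
      simp only [Set.mem_iUnion]
      exact ⟨j, hj, hxj⟩
    rw [h1, sub_self]
  · intro a b
    obtain ⟨x, hx⟩ := hk a b
    refine ⟨x, fun m m' => ?_⟩
    have h1 := hx m m'
    simp only [hW, Set.mem_iUnion] at h1
    obtain ⟨j, hj, hxj⟩ := h1
    change 1 - ∏ j ∈ range k, (1 - φ j (x - pts a b m m')) = 1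
    have h2 : ∏ j ∈ range k, (1 - φ j (x - pts a b m m')) = 0 := by
      apply Finset.prod_eq_zero hj
      rw [hφV j _ hxj, sub_self]
    rw [h2, sub_zero]

/-- The layers. -/
theorem exists_layers_aux (n R : ℕ) (S : ℕ) : ∀ ε : ℝ, 0 < ε →
    ∃ (u : Fin S → C(UnitAddCircle, ℝ)) (C : Set UnitAddCircle), IsClosed C ∧
      volume C ≤ ENNReal.ofReal ε ∧ (∀ s x, 0 ≤ u s x) ∧ (∀ x, ∑ s, u s x ≤ 1) ∧
      (∀ s x, x ∉ C → u s x = 0) ∧ ∀ s, Univl n R {x | u s x = 1} := by
  induction S with
  | zero =>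
    intro ε hε
    exact ⟨fun s => s.elim0, ∅, isClosed_empty, by simp, fun s => s.elim0, fun x => by simp,
      fun s => s.elim0, fun s => s.elim0⟩
  | succ S ih =>
    intro ε hε
    set N : ℝ := (Fintype.card ((Fin n → Fin R) × (Fin n → Fin R)) : ℝ) with hN
    have hN0 : 0 ≤ N := Nat.cast_nonneg _
    have hε1 : 0 < min (ε / 2) (1 / (2 * (N + 1))) := lt_min (by positivity) (by positivity)
    obtain ⟨u, C, hC, hCv, hu0, hu1, huC, huU⟩ := ih _ hε1
    have hv : (Fintype.card ((Fin n → Fin R) × (Fin n → Fin R)) : ENNReal) * volume C < 1 := by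
      have h1 : volume C ≤ ENNReal.ofReal (1 / (2 * (N + 1))) :=
        hCv.trans (ENNReal.ofReal_le_ofReal (min_le_right _ _))
      have h2 : (Fintype.card ((Fin n → Fin R) × (Fin n → Fin R)) : ENNReal) = ENNReal.ofReal N := by
        rw [hN, ENNReal.ofReal_natCast]
      calc (Fintype.card ((Fin n → Fin R) × (Fin n → Fin R)) : ENNReal) * volume C
          ≤ ENNReal.ofReal N * ENNReal.ofReal (1 / (2 * (N + 1))) := by
            rw [h2]; gcongr
        _ = ENNReal.ofReal (N * (1 / (2 * (N + 1)))) := (ENNReal.ofReal_mul hN0).symm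
        _ < ENNReal.ofReal 1 := by
            rw [ENNReal.ofReal_lt_ofReal_iff one_pos]
            rw [mul_one_div, div_lt_one (by positivity)]
            linarith
        _ = 1 := ENNReal.ofReal_one
    have hne : Cᶜ.Nonempty := by
      by_contra hcon
      rw [Set.not_nonempty_iff_eq_empty, Set.compl_empty_iff] at hcon
      have h1 : volume C ≤ ENNReal.ofReal (1 / (2 * (N + 1))) :=
        hCv.trans (ENNReal.ofReal_le_ofReal (min_le_right _ _))
      rw [hcon, AddCircle.measure_univ, ENNReal.ofReal_le_ofReal_iff (by positivity)] at h1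
      rw [le_div_iff₀ (by positivity)] at h1
      linarith
    obtain ⟨u', C', hC', hCv', hdis, hu0', hu1', huC', huU'⟩ :=
      exists_layer hC hv hne (half_pos hε)
    refine ⟨Fin.snoc u u', C ∪ C', hC.union hC', ?_, ?_, ?_, ?_, ?_⟩
    · refine (measure_union_le _ _).trans ?_
      have h1 : volume C ≤ ENNReal.ofReal (ε / 2) :=
        hCv.trans (ENNReal.ofReal_le_ofReal (min_le_left _ _))
      refine (add_le_add h1 hCv').trans ?_
      rw [← ENNReal.ofReal_add (by positivity) (by positivity), add_halves]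
    · intro s x
      refine Fin.lastCases ?_ (fun s => ?_) s
      · rw [Fin.snoc_last]; exact hu0' x
      · rw [Fin.snoc_castSucc]; exact hu0 s x
    · intro x
      rw [Fin.sum_univ_castSucc]
      simp only [Fin.snoc_castSucc, Fin.snoc_last]
      by_cases hx : x ∈ C
      · rw [huC' x (fun h => Set.disjoint_left.1 hdis hx h), add_zero]
        exact hu1 x
      · rw [Finset.sum_eq_zero (fun s _ => huC s x hx), zero_add]
        exact hu1' x
    · intro s x hx
      rw [Set.mem_union, not_or] at hx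
      refine Fin.lastCases ?_ (fun s => ?_) s
      · rw [Fin.snoc_last]; exact huC' x hx.2
      · rw [Fin.snoc_castSucc]; exact huC s x hx.1
    · intro s
      refine Fin.lastCases ?_ (fun s => ?_) s
      · simp only [Fin.snoc_last]; exact huU'
      · simp only [Fin.snoc_castSucc]; exact huU s

/-- The layers. -/
theorem exists_layers (n R S : ℕ) :
    ∃ u : Fin S → C(UnitAddCircle, ℝ), (∀ s x, 0 ≤ u s x) ∧ (∀ x, ∑ s, u s x ≤ 1) ∧
      ∀ s, Univl n R {x | u s x = 1} := by
  obtain ⟨u, C, -, -, h0, h1, -, hU⟩ := exists_layers_aux n R S 1 one_pos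
  exact ⟨u, h0, h1, hU⟩

end Pool.Agent.Lib_helper23.TILF
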